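import Mathlib

/-!
# Rank and trace: a matrix of rank `R` against a contraction
-/

set_option autoImplicit false

open Finset

namespace Pool.Agent.LR2

variable {X Y : Type*} [Fintype X] [Fintype Y]

/-- A matrix of rank at most `R` has an orthonormal expansion with at most `R` terms. -/
theorem rank_onb (A : Matrix X Y ℝ) (R : ℕ) (hR : A.rank ≤ R) :
    ∃ (n : ℕ) (b : Fin n → X → ℝ), n ≤ R ∧ (∀ k, ∑ x, b k x ^ 2 = 1) ∧
      ∀ x y, A x y = ∑ k, (∑ x', b k x' * A x' y) * b k x := by
  classical
  let col : Y → EuclideanSpace ℝ X := fun y => WithLp.toLp 2 (fun x => A x y)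
  let U : Submodule ℝ (EuclideanSpace ℝ X) := Submodule.span ℝ (Set.range col)
  have hU : Module.finrank ℝ U ≤ R := by
    have h1 : Module.finrank ℝ U = A.rank := by
      rw [Matrix.rank_eq_finrank_span_cols]
      have h2 : (Submodule.span ℝ (Set.range A.col)).map
          (WithLp.linearEquiv 2 ℝ (X → ℝ)).symm.toLinearMap = U := by
        rw [Submodule.map_span, ← Set.range_comp]
        rfl
      rw [← h2]
      exact LinearEquiv.finrank_map_eq (WithLp.linearEquiv 2 ℝ (X → ℝ)).symm _
    rw [h1]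
    exact hR
  let b := stdOrthonormalBasis ℝ U
  refine ⟨Module.finrank ℝ U, fun k x => (b k : EuclideanSpace ℝ X) x, hU, ?_, ?_⟩
  · intro k
    have h1 := b.orthonormal.1 k
    have h2 : ‖(b k : EuclideanSpace ℝ X)‖ = 1 := h1
    rw [EuclideanSpace.norm_eq, Real.sqrt_eq_one] at h2
    simpa using h2
  · intro x y
    have hy : col y ∈ U := Submodule.subset_span ⟨y, rfl⟩
    have h1 := b.sum_repr' ⟨col y, hy⟩
    have h2 := congrArg (fun w : U => (w : EuclideanSpace ℝ X) x) h1
    simp only [Submodule.coe_sum, Submodule.coe_smul] at h2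
    have h3 : (col y) x = A x y := rfl
    rw [h3] at h2
    rw [← h2]
    rw [WithLp.ofLp_sum, Finset.sum_apply]
    apply Finset.sum_congr rfl
    intro k _
    have h4 : inner ℝ (b k) (⟨col y, hy⟩ : U) =
        ∑ x', (b k : EuclideanSpace ℝ X) x' * A x' y := by
      rw [Submodule.coe_inner, PiLp.inner_apply]
      apply Finset.sum_congr rfl
      intro x' _
      simp only [col, RCLike.inner_apply, conj_trivial]
      ring
    rw [h4]
    rfl

/-- A matrix of rank at most `R` against a kernel which is a contraction: the pairing is at most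
`sqrt R` times the Hilbert-Schmidt norm. -/
theorem rank_pairing (A : Matrix X Y ℝ) (R : ℕ) (hR : A.rank ≤ R) (T : Y → X → ℝ)
    (hT : ∀ v : X → ℝ, ∑ y, (∑ x, T y x * v x) ^ 2 ≤ ∑ x, v x ^ 2) :
    |∑ x, ∑ y, T y x * A x y| ≤ Real.sqrt R * Real.sqrt (∑ x, ∑ y, A x y ^ 2) := by
  classical
  obtain ⟨n, b, hn, hb, hexp⟩ := rank_onb A R hR
  set p : Fin n → Y → ℝ := fun k y => ∑ x', b k x' * A x' y with hp
  set w : Fin n → Y → ℝ := fun k y => ∑ x, T y x * b k x with hw
  have hexp' : ∀ x y, A x y = ∑ k, p k y * b k x := hexp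
  have e1 : ∑ x, ∑ y, T y x * A x y = ∑ k, ∑ y, p k y * w k y := by
    have h1 : ∀ x y, T y x * A x y = ∑ k, p k y * (T y x * b k x) := by
      intro x y
      rw [hexp' x y, Finset.mul_sum]
      apply Finset.sum_congr rfl
      intro k _
      ring
    simp only [h1]
    rw [Finset.sum_comm]
    have h2 : ∀ y, ∑ x, ∑ k, p k y * (T y x * b k x) = ∑ k, p k y * w k y := by
      intro y
      rw [Finset.sum_comm]
      apply Finset.sum_congr rfl
      intro k _
      rw [← Finset.mul_sum]
    simp only [h2]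
    rw [Finset.sum_comm]
  have e2 : ∑ x, ∑ y, A x y ^ 2 = ∑ k, ∑ y, p k y ^ 2 := by
    have h1 : ∀ x y, A x y ^ 2 = ∑ k, p k y * (b k x * A x y) := by
      intro x y
      calc A x y ^ 2 = A x y * A x y := by ring
        _ = (∑ k, p k y * b k x) * A x y := by rw [← hexp' x y]
        _ = _ := by
          rw [Finset.sum_mul]
          apply Finset.sum_congr rfl
          intro k _
          ring
    simp only [h1]
    rw [Finset.sum_comm]
    have h2 : ∀ y, ∑ x, ∑ k, p k y * (b k x * A x y) = ∑ k, p k y ^ 2 := by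
      intro y
      rw [Finset.sum_comm]
      apply Finset.sum_congr rfl
      intro k _
      rw [← Finset.mul_sum]
      simp only [hp]
      ring
    simp only [h2]
    rw [Finset.sum_comm]
  have e3 : ∑ k, ∑ y, w k y ^ 2 ≤ R := by
    calc ∑ k : Fin n, ∑ y, w k y ^ 2 ≤ ∑ k : Fin n, (1 : ℝ) := by
          apply Finset.sum_le_sum
          intro k _
          rw [← hb k]
          exact hT _
      _ = n := by simp
      _ ≤ R := by exact_mod_cast hn
  rw [e1, e2]
  have h3 := Finset.sum_mul_sq_le_sq_mul_sq (Finset.univ : Finset (Fin n × Y))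
    (fun i => p i.1 i.2) (fun i => w i.1 i.2)
  simp only [Fintype.sum_prod_type] at h3
  have h4 : (∑ k, ∑ y, p k y * w k y) ^ 2 ≤ (R : ℝ) * ∑ k, ∑ y, p k y ^ 2 := by
    calc _ ≤ _ := h3
      _ ≤ (∑ k, ∑ y, p k y ^ 2) * R := by
        apply mul_le_mul_of_nonneg_left e3
        positivity
      _ = _ := by ring
  rw [← Real.sqrt_mul (by positivity), ← Real.sqrt_sq_eq_abs]
  exact Real.sqrt_le_sqrt h4

end Pool.Agent.LR2
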