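import Pool.Agent.Lib_helper59.LR2.Cell

/-!
# Freezing of the cell means, and the master inequality for a bilinear form
-/

set_option autoImplicit false
set_option linter.unusedSectionVars false

open Finset

namespace Pool.Agent.LR2

section One

variable {X Y : Type} [Fintype X] [Fintype Y]

/-- absolutely continuous -/
def AC (p μ : X → ℝ) : Prop := ∀ x, μ x = 0 → p x = 0

theorem KL_term {p μ : X → ℝ} (hp : IsPr p) (hμ : IsPr μ) (hac : AC p μ) (x : X) :
    p x - μ x ≤ p x * Real.log (p x / μ x) := by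
  rcases eq_or_lt_of_le (hp.nonneg x) with h | h
  · rw [← h]
    have := hμ.nonneg x
    simp
    exact this
  · have hμ0 : 0 < μ x := by
      rcases eq_or_lt_of_le (hμ.nonneg x) with h1 | h1
      · have := hac x h1.symm
        linarith
      · exact h1
    have h2 := Real.log_le_sub_one_of_pos (div_pos hμ0 h)
    have h3 : Real.log (μ x / p x) = - Real.log (p x / μ x) := by
      rw [← Real.log_inv, inv_div]
    rw [h3] at h2
    have h4 := mul_le_mul_of_nonneg_left h2 h.le
    have h5 : p x * (μ x / p x - 1) = μ x - p x := by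
      field_simp
    rw [h5] at h4
    linarith

theorem KL_nonneg {p μ : X → ℝ} (hp : IsPr p) (hμ : IsPr μ) (hac : AC p μ) : 0 ≤ KL p μ := by
  have h1 : ∑ x, (p x - μ x) ≤ KL p μ :=
    Finset.sum_le_sum fun x _ => KL_term hp hμ hac x
  rw [Finset.sum_sub_distrib, hp.sum, hμ.sum, sub_self] at h1
  exact h1

open scoped Classical in
/-- restriction to a set -/
theorem KL_restrict {p μ : X → ℝ} (hp : IsPr p) (hμ : IsPr μ) (hac : AC p μ) (S : Finset X)
    (hS : 0 < ∑ x ∈ S, p x) :
    IsPr (fun x => (if x ∈ S then p x else 0) / ∑ x ∈ S, p x) ∧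
    AC (fun x => (if x ∈ S then p x else 0) / ∑ x ∈ S, p x) μ ∧
    (∑ x ∈ S, p x) * KL (fun x => (if x ∈ S then p x else 0) / ∑ x ∈ S, p x) μ ≤
      KL p μ + 2 := by
  set P := ∑ x ∈ S, p x with hP
  have hsum : ∑ x, (if x ∈ S then p x else 0) = P := by
    rw [Finset.sum_ite_mem, Finset.univ_inter]
  refine ⟨⟨?_, ?_⟩, ?_, ?_⟩
  · intro x
    apply div_nonneg _ hS.le
    split_ifs
    · exact hp.nonneg x
    · exact le_rfl
  · rw [← Finset.sum_div, hsum, div_self hS.ne']
  · intro x hx
    simp [hac x hx]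
  · have h1 : P * KL (fun x => (if x ∈ S then p x else 0) / P) μ =
        ∑ x ∈ S, p x * Real.log (p x / μ x) + P * Real.log (1 / P) := by
      unfold KL
      rw [Finset.mul_sum]
      have h2 : ∀ x, P * ((if x ∈ S then p x else 0) / P *
          Real.log ((if x ∈ S then p x else 0) / P / μ x)) =
          if x ∈ S then p x * Real.log (p x / μ x) + p x * Real.log (1 / P) else 0 := by
        intro x
        split_ifs with h
        · rcases eq_or_lt_of_le (hp.nonneg x) with h3 | h3
          · simp [← h3]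
          · have hμ0 : μ x ≠ 0 := fun h4 => h3.ne' (hac x h4)
            have h4 : p x / P / μ x = (p x / μ x) * (1 / P) := by ring
            rw [h4, Real.log_mul (div_ne_zero h3.ne' hμ0) (by positivity)]
            field_simp
        · simp
      simp only [h2]
      rw [Finset.sum_ite_mem, Finset.univ_inter, Finset.sum_add_distrib, ← Finset.sum_mul]
    have h2 : P * Real.log (1 / P) ≤ 1 := by
      have h3 := Real.log_le_sub_one_of_pos (by positivity : (0 : ℝ) < 1 / P)
      calc P * Real.log (1 / P) ≤ P * (1 / P - 1) := mul_le_mul_of_nonneg_left h3 hS.le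
        _ = 1 - P := by field_simp
        _ ≤ 1 := by linarith
    have h3 : ∑ x ∈ S, p x * Real.log (p x / μ x) ≤ KL p μ + 1 := by
      have h4 : KL p μ = ∑ x ∈ S, p x * Real.log (p x / μ x) +
          ∑ x ∈ Sᶜ, p x * Real.log (p x / μ x) := (Finset.sum_add_sum_compl S _).symm
      have h5 : ∑ x ∈ Sᶜ, (p x - μ x) ≤ ∑ x ∈ Sᶜ, p x * Real.log (p x / μ x) :=
        Finset.sum_le_sum fun x _ => KL_term hp hμ hac x
      have h6 : -1 ≤ ∑ x ∈ Sᶜ, (p x - μ x) := by
        rw [Finset.sum_sub_distrib]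
        have h7 : 0 ≤ ∑ x ∈ Sᶜ, p x := Finset.sum_nonneg fun x _ => hp.nonneg x
        have h8 : ∑ x ∈ Sᶜ, μ x ≤ 1 := by
          rw [← hμ.sum]
          exact Finset.sum_le_sum_of_subset_of_nonneg (Finset.subset_univ _)
            fun x _ _ => hμ.nonneg x
        linarith
      linarith
    rw [h1]
    linarith

/-- row means -/
noncomputable def rmean (q : Y → ℝ) (M : X → Y → ℝ) (x : X) : ℝ := ∑ y, q y * M x y

/-- column means -/
noncomputable def cmean (p : X → ℝ) (M : X → Y → ℝ) (y : Y) : ℝ := ∑ x, p x * M x y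

/-- the mean of `M` -/
noncomputable def em (p : X → ℝ) (q : Y → ℝ) (M : X → Y → ℝ) : ℝ := ∑ x, ∑ y, p x * q y * M x y

theorem em_row (p : X → ℝ) (q : Y → ℝ) (M : X → Y → ℝ) : em p q M = ∑ x, p x * rmean q M x := by
  unfold em rmean
  apply Finset.sum_congr rfl
  intro x _
  rw [Finset.mul_sum]
  apply Finset.sum_congr rfl
  intro y _
  ring

theorem em_col (p : X → ℝ) (q : Y → ℝ) (M : X → Y → ℝ) : em p q M = ∑ y, q y * cmean p M y := by
  unfold em cmean
  rw [Finset.sum_comm]
  apply Finset.sum_congr rfl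
  intro y _
  rw [Finset.mul_sum]
  apply Finset.sum_congr rfl
  intro x _
  ring

theorem em_swap (p : X → ℝ) (q : Y → ℝ) (M : X → Y → ℝ) :
    em q p (fun y x => M x y) = em p q M := by
  unfold em
  rw [Finset.sum_comm]
  apply Finset.sum_congr rfl
  intro x _
  apply Finset.sum_congr rfl
  intro y _
  ring

/-- the upper product regularity, affine form, relative to `μ`, `ν` -/
def UPR (μ : X → ℝ) (ν : Y → ℝ) (M : X → Y → ℝ) (U A B : ℝ) : Prop :=
  ∀ p q, IsPr p → IsPr q → AC p μ → AC q ν → em p q M ≤ U + A + B * (KL p μ + KL q ν)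

theorem UPR.swap {μ : X → ℝ} {ν : Y → ℝ} {M : X → Y → ℝ} {U A B : ℝ} (h : UPR μ ν M U A B) :
    UPR ν μ (fun y x => M x y) U A B := by
  intro p q hp hq hpa hqa
  rw [em_swap]
  have := h q p hq hp hqa hpa
  rwa [add_comm (KL p ν)]

/-- freezing: the positive part -/
theorem freeze_pos {μ : X → ℝ} {ν : Y → ℝ} (hμ : IsPr μ) (hν : IsPr ν) {M : X → Y → ℝ}
    {U A B : ℝ} (hA : 0 ≤ A) (hB : 0 ≤ B) (hU : UPR μ ν M U A B) {p : X → ℝ} {q : Y → ℝ}
    (hp : IsPr p) (hq : IsPr q) (hpa : AC p μ) (hqa : AC q ν) :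
    ∑ x, p x * max (rmean q M x - U) 0 ≤ A + B * (KL p μ + KL q ν + 2) := by
  classical
  have hKp := KL_nonneg hp hμ hpa
  have hKq := KL_nonneg hq hν hqa
  set S : Finset X := Finset.univ.filter (fun x => U < rmean q M x) with hS
  have h1 : ∑ x, p x * max (rmean q M x - U) 0 = ∑ x ∈ S, p x * (rmean q M x - U) := by
    rw [hS, Finset.sum_filter]
    apply Finset.sum_congr rfl
    intro x _
    split_ifs with h
    · rw [max_eq_left (by linarith)]
    · rw [max_eq_right (by linarith), mul_zero]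
  rw [h1]
  have hP0 : 0 ≤ ∑ x ∈ S, p x := Finset.sum_nonneg fun x _ => hp.nonneg x
  rcases eq_or_lt_of_le hP0 with h2 | h2
  · have h3 : ∀ x ∈ S, p x = 0 := by
      intro x hx
      exact (Finset.sum_eq_zero_iff_of_nonneg (fun x _ => hp.nonneg x)).mp h2.symm x hx
    have h4 : ∑ x ∈ S, p x * (rmean q M x - U) = 0 := by
      apply Finset.sum_eq_zero
      intro x hx
      rw [h3 x hx, zero_mul]
    rw [h4]
    positivity
  · obtain ⟨h3, h4, h5⟩ := KL_restrict hp hμ hpa S h2
    have h6 := hU _ q h3 hq h4 hqa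
    rw [em_row] at h6
    set P := ∑ x ∈ S, p x with hP
    have hP1 : P ≤ 1 := by
      rw [← hp.sum]
      exact Finset.sum_le_sum_of_subset_of_nonneg (Finset.subset_univ _) fun x _ _ => hp.nonneg x
    have h7 : P * ∑ x, (if x ∈ S then p x else 0) / P * rmean q M x =
        ∑ x ∈ S, p x * rmean q M x := by
      rw [Finset.mul_sum]
      have h8 : ∀ x, P * ((if x ∈ S then p x else 0) / P * rmean q M x) =
          if x ∈ S then p x * rmean q M x else 0 := by
        intro x
        split_ifs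
        · field_simp
        · simp
      simp only [h8]
      rw [Finset.sum_ite_mem, Finset.univ_inter]
    have h8 := mul_le_mul_of_nonneg_left h6 h2.le
    rw [h7] at h8
    have h9 : ∑ x ∈ S, p x * (rmean q M x - U) = ∑ x ∈ S, p x * rmean q M x - P * U := by
      simp only [mul_sub]
      rw [Finset.sum_sub_distrib, ← Finset.sum_mul]
    rw [h9]
    have h10 : P * A ≤ A := mul_le_of_le_one_left hA hP1
    have h11 : P * KL q ν ≤ KL q ν := mul_le_of_le_one_left hKq hP1
    have h12 : B * (P * KL (fun x => (if x ∈ S then p x else 0) / P) μ + P * KL q ν) ≤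
        B * (KL p μ + KL q ν + 2) := by
      apply mul_le_mul_of_nonneg_left _ hB
      linarith
    nlinarith [h8, h10, h12]

/-- freezing: the absolute deviation of the row means -/
theorem freeze_abs {μ : X → ℝ} {ν : Y → ℝ} (hμ : IsPr μ) (hν : IsPr ν) {M : X → Y → ℝ}
    {U A B : ℝ} (hA : 0 ≤ A) (hB : 0 ≤ B) (hU : UPR μ ν M U A B) {p : X → ℝ} {q : Y → ℝ}
    (hp : IsPr p) (hq : IsPr q) (hpa : AC p μ) (hqa : AC q ν) :
    ∑ x, p x * |rmean q M x - U| ≤ 2 * (A + B * (KL p μ + KL q ν + 2)) + (U - em p q M) := by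
  have h1 := freeze_pos hμ hν hA hB hU hp hq hpa hqa
  have h2 : ∑ x, p x * |rmean q M x - U| =
      2 * ∑ x, p x * max (rmean q M x - U) 0 + (U - em p q M) := by
    have h3 : U = ∑ x, p x * U := by rw [← Finset.sum_mul, hp.sum, one_mul]
    rw [em_row]
    calc ∑ x, p x * |rmean q M x - U| =
        ∑ x, (2 * (p x * max (rmean q M x - U) 0) + (p x * U - p x * rmean q M x)) := by
          apply Finset.sum_congr rfl
          intro x _
          rcases le_total 0 (rmean q M x - U) with h | h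
          · rw [abs_of_nonneg h, max_eq_left h]
            ring
          · rw [abs_of_nonpos h, max_eq_right h]
            ring
      _ = _ := by
          rw [Finset.sum_add_distrib, Finset.sum_sub_distrib, ← h3, Finset.mul_sum]
  rw [h2]
  linarith

/-- Jensen for the eighth power -/
theorem pow8_mean {p : X → ℝ} (hp : IsPr p) (f : X → ℝ) :
    (∑ x, p x * f x) ^ 8 ≤ ∑ x, p x * f x ^ 8 := by
  have h := (show ConvexOn ℝ Set.univ (fun t : ℝ => t ^ 8) from
    (Even.convexOn_pow (by decide : Even 8))).map_sum_le (t := Finset.univ) (w := p) (p := f)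
    (fun x _ => hp.nonneg x) hp.sum (fun x _ => Set.mem_univ _)
  simpa [smul_eq_mul] using h

theorem young8 {a b T : ℝ} (hT : 0 < T) (ha : |a| ≤ 2) :
    |a * b| ≤ T * |a| + 2 / T ^ 7 * b ^ 8 := by
  rw [abs_mul]
  have h8 : b ^ 8 = |b| ^ 8 := by
    rw [← abs_pow, abs_of_nonneg (by positivity)]
  rcases le_total |b| T with h | h
  · have h1 : |a| * |b| ≤ |a| * T := mul_le_mul_of_nonneg_left h (abs_nonneg a)
    have h2 : 0 ≤ 2 / T ^ 7 * b ^ 8 := by positivity
    linarith
  · have h1 : |a| * |b| ≤ 2 * |b| := mul_le_mul_of_nonneg_right ha (abs_nonneg b)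
    have h2 : |b| ≤ 1 / T ^ 7 * b ^ 8 := by
      rw [h8, show |b| ^ 8 = |b| ^ 7 * |b| by ring, ← mul_assoc]
      have h3 : 1 ≤ 1 / T ^ 7 * |b| ^ 7 := by
        rw [one_div, ← div_eq_inv_mul, one_le_div (by positivity)]
        exact pow_le_pow_left₀ hT.le h 7
      nlinarith [abs_nonneg b]
    have h3 : 0 ≤ T * |a| := mul_nonneg hT.le (abs_nonneg a)
    calc |a| * |b| ≤ 2 * |b| := h1
      _ ≤ 2 * (1 / T ^ 7 * b ^ 8) := by linarith
      _ ≤ _ := by
        have : 2 * (1 / T ^ 7 * b ^ 8) = 2 / T ^ 7 * b ^ 8 := by ring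
        linarith

end One

end Pool.Agent.LR2
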