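import Pool.Agent.Lib_helper59.LR2.Rank
import Pool.Agent.Lib_helper30.AA.Markov

/-!
# Bounded chaos (Lemma A): the diagonal first chaos of a bounded matrix of rank `R` on the cube
-/

set_option autoImplicit false

open Finset Polynomial

namespace Pool.Agent.LR2

/-- the sign of a bit -/
def sg (b : Bool) : ℝ := if b then 1 else -1

theorem sg_sq (b : Bool) : sg b * sg b = 1 := by cases b <;> simp [sg]

theorem sg_abs (b : Bool) : |sg b| = 1 := by cases b <;> simp [sg]

/-- the character of the set `S` -/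
def ch {m : ℕ} (S : Finset (Fin m)) (ξ : Fin m → Bool) : ℝ := ∏ i ∈ S, sg (ξ i)

theorem sum_cube_prod {m : ℕ} (g : Fin m → Bool → ℝ) :
    ∑ ξ : Fin m → Bool, ∏ i, g i (ξ i) = ∏ i, (g i true + g i false) := by
  have h := Finset.prod_univ_sum (fun _ : Fin m => (Finset.univ : Finset Bool)) g
  rw [Fintype.piFinset_univ] at h
  rw [← h]
  apply Finset.prod_congr rfl
  intro i _
  simp

theorem ch_orth {m : ℕ} (S T : Finset (Fin m)) :
    ∑ ξ : Fin m → Bool, ch S ξ * ch T ξ = if S = T then (2 : ℝ) ^ m else 0 := by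
  classical
  have h1 : ∀ ξ : Fin m → Bool, ch S ξ * ch T ξ =
      ∏ i, ((if i ∈ S then sg (ξ i) else 1) * (if i ∈ T then sg (ξ i) else 1)) := by
    intro ξ
    rw [Finset.prod_mul_distrib]
    unfold ch
    rw [Finset.prod_ite_mem, Finset.prod_ite_mem]
    simp
  simp only [h1]
  rw [sum_cube_prod (fun i b => (if i ∈ S then sg b else 1) * (if i ∈ T then sg b else 1))]
  split_ifs with h
  · subst h
    have h2 : ∀ i ∈ (Finset.univ : Finset (Fin m)), ((if i ∈ S then sg true else 1) *
        (if i ∈ S then sg true else 1) + (if i ∈ S then sg false else 1) *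
        (if i ∈ S then sg false else 1)) = (2 : ℝ) := by
      intro i _
      split_ifs
      · rw [sg_sq, sg_sq]; norm_num
      · norm_num
    rw [Finset.prod_congr rfl h2]
    simp
  · have h2 : ∃ i, ¬ (i ∈ S ↔ i ∈ T) := by
      by_contra hcon
      push Not at hcon
      exact h (Finset.ext hcon)
    obtain ⟨i, hi⟩ := h2
    apply Finset.prod_eq_zero (Finset.mem_univ i)
    by_cases hS : i ∈ S
    · have hT : i ∉ T := fun hT => hi ⟨fun _ => hT, fun _ => hS⟩
      simp [hS, hT, sg]
    · have hT : i ∈ T := by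
        by_contra hT
        exact hi ⟨fun h => absurd h hS, fun h => absurd h hT⟩
      simp [hS, hT, sg]

theorem ch_dual {m : ℕ} (ξ η : Fin m → Bool) :
    ∑ S : Finset (Fin m), ch S ξ * ch S η = if ξ = η then (2 : ℝ) ^ m else 0 := by
  classical
  have h1 : ∀ S : Finset (Fin m), ch S ξ * ch S η = ∏ i ∈ S, (sg (ξ i) * sg (η i)) := by
    intro S
    unfold ch
    rw [Finset.prod_mul_distrib]
  simp only [h1]
  have h2 := Finset.prod_one_add (s := (Finset.univ : Finset (Fin m)))
    (f := fun i => sg (ξ i) * sg (η i))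
  rw [Finset.powerset_univ] at h2
  rw [← h2]
  split_ifs with h
  · subst h
    simp only [sg_sq]
    norm_num
  · have h3 : ∃ i, ξ i ≠ η i := by
      by_contra hcon
      push Not at hcon
      exact h (funext hcon)
    obtain ⟨i, hi⟩ := h3
    apply Finset.prod_eq_zero (Finset.mem_univ i)
    cases h4 : ξ i <;> cases h5 : η i <;> simp [h4, h5, sg] at hi ⊢

/-- Fourier coefficient on the diagonal, not normalised -/
noncomputable def dg {m : ℕ} (H : (Fin m → Bool) → (Fin m → Bool) → ℝ) (S : Finset (Fin m)) : ℝ :=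
  ∑ ξ, ∑ η, H ξ η * (ch S ξ * ch S η)

/-- the diagonal Fourier coefficients are bounded by the trace norm -/
theorem sum_abs_dg {m : ℕ} (H : (Fin m → Bool) → (Fin m → Bool) → ℝ) (hH : ∀ ξ η, |H ξ η| ≤ 1)
    (R : ℕ) (hR : (Matrix.of H).rank ≤ R) :
    ∑ S, |dg H S| ≤ Real.sqrt R * 4 ^ m := by
  classical
  let ε : Finset (Fin m) → ℝ := fun S => if 0 ≤ dg H S then 1 else -1
  have hε : ∀ S, ε S * ε S = 1 := by
    intro S
    simp only [ε]
    split_ifs <;> norm_num
  have hεd : ∀ S, ε S * dg H S = |dg H S| := by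
    intro S
    simp only [ε]
    split_ifs with h
    · rw [abs_of_nonneg h, one_mul]
    · rw [abs_of_neg (not_le.mp h), neg_one_mul]
  have h2m : (0 : ℝ) < 2 ^ m := by positivity
  let T : (Fin m → Bool) → (Fin m → Bool) → ℝ := fun η ξ =>
    (1 / 2 ^ m) * ∑ S, ε S * (ch S ξ * ch S η)
  -- contraction
  have hT : ∀ v : (Fin m → Bool) → ℝ, ∑ η, (∑ ξ, T η ξ * v ξ) ^ 2 ≤ ∑ ξ, v ξ ^ 2 := by
    intro v
    let vh : Finset (Fin m) → ℝ := fun S => ∑ ξ, ch S ξ * v ξ
    have h1 : ∀ η, ∑ ξ, T η ξ * v ξ = (1 / 2 ^ m) * ∑ S, (ε S * vh S) * ch S η := by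
      intro η
      simp only [T, vh, Finset.mul_sum, Finset.sum_mul]
      rw [Finset.sum_comm]
      apply Finset.sum_congr rfl
      intro S _
      apply Finset.sum_congr rfl
      intro ξ _
      ring
    have h2 : ∑ η, (∑ S, (ε S * vh S) * ch S η) ^ 2 = 2 ^ m * ∑ S, vh S ^ 2 := by
      have h3 : ∀ η : Fin m → Bool, (∑ S, (ε S * vh S) * ch S η) ^ 2 =
          ∑ S, ∑ S', (ε S * vh S) * (ε S' * vh S') * (ch S η * ch S' η) := by
        intro η
        rw [sq, Finset.sum_mul_sum]
        apply Finset.sum_congr rfl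
        intro S _
        apply Finset.sum_congr rfl
        intro S' _
        ring
      simp only [h3]
      rw [Finset.sum_comm, Finset.mul_sum]
      apply Finset.sum_congr rfl
      intro S _
      rw [Finset.sum_comm]
      have h4 : ∀ S', ∑ η : Fin m → Bool, (ε S * vh S) * (ε S' * vh S') * (ch S η * ch S' η) =
          (ε S * vh S) * (ε S' * vh S') * (if S = S' then (2 : ℝ) ^ m else 0) := by
        intro S'
        rw [← Finset.mul_sum, ch_orth]
      simp only [h4]
      rw [Finset.sum_eq_single S]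
      · rw [if_pos rfl]
        have := hε S
        calc ε S * vh S * (ε S * vh S) * 2 ^ m = (ε S * ε S) * (2 ^ m * vh S ^ 2) := by ring
          _ = _ := by rw [this, one_mul]
      · intro S' _ hS'
        rw [if_neg (Ne.symm hS'), mul_zero]
      · intro h
        exact absurd (Finset.mem_univ S) h
    have h5 : ∑ S, vh S ^ 2 = 2 ^ m * ∑ ξ, v ξ ^ 2 := by
      have h3 : ∀ S : Finset (Fin m), vh S ^ 2 =
          ∑ ξ, ∑ ξ', v ξ * v ξ' * (ch S ξ * ch S ξ') := by
        intro S
        simp only [vh]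
        rw [sq, Finset.sum_mul_sum]
        apply Finset.sum_congr rfl
        intro ξ _
        apply Finset.sum_congr rfl
        intro ξ' _
        ring
      simp only [h3]
      rw [Finset.sum_comm, Finset.mul_sum]
      apply Finset.sum_congr rfl
      intro ξ _
      rw [Finset.sum_comm]
      have h4 : ∀ ξ', ∑ S : Finset (Fin m), v ξ * v ξ' * (ch S ξ * ch S ξ') =
          v ξ * v ξ' * (if ξ = ξ' then (2 : ℝ) ^ m else 0) := by
        intro ξ'
        rw [← Finset.mul_sum, ch_dual]
      simp only [h4]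
      rw [Finset.sum_eq_single ξ]
      · rw [if_pos rfl]
        ring
      · intro ξ' _ hξ'
        rw [if_neg (Ne.symm hξ'), mul_zero]
      · intro h
        exact absurd (Finset.mem_univ ξ) h
    have h6 : ∑ η, (∑ ξ, T η ξ * v ξ) ^ 2 = ∑ ξ, v ξ ^ 2 := by
      simp only [h1, mul_pow]
      rw [← Finset.mul_sum, h2, h5]
      field_simp
    rw [h6]
  have h7 := rank_pairing (Matrix.of H) R hR T hT
  have h8 : ∑ ξ, ∑ η, T η ξ * (Matrix.of H) ξ η = (1 / 2 ^ m) * ∑ S, |dg H S| := by
    have h9 : ∑ S, |dg H S| = ∑ ξ, ∑ η, ∑ S, ε S * (H ξ η * (ch S ξ * ch S η)) := by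
      have h9a : ∑ S, |dg H S| = ∑ S, ∑ ξ, ∑ η, ε S * (H ξ η * (ch S ξ * ch S η)) := by
        apply Finset.sum_congr rfl
        intro S _
        rw [← hεd S]
        unfold dg
        rw [Finset.mul_sum]
        apply Finset.sum_congr rfl
        intro ξ _
        rw [Finset.mul_sum]
      rw [h9a, Finset.sum_comm]
      apply Finset.sum_congr rfl
      intro ξ _
      rw [Finset.sum_comm]
    rw [h9, Finset.mul_sum]
    apply Finset.sum_congr rfl
    intro ξ _
    rw [Finset.mul_sum]
    apply Finset.sum_congr rfl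
    intro η _
    simp only [T, Matrix.of_apply]
    rw [mul_assoc, Finset.sum_mul]
    congr 1
    apply Finset.sum_congr rfl
    intro S _
    ring
  rw [h8, abs_of_nonneg (by positivity)] at h7
  have h10 : ∑ ξ, ∑ η, (Matrix.of H) ξ η ^ 2 ≤ (4 : ℝ) ^ m := by
    calc ∑ ξ, ∑ η, (Matrix.of H) ξ η ^ 2 ≤ ∑ ξ : Fin m → Bool, ∑ η : Fin m → Bool, (1 : ℝ) := by
          apply Finset.sum_le_sum
          intro ξ _
          apply Finset.sum_le_sum
          intro η _
          have := hH ξ η
          rw [Matrix.of_apply, ← sq_abs]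
          exact pow_le_one₀ (abs_nonneg _) this
      _ = 4 ^ m := by
        simp only [Finset.sum_const, Finset.card_univ, Fintype.card_fun, Fintype.card_bool,
          Fintype.card_fin, nsmul_eq_mul, mul_one]
        push_cast
        rw [← mul_pow]
        norm_num
  have h11 : Real.sqrt (∑ ξ, ∑ η, (Matrix.of H) ξ η ^ 2) ≤ 2 ^ m := by
    rw [show (2 : ℝ) ^ m = Real.sqrt (4 ^ m) by
      rw [show (4 : ℝ) ^ m = (2 ^ m) ^ 2 by rw [← pow_mul, mul_comm, pow_mul]; norm_num]
      rw [Real.sqrt_sq (by positivity)]]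
    exact Real.sqrt_le_sqrt h10
  have h12 : (1 / 2 ^ m) * ∑ S, |dg H S| ≤ Real.sqrt R * 2 ^ m :=
    h7.trans (mul_le_mul_of_nonneg_left h11 (Real.sqrt_nonneg _))
  rw [div_mul_eq_mul_div, one_mul, div_le_iff₀ h2m] at h12
  calc ∑ S, |dg H S| ≤ Real.sqrt R * 2 ^ m * 2 ^ m := h12
    _ = Real.sqrt R * 4 ^ m := by
      rw [mul_assoc, ← mul_pow]
      norm_num

/-- the correlated expectation, not normalised -/
noncomputable def jc {m : ℕ} (H : (Fin m → Bool) → (Fin m → Bool) → ℝ) (ρ : ℝ) : ℝ :=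
  ∑ ξ, ∑ η, H ξ η * ∏ i, (1 + ρ * (sg (ξ i) * sg (η i)))

/-- the `k`-th chaos, not normalised -/
noncomputable def jk {m : ℕ} (H : (Fin m → Bool) → (Fin m → Bool) → ℝ) (k : ℕ) : ℝ :=
  ∑ S ∈ (Finset.univ : Finset (Fin m)).powersetCard k, dg H S

theorem jc_eq {m : ℕ} (H : (Fin m → Bool) → (Fin m → Bool) → ℝ) (ρ : ℝ) :
    jc H ρ = ∑ k ∈ Finset.range (m + 1), jk H k * ρ ^ k := by
  classical
  have h1 : ∀ ξ η : Fin m → Bool, ∏ i, (1 + ρ * (sg (ξ i) * sg (η i))) =
      ∑ S : Finset (Fin m), ρ ^ S.card * (ch S ξ * ch S η) := by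
    intro ξ η
    rw [Finset.prod_one_add, Finset.powerset_univ]
    apply Finset.sum_congr rfl
    intro S _
    rw [Finset.prod_mul_distrib, Finset.prod_const, Finset.prod_mul_distrib]
    rfl
  have h2 : jc H ρ = ∑ S : Finset (Fin m), dg H S * ρ ^ S.card := by
    unfold jc dg
    simp only [h1, Finset.mul_sum, Finset.sum_mul]
    rw [Finset.sum_comm (γ := Finset (Fin m))]
    apply Finset.sum_congr rfl
    intro ξ _
    rw [Finset.sum_comm]
    apply Finset.sum_congr rfl
    intro S _
    apply Finset.sum_congr rfl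
    intro η _
    ring
  rw [h2]
  rw [← Finset.powerset_univ, Finset.sum_powerset]
  rw [Finset.card_univ, Fintype.card_fin]
  apply Finset.sum_congr rfl
  intro k _
  unfold jk
  rw [Finset.sum_mul]
  apply Finset.sum_congr rfl
  intro S hS
  rw [(Finset.mem_powersetCard.mp hS).2]

theorem jc_abs {m : ℕ} (H : (Fin m → Bool) → (Fin m → Bool) → ℝ) (hH : ∀ ξ η, |H ξ η| ≤ 1)
    {ρ : ℝ} (hρ : |ρ| ≤ 1) : |jc H ρ| ≤ 4 ^ m := by
  have hnn : ∀ ξ η : Fin m → Bool, 0 ≤ ∏ i, (1 + ρ * (sg (ξ i) * sg (η i))) := by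
    intro ξ η
    apply Finset.prod_nonneg
    intro i _
    have h1 : |ρ * (sg (ξ i) * sg (η i))| ≤ 1 := by
      rw [abs_mul, abs_mul, sg_abs, sg_abs, mul_one, mul_one]
      exact hρ
    linarith [(abs_le.mp h1).1]
  unfold jc
  calc |∑ ξ, ∑ η, H ξ η * ∏ i, (1 + ρ * (sg (ξ i) * sg (η i)))|
      ≤ ∑ ξ : Fin m → Bool, ∑ η : Fin m → Bool, ∏ i, (1 + ρ * (sg (ξ i) * sg (η i))) := by
        apply (Finset.abs_sum_le_sum_abs _ _).trans
        apply Finset.sum_le_sum
        intro ξ _
        apply (Finset.abs_sum_le_sum_abs _ _).trans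
        apply Finset.sum_le_sum
        intro η _
        rw [abs_mul, abs_of_nonneg (hnn ξ η)]
        exact mul_le_of_le_one_left (hnn ξ η) (hH ξ η)
    _ = ∑ ξ : Fin m → Bool, (2 : ℝ) ^ m := by
        apply Finset.sum_congr rfl
        intro ξ _
        have h0 := sum_cube_prod (fun (i : Fin m) (b : Bool) => (1 + ρ * (sg (ξ i) * sg b)))
        rw [h0]
        have h2 : ∀ i ∈ (Finset.univ : Finset (Fin m)), (1 + ρ * (sg (ξ i) * sg true) +
            (1 + ρ * (sg (ξ i) * sg false))) = (2 : ℝ) := by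
          intro i _
          simp [sg]
          ring
        rw [Finset.prod_congr rfl h2]
        simp
    _ = 4 ^ m := by
      simp only [Finset.sum_const, Finset.card_univ, Fintype.card_fun, Fintype.card_bool,
        Fintype.card_fin, nsmul_eq_mul]
      push_cast
      rw [← mul_pow]
      norm_num

/-- **Lemma A.** The first diagonal chaos of a bounded matrix of rank at most `4 ^ d` on the cube is
at most `8 d ^ 2`. -/
theorem chaos_one {m : ℕ} (H : (Fin m → Bool) → (Fin m → Bool) → ℝ) (hH : ∀ ξ η, |H ξ η| ≤ 1)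
    (d : ℕ) (hd : 1 ≤ d) (hR : (Matrix.of H).rank ≤ 4 ^ d) :
    |∑ i, ∑ ξ, ∑ η, H ξ η * (sg (ξ i) * sg (η i))| ≤ 8 * (d : ℝ) ^ 2 * 4 ^ m := by
  classical
  have h4m : (0 : ℝ) < 4 ^ m := by positivity
  have hJ1 : ∑ i, ∑ ξ, ∑ η, H ξ η * (sg (ξ i) * sg (η i)) = jk H 1 := by
    unfold jk
    rw [Finset.powersetCard_one, Finset.sum_map]
    apply Finset.sum_congr rfl
    intro i _
    unfold dg ch
    simp
  rw [hJ1]
  -- total mass of the chaoses
  have hmass : ∑ k ∈ Finset.range (m + 1), |jk H k| ≤ 2 ^ d * 4 ^ m := by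
    have h1 := sum_abs_dg H hH (4 ^ d) hR
    have h2 : Real.sqrt ((4 ^ d : ℕ) : ℝ) = 2 ^ d := by
      push_cast
      rw [show (4 : ℝ) ^ d = (2 ^ d) ^ 2 by rw [← pow_mul, mul_comm, pow_mul]; norm_num]
      rw [Real.sqrt_sq (by positivity)]
    rw [h2] at h1
    calc ∑ k ∈ Finset.range (m + 1), |jk H k|
        ≤ ∑ k ∈ Finset.range (m + 1),
          ∑ S ∈ (Finset.univ : Finset (Fin m)).powersetCard k, |dg H S| := by
          apply Finset.sum_le_sum
          intro k _
          exact Finset.abs_sum_le_sum_abs _ _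
      _ = ∑ S, |dg H S| := by
          rw [← Finset.powerset_univ, Finset.sum_powerset, Finset.card_univ, Fintype.card_fin]
      _ ≤ _ := h1
  -- the truncated polynomial
  let P : ℝ[X] := ∑ k ∈ Finset.range (d + 1), C (if k ∈ Finset.range (m + 1) then jk H k else 0) * X ^ k
  have hPdeg : P.natDegree ≤ d := by
    apply Polynomial.natDegree_sum_le_of_forall_le
    intro k hk
    apply (Polynomial.natDegree_C_mul_X_pow_le _ _).trans
    exact Nat.lt_succ_iff.mp (Finset.mem_range.mp hk)
  have hPev : ∀ x, P.eval x = ∑ k ∈ (Finset.range (m + 1)).filter (fun k => k ≤ d),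
      jk H k * x ^ k := by
    intro x
    simp only [P, Polynomial.eval_finsetSum, Polynomial.eval_mul, Polynomial.eval_C,
      Polynomial.eval_pow, Polynomial.eval_X]
    rw [Finset.sum_filter]
    have e1 : ∀ N, d ≤ N → m ≤ N →
        (∑ k ∈ Finset.range (d + 1), (if k ∈ Finset.range (m + 1) then jk H k else 0) * x ^ k =
        ∑ k ∈ Finset.range (N + 1), if k ∈ Finset.range (m + 1) ∧ k ≤ d then jk H k * x ^ k else 0) ∧
        (∑ k ∈ Finset.range (m + 1), (if k ≤ d then jk H k * x ^ k else 0) =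
        ∑ k ∈ Finset.range (N + 1), if k ∈ Finset.range (m + 1) ∧ k ≤ d then jk H k * x ^ k else 0) := by
      intro N hdN hmN
      constructor
      · rw [← Finset.sum_subset (Finset.range_mono (Nat.succ_le_succ hdN))]
        · apply Finset.sum_congr rfl
          intro k hk
          have hk' : k ≤ d := Nat.lt_succ_iff.mp (Finset.mem_range.mp hk)
          by_cases hkm : k ∈ Finset.range (m + 1)
          · rw [if_pos hkm, if_pos ⟨hkm, hk'⟩]
          · rw [if_neg hkm, if_neg (fun h => hkm h.1), zero_mul]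
        · intro k _ hk
          rw [if_neg]
          rintro ⟨-, h⟩
          exact hk (Finset.mem_range.mpr (Nat.lt_succ_of_le h))
      · rw [← Finset.sum_subset (Finset.range_mono (Nat.succ_le_succ hmN))]
        · apply Finset.sum_congr rfl
          intro k hk
          by_cases hkd : k ≤ d
          · rw [if_pos hkd, if_pos ⟨hk, hkd⟩]
          · rw [if_neg hkd, if_neg (fun h => hkd h.2)]
        · intro k _ hk
          rw [if_neg]
          rintro ⟨h, -⟩
          exact hk h
    obtain ⟨e2, e3⟩ := e1 (max d m) (le_max_left _ _) (le_max_right _ _)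
    rw [e2, e3]
  have hPb : ∀ x ∈ Set.uIcc (1 / 2 : ℝ) 0, |P.eval x| ≤ 2 * 4 ^ m := by
    intro x hx
    rw [Set.uIcc_comm, Set.uIcc_of_le (by norm_num)] at hx
    have hx1 : |x| ≤ 1 / 2 := by
      rw [abs_of_nonneg hx.1]
      exact hx.2
    have h1 : jc H x = P.eval x +
        ∑ k ∈ (Finset.range (m + 1)).filter (fun k => ¬ k ≤ d), jk H k * x ^ k := by
      rw [jc_eq, hPev]
      exact (Finset.sum_filter_add_sum_filter_not _ _ _).symm
    have h2 : |∑ k ∈ (Finset.range (m + 1)).filter (fun k => ¬ k ≤ d), jk H k * x ^ k| ≤ 4 ^ m := by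
      calc _ ≤ ∑ k ∈ (Finset.range (m + 1)).filter (fun k => ¬ k ≤ d), |jk H k * x ^ k| :=
            Finset.abs_sum_le_sum_abs _ _
        _ ≤ ∑ k ∈ (Finset.range (m + 1)).filter (fun k => ¬ k ≤ d), |jk H k| * (1 / 2) ^ d := by
            apply Finset.sum_le_sum
            intro k hk
            rw [abs_mul, abs_pow]
            apply mul_le_mul_of_nonneg_left _ (abs_nonneg _)
            have hk' : d ≤ k := le_of_lt (not_le.mp (Finset.mem_filter.mp hk).2)
            calc |x| ^ k ≤ (1 / 2) ^ k := pow_le_pow_left₀ (abs_nonneg _) hx1 k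
              _ ≤ (1 / 2) ^ d := pow_le_pow_of_le_one (by norm_num) (by norm_num) hk'
        _ ≤ ∑ k ∈ Finset.range (m + 1), |jk H k| * (1 / 2) ^ d := by
            apply Finset.sum_le_sum_of_subset_of_nonneg (Finset.filter_subset _ _)
            intro k _ _
            positivity
        _ = (∑ k ∈ Finset.range (m + 1), |jk H k|) * (1 / 2) ^ d := by rw [Finset.sum_mul]
        _ ≤ (2 ^ d * 4 ^ m) * (1 / 2) ^ d := by
            apply mul_le_mul_of_nonneg_right hmass
            positivity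
        _ = 4 ^ m := by
            rw [mul_comm, ← mul_assoc, ← mul_pow]
            norm_num
    have h3 := jc_abs H hH (ρ := x) (hx1.trans (by norm_num))
    have h4 : P.eval x = jc H x -
        ∑ k ∈ (Finset.range (m + 1)).filter (fun k => ¬ k ≤ d), jk H k * x ^ k := by
      rw [h1]; ring
    rw [h4]
    calc _ ≤ |jc H x| + |∑ k ∈ (Finset.range (m + 1)).filter (fun k => ¬ k ≤ d), jk H k * x ^ k| :=
          abs_sub _ _
      _ ≤ 4 ^ m + 4 ^ m := add_le_add h3 h2
      _ = _ := by ring
  have h5 := Pool.Agent.Lib_helper30.AA.markov_segment hPdeg (a := 1 / 2) (c := 0)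
    (B := 2 * 4 ^ m) (by positivity) (by norm_num) hPb
  have h6 : P.derivative.eval 0 = if 1 ≤ d ∧ 1 ≤ m then jk H 1 else 0 := by
    simp only [P, Polynomial.derivative_sum, Polynomial.eval_finsetSum,
      Polynomial.derivative_C_mul_X_pow, Polynomial.eval_mul, Polynomial.eval_C,
      Polynomial.eval_pow, Polynomial.eval_X, Finset.mem_range]
    by_cases hd : 1 ≤ d
    · rw [Finset.sum_eq_single 1]
      · by_cases hm : 1 ≤ m
        · rw [if_pos (by omega), if_pos ⟨hd, hm⟩]
          norm_num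
        · rw [if_neg (by omega), if_neg (fun h => hm h.2)]
          norm_num
      · intro k _ hk
        rcases Nat.eq_zero_or_pos k with h0 | h0
        · subst h0
          simp
        · rw [zero_pow (by omega), mul_zero]
      · intro h
        exact absurd (Finset.mem_range.mpr (by omega)) h
    · have hd0 : d = 0 := by omega
      subst hd0
      simp
  rw [h6] at h5
  by_cases hm : 1 ≤ m
  · rw [if_pos ⟨hd, hm⟩] at h5
    calc |jk H 1| ≤ _ := h5
      _ = 8 * (d : ℝ) ^ 2 * 4 ^ m := by norm_num; ring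
  · have hm0 : m = 0 := by omega
    have h7 : jk H 1 = 0 := by
      unfold jk
      rw [Finset.powersetCard_eq_empty.mpr]
      · simp
      · rw [Finset.card_univ, Fintype.card_fin]; omega
    rw [h7, abs_zero]
    positivity

end Pool.Agent.LR2
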