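import Pool.Agent.Lib_helper59.LR2.Av
import Pool.Agent.Lib_helper59.LR2.Chaos

/-!
# Sequential revealing: cells and their Kullback-Leibler cost
-/

set_option autoImplicit false
set_option linter.unusedSectionVars false

open Finset

namespace Pool.Agent.LR2

variable {X Y : Type} [Fintype X] [Fintype Y]

/-- probability vector -/
structure IsPr (p : X → ℝ) : Prop where
  nonneg : ∀ x, 0 ≤ p x
  sum : ∑ x, p x = 1

/-- mean of `u` under `p` -/
noncomputable def mean (p u : X → ℝ) : ℝ := ∑ x, p x * u x

/-- Kullback-Leibler divergence in nats -/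
noncomputable def KL (p μ : X → ℝ) : ℝ := ∑ x, p x * Real.log (p x / μ x)

theorem IsPr.le_one {p : X → ℝ} (hp : IsPr p) (x : X) : p x ≤ 1 := by
  rw [← hp.sum]
  exact Finset.single_le_sum (fun i _ => hp.nonneg i) (Finset.mem_univ x)

theorem abs_mean_le {p u : X → ℝ} (hp : IsPr p) (hu : ∀ x, |u x| ≤ 1) : |mean p u| ≤ 1 := by
  unfold mean
  calc |∑ x, p x * u x| ≤ ∑ x, |p x * u x| := Finset.abs_sum_le_sum_abs _ _
    _ ≤ ∑ x, p x := by
        apply Finset.sum_le_sum
        intro x _
        rw [abs_mul, abs_of_nonneg (hp.nonneg x)]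
        exact mul_le_of_le_one_right (hp.nonneg x) (hu x)
    _ = 1 := hp.sum

/-- centred half feature -/
noncomputable def phi (p u : X → ℝ) (x : X) : ℝ := (u x - mean p u) / 2

theorem phi_abs {p u : X → ℝ} (hp : IsPr p) (hu : ∀ x, |u x| ≤ 1) (x : X) : |phi p u x| ≤ 1 := by
  have h1 := abs_le.mp (hu x)
  have h2 := abs_le.mp (abs_mean_le hp hu)
  unfold phi
  rw [abs_le]
  constructor <;> linarith [h1.1, h1.2, h2.1, h2.2]

theorem phi_mean {p u : X → ℝ} (hp : IsPr p) : ∑ x, p x * phi p u x = 0 := by
  unfold phi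
  have h1 : ∀ x, p x * ((u x - mean p u) / 2) = (p x * u x) / 2 - p x * (mean p u / 2) := by
    intro x; ring
  simp only [h1]
  rw [Finset.sum_sub_distrib, ← Finset.sum_div, ← Finset.sum_mul, hp.sum]
  unfold mean
  ring

theorem phi_var {p u : X → ℝ} (hp : IsPr p) (hu : ∀ x, |u x| ≤ 1) :
    ∑ x, p x * phi p u x ^ 2 ≤ 1 / 4 := by
  have h1 : ∑ x, p x * phi p u x ^ 2 = (∑ x, p x * u x ^ 2) / 4 - mean p u ^ 2 / 4 := by
    have h2 : ∀ x, p x * phi p u x ^ 2 = (p x * u x ^ 2) / 4 - (p x * u x) * (mean p u / 2) +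
        p x * (mean p u ^ 2 / 4) := by
      intro x; unfold phi; ring
    simp only [h2]
    rw [Finset.sum_add_distrib, Finset.sum_sub_distrib, ← Finset.sum_div, ← Finset.sum_mul,
      ← Finset.sum_mul, hp.sum]
    change (∑ x, p x * u x ^ 2) / 4 - mean p u * (mean p u / 2) + 1 * (mean p u ^ 2 / 4) = _
    ring
  have h3 : ∑ x, p x * u x ^ 2 ≤ 1 := by
    rw [← hp.sum]
    apply Finset.sum_le_sum
    intro x _
    have h4 : u x ^ 2 ≤ 1 := by
      rw [← sq_abs]
      exact pow_le_one₀ (abs_nonneg _) (hu x)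
    exact mul_le_of_le_one_right (hp.nonneg x) h4
  rw [h1]
  nlinarith [sq_nonneg (mean p u)]

/-- one step of revealing -/
noncomputable def stp (p u : X → ℝ) (b : Bool) (x : X) : ℝ := p x * (1 + sg b * phi p u x)

theorem stp_pr {p u : X → ℝ} (hp : IsPr p) (hu : ∀ x, |u x| ≤ 1) (b : Bool) : IsPr (stp p u b) := by
  constructor
  · intro x
    apply mul_nonneg (hp.nonneg x)
    have h1 : |sg b * phi p u x| ≤ 1 := by
      rw [abs_mul, sg_abs, one_mul]
      exact phi_abs hp hu x
    linarith [(abs_le.mp h1).1]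
  · unfold stp
    have h1 : ∀ x, p x * (1 + sg b * phi p u x) = p x + sg b * (p x * phi p u x) := by
      intro x; ring
    simp only [h1]
    rw [Finset.sum_add_distrib, ← Finset.mul_sum, phi_mean hp, hp.sum]
    ring

theorem stp_avg (p u : X → ℝ) (x : X) : ∑ b, hf b * stp p u b x = p x := by
  simp [hf, stp, sg]
  ring

theorem stp_sg (p u : X → ℝ) (x : X) : ∑ b, hf b * (sg b * stp p u b x) = p x * phi p u x := by
  simp [hf, stp, sg]
  ring

/-- cost of one step of revealing -/
theorem KL_stp {p u μ : X → ℝ} (hp : IsPr p) (hu : ∀ x, |u x| ≤ 1) :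
    ∑ b, hf b * KL (stp p u b) μ ≤ KL p μ + 1 / 4 := by
  have key : ∀ x, ∑ b, hf b * (stp p u b x * Real.log (stp p u b x / μ x)) ≤
      p x * Real.log (p x / μ x) + p x * phi p u x ^ 2 := by
    intro x
    set t := phi p u x with ht
    have ht1 := phi_abs hp hu x
    rw [← ht, abs_le] at ht1
    rcases eq_or_lt_of_le (hp.nonneg x) with h0 | h0
    · simp [stp, ← h0]
    rcases eq_or_ne (μ x) 0 with hμ | hμ
    · simp only [hμ, div_zero, Real.log_zero, mul_zero, Finset.sum_const_zero, zero_add]
      positivity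
    have h1 : ∀ b, stp p u b x * Real.log (stp p u b x / μ x) ≤
        stp p u b x * Real.log (p x / μ x) + p x * ((1 + sg b * t) * (sg b * t)) := by
      intro b
      have hnn : 0 ≤ 1 + sg b * t := by
        cases b
        · simp [sg]; linarith [ht1.2]
        · simp [sg]; linarith [ht1.1]
      rcases eq_or_lt_of_le hnn with h2 | h2
      · simp [stp, ← ht, ← h2]
      · have h3 : stp p u b x / μ x = (p x / μ x) * (1 + sg b * t) := by
          unfold stp
          rw [← ht]
          ring
        have h4 : p x / μ x ≠ 0 := div_ne_zero h0.ne' hμ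
        rw [h3, Real.log_mul h4 h2.ne', mul_add]
        have h5 : stp p u b x * Real.log (1 + sg b * t) ≤ stp p u b x * (sg b * t) := by
          apply mul_le_mul_of_nonneg_left _ ((stp_pr hp hu b).nonneg x)
          have := Real.log_le_sub_one_of_pos h2
          linarith
        have h6 : stp p u b x * (sg b * t) = p x * ((1 + sg b * t) * (sg b * t)) := by
          unfold stp
          rw [← ht]
          ring
        linarith
    calc ∑ b, hf b * (stp p u b x * Real.log (stp p u b x / μ x))
        ≤ ∑ b, hf b * (stp p u b x * Real.log (p x / μ x) + p x * ((1 + sg b * t) * (sg b * t))) := by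
          apply Finset.sum_le_sum
          intro b _
          exact mul_le_mul_of_nonneg_left (h1 b) (hf_nonneg b)
      _ = (∑ b, hf b * stp p u b x) * Real.log (p x / μ x) +
          p x * ∑ b, hf b * ((1 + sg b * t) * (sg b * t)) := by
          rw [Finset.sum_mul, Finset.mul_sum, ← Finset.sum_add_distrib]
          apply Finset.sum_congr rfl
          intro b _
          ring
      _ = _ := by
          have h7 : ∑ b, hf b * ((1 + sg b * t) * (sg b * t)) = t ^ 2 := by
            simp [hf, sg]
            ring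
          rw [stp_avg, h7]
  have h1 : ∑ b, hf b * KL (stp p u b) μ =
      ∑ x, ∑ b, hf b * (stp p u b x * Real.log (stp p u b x / μ x)) := by
    unfold KL
    simp only [Finset.mul_sum]
    rw [Finset.sum_comm]
  rw [h1]
  calc _ ≤ ∑ x, (p x * Real.log (p x / μ x) + p x * phi p u x ^ 2) :=
        Finset.sum_le_sum fun x _ => key x
    _ = KL p μ + ∑ x, p x * phi p u x ^ 2 := by
        rw [Finset.sum_add_distrib]
        rfl
    _ ≤ _ := by
        have := phi_var hp hu
        linarith

/-- the cells -/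
noncomputable def cell (μ : X → ℝ) (u : ℕ → X → ℝ) (ξ : ℕ → Bool) : ℕ → X → ℝ
  | 0 => μ
  | k + 1 => stp (cell μ u ξ k) (u k) (ξ k)

theorem cell_pr {μ : X → ℝ} (hμ : IsPr μ) {u : ℕ → X → ℝ} (hu : ∀ k x, |u k x| ≤ 1)
    (ξ : ℕ → Bool) (k : ℕ) : IsPr (cell μ u ξ k) := by
  induction k with
  | zero => exact hμ
  | succ k ih => exact stp_pr ih (hu k) _

theorem cell_ac {μ : X → ℝ} {u : ℕ → X → ℝ} (ξ : ℕ → Bool) (k : ℕ) {x : X} (hx : μ x = 0) :
    cell μ u ξ k x = 0 := by
  induction k with
  | zero => exact hx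
  | succ k ih =>
    change cell μ u ξ k x * _ = 0
    rw [ih, zero_mul]

theorem cell_upd (μ : X → ℝ) (u : ℕ → X → ℝ) (ξ : ℕ → Bool) (k j : ℕ) (hj : k ≤ j) (b : Bool) :
    cell μ u (Function.update ξ j b) k = cell μ u ξ k := by
  induction k with
  | zero => rfl
  | succ k ih =>
    change stp (cell μ u (Function.update ξ j b) k) (u k) (Function.update ξ j b k) =
      stp (cell μ u ξ k) (u k) (ξ k)
    rw [ih (by omega), Function.update_of_ne (by omega)]

theorem cell_congr (μ : X → ℝ) {u u' : ℕ → X → ℝ} (ξ : ℕ → Bool) (k : ℕ)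
    (h : ∀ j < k, u j = u' j) : cell μ u ξ k = cell μ u' ξ k := by
  induction k with
  | zero => rfl
  | succ k ih =>
    change stp (cell μ u ξ k) (u k) (ξ k) = stp (cell μ u' ξ k) (u' k) (ξ k)
    rw [ih (fun j hj => h j (by omega)), h k (by omega)]

theorem av_cell (μ : X → ℝ) (u : ℕ → X → ℝ) (k : ℕ) (x : X) :
    av hf k (fun ξ => cell μ u ξ k x) = μ x := by
  induction k with
  | zero => rw [av_zero]; rfl
  | succ k ih =>
    rw [av_succ]
    have h1 : ∀ b, (fun ξ => cell μ u (Function.update ξ k b) (k + 1) x) =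
        fun ξ => stp (cell μ u ξ k) (u k) b x := by
      intro b
      funext ξ
      change stp (cell μ u (Function.update ξ k b) k) (u k) (Function.update ξ k b k) x = _
      rw [cell_upd _ _ _ _ _ le_rfl, Function.update_self]
    simp only [h1]
    simp only [← av_smul]
    rw [← av_sum]
    simp only [stp_avg]
    exact ih

theorem av_sg_cell (μ : X → ℝ) (u : ℕ → X → ℝ) {i K : ℕ} (hi : i < K) (x : X) :
    av hf K (fun ξ => sg (ξ i) * cell μ u ξ K x) =
      av hf i (fun ξ => cell μ u ξ i x * phi (cell μ u ξ i) (u i) x) := by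
  induction K, hi using Nat.le_induction with
  | base =>
    rw [av_succ]
    have h1 : ∀ b, (fun ξ => sg (Function.update ξ i b i) *
        cell μ u (Function.update ξ i b) (i + 1) x) =
        fun ξ => sg b * stp (cell μ u ξ i) (u i) b x := by
      intro b
      funext ξ
      change sg (Function.update ξ i b i) *
        stp (cell μ u (Function.update ξ i b) i) (u i) (Function.update ξ i b i) x = _
      rw [cell_upd _ _ _ _ _ le_rfl, Function.update_self]
    simp only [h1]
    simp only [← av_smul]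
    rw [← av_sum]
    simp only [stp_sg]
  | succ K hK ih =>
    rw [av_succ]
    have h1 : ∀ b, (fun ξ => sg (Function.update ξ K b i) *
        cell μ u (Function.update ξ K b) (K + 1) x) =
        fun ξ => sg (ξ i) * stp (cell μ u ξ K) (u K) b x := by
      intro b
      funext ξ
      change sg (Function.update ξ K b i) *
        stp (cell μ u (Function.update ξ K b) K) (u K) (Function.update ξ K b K) x = _
      rw [cell_upd _ _ _ _ _ le_rfl, Function.update_self, Function.update_of_ne (by omega)]
    simp only [h1]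
    simp only [← av_smul]
    rw [← av_sum]
    have h2 : (fun ξ : ℕ → Bool => ∑ b, hf b * (sg (ξ i) * stp (cell μ u ξ K) (u K) b x)) =
        fun ξ => sg (ξ i) * cell μ u ξ K x := by
      funext ξ
      rw [← stp_avg (cell μ u ξ K) (u K) x, Finset.mul_sum]
      apply Finset.sum_congr rfl
      intro b _
      ring
    rw [h2]
    exact ih

theorem av_KL {μ : X → ℝ} (hμ : IsPr μ) {u : ℕ → X → ℝ} (hu : ∀ k x, |u k x| ≤ 1) (k : ℕ)
    (ν : X → ℝ) : av hf k (fun ξ => KL (cell μ u ξ k) ν) ≤ KL μ ν + k / 4 := by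
  induction k with
  | zero =>
    rw [av_zero]
    simp [cell]
  | succ k ih =>
    rw [av_succ]
    have h1 : ∀ b, (fun ξ => KL (cell μ u (Function.update ξ k b) (k + 1)) ν) =
        fun ξ => KL (stp (cell μ u ξ k) (u k) b) ν := by
      intro b
      funext ξ
      change KL (stp (cell μ u (Function.update ξ k b) k) (u k) (Function.update ξ k b k)) ν = _
      rw [cell_upd _ _ _ _ _ le_rfl, Function.update_self]
    simp only [h1]
    simp only [← av_smul]
    rw [← av_sum]
    calc _ ≤ av hf k (fun ξ => KL (cell μ u ξ k) ν + 1 / 4) :=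
          av_mono hf_nonneg k fun ξ => KL_stp (cell_pr hμ hu ξ k) (hu k)
      _ = av hf k (fun ξ => KL (cell μ u ξ k) ν) + 1 / 4 := by
          rw [av_add, av_const hf_sum]
      _ ≤ _ := by
          push_cast
          linarith

end Pool.Agent.LR2
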