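import Pool.Agent.Lib_helper59.LR2.State

/-!
# Frames: definitions
-/

set_option autoImplicit false
set_option linter.unusedSectionVars false

open Finset Matrix

namespace Pool.Agent.LR2

variable {X Y : Type} [Fintype X] [Fintype Y] [Nonempty X] [Nonempty Y] {n : ℕ}
variable {ι : Type} [Fintype ι] [DecidableEq ι]

/-- normalised coordinates in a frame -/
noncomputable def zc (a : X → Fin n → ℝ) (o : ι → Fin n → ℝ) (s : ι → ℝ) (x : X) (i : ι) : ℝ :=
  (o i ⬝ᵥ a x) / Real.sqrt (s i)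

/-- a frame of eigendirections of the second moments, with eigenvalues at least `ss` -/
structure Frame (α : X → ℝ) (a : X → Fin n → ℝ) (o : ι → Fin n → ℝ) (s : ι → ℝ) (ss : ℝ) :
    Prop where
  pos : 0 < ss
  orth : ∀ i j, o i ⬝ᵥ o j = if i = j then 1 else 0
  mom : ∀ i j, ∑ x, α x * ((o i ⬝ᵥ a x) * (o j ⬝ᵥ a x)) = if i = j then s i else 0
  le : ∀ i, ss ≤ s i

/-- `κ` is a cost of the row distribution `p` -/
def Kap (M : X → Y → ℝ) (lam Lam : ℝ) (m : ℕ) (α : X → ℝ) (β : Y → ℝ) (F : Fac X Y n) (p : X → ℝ)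
    (κ : ℝ) : Prop :=
  ∀ F' : Fac X Y n, F'.Val m M α β → Lam * (F.cost m p β - F'.cost m p β) ≤ lam * κ

/-- weighted moments in the frame -/
noncomputable def zm2 (p : X → ℝ) (z : X → ι → ℝ) : Matrix ι ι ℝ :=
  ∑ x, p x • vecMulVec (z x) (z x)

end Pool.Agent.LR2
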