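import Pool.Agent.Lib_helper59.LR2.Bal

/-!
# The extremal state: the inequality (T)
-/

set_option autoImplicit false
set_option linter.unusedSectionVars false

open Finset Matrix

namespace Pool.Agent.LR2

theorem exists_diag {ι : Type} [Fintype ι] [DecidableEq ι] {G : Matrix ι ι ℝ} (hG : Gᵀ = G) :
    ∃ (o : ι → ι → ℝ) (h : ι → ℝ), (∀ i j, o i ⬝ᵥ o j = if i = j then 1 else 0) ∧
      (∀ v w : ι → ℝ, v ⬝ᵥ w = ∑ i, (o i ⬝ᵥ v) * (o i ⬝ᵥ w)) ∧ (∀ i, G *ᵥ o i = h i • o i) := by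
  have hGh : G.IsHermitian := by
    rw [Matrix.IsHermitian, Matrix.conjTranspose_eq_transpose_of_trivial]
    exact hG
  refine ⟨fun i => (hGh.eigenvectorBasis i).ofLp, hGh.eigenvalues, ?_, ?_, ?_⟩
  · intro i j
    have h1 := (orthonormal_iff_ite.1 hGh.eigenvectorBasis.orthonormal) i j
    rw [EuclideanSpace.inner_eq_star_dotProduct, star_trivial, dotProduct_comm] at h1
    exact h1
  · intro v w
    have h1 := hGh.eigenvectorBasis.sum_inner_mul_inner (WithLp.toLp 2 v) (WithLp.toLp 2 w)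
    simp only [EuclideanSpace.inner_eq_star_dotProduct, star_trivial] at h1
    rw [dotProduct_comm v w, ← h1]
    apply Finset.sum_congr rfl
    intro i _
    rw [dotProduct_comm w]
  · intro i
    exact hGh.mulVec_eigenvectorBasis i

section Diag

variable {ι : Type} [Fintype ι] [DecidableEq ι] {G : Matrix ι ι ℝ}

theorem sym_dot (hG : Gᵀ = G) (v w : ι → ℝ) : v ⬝ᵥ (G *ᵥ w) = (G *ᵥ v) ⬝ᵥ w := by
  rw [Matrix.dotProduct_mulVec, ← Matrix.mulVec_transpose, hG]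

theorem diag_bil (hG : Gᵀ = G) {o : ι → ι → ℝ} {h : ι → ℝ}
    (ho : ∀ v w : ι → ℝ, v ⬝ᵥ w = ∑ i, (o i ⬝ᵥ v) * (o i ⬝ᵥ w)) (hh : ∀ i, G *ᵥ o i = h i • o i)
    (v w : ι → ℝ) : v ⬝ᵥ (G *ᵥ w) = ∑ i, h i * ((o i ⬝ᵥ v) * (o i ⬝ᵥ w)) := by
  rw [ho]
  apply Finset.sum_congr rfl
  intro i _
  rw [sym_dot hG (o i), hh, smul_dotProduct, smul_eq_mul]
  ring

theorem diag_sq (hG : Gᵀ = G) {o : ι → ι → ℝ} {h : ι → ℝ}
    (ho : ∀ v w : ι → ℝ, v ⬝ᵥ w = ∑ i, (o i ⬝ᵥ v) * (o i ⬝ᵥ w)) (hh : ∀ i, G *ᵥ o i = h i • o i)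
    (w : ι → ℝ) : (G *ᵥ w) ⬝ᵥ (G *ᵥ w) = ∑ i, h i ^ 2 * (o i ⬝ᵥ w) ^ 2 := by
  rw [ho]
  apply Finset.sum_congr rfl
  intro i _
  rw [sym_dot hG (o i), hh, smul_dotProduct, smul_eq_mul]
  ring

end Diag

section T

variable {X Y : Type} [Fintype X] [Fintype Y] [Nonempty X] [Nonempty Y] {n : ℕ}
variable {M : X → Y → ℝ} {μ₀ : X → ℝ} {ν₀ : Y → ℝ} {lam Lam : ℝ} {m : ℕ}
  {α : X → ℝ} {β : Y → ℝ} {F : Fac X Y n}

/-- the matrix of the change of coordinates -/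
noncomputable def dmat (o : Fin n → Fin n → ℝ) (h : Fin n → ℝ) : Matrix (Fin n) (Fin n) ℝ :=
  Matrix.of fun i k => (Real.sqrt (1 - h i))⁻¹ * o i k

theorem dmat_mulVec (o : Fin n → Fin n → ℝ) (h : Fin n → ℝ) (w : Fin n → ℝ) (i : Fin n) :
    (dmat o h *ᵥ w) i = (Real.sqrt (1 - h i))⁻¹ * (o i ⬝ᵥ w) := by
  show ∑ k, (Real.sqrt (1 - h i))⁻¹ * o i k * w k = (Real.sqrt (1 - h i))⁻¹ * ∑ k, o i k * w k
  rw [Finset.mul_sum]
  apply Finset.sum_congr rfl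
  intro k _
  ring

theorem dmat_mul (o : Fin n → Fin n → ℝ) (h : Fin n → ℝ) (Z : Matrix (Fin n) (Fin n) ℝ)
    (i j : Fin n) : (dmat o h * Z) i j = (Real.sqrt (1 - h i))⁻¹ * (o i ᵥ* Z) j := by
  rw [Matrix.mul_apply]
  show ∑ k, (Real.sqrt (1 - h i))⁻¹ * o i k * Z k j = (Real.sqrt (1 - h i))⁻¹ * ∑ k, o i k * Z k j
  rw [Finset.mul_sum]
  apply Finset.sum_congr rfl
  intro k _
  ring

/-- the competitor for (T) -/
noncomputable def compT (F : Fac X Y n) (m : ℕ) (c : Fin n → ℝ) (o : Fin n → Fin n → ℝ)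
    (h : Fin n → ℝ) : Fac X Y n where
  p := F.p
  q := fun y => F.q y + c ⬝ᵥ (chn F.Z m *ᵥ F.b y)
  a := fun x i => Real.sqrt (1 - h i) * (o i ⬝ᵥ (F.a x - c))
  b := F.b
  Z := fun j => if j = 0 then dmat o h * F.Z 0 else F.Z j

theorem compT_val {o : Fin n → Fin n → ℝ} {h : Fin n → ℝ} (hF : F.Val (m + 1) M α β)
    (c : Fin n → ℝ) (ho : ∀ v w : Fin n → ℝ, v ⬝ᵥ w = ∑ i, (o i ⬝ᵥ v) * (o i ⬝ᵥ w))
    (hh : ∀ i, h i ≤ 1 / 2) : (compT F (m + 1) c o h).Val (m + 1) M α β := by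
  intro x y hx hy
  have hchn : ∀ k, chn (compT F (m + 1) c o h).Z (k + 1) =
      dmat o h * chn F.Z (k + 1) := by
    intro k
    induction k with
    | zero =>
      show 1 * (if (0 : ℕ) = 0 then dmat o h * F.Z 0 else F.Z 0) = dmat o h * (1 * F.Z 0)
      rw [if_pos rfl, one_mul, one_mul]
    | succ k ih =>
      show chn (compT F (m + 1) c o h).Z (k + 1) * (if k + 1 = 0 then dmat o h * F.Z 0
        else F.Z (k + 1)) = dmat o h * (chn F.Z (k + 1) * F.Z (k + 1))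
      rw [ih, if_neg (by omega), mul_assoc]
  have hbil : (compT F (m + 1) c o h).bil (m + 1) x y = (F.a x - c) ⬝ᵥ
      (chn F.Z (m + 1) *ᵥ F.b y) := by
    show (fun i => Real.sqrt (1 - h i) * (o i ⬝ᵥ (F.a x - c))) ⬝ᵥ
      (chn (compT F (m + 1) c o h).Z (m + 1) *ᵥ F.b y) = _
    rw [hchn, ← Matrix.mulVec_mulVec, ho (F.a x - c)]
    show ∑ i, (Real.sqrt (1 - h i) * (o i ⬝ᵥ (F.a x - c))) *
      (dmat o h *ᵥ (chn F.Z (m + 1) *ᵥ F.b y)) i = _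
    apply Finset.sum_congr rfl
    intro i _
    have h1 : 0 < Real.sqrt (1 - h i) := Real.sqrt_pos.2 (by linarith [hh i])
    rw [dmat_mulVec]
    field_simp
  rw [hbil]
  show M x y = F.p x + (F.q y + c ⬝ᵥ (chn F.Z (m + 1) *ᵥ F.b y)) + _
  rw [hF x y hx hy, sub_dotProduct]
  show F.p x + F.q y + F.a x ⬝ᵥ (chn F.Z (m + 1) *ᵥ F.b y) = _
  ring

theorem compT_fro (h : St M μ₀ ν₀ lam Lam (m + 1) α β F) (o : Fin n → Fin n → ℝ) {hh : Fin n → ℝ}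
    (hle : ∀ i, hh i ≤ 1 / 2) :
    fro (dmat o hh * F.Z 0) =
      ∑ i, (1 - hh i)⁻¹ * ∑ x, α x * (o i ⬝ᵥ F.a x) ^ 2 := by
  have h1 : ∀ i, ∑ x, α x * (o i ⬝ᵥ F.a x) ^ 2 = nsq (o i ᵥ* F.Z 0) := by
    intro i
    rw [← quad_mul_tr, ← h.bal0, mom_bil]
    apply Finset.sum_congr rfl
    intro x _
    ring
  simp only [h1]
  unfold fro nsq
  apply Finset.sum_congr rfl
  intro i _
  rw [Finset.mul_sum]
  apply Finset.sum_congr rfl
  intro j _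
  rw [dmat_mul, mul_pow, inv_pow, Real.sq_sqrt (by linarith [hle i])]

theorem inv_bound {h : ℝ} (h1 : |h| ≤ 1 / 2) : (1 - h)⁻¹ ≤ 1 + h + 2 * h ^ 2 := by
  obtain ⟨h2, h3⟩ := abs_le.1 h1
  rw [inv_le_comm₀ (by linarith) (by nlinarith), inv_le_comm₀ (by nlinarith) (by linarith)]
  rw [inv_eq_one_div, div_le_iff₀ (by linarith)]
  nlinarith [sq_nonneg h, mul_nonneg (sq_nonneg h) (show 0 ≤ 1 / 2 - h by linarith)]

/-- (T) -/
theorem St.T_gen (h : St M μ₀ ν₀ lam Lam (m + 1) α β F) {G : Matrix (Fin n) (Fin n) ℝ}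
    (hG : Gᵀ = G) (hb : ∀ v : Fin n → ℝ, |v ⬝ᵥ (G *ᵥ v)| ≤ 1 / 2 * (v ⬝ᵥ v)) {p : X → ℝ}
    (hp : IsPr p) {κ : ℝ} (hκ : ∀ F' : Fac X Y n, F'.Val (m + 1) M α β →
      Lam * (F.cost (m + 1) p β - F'.cost (m + 1) p β) ≤ lam * κ) :
    nsq (vmean p F.a) + ∑ x, p x * ((F.a x - vmean p F.a) ⬝ᵥ (G *ᵥ (F.a x - vmean p F.a))) -
      ∑ x, α x * (F.a x ⬝ᵥ (G *ᵥ F.a x)) ≤
      2 * ∑ x, α x * ((G *ᵥ F.a x) ⬝ᵥ (G *ᵥ F.a x)) + (m + 3) * (lam / Lam) * κ := by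
  obtain ⟨o, hh, horth, ho, hev⟩ := exists_diag hG
  have habs : ∀ i, |hh i| ≤ 1 / 2 := by
    intro i
    have h1 := hb (o i)
    rw [hev, dotProduct_smul, horth, if_pos rfl, smul_eq_mul, mul_one, mul_one] at h1
    exact h1
  have hle : ∀ i, hh i ≤ 1 / 2 := fun i => (abs_le.1 (habs i)).2
  set c := vmean p F.a with hc
  have hval := compT_val h.val c ho hle
  have h1 := hκ _ hval
  -- the pieces
  have e1 : ∑ x, p x * nsq (F.a x) = nsq c + ∑ i, ∑ x, p x * (o i ⬝ᵥ (F.a x - c)) ^ 2 := by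
    have h2 := nsq_center hp F.a
    have h3 : ∑ x, p x * nsq (F.a x - vmean p F.a) =
        ∑ i, ∑ x, p x * (o i ⬝ᵥ (F.a x - c)) ^ 2 := by
      rw [Finset.sum_comm]
      apply Finset.sum_congr rfl
      intro x _
      rw [nsq_eq, ho, Finset.mul_sum]
      apply Finset.sum_congr rfl
      intro i _
      ring
    rw [h3] at h2
    linarith
  have e2 : ∑ x, p x * nsq ((compT F (m + 1) c o hh).a x) =
      ∑ i, (1 - hh i) * ∑ x, p x * (o i ⬝ᵥ (F.a x - c)) ^ 2 := by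
    have h3 : ∀ x, p x * nsq ((compT F (m + 1) c o hh).a x) =
        ∑ i, (1 - hh i) * (p x * (o i ⬝ᵥ (F.a x - c)) ^ 2) := by
      intro x
      show p x * ∑ i, (Real.sqrt (1 - hh i) * (o i ⬝ᵥ (F.a x - c))) ^ 2 = _
      rw [Finset.mul_sum]
      apply Finset.sum_congr rfl
      intro i _
      rw [mul_pow, Real.sq_sqrt (by linarith [hle i])]
      ring
    simp only [h3]
    rw [Finset.sum_comm]
    apply Finset.sum_congr rfl
    intro i _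
    rw [Finset.mul_sum]
  have e3 : fro (F.Z 0) = ∑ i, ∑ x, α x * (o i ⬝ᵥ F.a x) ^ 2 := by
    rw [h.cost_eq.1 0 (Nat.zero_le _), Finset.sum_comm]
    apply Finset.sum_congr rfl
    intro x _
    rw [nsq_eq, ho, Finset.mul_sum]
    apply Finset.sum_congr rfl
    intro i _
    ring
  have e4 : fro ((compT F (m + 1) c o hh).Z 0) =
      ∑ i, (1 - hh i)⁻¹ * ∑ x, α x * (o i ⬝ᵥ F.a x) ^ 2 := by
    show fro (if (0 : ℕ) = 0 then dmat o hh * F.Z 0 else F.Z 0) = _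
    rw [if_pos rfl, compT_fro h o hle]
  have e5 : F.cost (m + 1) p β - (compT F (m + 1) c o hh).cost (m + 1) p β =
      (∑ x, p x * nsq (F.a x) - ∑ x, p x * nsq ((compT F (m + 1) c o hh).a x) + fro (F.Z 0) -
        fro ((compT F (m + 1) c o hh).Z 0)) / (m + 3) := by
    unfold Fac.cost
    rw [Finset.sum_range_succ', Finset.sum_range_succ' (fun j =>
      fro ((compT F (m + 1) c o hh).Z j))]
    have h4 : ∀ k, fro ((compT F (m + 1) c o hh).Z (k + 1)) = fro (F.Z (k + 1)) := by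
      intro k
      show fro (if k + 1 = 0 then dmat o hh * F.Z 0 else F.Z (k + 1)) = _
      rw [if_neg (by omega)]
    simp only [h4]
    have h5 : ∑ y, β y * nsq ((compT F (m + 1) c o hh).b y) = ∑ y, β y * nsq (F.b y) := rfl
    rw [h5]
    push_cast
    ring
  have e6 : ∑ x, p x * ((F.a x - c) ⬝ᵥ (G *ᵥ (F.a x - c))) =
      ∑ i, hh i * ∑ x, p x * (o i ⬝ᵥ (F.a x - c)) ^ 2 := by
    simp only [diag_bil hG ho hev, Finset.mul_sum]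
    rw [Finset.sum_comm]
    apply Finset.sum_congr rfl
    intro i _
    apply Finset.sum_congr rfl
    intro x _
    ring
  have e7 : ∑ x, α x * (F.a x ⬝ᵥ (G *ᵥ F.a x)) =
      ∑ i, hh i * ∑ x, α x * (o i ⬝ᵥ F.a x) ^ 2 := by
    simp only [diag_bil hG ho hev, Finset.mul_sum]
    rw [Finset.sum_comm]
    apply Finset.sum_congr rfl
    intro i _
    apply Finset.sum_congr rfl
    intro x _
    ring
  have e8 : ∑ x, α x * ((G *ᵥ F.a x) ⬝ᵥ (G *ᵥ F.a x)) =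
      ∑ i, hh i ^ 2 * ∑ x, α x * (o i ⬝ᵥ F.a x) ^ 2 := by
    simp only [diag_sq hG ho hev, Finset.mul_sum]
    rw [Finset.sum_comm]
    apply Finset.sum_congr rfl
    intro i _
    apply Finset.sum_congr rfl
    intro x _
    ring
  have e9 : ∑ i, (1 - hh i)⁻¹ * ∑ x, α x * (o i ⬝ᵥ F.a x) ^ 2 ≤
      ∑ i, ∑ x, α x * (o i ⬝ᵥ F.a x) ^ 2 + ∑ i, hh i * ∑ x, α x * (o i ⬝ᵥ F.a x) ^ 2 +
      2 * ∑ i, hh i ^ 2 * ∑ x, α x * (o i ⬝ᵥ F.a x) ^ 2 := by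
    rw [Finset.mul_sum, ← Finset.sum_add_distrib, ← Finset.sum_add_distrib]
    apply Finset.sum_le_sum
    intro i _
    have h2 : 0 ≤ ∑ x, α x * (o i ⬝ᵥ F.a x) ^ 2 :=
      Finset.sum_nonneg fun x _ => mul_nonneg (h.hα.nonneg x) (sq_nonneg _)
    have h3 := mul_le_mul_of_nonneg_right (inv_bound (habs i)) h2
    linarith
  have e10 : ∑ i, (1 - hh i) * ∑ x, p x * (o i ⬝ᵥ (F.a x - c)) ^ 2 =
      ∑ i, ∑ x, p x * (o i ⬝ᵥ (F.a x - c)) ^ 2 -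
      ∑ i, hh i * ∑ x, p x * (o i ⬝ᵥ (F.a x - c)) ^ 2 := by
    rw [← Finset.sum_sub_distrib]
    apply Finset.sum_congr rfl
    intro i _
    ring
  rw [e6, e7, e8]
  rw [e5, e4, e3, e2, e1, e10, ← mul_div_assoc, div_le_iff₀ (by positivity)] at h1
  have h2 : Lam * (nsq c + ∑ i, hh i * ∑ x, p x * (o i ⬝ᵥ (F.a x - c)) ^ 2 -
      ∑ i, hh i * ∑ x, α x * (o i ⬝ᵥ F.a x) ^ 2 -
      2 * ∑ i, hh i ^ 2 * ∑ x, α x * (o i ⬝ᵥ F.a x) ^ 2) ≤ lam * κ * (m + 3) := by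
    refine le_trans (mul_le_mul_of_nonneg_left ?_ h.hLam.le) h1
    linarith
  have h3 : (m + 3) * (lam / Lam) * κ = lam * κ * (m + 3) / Lam := by ring
  have h4 : nsq c + ∑ i, hh i * ∑ x, p x * (o i ⬝ᵥ (F.a x - c)) ^ 2 -
      ∑ i, hh i * ∑ x, α x * (o i ⬝ᵥ F.a x) ^ 2 -
      2 * ∑ i, hh i ^ 2 * ∑ x, α x * (o i ⬝ᵥ F.a x) ^ 2 ≤ (m + 3) * (lam / Lam) * κ := by
    rw [h3, le_div_iff₀ h.hLam]
    linarith
  linarith

end T

end Pool.Agent.LR2
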