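import Pool.Agent.Lib_helper59.LR2.Ens

/-!
# Product tilts and the combined ensemble
-/

set_option autoImplicit false
set_option linter.unusedSectionVars false

open Finset

namespace Pool.Agent.LR2

section Bind

variable {X Y : Type} [Fintype X] [Fintype Y]

/-- composition of ensembles -/
noncomputable def Ens.bind (E : Ens X Y) (F : E.I → Ens X Y) : Ens X Y where
  I := Σ i, (F i).I
  fin := inferInstance
  w := fun z => E.w z.1 * (F z.1).w z.2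
  p := fun z => (F z.1).p z.2
  q := fun z => (F z.1).q z.2
  nonneg := fun z => mul_nonneg (E.nonneg _) ((F z.1).nonneg _)
  prp := fun z => (F z.1).prp _
  prq := fun z => (F z.1).prq _

theorem Ens.bind_ex (E : Ens X Y) (F : E.I → Ens X Y) (Φ : (X → ℝ) → (Y → ℝ) → ℝ) :
    (E.bind F).ex Φ = ∑ i, E.w i * (F i).ex Φ := by
  change ∑ z : Σ i, (F i).I, (E.w z.1 * (F z.1).w z.2) * Φ ((F z.1).p z.2) ((F z.1).q z.2) = _
  rw [Fintype.sum_sigma]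
  apply Finset.sum_congr rfl
  intro i _
  unfold Ens.ex
  rw [Finset.mul_sum]
  apply Finset.sum_congr rfl
  intro j _
  ring

theorem Ens.tot (E : Ens X Y) {R : X → Y → ℝ} (h : E.Bar R) : ∑ i, E.w i = ∑ x, ∑ y, R x y := by
  rw [← E.ex_one h]
  unfold Ens.ex
  apply Finset.sum_congr rfl
  intro i _
  ring

end Bind

section Tlt

variable {X Y Ω : Type} [Fintype X] [Fintype Y] [Fintype Ω] [Inhabited Ω]

/-- the weights of the rounds of a tilt -/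
noncomputable def wt2 (w : Ω → ℝ) (z : Ω × Bool) : ℝ := w z.1 * hf z.2

theorem wt2_nonneg {w : Ω → ℝ} (hw : ∀ o, 0 ≤ w o) (z : Ω × Bool) : 0 ≤ wt2 w z :=
  mul_nonneg (hw _) (hf_nonneg _)

theorem wt2_sum {w : Ω → ℝ} (hw1 : ∑ o, w o = 1) : ∑ z, wt2 w z = 1 := by
  unfold wt2
  rw [Fintype.sum_prod_type]
  simp only [← Finset.mul_sum, hf_sum, mul_one]
  exact hw1

/-- the product tilt -/
noncomputable def tlt (u : Ω → X → ℝ) (ζ : ℕ → Ω × Bool) (K : ℕ) (x : X) : ℝ :=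
  ∏ k ∈ range K, (1 + sg (ζ k).2 * u (ζ k).1 x / 2)

theorem tlt_succ (u : Ω → X → ℝ) (ζ : ℕ → Ω × Bool) (K : ℕ) (z : Ω × Bool) (x : X) :
    tlt u (Function.update ζ K z) (K + 1) x = tlt u ζ K x * (1 + sg z.2 * u z.1 x / 2) := by
  unfold tlt
  rw [Finset.prod_range_succ, Function.update_self]
  congr 1
  apply Finset.prod_congr rfl
  intro k hk
  rw [Function.update_of_ne (by have := Finset.mem_range.mp hk; omega)]

theorem tlt_fac {u : Ω → X → ℝ} (hu : ∀ k x, |u k x| ≤ 1) (z : Ω × Bool) (x : X) :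
    1 / 2 ≤ 1 + sg z.2 * u z.1 x / 2 ∧ 1 + sg z.2 * u z.1 x / 2 ≤ 3 / 2 := by
  have h1 : |sg z.2 * u z.1 x| ≤ 1 := by
    rw [abs_mul, sg_abs, one_mul]
    exact hu _ _
  have h2 := abs_le.mp h1
  constructor <;> linarith [h2.1, h2.2]

theorem tlt_pos {u : Ω → X → ℝ} (hu : ∀ k x, |u k x| ≤ 1) (ζ : ℕ → Ω × Bool) (K : ℕ) (x : X) :
    0 < tlt u ζ K x := by
  unfold tlt
  apply Finset.prod_pos
  intro k _
  linarith [(tlt_fac hu (ζ k) x).1]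

theorem tlt_le {u : Ω → X → ℝ} (hu : ∀ k x, |u k x| ≤ 1) (ζ : ℕ → Ω × Bool) (K : ℕ) (x : X) :
    tlt u ζ K x ≤ (3 / 2) ^ K := by
  unfold tlt
  calc ∏ k ∈ range K, (1 + sg (ζ k).2 * u (ζ k).1 x / 2) ≤ ∏ k ∈ range K, (3 / 2 : ℝ) := by
        apply Finset.prod_le_prod
        · intro k _
          linarith [(tlt_fac hu (ζ k) x).1]
        · intro k _
          exact (tlt_fac hu (ζ k) x).2
    _ = _ := by rw [Finset.prod_const, card_range]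

theorem av_tlt2 {w : Ω → ℝ} (hw1 : ∑ o, w o = 1) (u : Ω → X → ℝ) (v : Ω → Y → ℝ) (K : ℕ) (x : X)
    (y : Y) : av (wt2 w) K (fun ζ => tlt u ζ K x * tlt v ζ K y) = (1 + kW w u v x y / 4) ^ K := by
  induction K with
  | zero =>
    rw [av_zero]
    simp [tlt]
  | succ K ih =>
    rw [av_succ]
    have h1 : ∀ z : Ω × Bool, (fun ζ => tlt u (Function.update ζ K z) (K + 1) x *
        tlt v (Function.update ζ K z) (K + 1) y) = fun ζ =>
        ((1 + sg z.2 * u z.1 x / 2) * (1 + sg z.2 * v z.1 y / 2)) * (tlt u ζ K x * tlt v ζ K y) := by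
      intro z
      funext ζ
      rw [tlt_succ, tlt_succ]
      ring
    simp only [h1, av_smul, ih]
    simp only [← mul_assoc]
    rw [← Finset.sum_mul, pow_succ, mul_comm ((1 + kW w u v x y / 4) ^ K)]
    congr 1
    rw [Fintype.sum_prod_type]
    have h2 : ∀ o : Ω, ∑ b : Bool, wt2 w (o, b) * (1 + sg (o, b).2 * u (o, b).1 x / 2) *
        (1 + sg (o, b).2 * v (o, b).1 y / 2) = w o + w o * (u o x * v o y) / 4 := by
      intro o
      simp [wt2, hf, sg]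
      ring
    simp only [h2]
    rw [Finset.sum_add_distrib, hw1, ← Finset.sum_div]
    rfl

theorem av_tlt1 {w : Ω → ℝ} (hw1 : ∑ o, w o = 1) (u : Ω → X → ℝ) (K : ℕ) (x : X) :
    av (wt2 w) K (fun ζ => tlt u ζ K x) = 1 := by
  have h := av_tlt2 hw1 u (fun (_ : Ω) (_ : Unit) => (0 : ℝ)) K x ()
  have h1 : (fun ζ : ℕ → Ω × Bool => tlt u ζ K x *
      tlt (fun (_ : Ω) (_ : Unit) => (0 : ℝ)) ζ K ()) = fun ζ => tlt u ζ K x := by
    funext ζ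
    simp [tlt]
  rw [h1] at h
  rw [h]
  simp [kW]

/-- the normaliser -/
noncomputable def nrmz (μ : X → ℝ) (f : X → ℝ) : ℝ := ∑ x, μ x * f x

theorem nrmz_pos {μ : X → ℝ} (hμ : IsPr μ) {f : X → ℝ} (hf0 : ∀ x, 0 < f x) : 0 < nrmz μ f := by
  unfold nrmz
  have h1 : ∃ x, 0 < μ x := by
    by_contra hcon
    push Not at hcon
    have h2 : ∑ x, μ x ≤ 0 := Finset.sum_nonpos fun x _ => hcon x
    rw [hμ.sum] at h2
    linarith
  obtain ⟨x, hx⟩ := h1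
  exact Finset.sum_pos' (fun x _ => mul_nonneg (hμ.nonneg x) (hf0 x).le)
    ⟨x, Finset.mem_univ x, mul_pos hx (hf0 x)⟩

theorem tilt_pr {μ : X → ℝ} (hμ : IsPr μ) {f : X → ℝ} (hf0 : ∀ x, 0 < f x) :
    IsPr (fun x => μ x * f x / nrmz μ f) := by
  have h := nrmz_pos hμ hf0
  constructor
  · intro x
    exact div_nonneg (mul_nonneg (hμ.nonneg x) (hf0 x).le) h.le
  · rw [← Finset.sum_div]
    exact div_self h.ne'

theorem tilt_KL {μ : X → ℝ} (hμ : IsPr μ) {f : X → ℝ} (hf0 : ∀ x, 0 < f x) {K : ℕ}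
    (hfK : ∀ x, f x ≤ (3 / 2) ^ K) :
    nrmz μ f * KL (fun x => μ x * f x / nrmz μ f) μ ≤ nrmz μ f * (K / 2) + 1 := by
  set a := nrmz μ f with ha
  have hpos : 0 < a := nrmz_pos hμ hf0
  have hlog : Real.log (3 / 2) ≤ 1 / 2 := by
    have := Real.log_le_sub_one_of_pos (by norm_num : (0 : ℝ) < 3 / 2)
    linarith
  have h1 : KL (fun x => μ x * f x / a) μ ≤ K / 2 + Real.log (1 / a) := by
    have h2 : ∀ x, (μ x * f x / a) * Real.log ((μ x * f x / a) / μ x) ≤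
        (μ x * f x / a) * (K / 2 + Real.log (1 / a)) := by
      intro x
      rcases eq_or_lt_of_le (hμ.nonneg x) with h3 | h3
      · simp [← h3]
      · apply mul_le_mul_of_nonneg_left _ ((tilt_pr hμ hf0).nonneg x)
        have h4 : (μ x * f x / a) / μ x = f x * (1 / a) := by
          field_simp
        rw [h4, Real.log_mul (hf0 x).ne' (by positivity)]
        have h5 : Real.log (f x) ≤ K * Real.log (3 / 2) := by
          rw [← Real.log_pow]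
          exact Real.log_le_log (hf0 x) (hfK x)
        have h6 : (K : ℝ) * Real.log (3 / 2) ≤ K * (1 / 2) :=
          mul_le_mul_of_nonneg_left hlog (by positivity)
        linarith
    calc KL (fun x => μ x * f x / a) μ ≤ ∑ x, (μ x * f x / a) * (K / 2 + Real.log (1 / a)) :=
          Finset.sum_le_sum fun x _ => h2 x
      _ = _ := by rw [← Finset.sum_mul, (tilt_pr hμ hf0).sum, one_mul]
  have h2 : a * Real.log (1 / a) ≤ 1 := by
    have h3 := Real.log_le_sub_one_of_pos (by positivity : (0 : ℝ) < 1 / a)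
    calc a * Real.log (1 / a) ≤ a * (1 / a - 1) := mul_le_mul_of_nonneg_left h3 hpos.le
      _ = 1 - a := by field_simp
      _ ≤ 1 := by linarith
  calc a * KL (fun x => μ x * f x / a) μ ≤ a * (K / 2 + Real.log (1 / a)) :=
        mul_le_mul_of_nonneg_left h1 hpos.le
    _ ≤ _ := by
      rw [mul_add]
      linarith

/-- the ensemble of tilts -/
noncomputable def tiltE {μ : X → ℝ} {ν : Y → ℝ} (hμ : IsPr μ) (hν : IsPr ν)
    {w : Ω → ℝ} (hw : ∀ o, 0 ≤ w o) {u : Ω → X → ℝ} (hu : ∀ k x, |u k x| ≤ 1)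
    {v : Ω → Y → ℝ} (hv : ∀ k y, |v k y| ≤ 1) (K : ℕ) : Ens X Y where
  I := Fin K → Ω × Bool
  fin := inferInstance
  w := fun ζ => (∏ i, wt2 w (ζ i)) * (nrmz μ (tlt u (ext ζ) K) * nrmz ν (tlt v (ext ζ) K))
  p := fun ζ x => μ x * tlt u (ext ζ) K x / nrmz μ (tlt u (ext ζ) K)
  q := fun ζ y => ν y * tlt v (ext ζ) K y / nrmz ν (tlt v (ext ζ) K)
  nonneg := fun ζ => mul_nonneg (Finset.prod_nonneg fun i _ => wt2_nonneg hw _)
    (mul_nonneg (nrmz_pos hμ (tlt_pos hu _ _)).le (nrmz_pos hν (tlt_pos hv _ _)).le)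
  prp := fun ζ => tilt_pr hμ (tlt_pos hu _ _)
  prq := fun ζ => tilt_pr hν (tlt_pos hv _ _)

theorem tiltE_bar {μ : X → ℝ} {ν : Y → ℝ} (hμ : IsPr μ) (hν : IsPr ν)
    {w : Ω → ℝ} (hw : ∀ o, 0 ≤ w o) (hw1 : ∑ o, w o = 1) {u : Ω → X → ℝ}
    (hu : ∀ k x, |u k x| ≤ 1) {v : Ω → Y → ℝ} (hv : ∀ k y, |v k y| ≤ 1) (K : ℕ) :
    (tiltE hμ hν hw hu hv K).Bar
      (fun x y => μ x * ν y * (1 + kW w u v x y / 4) ^ K) := by
  intro x y
  show _ = μ x * ν y * (1 + kW w u v x y / 4) ^ K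
  rw [← av_tlt2 hw1 u v K x y, ← av_smul]
  unfold Ens.ex av
  change ∑ ζ : Fin K → Ω × Bool, _ = _
  apply Finset.sum_congr rfl
  intro ζ _
  simp only [tiltE]
  have h1 := (nrmz_pos hμ (tlt_pos hu (ext ζ) K)).ne'
  have h2 := (nrmz_pos hν (tlt_pos hv (ext ζ) K)).ne'
  field_simp

theorem tiltE_ac {μ : X → ℝ} {ν : Y → ℝ} (hμ : IsPr μ) (hν : IsPr ν)
    {w : Ω → ℝ} (hw : ∀ o, 0 ≤ w o) {u : Ω → X → ℝ} (hu : ∀ k x, |u k x| ≤ 1)
    {v : Ω → Y → ℝ} (hv : ∀ k y, |v k y| ≤ 1) (K : ℕ) :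
    (tiltE hμ hν hw hu hv K).Ac μ ν :=
  ⟨fun ζ x hx => by simp [tiltE, hx], fun ζ y hy => by simp [tiltE, hy]⟩

theorem av_nrmz {w : Ω → ℝ} (hw1 : ∑ o, w o = 1) {μ : X → ℝ} (hμ : IsPr μ) (u : Ω → X → ℝ)
    (K : ℕ) : av (wt2 w) K (fun ζ => nrmz μ (tlt u ζ K)) = 1 := by
  unfold nrmz
  rw [av_sum]
  have h1 : ∀ x, av (wt2 w) K (fun ζ => μ x * tlt u ζ K x) = μ x := by
    intro x
    rw [av_smul, av_tlt1 hw1, mul_one]
  simp only [h1]
  exact hμ.sum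

theorem tiltE_KL {μ : X → ℝ} {ν : Y → ℝ} (hμ : IsPr μ) (hν : IsPr ν)
    {w : Ω → ℝ} (hw : ∀ o, 0 ≤ w o) (hw1 : ∑ o, w o = 1) {u : Ω → X → ℝ}
    (hu : ∀ k x, |u k x| ≤ 1) {v : Ω → Y → ℝ} (hv : ∀ k y, |v k y| ≤ 1) (K : ℕ) :
    (tiltE hμ hν hw hu hv K).ex (fun p q => KL p μ + KL q ν) ≤
      K * (∑ i, (tiltE hμ hν hw hu hv K).w i) + 2 := by
  have h1 : ∀ ζ : Fin K → Ω × Bool,
      ((∏ i, wt2 w (ζ i)) * (nrmz μ (tlt u (ext ζ) K) * nrmz ν (tlt v (ext ζ) K))) *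
      (KL (fun x => μ x * tlt u (ext ζ) K x / nrmz μ (tlt u (ext ζ) K)) μ +
        KL (fun y => ν y * tlt v (ext ζ) K y / nrmz ν (tlt v (ext ζ) K)) ν) ≤
      K * ((∏ i, wt2 w (ζ i)) * (nrmz μ (tlt u (ext ζ) K) * nrmz ν (tlt v (ext ζ) K))) +
      ((∏ i, wt2 w (ζ i)) * nrmz ν (tlt v (ext ζ) K) +
        (∏ i, wt2 w (ζ i)) * nrmz μ (tlt u (ext ζ) K)) := by
    intro ζ
    set a := nrmz μ (tlt u (ext ζ) K) with ha
    set b := nrmz ν (tlt v (ext ζ) K) with hb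
    have hapos : 0 < a := nrmz_pos hμ (tlt_pos hu _ _)
    have hbpos : 0 < b := nrmz_pos hν (tlt_pos hv _ _)
    have hW : 0 ≤ ∏ i, wt2 w (ζ i) := Finset.prod_nonneg fun i _ => wt2_nonneg hw _
    have h2 := tilt_KL hμ (tlt_pos hu (ext ζ) K) (tlt_le hu (ext ζ) K)
    have h3 := tilt_KL hν (tlt_pos hv (ext ζ) K) (tlt_le hv (ext ζ) K)
    rw [← ha] at h2
    rw [← hb] at h3
    have h4 := mul_le_mul_of_nonneg_left h2 (mul_nonneg hW hbpos.le)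
    have h5 := mul_le_mul_of_nonneg_left h3 (mul_nonneg hW hapos.le)
    calc _ = (∏ i, wt2 w (ζ i)) * b * (a * KL (fun x => μ x * tlt u (ext ζ) K x / a) μ) +
          (∏ i, wt2 w (ζ i)) * a * (b * KL (fun y => ν y * tlt v (ext ζ) K y / b) ν) := by ring
      _ ≤ (∏ i, wt2 w (ζ i)) * b * (a * (K / 2) + 1) +
          (∏ i, wt2 w (ζ i)) * a * (b * (K / 2) + 1) := add_le_add h4 h5
      _ = _ := by ring
  have h2 : (∑ ζ : Fin K → Ω × Bool, (∏ i, wt2 w (ζ i)) * nrmz ν (tlt v (ext ζ) K)) = 1 :=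
    av_nrmz hw1 hν v K
  have h3 : (∑ ζ : Fin K → Ω × Bool, (∏ i, wt2 w (ζ i)) * nrmz μ (tlt u (ext ζ) K)) = 1 :=
    av_nrmz hw1 hμ u K
  calc (tiltE hμ hν hw hu hv K).ex (fun p q => KL p μ + KL q ν) = ∑ ζ : Fin K → Ω × Bool,
      ((∏ i, wt2 w (ζ i)) * (nrmz μ (tlt u (ext ζ) K) * nrmz ν (tlt v (ext ζ) K))) *
      (KL (fun x => μ x * tlt u (ext ζ) K x / nrmz μ (tlt u (ext ζ) K)) μ +
        KL (fun y => ν y * tlt v (ext ζ) K y / nrmz ν (tlt v (ext ζ) K)) ν) := rfl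
    _ ≤ ∑ ζ : Fin K → Ω × Bool,
      (K * ((∏ i, wt2 w (ζ i)) * (nrmz μ (tlt u (ext ζ) K) * nrmz ν (tlt v (ext ζ) K))) +
      ((∏ i, wt2 w (ζ i)) * nrmz ν (tlt v (ext ζ) K) +
        (∏ i, wt2 w (ζ i)) * nrmz μ (tlt u (ext ζ) K))) := Finset.sum_le_sum fun ζ _ => h1 ζ
    _ = K * (∑ ζ : Fin K → Ω × Bool, ((∏ i, wt2 w (ζ i)) *
        (nrmz μ (tlt u (ext ζ) K) * nrmz ν (tlt v (ext ζ) K)))) + 2 := by
      rw [Finset.sum_add_distrib, Finset.sum_add_distrib, h2, h3, ← Finset.mul_sum]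
      norm_num
    _ = _ := rfl

/-- the ensemble: `K` rounds of tilting, then `K'` rounds of revealing -/
noncomputable def trE {μ : X → ℝ} {ν : Y → ℝ} (hμ : IsPr μ) (hν : IsPr ν)
    {w : Ω → ℝ} (hw : ∀ o, 0 ≤ w o) {u : Ω → X → ℝ} (hu : ∀ k x, |u k x| ≤ 1)
    {v : Ω → Y → ℝ} (hv : ∀ k y, |v k y| ≤ 1) (K K' : ℕ) : Ens X Y :=
  (tiltE hμ hν hw hu hv K).bind fun i =>
    revE ((tiltE hμ hν hw hu hv K).prp i) ((tiltE hμ hν hw hu hv K).prq i) hw hu hv K'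

theorem trE_bar {μ : X → ℝ} {ν : Y → ℝ} (hμ : IsPr μ) (hν : IsPr ν)
    {w : Ω → ℝ} (hw : ∀ o, 0 ≤ w o) (hw1 : ∑ o, w o = 1) {u : Ω → X → ℝ}
    (hu : ∀ k x, |u k x| ≤ 1) {v : Ω → Y → ℝ} (hv : ∀ k y, |v k y| ≤ 1) (K : ℕ) {K' : ℕ}
    (hK : 0 < K') :
    (trE hμ hν hw hu hv K K').Bar (fun x y => μ x * ν y * (1 + kW w u v x y / 4) ^ K) := by
  intro x y
  unfold trE
  rw [Ens.bind_ex]
  have h1 : ∀ i, (revE ((tiltE hμ hν hw hu hv K).prp i) ((tiltE hμ hν hw hu hv K).prq i)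
      hw hu hv K').ex (fun p q => p x * q y) =
      (tiltE hμ hν hw hu hv K).p i x * (tiltE hμ hν hw hu hv K).q i y := fun i =>
    revE_bar _ _ hw hw1 hu hv hK x y
  simp only [h1]
  exact tiltE_bar hμ hν hw hw1 hu hv K x y

theorem trE_ac {μ : X → ℝ} {ν : Y → ℝ} (hμ : IsPr μ) (hν : IsPr ν)
    {w : Ω → ℝ} (hw : ∀ o, 0 ≤ w o) {u : Ω → X → ℝ} (hu : ∀ k x, |u k x| ≤ 1)
    {v : Ω → Y → ℝ} (hv : ∀ k y, |v k y| ≤ 1) (K K' : ℕ) :
    (trE hμ hν hw hu hv K K').Ac μ ν := by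
  constructor
  · rintro ⟨i, j⟩ x hx
    exact (revE_ac ((tiltE hμ hν hw hu hv K).prp i) ((tiltE hμ hν hw hu hv K).prq i)
      hw hu hv K').1 j x ((tiltE_ac hμ hν hw hu hv K).1 i x hx)
  · rintro ⟨i, j⟩ y hy
    exact (revE_ac ((tiltE hμ hν hw hu hv K).prp i) ((tiltE hμ hν hw hu hv K).prq i)
      hw hu hv K').2 j y ((tiltE_ac hμ hν hw hu hv K).2 i y hy)

theorem trE_KL {μ : X → ℝ} {ν : Y → ℝ} (hμ : IsPr μ) (hν : IsPr ν)
    {w : Ω → ℝ} (hw : ∀ o, 0 ≤ w o) (hw1 : ∑ o, w o = 1) {u : Ω → X → ℝ}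
    (hu : ∀ k x, |u k x| ≤ 1) {v : Ω → Y → ℝ} (hv : ∀ k y, |v k y| ≤ 1) (K : ℕ) {K' : ℕ}
    (hK : 0 < K') :
    (trE hμ hν hw hu hv K K').ex (fun p q => KL p μ + KL q ν) ≤
      (K + K' / 2) * (∑ x, ∑ y, μ x * ν y * (1 + kW w u v x y / 4) ^ K) + 2 := by
  unfold trE
  rw [Ens.bind_ex]
  set E := tiltE hμ hν hw hu hv K with hE
  have h0 := E.tot (tiltE_bar hμ hν hw hw1 hu hv K)
  have h1 := tiltE_KL hμ hν hw hw1 hu hv K
  rw [← hE] at h1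
  calc ∑ i, E.w i * (revE (E.prp i) (E.prq i) hw hu hv K').ex (fun p q => KL p μ + KL q ν)
      ≤ ∑ i, E.w i * (KL (E.p i) μ + KL (E.q i) ν + K' / 2) := by
        apply Finset.sum_le_sum
        intro i _
        exact mul_le_mul_of_nonneg_left (revE_KL _ _ hw hw1 hu hv hK μ ν) (E.nonneg i)
    _ = E.ex (fun p q => KL p μ + KL q ν) + K' / 2 * ∑ i, E.w i := by
        unfold Ens.ex
        rw [Finset.mul_sum, ← Finset.sum_add_distrib]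
        apply Finset.sum_congr rfl
        intro i _
        ring
    _ ≤ (K * (∑ i, E.w i) + 2) + K' / 2 * ∑ i, E.w i := by linarith
    _ = _ := by
        rw [h0]
        ring

theorem trE_cor {μ : X → ℝ} {ν : Y → ℝ} (hμ : IsPr μ) (hν : IsPr ν) {M : X → Y → ℝ}
    (hM : ∀ x y, |M x y| ≤ 1) {d : ℕ} (hd : 1 ≤ d) (hR : (Matrix.of M).rank ≤ 4 ^ d)
    {w : Ω → ℝ} (hw : ∀ o, 0 ≤ w o) (hw1 : ∑ o, w o = 1) {u : Ω → X → ℝ}
    (hu : ∀ k x, |u k x| ≤ 1) {v : Ω → Y → ℝ} (hv : ∀ k y, |v k y| ≤ 1) (K K' : ℕ) :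
    |(trE hμ hν hw hu hv K K').ex (cor M (kW w u v))| ≤
      32 * (d : ℝ) ^ 2 / K' * (∑ x, ∑ y, μ x * ν y * (1 + kW w u v x y / 4) ^ K) := by
  unfold trE
  rw [Ens.bind_ex]
  set E := tiltE hμ hν hw hu hv K with hE
  have h0 := E.tot (tiltE_bar hμ hν hw hw1 hu hv K)
  calc |∑ i, E.w i * (revE (E.prp i) (E.prq i) hw hu hv K').ex (cor M (kW w u v))|
      ≤ ∑ i, |E.w i * (revE (E.prp i) (E.prq i) hw hu hv K').ex (cor M (kW w u v))| :=
        Finset.abs_sum_le_sum_abs _ _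
    _ ≤ ∑ i, E.w i * (32 * (d : ℝ) ^ 2 / K') := by
        apply Finset.sum_le_sum
        intro i _
        rw [abs_mul, abs_of_nonneg (E.nonneg i)]
        exact mul_le_mul_of_nonneg_left (revE_cor _ _ hM hd hR hw hw1 hu hv K') (E.nonneg i)
    _ = _ := by
        rw [← Finset.sum_mul, h0]
        ring

end Tlt

end Pool.Agent.LR2
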