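import Pool.Agent.Lib_helper59.LR2.BLW
import Pool.Agent.Lib_helper59.LR2.Tilt

/-!
# The bilinear form theorem: the two claims
-/

set_option autoImplicit false
set_option linter.unusedSectionVars false

open Finset

namespace Pool.Agent.LR2

theorem KL_self {X : Type} [Fintype X] (μ : X → ℝ) : KL μ μ = 0 := by
  unfold KL
  apply Finset.sum_eq_zero
  intro x _
  rcases eq_or_ne (μ x) 0 with h | h
  · simp [h]
  · rw [div_self h, Real.log_one, mul_zero]

/-- `(1 + t) ^ K - 1 - K t` -/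
theorem pow_two_term (K : ℕ) (t : ℝ) :
    |(1 + t) ^ K - 1 - K * t| ≤ (1 + |t|) ^ K - 1 - K * |t| := by
  induction K with
  | zero => simp
  | succ K ih =>
    have h1 : (1 + t) ^ (K + 1) - 1 - ((K + 1 : ℕ) : ℝ) * t =
        (1 + t) * ((1 + t) ^ K - 1 - K * t) + K * t ^ 2 := by
      push_cast
      ring
    have h2 : (1 + |t|) ^ (K + 1) - 1 - ((K + 1 : ℕ) : ℝ) * |t| =
        (1 + |t|) * ((1 + |t|) ^ K - 1 - K * |t|) + K * |t| ^ 2 := by
      push_cast
      ring
    rw [h1, h2]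
    have h3 : |1 + t| ≤ 1 + |t| := by
      calc |1 + t| ≤ |(1 : ℝ)| + |t| := abs_add_le _ _
        _ = 1 + |t| := by rw [abs_one]
    calc |(1 + t) * ((1 + t) ^ K - 1 - K * t) + K * t ^ 2|
        ≤ |(1 + t) * ((1 + t) ^ K - 1 - K * t)| + |K * t ^ 2| := abs_add_le _ _
      _ ≤ (1 + |t|) * ((1 + |t|) ^ K - 1 - K * |t|) + K * |t| ^ 2 := by
          apply add_le_add
          · rw [abs_mul]
            exact mul_le_mul h3 ih (abs_nonneg _) (by positivity)
          · rw [sq_abs, abs_of_nonneg (by positivity)]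

theorem exp_two_term {z : ℝ} (hz : 0 ≤ z) : Real.exp z - 1 - z ≤ z ^ 2 * Real.exp z := by
  have h1 : 1 - z ≤ Real.exp (-z) := by
    have := Real.add_one_le_exp (-z)
    linarith
  have h2 : 0 < Real.exp z := Real.exp_pos z
  have h3 : Real.exp (-z) * Real.exp z = 1 := by rw [← Real.exp_add]; simp
  have h4 : (1 - z) * Real.exp z ≤ 1 := by
    calc (1 - z) * Real.exp z ≤ Real.exp (-z) * Real.exp z :=
          mul_le_mul_of_nonneg_right h1 h2.le
      _ = 1 := h3
  have h5 : (1 + z) * ((1 - z) * Real.exp z) ≤ (1 + z) * 1 :=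
    mul_le_mul_of_nonneg_left h4 (by linarith)
  nlinarith

/-- the weight of `K` tilts -/
theorem wt_bound (K : ℕ) (c : ℝ) :
    |(1 + c / 4) ^ K - 1 - K * c / 4| ≤ (K * c / 4) ^ 2 * Real.exp (|K * c / 4|) := by
  have h1 := pow_two_term K (c / 4)
  have h2 : (1 + |c / 4|) ^ K ≤ Real.exp (K * |c / 4|) := by
    rw [Real.exp_nat_mul]
    apply pow_le_pow_left₀ (by positivity)
    have := Real.add_one_le_exp (|c / 4|)
    linarith
  have h3 := exp_two_term (show 0 ≤ (K : ℝ) * |c / 4| by positivity)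
  have h4 : |(K : ℝ) * c / 4| = K * |c / 4| := by
    rw [mul_div_assoc, abs_mul, abs_of_nonneg (by positivity : (0 : ℝ) ≤ K)]
  have h5 : ((K : ℝ) * c / 4) ^ 2 = (K * |c / 4|) ^ 2 := by
    rw [← sq_abs, h4]
  rw [h4, h5]
  calc |(1 + c / 4) ^ K - 1 - K * c / 4| = |(1 + c / 4) ^ K - 1 - K * (c / 4)| := by
        congr 1
        ring
    _ ≤ (1 + |c / 4|) ^ K - 1 - K * |c / 4| := h1
    _ ≤ Real.exp (K * |c / 4|) - 1 - K * |c / 4| := by linarith
    _ ≤ _ := h3

section B

variable {X Y Ω : Type} [Fintype X] [Fintype Y] [Fintype Ω] [Inhabited Ω]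

theorem cor_smul (M W : X → Y → ℝ) (c : ℝ) (p : X → ℝ) (q : Y → ℝ) :
    cor M (fun x y => c * W x y) p q = c * cor M W p q := by
  unfold cor
  rw [Finset.mul_sum]
  apply Finset.sum_congr rfl
  intro x _
  rw [Finset.mul_sum]
  apply Finset.sum_congr rfl
  intro y _
  have h : ctr p q (fun x y => c * W x y) x y = c * ctr p q W x y := by
    unfold ctr
    have h1 : ∑ x', p x' * (c * W x' y) = c * ∑ x', p x' * W x' y := by
      rw [Finset.mul_sum]
      apply Finset.sum_congr rfl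
      intro i _
      ring
    have h2 : ∑ y', q y' * (c * W x y') = c * ∑ y', q y' * W x y' := by
      rw [Finset.mul_sum]
      apply Finset.sum_congr rfl
      intro i _
      ring
    have h3 : ∑ x', ∑ y', p x' * q y' * (c * W x' y') = c * ∑ x', ∑ y', p x' * q y' * W x' y' :=
      em_smul p q c W
    rw [h1, h2, h3]
    ring
  rw [h]
  ring

theorem em_mono {p : X → ℝ} {q : Y → ℝ} (hp : IsPr p) (hq : IsPr q) {M N : X → Y → ℝ}
    (h : ∀ x y, M x y ≤ N x y) : em p q M ≤ em p q N := by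
  unfold em
  apply Finset.sum_le_sum
  intro x _
  apply Finset.sum_le_sum
  intro y _
  exact mul_le_mul_of_nonneg_left (h x y) (mul_nonneg (hp.nonneg x) (hq.nonneg y))

theorem em_abs_le {p : X → ℝ} {q : Y → ℝ} (hp : IsPr p) (hq : IsPr q) {M N : X → Y → ℝ}
    (h : ∀ x y, |M x y| ≤ N x y) : |em p q M| ≤ em p q N := by
  rw [abs_le]
  constructor
  · have h1 := em_mono hp hq (M := fun x y => (-1) * N x y) (N := M) (fun x y => by
      have := (abs_le.mp (h x y)).1
      linarith)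
    rw [em_smul] at h1
    linarith
  · exact em_mono hp hq fun x y => (abs_le.mp (h x y)).2

/-- first claim: the bilinear form `E (M - U) W` -/
theorem blw_one {μ : X → ℝ} {ν : Y → ℝ} (hμ : IsPr μ) (hν : IsPr ν) {M : X → Y → ℝ}
    (hM : ∀ x y, |M x y| ≤ 1) {d : ℕ} (hd : 1 ≤ d) (hR : (Matrix.of M).rank ≤ 4 ^ d)
    {U A B : ℝ} (hU1 : |U| ≤ 1) (hA : 0 ≤ A) (hB : 0 ≤ B) (hU : UPR μ ν M U A B)
    {δ : ℝ} (hδ : U - em μ ν M ≤ δ)
    {w : Ω → ℝ} (hw : ∀ o, 0 ≤ w o) (hw1 : ∑ o, w o = 1)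
    {u : Ω → X → ℝ} (hu : ∀ k x, |u k x| ≤ 1) {v : Ω → Y → ℝ} (hv : ∀ k y, |v k y| ≤ 1)
    {Θ : ℝ} (hΘ : 0 ≤ Θ) {K' : ℕ} (hK' : 0 < K') {T : ℝ} (hT : 0 < T) :
    |em μ ν (fun x y => (M x y - U) * (Θ * kW w u v x y))| ≤
      32 * (d : ℝ) ^ 2 * Θ / K' + 3 * T * (2 * (A + 2 * B + B * (K' / 2)) + δ) +
      6 / T ^ 7 * em μ ν (fun x y => (Θ * kW w u v x y) ^ 8) := by
  set W : X → Y → ℝ := fun x y => Θ * kW w u v x y with hW
  set E := revE hμ hν hw hu hv K' with hE
  have hbar : E.Bar (fun x y => μ x * ν y) := revE_bar hμ hν hw hw1 hu hv hK'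
  have h1 := ens_bound hμ hν hM hU1 hA hB hU E hbar (revE_ac hμ hν hw hu hv K') W hT
  have h2 : ∑ x, ∑ y, μ x * ν y * ((M x y - U) * W x y) =
      em μ ν (fun x y => (M x y - U) * W x y) := rfl
  have h3 : ∑ x, ∑ y, μ x * ν y = 1 := by
    have := em_const hμ hν 1
    unfold em at this
    simpa using this
  have h4 : ∑ x, ∑ y, μ x * ν y * (U - M x y) = U - em μ ν M := by
    have h5 : (fun x y => U - M x y) = fun x y => U + (-1) * M x y := by
      funext x y
      ring
    change em μ ν (fun x y => U - M x y) = _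
    rw [h5, em_add, em_smul, em_const hμ hν]
    ring
  have h5 : E.ex (fun p q => KL p μ + KL q ν) ≤ K' / 2 := by
    have := revE_KL hμ hν hw hw1 hu hv hK' μ ν
    rw [KL_self, KL_self] at this
    linarith
  have h6 : |E.ex (cor M W)| ≤ 32 * (d : ℝ) ^ 2 * Θ / K' := by
    have h7 : cor M W = fun p q => Θ * cor M (kW w u v) p q := by
      funext p q
      exact cor_smul M (kW w u v) Θ p q
    rw [h7, Ens.ex_smul, abs_mul, abs_of_nonneg hΘ]
    have h8 := mul_le_mul_of_nonneg_left (revE_cor hμ hν hM hd hR hw hw1 hu hv K') hΘ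
    calc _ ≤ _ := h8
      _ = _ := by ring
  rw [h2, h3, h4] at h1
  have h9 : |em μ ν (fun x y => (M x y - U) * W x y)| ≤ |E.ex (cor M W)| +
      |em μ ν (fun x y => (M x y - U) * W x y) - E.ex (cor M W)| := by
    have := abs_add_le (E.ex (cor M W)) (em μ ν (fun x y => (M x y - U) * W x y) - E.ex (cor M W))
    simpa using this
  have h10 : 3 * T * (2 * ((A + 2 * B) * 1 + B * E.ex (fun p q => KL p μ + KL q ν)) +
      (U - em μ ν M)) ≤ 3 * T * (2 * (A + 2 * B + B * (K' / 2)) + δ) := by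
    apply mul_le_mul_of_nonneg_left _ (by positivity)
    have := mul_le_mul_of_nonneg_left h5 hB
    linarith
  have h11 : ∑ x, ∑ y, μ x * ν y * W x y ^ 8 = em μ ν (fun x y => W x y ^ 8) := rfl
  rw [h11] at h1
  linarith

/-- second claim: the quadratic form `E (M - U) W ^ 2` -/
theorem blw_two {μ : X → ℝ} {ν : Y → ℝ} (hμ : IsPr μ) (hν : IsPr ν) {M : X → Y → ℝ}
    (hM : ∀ x y, |M x y| ≤ 1) {d : ℕ} (hd : 1 ≤ d) (hR : (Matrix.of M).rank ≤ 4 ^ d)
    {U A B : ℝ} (hU1 : |U| ≤ 1) (hA : 0 ≤ A) (hB : 0 ≤ B) (hU : UPR μ ν M U A B)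
    {δ : ℝ} (hδ : U - em μ ν M ≤ δ)
    {w : Ω → ℝ} (hw : ∀ o, 0 ≤ w o) (hw1 : ∑ o, w o = 1)
    {u : Ω → X → ℝ} (hu : ∀ k x, |u k x| ≤ 1) {v : Ω → Y → ℝ} (hv : ∀ k y, |v k y| ≤ 1)
    {Θ : ℝ} (hΘ : 0 < Θ) (K : ℕ) {K' : ℕ} (hK' : 0 < K') {T : ℝ} (hT : 0 < T) {m b : ℝ}
    (hm : em μ ν (fun x y => (1 + (Θ * kW w u v x y) ^ 8) *
      Real.exp (|K / (4 * Θ) * (Θ * kW w u v x y)|)) ≤ m)
    (hb : |em μ ν (fun x y => (M x y - U) * (Θ * kW w u v x y))| ≤ b) :
    K / (4 * Θ) * |em μ ν (fun x y => (M x y - U) * (Θ * kW w u v x y) ^ 2)| ≤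
      32 * (d : ℝ) ^ 2 * Θ / K' * m +
      3 * T * (2 * ((A + 2 * B) * m + B * ((K + K' / 2) * m + 2)) +
        (δ + K / (4 * Θ) * b + 2 * (K / (4 * Θ)) ^ 2 * m)) +
      6 / T ^ 7 * m + b + 2 * (K / (4 * Θ)) ^ 2 * m := by
  set θ : ℝ := K / (4 * Θ) with hθ
  have hθ0 : 0 ≤ θ := by positivity
  set W : X → Y → ℝ := fun x y => Θ * kW w u v x y with hW
  have hθW : ∀ x y, (K : ℝ) * kW w u v x y / 4 = θ * W x y := by
    intro x y
    rw [hθ, hW]
    field_simp
  set wt : X → Y → ℝ := fun x y => (1 + kW w u v x y / 4) ^ K with hwt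
  have hkW : ∀ x y, |kW w u v x y| ≤ 1 := by
    intro x y
    unfold kW
    calc |∑ o, w o * (u o x * v o y)| ≤ ∑ o, |w o * (u o x * v o y)| :=
          Finset.abs_sum_le_sum_abs _ _
      _ ≤ ∑ o, w o := by
          apply Finset.sum_le_sum
          intro o _
          rw [abs_mul, abs_of_nonneg (hw o), abs_mul]
          exact mul_le_of_le_one_right (hw o) (mul_le_one₀ (hu _ _) (abs_nonneg _) (hv _ _))
      _ = 1 := hw1
  have hwt0 : ∀ x y, 0 ≤ wt x y := by
    intro x y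
    apply pow_nonneg
    have := (abs_le.mp (hkW x y)).1
    linarith
  have hwt1 : ∀ x y, wt x y ≤ Real.exp (|θ * W x y|) := by
    intro x y
    have h1 : wt x y ≤ Real.exp (kW w u v x y / 4) ^ K := by
      apply pow_le_pow_left₀
      · have := (abs_le.mp (hkW x y)).1
        linarith
      · have := Real.add_one_le_exp (kW w u v x y / 4)
        linarith
    rw [← Real.exp_nat_mul] at h1
    refine h1.trans (Real.exp_le_exp.mpr ?_)
    have h2 : (K : ℝ) * (kW w u v x y / 4) = θ * W x y := by rw [← hθW]; ring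
    rw [h2]
    exact le_abs_self _
  have hwt2 : ∀ x y, |wt x y - 1 - θ * W x y| ≤ θ ^ 2 * (W x y ^ 2 * Real.exp (|θ * W x y|)) := by
    intro x y
    have h1 := wt_bound K (kW w u v x y)
    rw [hθW] at h1
    calc _ ≤ _ := h1
      _ = _ := by ring
  have hexp1 : ∀ x y, 0 < Real.exp (|θ * W x y|) := fun x y => Real.exp_pos _
  have hp1 : ∀ t : ℝ, t ^ 2 ≤ 1 + t ^ 8 ∧ |t| ^ 3 ≤ 1 + t ^ 8 := by
    intro t
    have h8 : t ^ 8 = |t| ^ 8 := by rw [← abs_pow, abs_of_nonneg (by positivity)]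
    have h2 : t ^ 2 = |t| ^ 2 := (sq_abs t).symm
    rw [h8, h2]
    have ht := abs_nonneg t
    rcases le_total |t| 1 with h | h
    · have h3 : |t| ^ 2 ≤ 1 := pow_le_one₀ ht h
      have h4 : |t| ^ 3 ≤ 1 := pow_le_one₀ ht h
      have h5 : 0 ≤ |t| ^ 8 := by positivity
      constructor <;> linarith
    · have h3 : |t| ^ 2 ≤ |t| ^ 8 := pow_le_pow_right₀ h (by norm_num)
      have h4 : |t| ^ 3 ≤ |t| ^ 8 := pow_le_pow_right₀ h (by norm_num)
      constructor <;> linarith
  -- moments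
  have m0 : em μ ν wt ≤ m := by
    refine (em_mono hμ hν fun x y => ?_).trans hm
    have h1 := hwt1 x y
    have h2 : 0 ≤ W x y ^ 8 := by positivity
    nlinarith [hexp1 x y]
  have m8 : em μ ν (fun x y => wt x y * W x y ^ 8) ≤ m := by
    refine (em_mono hμ hν fun x y => ?_).trans hm
    have h1 := hwt1 x y
    have h2 : 0 ≤ W x y ^ 8 := by positivity
    nlinarith [hexp1 x y]
  have m2 : em μ ν (fun x y => W x y ^ 2 * Real.exp (|θ * W x y|)) ≤ m := by
    refine (em_mono hμ hν fun x y => ?_).trans hm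
    exact mul_le_mul_of_nonneg_right (hp1 (W x y)).1 (hexp1 x y).le
  have m3 : em μ ν (fun x y => |W x y| ^ 3 * Real.exp (|θ * W x y|)) ≤ m := by
    refine (em_mono hμ hν fun x y => ?_).trans hm
    exact mul_le_mul_of_nonneg_right (hp1 (W x y)).2 (hexp1 x y).le
  have hMU : ∀ x y, |M x y - U| ≤ 2 := by
    intro x y
    calc |M x y - U| ≤ |M x y| + |U| := abs_sub _ _
      _ ≤ 2 := by linarith [hM x y]
  -- the ensemble
  set E := trE hμ hν hw hu hv K K' with hE
  have hbar : E.Bar (fun x y => μ x * ν y * wt x y) := trE_bar hμ hν hw hw1 hu hv K hK'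
  have h1 := ens_bound hμ hν hM hU1 hA hB hU E hbar (trE_ac hμ hν hw hu hv K K') W hT
  have e1 : ∑ x, ∑ y, μ x * ν y * wt x y = em μ ν wt := rfl
  have e2 : ∑ x, ∑ y, μ x * ν y * wt x y * ((M x y - U) * W x y) =
      em μ ν (fun x y => wt x y * ((M x y - U) * W x y)) := by
    unfold em
    apply Finset.sum_congr rfl
    intro x _
    apply Finset.sum_congr rfl
    intro y _
    ring
  have e3 : ∑ x, ∑ y, μ x * ν y * wt x y * (U - M x y) =
      em μ ν (fun x y => wt x y * (U - M x y)) := by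
    unfold em
    apply Finset.sum_congr rfl
    intro x _
    apply Finset.sum_congr rfl
    intro y _
    ring
  have e4 : ∑ x, ∑ y, μ x * ν y * wt x y * W x y ^ 8 =
      em μ ν (fun x y => wt x y * W x y ^ 8) := by
    unfold em
    apply Finset.sum_congr rfl
    intro x _
    apply Finset.sum_congr rfl
    intro y _
    ring
  rw [e1, e2, e3, e4] at h1
  have h5 : E.ex (fun p q => KL p μ + KL q ν) ≤ (K + K' / 2) * m + 2 := by
    have h6 := trE_KL hμ hν hw hw1 hu hv K hK'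
    have h7 : ((K : ℝ) + K' / 2) * em μ ν wt ≤ (K + K' / 2) * m :=
      mul_le_mul_of_nonneg_left m0 (by positivity)
    have h8 : ((K : ℝ) + K' / 2) * (∑ x, ∑ y, μ x * ν y * (1 + kW w u v x y / 4) ^ K) =
      (K + K' / 2) * em μ ν wt := rfl
    rw [h8] at h6
    linarith
  have h6 : |E.ex (cor M W)| ≤ 32 * (d : ℝ) ^ 2 * Θ / K' * m := by
    have h7 : cor M W = fun p q => Θ * cor M (kW w u v) p q := by
      funext p q
      exact cor_smul M (kW w u v) Θ p q
    rw [h7, Ens.ex_smul, abs_mul, abs_of_nonneg hΘ.le]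
    have h8 := mul_le_mul_of_nonneg_left (trE_cor hμ hν hM hd hR hw hw1 hu hv K K') hΘ.le
    have h9 : 32 * (d : ℝ) ^ 2 / K' * (∑ x, ∑ y, μ x * ν y * (1 + kW w u v x y / 4) ^ K) ≤
        32 * (d : ℝ) ^ 2 / K' * m := mul_le_mul_of_nonneg_left m0 (by positivity)
    calc _ ≤ _ := h8
      _ ≤ Θ * (32 * (d : ℝ) ^ 2 / K' * m) := mul_le_mul_of_nonneg_left h9 hΘ.le
      _ = _ := by ring
  -- the mean of the tilted state
  have h7 : em μ ν (fun x y => wt x y * (U - M x y)) ≤ δ + θ * b + 2 * θ ^ 2 * m := by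
    have h8 : (fun x y => wt x y * (U - M x y)) = fun x y =>
        (U + (-1) * M x y) + ((-θ) * ((M x y - U) * W x y) +
          (wt x y - 1 - θ * W x y) * (U - M x y)) := by
      funext x y
      ring
    have h9 : |em μ ν (fun x y => (wt x y - 1 - θ * W x y) * (U - M x y))| ≤ 2 * θ ^ 2 * m := by
      calc _ ≤ em μ ν (fun x y => (2 * θ ^ 2) * (W x y ^ 2 * Real.exp (|θ * W x y|))) := by
            apply em_abs_le hμ hν
            intro x y
            rw [abs_mul]
            have h10 : |U - M x y| ≤ 2 := by rw [abs_sub_comm]; exact hMU x y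
            calc _ ≤ (θ ^ 2 * (W x y ^ 2 * Real.exp (|θ * W x y|))) * 2 :=
                  mul_le_mul (hwt2 x y) h10 (abs_nonneg _) (by
                    have := (hexp1 x y).le
                    positivity)
              _ = _ := by ring
        _ = 2 * θ ^ 2 * em μ ν (fun x y => W x y ^ 2 * Real.exp (|θ * W x y|)) := em_smul _ _ _ _
        _ ≤ _ := mul_le_mul_of_nonneg_left m2 (by positivity)
    rw [h8, em_add, em_add, em_add, em_smul, em_smul, em_const hμ hν]
    have h10 := (abs_le.mp h9).2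
    have h11 : -θ * em μ ν (fun x y => (M x y - U) * W x y) ≤ θ * b := by
      have h12 := (abs_le.mp hb).1
      have h13 := mul_le_mul_of_nonneg_left h12 hθ0
      linarith
    linarith
  -- the quadratic term
  have h8 : em μ ν (fun x y => wt x y * ((M x y - U) * W x y)) =
      em μ ν (fun x y => (M x y - U) * W x y) + (θ * em μ ν (fun x y => (M x y - U) * W x y ^ 2) +
      em μ ν (fun x y => (wt x y - 1 - θ * W x y) * ((M x y - U) * W x y))) := by
    rw [← em_smul, ← em_add, ← em_add]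
    congr 1
    funext x y
    ring
  have h9 : |em μ ν (fun x y => (wt x y - 1 - θ * W x y) * ((M x y - U) * W x y))| ≤
      2 * θ ^ 2 * m := by
    calc _ ≤ em μ ν (fun x y => (2 * θ ^ 2) * (|W x y| ^ 3 * Real.exp (|θ * W x y|))) := by
          apply em_abs_le hμ hν
          intro x y
          rw [abs_mul, abs_mul]
          have h10 : |M x y - U| * |W x y| ≤ 2 * |W x y| :=
            mul_le_mul_of_nonneg_right (hMU x y) (abs_nonneg _)
          calc _ ≤ (θ ^ 2 * (W x y ^ 2 * Real.exp (|θ * W x y|))) * (2 * |W x y|) :=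
                mul_le_mul (hwt2 x y) h10 (by positivity) (by
                  have := (hexp1 x y).le
                  positivity)
            _ = _ := by
              rw [← sq_abs (W x y)]
              ring
      _ = 2 * θ ^ 2 * em μ ν (fun x y => |W x y| ^ 3 * Real.exp (|θ * W x y|)) := em_smul _ _ _ _
      _ ≤ _ := mul_le_mul_of_nonneg_left m3 (by positivity)
  have h10 : |em μ ν (fun x y => wt x y * ((M x y - U) * W x y))| ≤ |E.ex (cor M W)| +
      |em μ ν (fun x y => wt x y * ((M x y - U) * W x y)) - E.ex (cor M W)| := by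
    have := abs_add_le (E.ex (cor M W))
      (em μ ν (fun x y => wt x y * ((M x y - U) * W x y)) - E.ex (cor M W))
    simpa using this
  have h11 : 3 * T * (2 * ((A + 2 * B) * em μ ν wt + B * E.ex (fun p q => KL p μ + KL q ν)) +
      em μ ν (fun x y => wt x y * (U - M x y))) ≤
      3 * T * (2 * ((A + 2 * B) * m + B * ((K + K' / 2) * m + 2)) +
        (δ + θ * b + 2 * θ ^ 2 * m)) := by
    apply mul_le_mul_of_nonneg_left _ (by positivity)
    have h12 := mul_le_mul_of_nonneg_left h5 hB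
    have h13 : (A + 2 * B) * em μ ν wt ≤ (A + 2 * B) * m :=
      mul_le_mul_of_nonneg_left m0 (by positivity)
    linarith
  have h12 : 6 / T ^ 7 * em μ ν (fun x y => wt x y * W x y ^ 8) ≤ 6 / T ^ 7 * m :=
    mul_le_mul_of_nonneg_left m8 (by positivity)
  have h13 : θ * |em μ ν (fun x y => (M x y - U) * W x y ^ 2)| ≤
      |em μ ν (fun x y => wt x y * ((M x y - U) * W x y))| + b + 2 * θ ^ 2 * m := by
    rw [← abs_of_nonneg hθ0, ← abs_mul, abs_of_nonneg hθ0]
    have h14 : θ * em μ ν (fun x y => (M x y - U) * W x y ^ 2) =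
        em μ ν (fun x y => wt x y * ((M x y - U) * W x y)) -
        em μ ν (fun x y => (M x y - U) * W x y) -
        em μ ν (fun x y => (wt x y - 1 - θ * W x y) * ((M x y - U) * W x y)) := by
      rw [h8]
      ring
    rw [h14]
    calc _ ≤ |em μ ν (fun x y => wt x y * ((M x y - U) * W x y)) -
        em μ ν (fun x y => (M x y - U) * W x y)| +
        |em μ ν (fun x y => (wt x y - 1 - θ * W x y) * ((M x y - U) * W x y))| := abs_sub _ _
      _ ≤ (|em μ ν (fun x y => wt x y * ((M x y - U) * W x y))| +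
        |em μ ν (fun x y => (M x y - U) * W x y)|) +
        |em μ ν (fun x y => (wt x y - 1 - θ * W x y) * ((M x y - U) * W x y))| := by
          gcongr
          exact abs_sub _ _
      _ ≤ _ := by linarith
  linarith

end B

end Pool.Agent.LR2
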