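import Pool.Agent.Lib_helper59.LR2.Freeze

/-!
# The extremal state: definitions and existence of the maximiser
-/

set_option autoImplicit false
set_option linter.unusedSectionVars false

open Finset Matrix

namespace Pool.Agent.LR2

section Defs

variable {X Y : Type} [Fintype X] [Fintype Y] {n : ℕ}

/-- products of matrices -/
def chn (Z : ℕ → Matrix (Fin n) (Fin n) ℝ) : ℕ → Matrix (Fin n) (Fin n) ℝ
  | 0 => 1
  | k + 1 => chn Z k * Z k

theorem chn_congr {Z Z' : ℕ → Matrix (Fin n) (Fin n) ℝ} {k : ℕ} (h : ∀ j < k, Z j = Z' j) :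
    chn Z k = chn Z' k := by
  induction k with
  | zero => rfl
  | succ k ih =>
    show chn Z k * Z k = chn Z' k * Z' k
    rw [ih fun j hj => h j (by omega), h k (by omega)]

/-- a factorisation of a kernel up to row and column functions -/
structure Fac (X Y : Type) (n : ℕ) where
  p : X → ℝ
  q : Y → ℝ
  a : X → Fin n → ℝ
  b : Y → Fin n → ℝ
  Z : ℕ → Matrix (Fin n) (Fin n) ℝ

/-- squared length -/
def nsq (v : Fin n → ℝ) : ℝ := ∑ i, v i ^ 2

/-- squared Frobenius norm -/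
def fro (Z : Matrix (Fin n) (Fin n) ℝ) : ℝ := ∑ i, ∑ j, Z i j ^ 2

theorem nsq_nonneg (v : Fin n → ℝ) : 0 ≤ nsq v := Finset.sum_nonneg fun _ _ => sq_nonneg _

theorem fro_nonneg (Z : Matrix (Fin n) (Fin n) ℝ) : 0 ≤ fro Z :=
  Finset.sum_nonneg fun _ _ => Finset.sum_nonneg fun _ _ => sq_nonneg _

/-- the bilinear part of a factorisation -/
def Fac.bil (F : Fac X Y n) (m : ℕ) (x : X) (y : Y) : ℝ := F.a x ⬝ᵥ (chn F.Z m *ᵥ F.b y)

/-- `F` is a factorisation of `M` on the supports of `α` and `β` -/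
def Fac.Val (F : Fac X Y n) (m : ℕ) (M : X → Y → ℝ) (α : X → ℝ) (β : Y → ℝ) : Prop :=
  ∀ x y, α x ≠ 0 → β y ≠ 0 → M x y = F.p x + F.q y + F.bil m x y

/-- the cost of a factorisation -/
noncomputable def Fac.cost (F : Fac X Y n) (m : ℕ) (α : X → ℝ) (β : Y → ℝ) : ℝ :=
  (∑ x, α x * nsq (F.a x) + ∑ j ∈ range m, fro (F.Z j) + ∑ y, β y * nsq (F.b y)) / (m + 2)

/-- maximum -/
noncomputable def mx [Nonempty X] (f : X → ℝ) : ℝ := Finset.univ.sup' Finset.univ_nonempty f

theorem le_mx [Nonempty X] (f : X → ℝ) (x : X) : f x ≤ mx f :=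
  Finset.le_sup' f (Finset.mem_univ x)

theorem mx_le [Nonempty X] {f : X → ℝ} {c : ℝ} (h : ∀ x, f x ≤ c) : mx f ≤ c :=
  Finset.sup'_le _ _ fun x _ => h x

/-- logarithm of the supremum of the density -/
noncomputable def DD [Nonempty X] (μ₀ α : X → ℝ) : ℝ := Real.log (mx fun x => α x / μ₀ x)

/-- positive probability vector -/
structure IsPos (μ : X → ℝ) : Prop where
  pos : ∀ x, 0 < μ x
  sum : ∑ x, μ x = 1

theorem one_le_mx [Nonempty X] {μ₀ α : X → ℝ} (hμ : IsPos μ₀) (hα : IsPr α) :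
    1 ≤ mx fun x => α x / μ₀ x := by
  by_contra h
  push Not at h
  have h1 : ∀ x, α x ≤ (mx fun x => α x / μ₀ x) * μ₀ x := by
    intro x
    have := le_mx (fun x => α x / μ₀ x) x
    rwa [div_le_iff₀ (hμ.pos x)] at this
  have h2 : ∑ x, α x ≤ ∑ x, (mx fun x => α x / μ₀ x) * μ₀ x := Finset.sum_le_sum fun x _ => h1 x
  rw [← Finset.mul_sum, hμ.sum, hα.sum, mul_one] at h2
  linarith

theorem DD_nonneg [Nonempty X] {μ₀ α : X → ℝ} (hμ : IsPos μ₀) (hα : IsPr α) : 0 ≤ DD μ₀ α :=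
  Real.log_nonneg (one_le_mx hμ hα)

theorem DD_le [Nonempty X] {μ₀ α α' : X → ℝ} (hμ : IsPos μ₀) (hα : IsPr α) (hα' : IsPr α') {s : ℝ}
    (h : ∀ x, α' x ≤ Real.exp s * α x) : DD μ₀ α' ≤ DD μ₀ α + s := by
  unfold DD
  have h1 := one_le_mx hμ hα
  have h2 := one_le_mx hμ hα'
  rw [← Real.log_exp s, ← Real.log_mul (by linarith) (Real.exp_pos s).ne']
  apply Real.log_le_log (by linarith)
  apply mx_le
  intro x
  have h3 := le_mx (fun x => α x / μ₀ x) x
  calc α' x / μ₀ x ≤ (Real.exp s * α x) / μ₀ x := by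
        have := (hμ.pos x).le
        gcongr
        exact h x
    _ = (α x / μ₀ x) * Real.exp s := by ring
    _ ≤ _ := mul_le_mul_of_nonneg_right h3 (Real.exp_pos s).le

/-- `α ≤ exp (DD μ₀ α) μ₀` -/
theorem le_DD [Nonempty X] {μ₀ α : X → ℝ} (hμ : IsPos μ₀) (hα : IsPr α) (x : X) :
    α x ≤ Real.exp (DD μ₀ α) * μ₀ x := by
  unfold DD
  rw [Real.exp_log (by linarith [one_le_mx hμ hα])]
  have := le_mx (fun x => α x / μ₀ x) x
  rwa [div_le_iff₀ (hμ.pos x)] at this

/-- the functional -/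
noncomputable def Xi [Nonempty X] [Nonempty Y] (M : X → Y → ℝ) (μ₀ : X → ℝ) (ν₀ : Y → ℝ)
    (lam Lam : ℝ) (m : ℕ) (α : X → ℝ) (β : Y → ℝ) (F : Fac X Y n) : ℝ :=
  em α β M - lam * (DD μ₀ α + DD ν₀ β) - Lam * F.cost m α β

/-- the kernel centred in the state -/
noncomputable def ctd (α : X → ℝ) (β : Y → ℝ) (M : X → Y → ℝ) (x : X) (y : Y) : ℝ :=
  M x y - rmean β M x - cmean α M y + em α β M

end Defs

section Center

variable {X Y : Type} [Fintype X] [Fintype Y] {n : ℕ}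

theorem dot_sub_mulVec (C : Matrix (Fin n) (Fin n) ℝ) (a a' b b' : Fin n → ℝ) :
    (a - a') ⬝ᵥ (C *ᵥ (b - b')) = a ⬝ᵥ (C *ᵥ b) - a' ⬝ᵥ (C *ᵥ b) - a ⬝ᵥ (C *ᵥ b') +
      a' ⬝ᵥ (C *ᵥ b') := by
  rw [Matrix.mulVec_sub, sub_dotProduct, dotProduct_sub, dotProduct_sub]
  ring

/-- mean vector -/
noncomputable def vmean (α : X → ℝ) (a : X → Fin n → ℝ) : Fin n → ℝ := ∑ x, α x • a x

theorem dot_vmean (α : X → ℝ) (a : X → Fin n → ℝ) (w : Fin n → ℝ) :
    vmean α a ⬝ᵥ w = ∑ x, α x * (a x ⬝ᵥ w) := by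
  unfold vmean dotProduct
  simp only [Finset.sum_apply, Pi.smul_apply, smul_eq_mul, Finset.sum_mul, Finset.mul_sum]
  rw [Finset.sum_comm]
  apply Finset.sum_congr rfl
  intro x _
  apply Finset.sum_congr rfl
  intro i _
  ring

theorem mulVec_vmean (C : Matrix (Fin n) (Fin n) ℝ) (β : Y → ℝ) (b : Y → Fin n → ℝ)
    (w : Fin n → ℝ) : w ⬝ᵥ (C *ᵥ vmean β b) = ∑ y, β y * (w ⬝ᵥ (C *ᵥ b y)) := by
  rw [Matrix.dotProduct_mulVec, dotProduct_comm, dot_vmean]
  apply Finset.sum_congr rfl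
  intro y _
  rw [dotProduct_comm, ← Matrix.dotProduct_mulVec]

/-- centred factorisation -/
noncomputable def Fac.cen (F : Fac X Y n) (m : ℕ) (α : X → ℝ) (β : Y → ℝ) (M : X → Y → ℝ) :
    Fac X Y n where
  p := fun x => rmean β M x - em α β M
  q := fun y => cmean α M y
  a := fun x => F.a x - vmean α F.a
  b := fun y => F.b y - vmean β F.b
  Z := F.Z

theorem Fac.cen_bil (F : Fac X Y n) {m : ℕ} {α : X → ℝ} {β : Y → ℝ} {M : X → Y → ℝ}
    (hα : IsPr α) (hβ : IsPr β) (h : F.Val m M α β) {x : X} {y : Y} (hx : α x ≠ 0)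
    (hy : β y ≠ 0) : (F.cen m α β M).bil m x y = ctd α β M x y := by
  have h1 : (F.cen m α β M).bil m x y = F.bil m x y - ∑ x', α x' * F.bil m x' y -
      ∑ y', β y' * F.bil m x y' + ∑ x', α x' * ∑ y', β y' * F.bil m x' y' := by
    show (F.a x - vmean α F.a) ⬝ᵥ (chn F.Z m *ᵥ (F.b y - vmean β F.b)) = _
    rw [dot_sub_mulVec, dot_vmean, mulVec_vmean, dot_vmean]
    congr 1
    apply Finset.sum_congr rfl
    intro x' _
    rw [mulVec_vmean]
    rfl
  have e0 : F.bil m x y = M x y - F.p x - F.q y := by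
    rw [h x y hx hy]
    ring
  have e1 : ∑ x', α x' * F.bil m x' y = cmean α M y - ∑ x', α x' * F.p x' - F.q y := by
    have h2 : ∀ x', α x' * F.bil m x' y = α x' * M x' y - α x' * F.p x' - α x' * F.q y := by
      intro x'
      rcases eq_or_ne (α x') 0 with h3 | h3
      · simp [h3]
      · rw [h x' y h3 hy]
        ring
    simp only [h2]
    rw [Finset.sum_sub_distrib, Finset.sum_sub_distrib, ← Finset.sum_mul, hα.sum, one_mul]
    rfl
  have e2 : ∀ x', α x' ≠ 0 → ∑ y', β y' * F.bil m x' y' =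
      rmean β M x' - F.p x' - ∑ y', β y' * F.q y' := by
    intro x' hx'
    have h2 : ∀ y', β y' * F.bil m x' y' = β y' * M x' y' - β y' * F.p x' - β y' * F.q y' := by
      intro y'
      rcases eq_or_ne (β y') 0 with h3 | h3
      · simp [h3]
      · rw [h x' y' hx' h3]
        ring
    simp only [h2]
    rw [Finset.sum_sub_distrib, Finset.sum_sub_distrib, ← Finset.sum_mul, hβ.sum, one_mul]
    rfl
  have e3 : ∑ x', α x' * ∑ y', β y' * F.bil m x' y' =
      em α β M - ∑ x', α x' * F.p x' - ∑ y', β y' * F.q y' := by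
    have h2 : ∀ x', α x' * ∑ y', β y' * F.bil m x' y' =
        α x' * rmean β M x' - α x' * F.p x' - α x' * ∑ y', β y' * F.q y' := by
      intro x'
      rcases eq_or_ne (α x') 0 with h3 | h3
      · simp [h3]
      · rw [e2 x' h3]
        ring
    simp only [h2]
    rw [Finset.sum_sub_distrib, Finset.sum_sub_distrib, ← Finset.sum_mul, hα.sum, one_mul,
      em_row]
  rw [h1, e0, e1, e2 x hx, e3]
  unfold ctd
  ring

theorem Fac.cen_val (F : Fac X Y n) {m : ℕ} {α : X → ℝ} {β : Y → ℝ} {M : X → Y → ℝ}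
    (hα : IsPr α) (hβ : IsPr β) (h : F.Val m M α β) : (F.cen m α β M).Val m M α β := by
  intro x y hx hy
  rw [F.cen_bil hα hβ h hx hy]
  show M x y = (rmean β M x - em α β M) + cmean α M y + _
  unfold ctd
  ring

theorem nsq_center {α : X → ℝ} (hα : IsPr α) (a : X → Fin n → ℝ) :
    ∑ x, α x * nsq (a x - vmean α a) = ∑ x, α x * nsq (a x) - nsq (vmean α a) := by
  have h1 : ∀ x, α x * nsq (a x - vmean α a) = α x * nsq (a x) -
      2 * (α x * (a x ⬝ᵥ vmean α a)) + α x * nsq (vmean α a) := by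
    intro x
    have h2 : nsq (a x - vmean α a) = nsq (a x) - 2 * (a x ⬝ᵥ vmean α a) + nsq (vmean α a) := by
      unfold nsq dotProduct
      rw [Finset.mul_sum, ← Finset.sum_sub_distrib, ← Finset.sum_add_distrib]
      apply Finset.sum_congr rfl
      intro i _
      simp only [Pi.sub_apply]
      ring
    rw [h2]
    ring
  simp only [h1]
  rw [Finset.sum_add_distrib, Finset.sum_sub_distrib, ← Finset.mul_sum, ← dot_vmean,
    ← Finset.sum_mul, hα.sum]
  have h3 : vmean α a ⬝ᵥ vmean α a = nsq (vmean α a) := by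
    unfold nsq dotProduct
    apply Finset.sum_congr rfl
    intro i _
    ring
  rw [h3]
  ring

theorem Fac.cen_cost (F : Fac X Y n) (m : ℕ) {α : X → ℝ} {β : Y → ℝ} (M : X → Y → ℝ)
    (hα : IsPr α) (hβ : IsPr β) : (F.cen m α β M).cost m α β ≤ F.cost m α β := by
  unfold Fac.cost
  apply div_le_div_of_nonneg_right _ (by positivity)
  have h1 : ∑ x, α x * nsq ((F.cen m α β M).a x) ≤ ∑ x, α x * nsq (F.a x) := by
    have := nsq_center hα F.a
    have h2 := nsq_nonneg (vmean α F.a)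
    show ∑ x, α x * nsq (F.a x - vmean α F.a) ≤ _
    linarith
  have h2 : ∑ y, β y * nsq ((F.cen m α β M).b y) ≤ ∑ y, β y * nsq (F.b y) := by
    have := nsq_center hβ F.b
    have h2 := nsq_nonneg (vmean β F.b)
    show ∑ y, β y * nsq (F.b y - vmean β F.b) ≤ _
    linarith
  have h3 : (F.cen m α β M).Z = F.Z := rfl
  rw [h3]
  linarith

theorem vmean_center {α : X → ℝ} (hα : IsPr α) (a : X → Fin n → ℝ) :
    vmean α (fun x => a x - vmean α a) = 0 := by
  have h : vmean α (fun x => a x - vmean α a) = vmean α a - vmean α a := by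
    conv_lhs => unfold vmean
    simp only [smul_sub]
    rw [Finset.sum_sub_distrib, ← Finset.sum_smul, hα.sum, one_smul]
    rfl
  rw [h, sub_self]

end Center

end Pool.Agent.LR2
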