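import Mathlib

/-!
# Averages over finite sequences of independent rounds
-/

set_option autoImplicit false

open Finset

namespace Pool.Agent.LR2

set_option linter.unusedSectionVars false

variable {Z : Type} [Fintype Z] [Inhabited Z]

/-- extension of a finite sequence by the default value -/
def ext {K : ℕ} (ζ : Fin K → Z) (n : ℕ) : Z := if h : n < K then ζ ⟨n, h⟩ else default

/-- average over `K` independent rounds with weights `w` -/
noncomputable def av (w : Z → ℝ) (K : ℕ) (Φ : (ℕ → Z) → ℝ) : ℝ :=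
  ∑ ζ : Fin K → Z, (∏ i, w (ζ i)) * Φ (ext ζ)

theorem ext_snoc {K : ℕ} (ζ : Fin K → Z) (z : Z) :
    ext (Fin.snoc (α := fun _ => Z) ζ z) = Function.update (ext ζ) K z := by
  funext n
  unfold ext
  rcases lt_trichotomy n K with h | h | h
  · rw [dif_pos (by omega), Function.update_of_ne (by omega), dif_pos h]
    have h1 : (⟨n, by omega⟩ : Fin (K + 1)) = Fin.castSucc ⟨n, h⟩ := rfl
    rw [h1, Fin.snoc_castSucc]
  · subst h
    rw [dif_pos (by omega), Function.update_self]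
    have h1 : (⟨n, by omega⟩ : Fin (n + 1)) = Fin.last n := rfl
    rw [h1, Fin.snoc_last]
  · rw [dif_neg (by omega), Function.update_of_ne (by omega), dif_neg (by omega)]

theorem av_zero (w : Z → ℝ) (Φ : (ℕ → Z) → ℝ) : av w 0 Φ = Φ (fun _ => default) := by
  unfold av
  rw [Fintype.sum_unique]
  simp only [Finset.univ_eq_empty, Finset.prod_empty, one_mul]
  congr 1

theorem av_succ (w : Z → ℝ) (K : ℕ) (Φ : (ℕ → Z) → ℝ) :
    av w (K + 1) Φ = ∑ z, w z * av w K (fun ζ => Φ (Function.update ζ K z)) := by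
  unfold av
  rw [← (Fin.snocEquiv (fun _ : Fin (K + 1) => Z)).sum_comp, Fintype.sum_prod_type]
  apply Finset.sum_congr rfl
  intro z _
  rw [Finset.mul_sum]
  apply Finset.sum_congr rfl
  intro ζ _
  have h1 : (Fin.snocEquiv (fun _ : Fin (K + 1) => Z)) (z, ζ) =
      Fin.snoc (α := fun _ => Z) ζ z := rfl
  rw [h1, ext_snoc, Fin.prod_univ_castSucc, Fin.snoc_last]
  simp only [Fin.snoc_castSucc]
  ring

theorem av_add (w : Z → ℝ) (K : ℕ) (Φ Ψ : (ℕ → Z) → ℝ) :
    av w K (fun ζ => Φ ζ + Ψ ζ) = av w K Φ + av w K Ψ := by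
  unfold av
  rw [← Finset.sum_add_distrib]
  apply Finset.sum_congr rfl
  intro ζ _
  ring

theorem av_smul (w : Z → ℝ) (K : ℕ) (c : ℝ) (Φ : (ℕ → Z) → ℝ) :
    av w K (fun ζ => c * Φ ζ) = c * av w K Φ := by
  unfold av
  rw [Finset.mul_sum]
  apply Finset.sum_congr rfl
  intro ζ _
  ring

theorem av_sum (w : Z → ℝ) (K : ℕ) {ι : Type*} (s : Finset ι) (Φ : ι → (ℕ → Z) → ℝ) :
    av w K (fun ζ => ∑ i ∈ s, Φ i ζ) = ∑ i ∈ s, av w K (Φ i) := by
  unfold av
  rw [Finset.sum_comm]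
  apply Finset.sum_congr rfl
  intro ζ _
  rw [Finset.mul_sum]

theorem av_mono {w : Z → ℝ} (hw : ∀ z, 0 ≤ w z) (K : ℕ) {Φ Ψ : (ℕ → Z) → ℝ}
    (h : ∀ ζ, Φ ζ ≤ Ψ ζ) : av w K Φ ≤ av w K Ψ := by
  unfold av
  apply Finset.sum_le_sum
  intro ζ _
  exact mul_le_mul_of_nonneg_left (h _) (Finset.prod_nonneg fun i _ => hw _)

theorem av_const {w : Z → ℝ} (hw1 : ∑ z, w z = 1) (K : ℕ) (c : ℝ) :
    av w K (fun _ => c) = c := by
  induction K with
  | zero => rw [av_zero]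
  | succ K ih =>
    rw [av_succ]
    rw [← Finset.sum_mul, hw1, one_mul, ih]

/-- a function which depends only on the first `k` rounds -/
theorem av_prefix {w : Z → ℝ} (hw1 : ∑ z, w z = 1) {k K : ℕ} (hk : k ≤ K) (Φ : (ℕ → Z) → ℝ)
    (h : ∀ ζ j z, k ≤ j → Φ (Function.update ζ j z) = Φ ζ) : av w K Φ = av w k Φ := by
  induction K, hk using Nat.le_induction with
  | base => rfl
  | succ K hK ih =>
    rw [av_succ]
    have h1 : ∀ z, (fun ζ => Φ (Function.update ζ K z)) = Φ := fun z => funext fun ζ => h ζ K z hK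
    simp only [h1]
    rw [← Finset.sum_mul, hw1, one_mul, ih]

theorem av_abs {w : Z → ℝ} (hw : ∀ z, 0 ≤ w z) (hw1 : ∑ z, w z = 1) (K : ℕ) {Φ : (ℕ → Z) → ℝ}
    {B : ℝ} (h : ∀ ζ, |Φ ζ| ≤ B) : |av w K Φ| ≤ B := by
  rw [abs_le]
  constructor
  · rw [← av_const hw1 K (-B)]
    exact av_mono hw K fun ζ => (abs_le.mp (h ζ)).1
  · rw [← av_const hw1 K B]
    exact av_mono hw K fun ζ => (abs_le.mp (h ζ)).2

/-- weights of the cube -/
noncomputable def hf : Bool → ℝ := fun _ => 1 / 2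

theorem hf_nonneg (b : Bool) : 0 ≤ hf b := by unfold hf; norm_num

theorem hf_sum : ∑ b, hf b = 1 := by unfold hf; simp

theorem av_hf (K : ℕ) (Φ : (ℕ → Bool) → ℝ) :
    av hf K Φ = (1 / 2) ^ K * ∑ ξ : Fin K → Bool, Φ (ext ξ) := by
  unfold av hf
  rw [Finset.mul_sum]
  apply Finset.sum_congr rfl
  intro ξ _
  simp

end Pool.Agent.LR2
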