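import Pool.Agent.Lib_helper59.LR2.BLT

/-!
# The bilinear form theorem with a convex tail function, products of tilt families
-/

set_option autoImplicit false
set_option linter.unusedSectionVars false

open Finset

namespace Pool.Agent.LR2

section Phi

variable {X Y Ω : Type} [Fintype X] [Fintype Y] [Fintype Ω] [Inhabited Ω]

/-- a convex tail function at the level `T` -/
structure Tail (φ : ℝ → ℝ) (T : ℝ) : Prop where
  pos : 0 < T
  conv : ConvexOn ℝ Set.univ φ
  nn : ∀ b, 0 ≤ φ b
  ge : ∀ b, T ≤ |b| → |b| ≤ φ b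

theorem young_phi {φ : ℝ → ℝ} {T : ℝ} (h : Tail φ T) {a b : ℝ} (ha : |a| ≤ 2) :
    |a * b| ≤ T * |a| + 2 * φ b := by
  rw [abs_mul]
  rcases le_total |b| T with hb | hb
  · have h1 := mul_le_mul_of_nonneg_left hb (abs_nonneg a)
    have h2 := h.nn b
    linarith
  · have h1 := h.ge b hb
    have h2 := mul_le_mul_of_nonneg_right ha (abs_nonneg b)
    have h3 := mul_nonneg h.pos.le (abs_nonneg a)
    linarith

theorem cvx_mean {φ : ℝ → ℝ} (hc : ConvexOn ℝ Set.univ φ) {q : Y → ℝ} (hq : IsPr q) (g : Y → ℝ) :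
    φ (∑ y, q y * g y) ≤ ∑ y, q y * φ (g y) := by
  have h := hc.map_sum_le (t := Finset.univ) (w := q) (p := g) (fun y _ => hq.nonneg y) hq.sum
    (fun y _ => Set.mem_univ _)
  simpa only [smul_eq_mul] using h

theorem rmean_phi {φ : ℝ → ℝ} (hc : ConvexOn ℝ Set.univ φ) {p : X → ℝ} {q : Y → ℝ}
    (hp : IsPr p) (hq : IsPr q) (W : X → Y → ℝ) :
    ∑ x, p x * φ (rmean q W x) ≤ em p q (fun x y => φ (W x y)) := by
  rw [em_row]
  exact Finset.sum_le_sum fun x _ => mul_le_mul_of_nonneg_left (cvx_mean hc hq _) (hp.nonneg x)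

/-- one cell: the bilinear form, convex tail -/
theorem cell_bound_phi {μ : X → ℝ} {ν : Y → ℝ} (hμ : IsPr μ) (hν : IsPr ν) {M : X → Y → ℝ}
    (hM : ∀ x y, |M x y| ≤ 1) {U A B : ℝ} (hU1 : |U| ≤ 1) (hA : 0 ≤ A) (hB : 0 ≤ B)
    (hU : UPR μ ν M U A B) {p : X → ℝ} {q : Y → ℝ}
    (hp : IsPr p) (hq : IsPr q) (hpa : AC p μ) (hqa : AC q ν) (W : X → Y → ℝ) {φ : ℝ → ℝ} {T : ℝ}
    (hT : Tail φ T) :
    |em p q (fun x y => (M x y - U) * W x y) - cor M W p q| ≤
      3 * T * (2 * (A + B * (KL p μ + KL q ν + 2)) + (U - em p q M)) +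
      6 * em p q (fun x y => φ (W x y)) := by
  have e1 := cor_eq hp hq M W U
  set Δ := 2 * (A + B * (KL p μ + KL q ν + 2)) + (U - em p q M) with hΔ
  set m8 := em p q (fun x y => φ (W x y)) with hm8
  have f1 : ∑ x, p x * |rmean q M x - U| ≤ Δ := freeze_abs hμ hν hA hB hU hp hq hpa hqa
  have f2 : ∑ y, q y * |cmean p M y - U| ≤ Δ := by
    have h := freeze_abs hν hμ hA hB hU.swap hq hp hqa hpa
    rw [em_swap, add_comm (KL q ν)] at h
    exact h
  have hUa : ∀ t : ℝ, |t| ≤ 1 → |t - U| ≤ 2 := by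
    intro t ht
    calc |t - U| ≤ |t| + |U| := abs_sub _ _
      _ ≤ 2 := by linarith
  have g1 : |∑ x, p x * ((rmean q M x - U) * rmean q W x)| ≤ T * Δ + 2 * m8 := by
    calc _ ≤ ∑ x, |p x * ((rmean q M x - U) * rmean q W x)| := Finset.abs_sum_le_sum_abs _ _
      _ ≤ ∑ x, (T * (p x * |rmean q M x - U|) + 2 * (p x * φ (rmean q W x))) := by
          apply Finset.sum_le_sum
          intro x _
          rw [abs_mul, abs_of_nonneg (hp.nonneg x)]
          have h := mul_le_mul_of_nonneg_left (young_phi (b := rmean q W x) hT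
            (hUa _ (rmean_abs hq hM x))) (hp.nonneg x)
          linarith
      _ ≤ _ := by
          rw [Finset.sum_add_distrib, ← Finset.mul_sum, ← Finset.mul_sum]
          have h1 := mul_le_mul_of_nonneg_left f1 hT.pos.le
          have h2 := rmean_phi hT.conv hp hq W
          linarith
  have g2 : |∑ y, q y * ((cmean p M y - U) * cmean p W y)| ≤ T * Δ + 2 * m8 := by
    calc _ ≤ ∑ y, |q y * ((cmean p M y - U) * cmean p W y)| := Finset.abs_sum_le_sum_abs _ _
      _ ≤ ∑ y, (T * (q y * |cmean p M y - U|) + 2 * (q y * φ (cmean p W y))) := by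
          apply Finset.sum_le_sum
          intro y _
          rw [abs_mul, abs_of_nonneg (hq.nonneg y)]
          have h0 : |cmean p M y| ≤ 1 :=
            rmean_abs hp (M := fun y x => M x y) (fun y x => hM x y) y
          have h := mul_le_mul_of_nonneg_left (young_phi (b := cmean p W y) hT
            (hUa _ h0)) (hq.nonneg y)
          linarith
      _ ≤ _ := by
          rw [Finset.sum_add_distrib, ← Finset.mul_sum, ← Finset.mul_sum]
          have h1 := mul_le_mul_of_nonneg_left f2 hT.pos.le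
          have h3 : ∑ y, q y * φ (cmean p W y) ≤ m8 := by
            have h4 := rmean_phi hT.conv hq hp (fun y x => W x y)
            rw [em_swap p q (fun x y => φ (W x y))] at h4
            exact h4
          linarith
  have g3 : |(em p q M - U) * em p q W| ≤ T * Δ + 2 * m8 := by
    have h1 := young_phi (b := em p q W) hT (hUa _ (em_abs hp hq hM))
    have h2 : |em p q M - U| ≤ Δ := by
      calc |em p q M - U| = |∑ x, p x * (rmean q M x - U)| := by
            congr 1
            simp only [mul_sub]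
            rw [Finset.sum_sub_distrib, ← em_row, ← Finset.sum_mul, hp.sum, one_mul]
        _ ≤ ∑ x, |p x * (rmean q M x - U)| := Finset.abs_sum_le_sum_abs _ _
        _ = ∑ x, p x * |rmean q M x - U| := by
            apply Finset.sum_congr rfl
            intro x _
            rw [abs_mul, abs_of_nonneg (hp.nonneg x)]
        _ ≤ Δ := f1
    have h3 : φ (em p q W) ≤ m8 := by
      rw [em_row]
      exact (cvx_mean hT.conv hp _).trans (rmean_phi hT.conv hp hq W)
    have h4 := mul_le_mul_of_nonneg_left h2 hT.pos.le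
    linarith
  have e2 : em p q (fun x y => (M x y - U) * W x y) - cor M W p q =
      ∑ x, p x * ((rmean q M x - U) * rmean q W x) +
      ∑ y, q y * ((cmean p M y - U) * cmean p W y) - (em p q M - U) * em p q W := by
    rw [e1]
    ring
  rw [e2]
  calc _ ≤ |∑ x, p x * ((rmean q M x - U) * rmean q W x) +
        ∑ y, q y * ((cmean p M y - U) * cmean p W y)| + |(em p q M - U) * em p q W| :=
        abs_sub _ _
    _ ≤ |∑ x, p x * ((rmean q M x - U) * rmean q W x)| +
        |∑ y, q y * ((cmean p M y - U) * cmean p W y)| + |(em p q M - U) * em p q W| := by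
        gcongr
        exact abs_add_le _ _
    _ ≤ _ := by linarith

/-- the master inequality for an ensemble, convex tail -/
theorem ens_bound_phi {μ : X → ℝ} {ν : Y → ℝ} (hμ : IsPr μ) (hν : IsPr ν) {M : X → Y → ℝ}
    (hM : ∀ x y, |M x y| ≤ 1) {U A B : ℝ} (hU1 : |U| ≤ 1) (hA : 0 ≤ A) (hB : 0 ≤ B)
    (hU : UPR μ ν M U A B) (E : Ens X Y) {R : X → Y → ℝ} (hR : E.Bar R) (hac : E.Ac μ ν)
    (W : X → Y → ℝ) {φ : ℝ → ℝ} {T : ℝ} (hT : Tail φ T) :
    |∑ x, ∑ y, R x y * ((M x y - U) * W x y) - E.ex (cor M W)| ≤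
      3 * T * (2 * ((A + 2 * B) * (∑ x, ∑ y, R x y) + B * E.ex (fun p q => KL p μ + KL q ν)) +
        ∑ x, ∑ y, R x y * (U - M x y)) +
      6 * ∑ x, ∑ y, R x y * φ (W x y) := by
  have e1 : ∑ x, ∑ y, R x y * ((M x y - U) * W x y) =
      E.ex (fun p q => em p q (fun x y => (M x y - U) * W x y)) :=
    (E.ex_lin hR _).symm
  have e2 : ∑ x, ∑ y, R x y * φ (W x y) = E.ex (fun p q => em p q (fun x y => φ (W x y))) :=
    (E.ex_lin hR _).symm
  have e3 : ∑ x, ∑ y, R x y * (U - M x y) = E.ex (fun p q => U - em p q M) := by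
    rw [← E.ex_lin hR (fun x y => U - M x y)]
    unfold Ens.ex
    apply Finset.sum_congr rfl
    intro i _
    congr 1
    have h1 : (fun x y => U - M x y) = fun x y => U + (-1) * M x y := by
      funext x y
      ring
    change em (E.p i) (E.q i) (fun x y => U - M x y) = _
    rw [h1, em_add, em_smul, em_const (E.prp i) (E.prq i)]
    ring
  have e4 := E.ex_one hR
  have e5 : E.ex (fun p q => em p q (fun x y => (M x y - U) * W x y)) - E.ex (cor M W) =
      E.ex (fun p q => em p q (fun x y => (M x y - U) * W x y) - cor M W p q) := by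
    unfold Ens.ex
    rw [← Finset.sum_sub_distrib]
    apply Finset.sum_congr rfl
    intro i _
    ring
  rw [e1, e5, e2, e3, ← e4]
  calc _ ≤ E.ex (fun p q => |em p q (fun x y => (M x y - U) * W x y) - cor M W p q|) :=
        E.ex_abs _
    _ ≤ E.ex (fun p q => 3 * T * (2 * (A + B * (KL p μ + KL q ν + 2)) + (U - em p q M)) +
      6 * em p q (fun x y => φ (W x y))) := by
        apply E.ex_mono
        intro i
        exact cell_bound_phi hμ hν hM hU1 hA hB hU (E.prp i) (E.prq i) (hac.1 i) (hac.2 i) W hT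
    _ = _ := by
        have h1 : (fun (p : X → ℝ) (q : Y → ℝ) =>
            3 * T * (2 * (A + B * (KL p μ + KL q ν + 2)) + (U - em p q M)) +
            6 * em p q (fun x y => φ (W x y))) = fun p q =>
            ((6 * T * (A + 2 * B)) * 1 + (6 * T * B) * (KL p μ + KL q ν)) +
            ((3 * T) * (U - em p q M) + 6 * em p q (fun x y => φ (W x y))) := by
          funext p q
          ring
        rw [h1, Ens.ex_add, Ens.ex_add, Ens.ex_add, Ens.ex_smul, Ens.ex_smul, Ens.ex_smul,
          Ens.ex_smul]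
        ring

variable {S S' : ℝ} {ω ω' : X → Y → ℝ} {μ : X → ℝ} {ν : Y → ℝ}

/-- the bilinear form with the weight `ω`, convex tail -/
theorem blp_one (hμ : IsPr μ) (hν : IsPr ν) {M : X → Y → ℝ}
    (hM : ∀ x y, |M x y| ≤ 1) {d : ℕ} (hd : 1 ≤ d) (hR : (Matrix.of M).rank ≤ 4 ^ d)
    {U A B : ℝ} (hU1 : |U| ≤ 1) (hA : 0 ≤ A) (hB : 0 ≤ B) (hU : UPR μ ν M U A B)
    (T₀ : TF X Y S ω)
    {w : Ω → ℝ} (hw : ∀ o, 0 ≤ w o) (hw1 : ∑ o, w o = 1)
    {u : Ω → X → ℝ} (hu : ∀ k x, |u k x| ≤ 1) {v : Ω → Y → ℝ} (hv : ∀ k y, |v k y| ≤ 1)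
    {Θ : ℝ} (hΘ : 0 ≤ Θ) {K' : ℕ} (hK' : 0 < K') {φ : ℝ → ℝ} {T : ℝ} (hT : Tail φ T) :
    |em μ ν (fun x y => ω x y * ((M x y - U) * (Θ * kW w u v x y)))| ≤
      32 * (d : ℝ) ^ 2 * Θ / K' * em μ ν ω +
      3 * T * (2 * ((A + 2 * B) * em μ ν ω + B * ((2 * S + K' / 2) * em μ ν ω + 2)) +
        em μ ν (fun x y => ω x y * (U - M x y))) +
      6 * em μ ν (fun x y => ω x y * φ (Θ * kW w u v x y)) := by
  set W : X → Y → ℝ := fun x y => Θ * kW w u v x y with hW
  set E := T₀.rev hμ hν hw hu hv K' with hE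
  have hbar : E.Bar (fun x y => μ x * ν y * ω x y) := T₀.rev_bar hμ hν hw hw1 hu hv hK'
  have h1 := ens_bound_phi hμ hν hM hU1 hA hB hU E hbar (T₀.rev_ac hμ hν hw hu hv K') W hT
  have e1 : ∑ x, ∑ y, μ x * ν y * ω x y = em μ ν ω := rfl
  have e2 : ∑ x, ∑ y, μ x * ν y * ω x y * ((M x y - U) * W x y) =
      em μ ν (fun x y => ω x y * ((M x y - U) * W x y)) := by
    unfold em
    apply Finset.sum_congr rfl
    intro x _
    apply Finset.sum_congr rfl
    intro y _
    ring
  have e3 : ∑ x, ∑ y, μ x * ν y * ω x y * (U - M x y) =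
      em μ ν (fun x y => ω x y * (U - M x y)) := by
    unfold em
    apply Finset.sum_congr rfl
    intro x _
    apply Finset.sum_congr rfl
    intro y _
    ring
  have e4 : ∑ x, ∑ y, μ x * ν y * ω x y * φ (W x y) =
      em μ ν (fun x y => ω x y * φ (W x y)) := by
    unfold em
    apply Finset.sum_congr rfl
    intro x _
    apply Finset.sum_congr rfl
    intro y _
    ring
  rw [e1, e2, e3, e4] at h1
  have h5 : E.ex (fun p q => KL p μ + KL q ν) ≤ (2 * S + K' / 2) * em μ ν ω + 2 :=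
    T₀.rev_KL hμ hν hw hw1 hu hv hK'
  have h6 : |E.ex (cor M W)| ≤ 32 * (d : ℝ) ^ 2 * Θ / K' * em μ ν ω := by
    have h7 : cor M W = fun p q => Θ * cor M (kW w u v) p q := by
      funext p q
      exact cor_smul M (kW w u v) Θ p q
    rw [h7, Ens.ex_smul, abs_mul, abs_of_nonneg hΘ]
    have h8 := mul_le_mul_of_nonneg_left (T₀.rev_cor hμ hν hM hd hR hw hw1 hu hv K') hΘ
    calc _ ≤ _ := h8
      _ = _ := by ring
  have h10 : |em μ ν (fun x y => ω x y * ((M x y - U) * W x y))| ≤ |E.ex (cor M W)| +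
      |em μ ν (fun x y => ω x y * ((M x y - U) * W x y)) - E.ex (cor M W)| := by
    have := abs_add_le (E.ex (cor M W))
      (em μ ν (fun x y => ω x y * ((M x y - U) * W x y)) - E.ex (cor M W))
    simpa using this
  have h11 : 3 * T * (2 * ((A + 2 * B) * em μ ν ω + B * E.ex (fun p q => KL p μ + KL q ν)) +
      em μ ν (fun x y => ω x y * (U - M x y))) ≤
      3 * T * (2 * ((A + 2 * B) * em μ ν ω + B * ((2 * S + K' / 2) * em μ ν ω + 2)) +
        em μ ν (fun x y => ω x y * (U - M x y))) := by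
    apply mul_le_mul_of_nonneg_left _ (by have := hT.pos; positivity)
    have h12 := mul_le_mul_of_nonneg_left h5 hB
    linarith
  linarith

/-- change of the parameters of a tilt family -/
noncomputable def TF.congr (T : TF X Y S ω) (h : S ≤ S') (h' : ∀ x y, ω x y = ω' x y) :
    TF X Y S' ω' where
  J := T.J
  fin := T.fin
  c := T.c
  f := T.f
  g := T.g
  c0 := T.c0
  f0 := T.f0
  g0 := T.g0
  fS := fun j x => (T.fS j x).trans (Real.exp_le_exp.mpr h)
  gS := fun j x => (T.gS j x).trans (Real.exp_le_exp.mpr h)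
  f1 := T.f1
  g1 := T.g1
  fg := fun x y => by rw [T.fg, h']

/-- the product of several tilt families -/
noncomputable def TF.prod {S : ℕ → ℝ} {ω : ℕ → X → Y → ℝ} (T : ∀ i, TF X Y (S i) (ω i)) :
    ∀ m : ℕ, TF X Y (∑ i ∈ range m, S i) (fun x y => ∏ i ∈ range m, ω i x y)
  | 0 => TF.one.congr (by simp) (fun x y => by simp)
  | m + 1 => ((TF.prod T m).mul (T m)).congr (by rw [Finset.sum_range_succ])
      (fun x y => by rw [Finset.prod_range_succ])

/-- the average of tilt families (random label) -/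
noncomputable def TF.avg {A : Type} [Fintype A] {γ : A → ℝ} (hγ : ∀ a, 0 ≤ γ a)
    (hγ1 : ∑ a, γ a = 1) {S : ℝ} {ω : A → X → Y → ℝ} (T : ∀ a, TF X Y S (ω a)) :
    TF X Y S (fun x y => ∑ a, γ a * ω a x y) where
  J := Σ a, (T a).J
  fin := inferInstance
  c := fun z => γ z.1 * (T z.1).c z.2
  f := fun z => (T z.1).f z.2
  g := fun z => (T z.1).g z.2
  c0 := fun z => mul_nonneg (hγ _) ((T z.1).c0 _)
  f0 := fun z => (T z.1).f0 _
  g0 := fun z => (T z.1).g0 _
  fS := fun z => (T z.1).fS _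
  gS := fun z => (T z.1).gS _
  f1 := fun x => by
    rw [Fintype.sum_sigma]
    simp only [mul_assoc]
    simp only [← Finset.mul_sum, (T _).f1, mul_one]
    exact hγ1
  g1 := fun x => by
    rw [Fintype.sum_sigma]
    simp only [mul_assoc]
    simp only [← Finset.mul_sum, (T _).g1, mul_one]
    exact hγ1
  fg := fun x y => by
    rw [Fintype.sum_sigma]
    simp only [mul_assoc]
    simp only [← Finset.mul_sum, (T _).fg]

/-- the tail function `2 (|b| - T/2)⁺` -/
theorem tail_lin {T : ℝ} (hT : 0 < T) : Tail (fun b => 2 * max (|b| - T / 2) 0) T where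
  pos := hT
  conv := by
    have h1 : ConvexOn ℝ Set.univ (fun b : ℝ => |b| - T / 2) := by
      have h2 : ConvexOn ℝ Set.univ (fun b : ℝ => |b|) := convexOn_univ_norm
      have h3 := h2.add_const (-(T / 2))
      have e : (fun b : ℝ => |b| - T / 2) = (fun b : ℝ => |b|) + fun _ => -(T / 2) := by
        funext b
        simp [sub_eq_add_neg]
      rw [e]
      exact h3
    have h3 : ConvexOn ℝ Set.univ (fun b : ℝ => max (|b| - T / 2) 0) :=
      h1.sup (convexOn_const 0 convex_univ)
    have h4 := h3.smul (show (0 : ℝ) ≤ 2 by norm_num)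
    simpa only [smul_eq_mul] using h4
  nn := fun b => by
    have := le_max_right (|b| - T / 2) 0
    linarith
  ge := fun b hb => by
    have := le_max_left (|b| - T / 2) 0
    linarith

end Phi

end Pool.Agent.LR2
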