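import Pool.Agent.Lib_helper59.LR2.BLW2

/-!
# The bilinear form theorem with a general product tilt (clipping weight)
-/

set_option autoImplicit false
set_option linter.unusedSectionVars false

open Finset

namespace Pool.Agent.LR2

/-- A tilt family: the weight `ω` is an average of products of row and column densities, the row
and column densities average to `1` and are at most `exp S`. -/
structure TF (X Y : Type) [Fintype X] [Fintype Y] (S : ℝ) (ω : X → Y → ℝ) where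
  J : Type
  fin : Fintype J
  c : J → ℝ
  f : J → X → ℝ
  g : J → Y → ℝ
  c0 : ∀ j, 0 ≤ c j
  f0 : ∀ j x, 0 < f j x
  g0 : ∀ j y, 0 < g j y
  fS : ∀ j x, f j x ≤ Real.exp S
  gS : ∀ j y, g j y ≤ Real.exp S
  f1 : ∀ x, ∑ j, c j * f j x = 1
  g1 : ∀ y, ∑ j, c j * g j y = 1
  fg : ∀ x y, ∑ j, c j * (f j x * g j y) = ω x y

attribute [instance] TF.fin

section TF

variable {X Y Ω : Type} [Fintype X] [Fintype Y] [Fintype Ω] [Inhabited Ω]
variable {S S' : ℝ} {ω ω' : X → Y → ℝ}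

theorem TF.nonneg (T : TF X Y S ω) (x : X) (y : Y) : 0 ≤ ω x y := by
  rw [← T.fg x y]
  exact Finset.sum_nonneg fun j _ => mul_nonneg (T.c0 j) (mul_nonneg (T.f0 j x).le (T.g0 j y).le)

/-- no tilt -/
noncomputable def TF.one : TF X Y 0 (fun _ _ => 1) where
  J := Unit
  fin := inferInstance
  c := fun _ => 1
  f := fun _ _ => 1
  g := fun _ _ => 1
  c0 := fun _ => zero_le_one
  f0 := fun _ _ => one_pos
  g0 := fun _ _ => one_pos
  fS := fun _ _ => by simp
  gS := fun _ _ => by simp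
  f1 := fun _ => by simp
  g1 := fun _ => by simp
  fg := fun _ _ => by simp

/-- the product of two tilt families -/
noncomputable def TF.mul (T : TF X Y S ω) (T' : TF X Y S' ω') :
    TF X Y (S + S') (fun x y => ω x y * ω' x y) where
  J := T.J × T'.J
  fin := inferInstance
  c := fun z => T.c z.1 * T'.c z.2
  f := fun z x => T.f z.1 x * T'.f z.2 x
  g := fun z y => T.g z.1 y * T'.g z.2 y
  c0 := fun z => mul_nonneg (T.c0 _) (T'.c0 _)
  f0 := fun z x => mul_pos (T.f0 _ x) (T'.f0 _ x)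
  g0 := fun z x => mul_pos (T.g0 _ x) (T'.g0 _ x)
  fS := fun z x => by
    rw [Real.exp_add]
    exact mul_le_mul (T.fS _ x) (T'.fS _ x) (T'.f0 _ x).le (Real.exp_pos _).le
  gS := fun z x => by
    rw [Real.exp_add]
    exact mul_le_mul (T.gS _ x) (T'.gS _ x) (T'.g0 _ x).le (Real.exp_pos _).le
  f1 := fun x => by
    have e : ∀ z : T.J × T'.J, T.c z.1 * T'.c z.2 * (T.f z.1 x * T'.f z.2 x) =
        (T.c z.1 * T.f z.1 x) * (T'.c z.2 * T'.f z.2 x) := fun z => by ring
    simp only [e]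
    rw [Fintype.sum_prod_type]
    simp only [← Finset.mul_sum, T'.f1, mul_one, T.f1]
  g1 := fun x => by
    have e : ∀ z : T.J × T'.J, T.c z.1 * T'.c z.2 * (T.g z.1 x * T'.g z.2 x) =
        (T.c z.1 * T.g z.1 x) * (T'.c z.2 * T'.g z.2 x) := fun z => by ring
    simp only [e]
    rw [Fintype.sum_prod_type]
    simp only [← Finset.mul_sum, T'.g1, mul_one, T.g1]
  fg := fun x y => by
    have e : ∀ z : T.J × T'.J, T.c z.1 * T'.c z.2 *
        (T.f z.1 x * T'.f z.2 x * (T.g z.1 y * T'.g z.2 y)) =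
        (T.c z.1 * (T.f z.1 x * T.g z.1 y)) * (T'.c z.2 * (T'.f z.2 x * T'.g z.2 y)) :=
      fun z => by ring
    simp only [e]
    rw [Fintype.sum_prod_type]
    simp only [← Finset.mul_sum, T'.fg]
    rw [← Finset.sum_mul, T.fg]

/-- `K` rounds of tilting along a form -/
noncomputable def TF.form {w : Ω → ℝ} (hw : ∀ o, 0 ≤ w o) (hw1 : ∑ o, w o = 1) {u : Ω → X → ℝ}
    (hu : ∀ k x, |u k x| ≤ 1) {v : Ω → Y → ℝ} (hv : ∀ k y, |v k y| ≤ 1) (K : ℕ) :
    TF X Y (K / 2) (fun x y => (1 + kW w u v x y / 4) ^ K) where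
  J := Fin K → Ω × Bool
  fin := inferInstance
  c := fun ζ => ∏ i, wt2 w (ζ i)
  f := fun ζ x => tlt u (ext ζ) K x
  g := fun ζ y => tlt v (ext ζ) K y
  c0 := fun ζ => Finset.prod_nonneg fun i _ => wt2_nonneg hw _
  f0 := fun ζ x => tlt_pos hu _ _ x
  g0 := fun ζ y => tlt_pos hv _ _ y
  fS := fun ζ x => by
    refine (tlt_le hu _ _ x).trans ?_
    have h1 : (K : ℝ) / 2 = K * (1 / 2) := by ring
    rw [h1, Real.exp_nat_mul]
    apply pow_le_pow_left₀ (by norm_num)
    have := Real.add_one_le_exp (1 / 2 : ℝ)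
    linarith
  gS := fun ζ x => by
    refine (tlt_le hv _ _ x).trans ?_
    have h1 : (K : ℝ) / 2 = K * (1 / 2) := by ring
    rw [h1, Real.exp_nat_mul]
    apply pow_le_pow_left₀ (by norm_num)
    have := Real.add_one_le_exp (1 / 2 : ℝ)
    linarith
  f1 := fun x => av_tlt1 hw1 u K x
  g1 := fun y => av_tlt1 hw1 v K y
  fg := fun x y => av_tlt2 hw1 u v K x y

theorem tf_KL {μ : X → ℝ} (hμ : IsPr μ) {f : X → ℝ} (hf0 : ∀ x, 0 < f x) {S : ℝ}
    (hfS : ∀ x, f x ≤ Real.exp S) :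
    nrmz μ f * KL (fun x => μ x * f x / nrmz μ f) μ ≤ nrmz μ f * S + 1 := by
  set a := nrmz μ f with ha
  have hpos : 0 < a := nrmz_pos hμ hf0
  have h1 : KL (fun x => μ x * f x / a) μ ≤ S + Real.log (1 / a) := by
    have h2 : ∀ x, (μ x * f x / a) * Real.log ((μ x * f x / a) / μ x) ≤
        (μ x * f x / a) * (S + Real.log (1 / a)) := by
      intro x
      rcases eq_or_lt_of_le (hμ.nonneg x) with h3 | h3
      · simp [← h3]
      · apply mul_le_mul_of_nonneg_left _ ((tilt_pr hμ hf0).nonneg x)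
        have h4 : (μ x * f x / a) / μ x = f x * (1 / a) := by
          field_simp
        rw [h4, Real.log_mul (hf0 x).ne' (by positivity)]
        have h5 : Real.log (f x) ≤ S := by
          rw [← Real.log_exp S]
          exact Real.log_le_log (hf0 x) (hfS x)
        linarith
    calc KL (fun x => μ x * f x / a) μ ≤ ∑ x, (μ x * f x / a) * (S + Real.log (1 / a)) :=
          Finset.sum_le_sum fun x _ => h2 x
      _ = _ := by rw [← Finset.sum_mul, (tilt_pr hμ hf0).sum, one_mul]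
  have h2 : a * Real.log (1 / a) ≤ 1 := by
    have h3 := Real.log_le_sub_one_of_pos (by positivity : (0 : ℝ) < 1 / a)
    calc a * Real.log (1 / a) ≤ a * (1 / a - 1) := mul_le_mul_of_nonneg_left h3 hpos.le
      _ = 1 - a := by field_simp
      _ ≤ 1 := by linarith
  calc a * KL (fun x => μ x * f x / a) μ ≤ a * (S + Real.log (1 / a)) :=
        mul_le_mul_of_nonneg_left h1 hpos.le
    _ ≤ _ := by
      rw [mul_add]
      linarith

variable {μ : X → ℝ} {ν : Y → ℝ}

/-- the ensemble of tilts -/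
noncomputable def TF.ens (T : TF X Y S ω) (hμ : IsPr μ) (hν : IsPr ν) : Ens X Y where
  I := T.J
  fin := T.fin
  w := fun j => T.c j * (nrmz μ (T.f j) * nrmz ν (T.g j))
  p := fun j x => μ x * T.f j x / nrmz μ (T.f j)
  q := fun j y => ν y * T.g j y / nrmz ν (T.g j)
  nonneg := fun j => mul_nonneg (T.c0 j)
    (mul_nonneg (nrmz_pos hμ (T.f0 j)).le (nrmz_pos hν (T.g0 j)).le)
  prp := fun j => tilt_pr hμ (T.f0 j)
  prq := fun j => tilt_pr hν (T.g0 j)

theorem TF.ens_bar (T : TF X Y S ω) (hμ : IsPr μ) (hν : IsPr ν) :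
    (T.ens hμ hν).Bar (fun x y => μ x * ν y * ω x y) := by
  intro x y
  show _ = μ x * ν y * ω x y
  rw [← T.fg x y, Finset.mul_sum]
  unfold Ens.ex
  change ∑ j : T.J, _ = _
  apply Finset.sum_congr rfl
  intro j _
  simp only [TF.ens]
  have h1 := (nrmz_pos hμ (T.f0 j)).ne'
  have h2 := (nrmz_pos hν (T.g0 j)).ne'
  field_simp

theorem TF.ens_ac (T : TF X Y S ω) (hμ : IsPr μ) (hν : IsPr ν) : (T.ens hμ hν).Ac μ ν :=
  ⟨fun j x hx => by simp [TF.ens, hx], fun j y hy => by simp [TF.ens, hy]⟩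

theorem TF.ens_KL (T : TF X Y S ω) (hμ : IsPr μ) (hν : IsPr ν) :
    (T.ens hμ hν).ex (fun p q => KL p μ + KL q ν) ≤
      2 * S * (∑ i, (T.ens hμ hν).w i) + 2 := by
  have h1 : ∀ j : T.J,
      (T.c j * (nrmz μ (T.f j) * nrmz ν (T.g j))) *
      (KL (fun x => μ x * T.f j x / nrmz μ (T.f j)) μ +
        KL (fun y => ν y * T.g j y / nrmz ν (T.g j)) ν) ≤
      2 * S * (T.c j * (nrmz μ (T.f j) * nrmz ν (T.g j))) +
      (T.c j * nrmz ν (T.g j) + T.c j * nrmz μ (T.f j)) := by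
    intro j
    set a := nrmz μ (T.f j) with ha
    set b := nrmz ν (T.g j) with hb
    have hapos : 0 < a := nrmz_pos hμ (T.f0 j)
    have hbpos : 0 < b := nrmz_pos hν (T.g0 j)
    have hW : 0 ≤ T.c j := T.c0 j
    have h2 := tf_KL hμ (T.f0 j) (T.fS j)
    have h3 := tf_KL hν (T.g0 j) (T.gS j)
    rw [← ha] at h2
    rw [← hb] at h3
    have h4 := mul_le_mul_of_nonneg_left h2 (mul_nonneg hW hbpos.le)
    have h5 := mul_le_mul_of_nonneg_left h3 (mul_nonneg hW hapos.le)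
    calc _ = T.c j * b * (a * KL (fun x => μ x * T.f j x / a) μ) +
          T.c j * a * (b * KL (fun y => ν y * T.g j y / b) ν) := by ring
      _ ≤ T.c j * b * (a * S + 1) + T.c j * a * (b * S + 1) := add_le_add h4 h5
      _ = _ := by ring
  have h2 : (∑ j : T.J, T.c j * nrmz ν (T.g j)) = 1 := by
    have e : ∀ j, T.c j * nrmz ν (T.g j) = ∑ y, ν y * (T.c j * T.g j y) := by
      intro j
      unfold nrmz
      rw [Finset.mul_sum]
      apply Finset.sum_congr rfl
      intro y _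
      ring
    simp only [e]
    rw [Finset.sum_comm]
    simp only [← Finset.mul_sum, T.g1, mul_one]
    exact hν.sum
  have h3 : (∑ j : T.J, T.c j * nrmz μ (T.f j)) = 1 := by
    have e : ∀ j, T.c j * nrmz μ (T.f j) = ∑ y, μ y * (T.c j * T.f j y) := by
      intro j
      unfold nrmz
      rw [Finset.mul_sum]
      apply Finset.sum_congr rfl
      intro y _
      ring
    simp only [e]
    rw [Finset.sum_comm]
    simp only [← Finset.mul_sum, T.f1, mul_one]
    exact hμ.sum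
  calc (T.ens hμ hν).ex (fun p q => KL p μ + KL q ν) = ∑ j : T.J,
      (T.c j * (nrmz μ (T.f j) * nrmz ν (T.g j))) *
      (KL (fun x => μ x * T.f j x / nrmz μ (T.f j)) μ +
        KL (fun y => ν y * T.g j y / nrmz ν (T.g j)) ν) := rfl
    _ ≤ ∑ j : T.J, (2 * S * (T.c j * (nrmz μ (T.f j) * nrmz ν (T.g j))) +
      (T.c j * nrmz ν (T.g j) + T.c j * nrmz μ (T.f j))) := Finset.sum_le_sum fun j _ => h1 j
    _ = 2 * S * (∑ j : T.J, T.c j * (nrmz μ (T.f j) * nrmz ν (T.g j))) + 2 := by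
      rw [Finset.sum_add_distrib, Finset.sum_add_distrib, h2, h3, ← Finset.mul_sum]
      norm_num
    _ = _ := rfl

/-- the ensemble: tilting, then `K'` rounds of revealing -/
noncomputable def TF.rev (T : TF X Y S ω) (hμ : IsPr μ) (hν : IsPr ν)
    {w : Ω → ℝ} (hw : ∀ o, 0 ≤ w o) {u : Ω → X → ℝ} (hu : ∀ k x, |u k x| ≤ 1)
    {v : Ω → Y → ℝ} (hv : ∀ k y, |v k y| ≤ 1) (K' : ℕ) : Ens X Y :=
  (T.ens hμ hν).bind fun i =>
    revE ((T.ens hμ hν).prp i) ((T.ens hμ hν).prq i) hw hu hv K'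

theorem TF.rev_bar (T : TF X Y S ω) (hμ : IsPr μ) (hν : IsPr ν)
    {w : Ω → ℝ} (hw : ∀ o, 0 ≤ w o) (hw1 : ∑ o, w o = 1) {u : Ω → X → ℝ}
    (hu : ∀ k x, |u k x| ≤ 1) {v : Ω → Y → ℝ} (hv : ∀ k y, |v k y| ≤ 1) {K' : ℕ} (hK : 0 < K') :
    (T.rev hμ hν hw hu hv K').Bar (fun x y => μ x * ν y * ω x y) := by
  intro x y
  unfold TF.rev
  rw [Ens.bind_ex]
  have h1 : ∀ i, (revE ((T.ens hμ hν).prp i) ((T.ens hμ hν).prq i) hw hu hv K').ex
      (fun p q => p x * q y) = (T.ens hμ hν).p i x * (T.ens hμ hν).q i y := fun i =>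
    revE_bar _ _ hw hw1 hu hv hK x y
  simp only [h1]
  exact T.ens_bar hμ hν x y

theorem TF.rev_ac (T : TF X Y S ω) (hμ : IsPr μ) (hν : IsPr ν)
    {w : Ω → ℝ} (hw : ∀ o, 0 ≤ w o) {u : Ω → X → ℝ} (hu : ∀ k x, |u k x| ≤ 1)
    {v : Ω → Y → ℝ} (hv : ∀ k y, |v k y| ≤ 1) (K' : ℕ) :
    (T.rev hμ hν hw hu hv K').Ac μ ν := by
  constructor
  · rintro ⟨i, j⟩ x hx
    exact (revE_ac ((T.ens hμ hν).prp i) ((T.ens hμ hν).prq i)
      hw hu hv K').1 j x ((T.ens_ac hμ hν).1 i x hx)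
  · rintro ⟨i, j⟩ y hy
    exact (revE_ac ((T.ens hμ hν).prp i) ((T.ens hμ hν).prq i)
      hw hu hv K').2 j y ((T.ens_ac hμ hν).2 i y hy)

theorem TF.rev_KL (T : TF X Y S ω) (hμ : IsPr μ) (hν : IsPr ν)
    {w : Ω → ℝ} (hw : ∀ o, 0 ≤ w o) (hw1 : ∑ o, w o = 1) {u : Ω → X → ℝ}
    (hu : ∀ k x, |u k x| ≤ 1) {v : Ω → Y → ℝ} (hv : ∀ k y, |v k y| ≤ 1) {K' : ℕ} (hK : 0 < K') :
    (T.rev hμ hν hw hu hv K').ex (fun p q => KL p μ + KL q ν) ≤
      (2 * S + K' / 2) * em μ ν ω + 2 := by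
  unfold TF.rev
  rw [Ens.bind_ex]
  have h0 := (T.ens hμ hν).tot (T.ens_bar hμ hν)
  have h1 := T.ens_KL hμ hν
  set E := T.ens hμ hν with hE
  calc ∑ i, E.w i * (revE (E.prp i) (E.prq i) hw hu hv K').ex (fun p q => KL p μ + KL q ν)
      ≤ ∑ i, E.w i * (KL (E.p i) μ + KL (E.q i) ν + K' / 2) := by
        apply Finset.sum_le_sum
        intro i _
        exact mul_le_mul_of_nonneg_left (revE_KL _ _ hw hw1 hu hv hK μ ν) (E.nonneg i)
    _ = E.ex (fun p q => KL p μ + KL q ν) + K' / 2 * ∑ i, E.w i := by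
        unfold Ens.ex
        rw [Finset.mul_sum, ← Finset.sum_add_distrib]
        apply Finset.sum_congr rfl
        intro i _
        ring
    _ ≤ (2 * S * (∑ i, E.w i) + 2) + K' / 2 * ∑ i, E.w i := by linarith
    _ = _ := by
        rw [h0]
        unfold em
        ring

theorem TF.rev_cor (T : TF X Y S ω) (hμ : IsPr μ) (hν : IsPr ν) {M : X → Y → ℝ}
    (hM : ∀ x y, |M x y| ≤ 1) {d : ℕ} (hd : 1 ≤ d) (hR : (Matrix.of M).rank ≤ 4 ^ d)
    {w : Ω → ℝ} (hw : ∀ o, 0 ≤ w o) (hw1 : ∑ o, w o = 1) {u : Ω → X → ℝ}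
    (hu : ∀ k x, |u k x| ≤ 1) {v : Ω → Y → ℝ} (hv : ∀ k y, |v k y| ≤ 1) (K' : ℕ) :
    |(T.rev hμ hν hw hu hv K').ex (cor M (kW w u v))| ≤
      32 * (d : ℝ) ^ 2 / K' * em μ ν ω := by
  unfold TF.rev
  rw [Ens.bind_ex]
  have h0 := (T.ens hμ hν).tot (T.ens_bar hμ hν)
  set E := T.ens hμ hν with hE
  calc |∑ i, E.w i * (revE (E.prp i) (E.prq i) hw hu hv K').ex (cor M (kW w u v))|
      ≤ ∑ i, |E.w i * (revE (E.prp i) (E.prq i) hw hu hv K').ex (cor M (kW w u v))| :=
        Finset.abs_sum_le_sum_abs _ _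
    _ ≤ ∑ i, E.w i * (32 * (d : ℝ) ^ 2 / K') := by
        apply Finset.sum_le_sum
        intro i _
        rw [abs_mul, abs_of_nonneg (E.nonneg i)]
        exact mul_le_mul_of_nonneg_left (revE_cor _ _ hM hd hR hw hw1 hu hv K') (E.nonneg i)
    _ = _ := by
        rw [← Finset.sum_mul, h0]
        unfold em
        ring

/-- the bilinear form with the weight `ω` -/
theorem blt_one (hμ : IsPr μ) (hν : IsPr ν) {M : X → Y → ℝ}
    (hM : ∀ x y, |M x y| ≤ 1) {d : ℕ} (hd : 1 ≤ d) (hR : (Matrix.of M).rank ≤ 4 ^ d)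
    {U A B : ℝ} (hU1 : |U| ≤ 1) (hA : 0 ≤ A) (hB : 0 ≤ B) (hU : UPR μ ν M U A B)
    (T₀ : TF X Y S ω)
    {w : Ω → ℝ} (hw : ∀ o, 0 ≤ w o) (hw1 : ∑ o, w o = 1)
    {u : Ω → X → ℝ} (hu : ∀ k x, |u k x| ≤ 1) {v : Ω → Y → ℝ} (hv : ∀ k y, |v k y| ≤ 1)
    {Θ : ℝ} (hΘ : 0 ≤ Θ) {K' : ℕ} (hK' : 0 < K') {T : ℝ} (hT : 0 < T) {m m8 D : ℝ} (hS : 0 ≤ S)
    (hm : em μ ν ω ≤ m) (hm8 : em μ ν (fun x y => ω x y * (Θ * kW w u v x y) ^ 8) ≤ m8)
    (hD : em μ ν (fun x y => ω x y * (U - M x y)) ≤ D) :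
    |em μ ν (fun x y => ω x y * ((M x y - U) * (Θ * kW w u v x y)))| ≤
      32 * (d : ℝ) ^ 2 * Θ / K' * m +
      3 * T * (2 * ((A + 2 * B) * m + B * ((2 * S + K' / 2) * m + 2)) + D) + 6 / T ^ 7 * m8 := by
  set W : X → Y → ℝ := fun x y => Θ * kW w u v x y with hW
  set E := T₀.rev hμ hν hw hu hv K' with hE
  have hbar : E.Bar (fun x y => μ x * ν y * ω x y) := T₀.rev_bar hμ hν hw hw1 hu hv hK'
  have h1 := ens_bound hμ hν hM hU1 hA hB hU E hbar (T₀.rev_ac hμ hν hw hu hv K') W hT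
  have e1 : ∑ x, ∑ y, μ x * ν y * ω x y = em μ ν ω := rfl
  have e2 : ∑ x, ∑ y, μ x * ν y * ω x y * ((M x y - U) * W x y) =
      em μ ν (fun x y => ω x y * ((M x y - U) * W x y)) := by
    unfold em
    apply Finset.sum_congr rfl
    intro x _
    apply Finset.sum_congr rfl
    intro y _
    ring
  have e3 : ∑ x, ∑ y, μ x * ν y * ω x y * (U - M x y) =
      em μ ν (fun x y => ω x y * (U - M x y)) := by
    unfold em
    apply Finset.sum_congr rfl
    intro x _
    apply Finset.sum_congr rfl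
    intro y _
    ring
  have e4 : ∑ x, ∑ y, μ x * ν y * ω x y * W x y ^ 8 =
      em μ ν (fun x y => ω x y * W x y ^ 8) := by
    unfold em
    apply Finset.sum_congr rfl
    intro x _
    apply Finset.sum_congr rfl
    intro y _
    ring
  rw [e1, e2, e3, e4] at h1
  have h5 : E.ex (fun p q => KL p μ + KL q ν) ≤ (2 * S + K' / 2) * m + 2 := by
    have h6 := T₀.rev_KL hμ hν hw hw1 hu hv hK'
    have h7 : (2 * S + (K' : ℝ) / 2) * em μ ν ω ≤ (2 * S + K' / 2) * m :=
      mul_le_mul_of_nonneg_left hm (by positivity)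
    linarith
  have h6 : |E.ex (cor M W)| ≤ 32 * (d : ℝ) ^ 2 * Θ / K' * m := by
    have h7 : cor M W = fun p q => Θ * cor M (kW w u v) p q := by
      funext p q
      exact cor_smul M (kW w u v) Θ p q
    rw [h7, Ens.ex_smul, abs_mul, abs_of_nonneg hΘ]
    have h8 := mul_le_mul_of_nonneg_left (T₀.rev_cor hμ hν hM hd hR hw hw1 hu hv K') hΘ
    have h9 : 32 * (d : ℝ) ^ 2 / K' * em μ ν ω ≤ 32 * (d : ℝ) ^ 2 / K' * m :=
      mul_le_mul_of_nonneg_left hm (by positivity)
    calc _ ≤ _ := h8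
      _ ≤ Θ * (32 * (d : ℝ) ^ 2 / K' * m) := mul_le_mul_of_nonneg_left h9 hΘ
      _ = _ := by ring
  have h10 : |em μ ν (fun x y => ω x y * ((M x y - U) * W x y))| ≤ |E.ex (cor M W)| +
      |em μ ν (fun x y => ω x y * ((M x y - U) * W x y)) - E.ex (cor M W)| := by
    have := abs_add_le (E.ex (cor M W))
      (em μ ν (fun x y => ω x y * ((M x y - U) * W x y)) - E.ex (cor M W))
    simpa using this
  have h11 : 3 * T * (2 * ((A + 2 * B) * em μ ν ω + B * E.ex (fun p q => KL p μ + KL q ν)) +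
      em μ ν (fun x y => ω x y * (U - M x y))) ≤
      3 * T * (2 * ((A + 2 * B) * m + B * ((2 * S + K' / 2) * m + 2)) + D) := by
    apply mul_le_mul_of_nonneg_left _ (by positivity)
    have h12 := mul_le_mul_of_nonneg_left h5 hB
    have h13 : (A + 2 * B) * em μ ν ω ≤ (A + 2 * B) * m :=
      mul_le_mul_of_nonneg_left hm (by positivity)
    linarith
  have h12 : 6 / T ^ 7 * em μ ν (fun x y => ω x y * W x y ^ 8) ≤ 6 / T ^ 7 * m8 :=
    mul_le_mul_of_nonneg_left hm8 (by positivity)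
  linarith

/-- the quadratic form with the weight `ω` -/
theorem blt_two (hμ : IsPr μ) (hν : IsPr ν) {M : X → Y → ℝ}
    (hM : ∀ x y, |M x y| ≤ 1) {d : ℕ} (hd : 1 ≤ d) (hR : (Matrix.of M).rank ≤ 4 ^ d)
    {U A B : ℝ} (hU1 : |U| ≤ 1) (hA : 0 ≤ A) (hB : 0 ≤ B) (hU : UPR μ ν M U A B)
    (T₀ : TF X Y S ω) (hS : 0 ≤ S)
    {w : Ω → ℝ} (hw : ∀ o, 0 ≤ w o) (hw1 : ∑ o, w o = 1)
    {u : Ω → X → ℝ} (hu : ∀ k x, |u k x| ≤ 1) {v : Ω → Y → ℝ} (hv : ∀ k y, |v k y| ≤ 1)
    {Θ : ℝ} (hΘ : 0 < Θ) (K : ℕ) {K' : ℕ} (hK' : 0 < K') {T : ℝ} (hT : 0 < T) {m b D : ℝ}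
    (hm : em μ ν (fun x y => ω x y * ((1 + (Θ * kW w u v x y) ^ 8) *
      Real.exp (|K / (4 * Θ) * (Θ * kW w u v x y)|))) ≤ m)
    (hb : |em μ ν (fun x y => ω x y * ((M x y - U) * (Θ * kW w u v x y)))| ≤ b)
    (hD : em μ ν (fun x y => ω x y * (U - M x y)) ≤ D) :
    K / (4 * Θ) * |em μ ν (fun x y => ω x y * ((M x y - U) * (Θ * kW w u v x y) ^ 2))| ≤
      32 * (d : ℝ) ^ 2 * Θ / K' * m +
      3 * T * (2 * ((A + 2 * B) * m + B * ((2 * S + K + K' / 2) * m + 2)) +
        (D + K / (4 * Θ) * b + 2 * (K / (4 * Θ)) ^ 2 * m)) +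
      6 / T ^ 7 * m + b + 2 * (K / (4 * Θ)) ^ 2 * m := by
  set θ : ℝ := K / (4 * Θ) with hθ
  have hθ0 : 0 ≤ θ := by positivity
  set W : X → Y → ℝ := fun x y => Θ * kW w u v x y with hW
  have hθW : ∀ x y, (K : ℝ) * kW w u v x y / 4 = θ * W x y := by
    intro x y
    rw [hθ, hW]
    field_simp
  set wt : X → Y → ℝ := fun x y => (1 + kW w u v x y / 4) ^ K with hwt
  have hkW : ∀ x y, |kW w u v x y| ≤ 1 := by
    intro x y
    unfold kW
    calc |∑ o, w o * (u o x * v o y)| ≤ ∑ o, |w o * (u o x * v o y)| :=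
          Finset.abs_sum_le_sum_abs _ _
      _ ≤ ∑ o, w o := by
          apply Finset.sum_le_sum
          intro o _
          rw [abs_mul, abs_of_nonneg (hw o), abs_mul]
          exact mul_le_of_le_one_right (hw o) (mul_le_one₀ (hu _ _) (abs_nonneg _) (hv _ _))
      _ = 1 := hw1
  have hwt1 : ∀ x y, wt x y ≤ Real.exp (|θ * W x y|) := by
    intro x y
    have h1 : wt x y ≤ Real.exp (kW w u v x y / 4) ^ K := by
      apply pow_le_pow_left₀
      · have := (abs_le.mp (hkW x y)).1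
        linarith
      · have := Real.add_one_le_exp (kW w u v x y / 4)
        linarith
    rw [← Real.exp_nat_mul] at h1
    refine h1.trans (Real.exp_le_exp.mpr ?_)
    have h2 : (K : ℝ) * (kW w u v x y / 4) = θ * W x y := by rw [← hθW]; ring
    rw [h2]
    exact le_abs_self _
  have hwt2 : ∀ x y, |wt x y - 1 - θ * W x y| ≤ θ ^ 2 * (W x y ^ 2 * Real.exp (|θ * W x y|)) := by
    intro x y
    have h1 := wt_bound K (kW w u v x y)
    rw [hθW] at h1
    calc _ ≤ _ := h1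
      _ = _ := by ring
  have hexp1 : ∀ x y, 0 < Real.exp (|θ * W x y|) := fun x y => Real.exp_pos _
  have hom : ∀ x y, 0 ≤ ω x y := T₀.nonneg
  have hp1 : ∀ t : ℝ, t ^ 2 ≤ 1 + t ^ 8 ∧ |t| ^ 3 ≤ 1 + t ^ 8 := by
    intro t
    have h8 : t ^ 8 = |t| ^ 8 := by rw [← abs_pow, abs_of_nonneg (by positivity)]
    have h2 : t ^ 2 = |t| ^ 2 := (sq_abs t).symm
    rw [h8, h2]
    have ht := abs_nonneg t
    rcases le_total |t| 1 with h | h
    · have h3 : |t| ^ 2 ≤ 1 := pow_le_one₀ ht h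
      have h4 : |t| ^ 3 ≤ 1 := pow_le_one₀ ht h
      have h5 : 0 ≤ |t| ^ 8 := by positivity
      constructor <;> linarith
    · have h3 : |t| ^ 2 ≤ |t| ^ 8 := pow_le_pow_right₀ h (by norm_num)
      have h4 : |t| ^ 3 ≤ |t| ^ 8 := pow_le_pow_right₀ h (by norm_num)
      constructor <;> linarith
  -- moments
  have m0 : em μ ν (fun x y => ω x y * wt x y) ≤ m := by
    refine (em_mono hμ hν fun x y => ?_).trans hm
    apply mul_le_mul_of_nonneg_left _ (hom x y)
    have h1 := hwt1 x y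
    have h2 : 0 ≤ W x y ^ 8 := by positivity
    have h3 := mul_nonneg h2 (hexp1 x y).le
    linarith
  have m8 : em μ ν (fun x y => ω x y * wt x y * W x y ^ 8) ≤ m := by
    refine (em_mono hμ hν fun x y => ?_).trans hm
    rw [mul_assoc]
    apply mul_le_mul_of_nonneg_left _ (hom x y)
    have h1 := hwt1 x y
    have h2 : 0 ≤ W x y ^ 8 := by positivity
    have h3 := mul_le_mul_of_nonneg_right h1 h2
    linarith [hexp1 x y]
  have m2 : em μ ν (fun x y => ω x y * (W x y ^ 2 * Real.exp (|θ * W x y|))) ≤ m := by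
    refine (em_mono hμ hν fun x y => ?_).trans hm
    apply mul_le_mul_of_nonneg_left _ (hom x y)
    exact mul_le_mul_of_nonneg_right (hp1 (W x y)).1 (hexp1 x y).le
  have m3 : em μ ν (fun x y => ω x y * (|W x y| ^ 3 * Real.exp (|θ * W x y|))) ≤ m := by
    refine (em_mono hμ hν fun x y => ?_).trans hm
    apply mul_le_mul_of_nonneg_left _ (hom x y)
    exact mul_le_mul_of_nonneg_right (hp1 (W x y)).2 (hexp1 x y).le
  have hMU : ∀ x y, |M x y - U| ≤ 2 := by
    intro x y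
    calc |M x y - U| ≤ |M x y| + |U| := abs_sub _ _
      _ ≤ 2 := by linarith [hM x y]
  -- the mean of the tilted state
  have h7 : em μ ν (fun x y => ω x y * wt x y * (U - M x y)) ≤ D + θ * b + 2 * θ ^ 2 * m := by
    have h8 : (fun x y => ω x y * wt x y * (U - M x y)) = fun x y =>
        ω x y * (U - M x y) + ((-θ) * (ω x y * ((M x y - U) * W x y)) +
          ω x y * ((wt x y - 1 - θ * W x y) * (U - M x y))) := by
      funext x y
      ring
    have h9 : |em μ ν (fun x y => ω x y * ((wt x y - 1 - θ * W x y) * (U - M x y)))| ≤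
        2 * θ ^ 2 * m := by
      calc _ ≤ em μ ν (fun x y => (2 * θ ^ 2) * (ω x y *
            (W x y ^ 2 * Real.exp (|θ * W x y|)))) := by
            apply em_abs_le hμ hν
            intro x y
            rw [abs_mul, abs_mul, abs_of_nonneg (hom x y)]
            have h10 : |U - M x y| ≤ 2 := by rw [abs_sub_comm]; exact hMU x y
            calc _ ≤ ω x y * ((θ ^ 2 * (W x y ^ 2 * Real.exp (|θ * W x y|))) * 2) := by
                  apply mul_le_mul_of_nonneg_left _ (hom x y)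
                  exact mul_le_mul (hwt2 x y) h10 (abs_nonneg _) (by
                    have := (hexp1 x y).le
                    positivity)
              _ = _ := by ring
        _ = 2 * θ ^ 2 * em μ ν (fun x y => ω x y * (W x y ^ 2 * Real.exp (|θ * W x y|))) :=
            em_smul _ _ _ _
        _ ≤ _ := mul_le_mul_of_nonneg_left m2 (by positivity)
    rw [h8, em_add, em_add, em_smul]
    have h10 := (abs_le.mp h9).2
    have h11 : -θ * em μ ν (fun x y => ω x y * ((M x y - U) * W x y)) ≤ θ * b := by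
      have h12 := (abs_le.mp hb).1
      have h13 := mul_le_mul_of_nonneg_left h12 hθ0
      linarith
    linarith
  -- the master inequality for the combined tilt
  have hmain := blt_one hμ hν hM hd hR hU1 hA hB hU (T₀.mul (TF.form hw hw1 hu hv K)) hw hw1 hu hv
    hΘ.le hK' hT (by positivity) m0 m8 h7
  have e0 : 2 * (S + (K : ℝ) / 2) + K' / 2 = 2 * S + K + K' / 2 := by ring
  rw [e0] at hmain
  -- the quadratic term
  have h8 : em μ ν (fun x y => ω x y * wt x y * ((M x y - U) * W x y)) =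
      em μ ν (fun x y => ω x y * ((M x y - U) * W x y)) +
      (θ * em μ ν (fun x y => ω x y * ((M x y - U) * W x y ^ 2)) +
      em μ ν (fun x y => ω x y * ((wt x y - 1 - θ * W x y) * ((M x y - U) * W x y)))) := by
    rw [← em_smul, ← em_add, ← em_add]
    congr 1
    funext x y
    ring
  have h9 : |em μ ν (fun x y => ω x y * ((wt x y - 1 - θ * W x y) * ((M x y - U) * W x y)))| ≤
      2 * θ ^ 2 * m := by
    calc _ ≤ em μ ν (fun x y => (2 * θ ^ 2) * (ω x y *
          (|W x y| ^ 3 * Real.exp (|θ * W x y|)))) := by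
          apply em_abs_le hμ hν
          intro x y
          rw [abs_mul, abs_mul, abs_mul, abs_of_nonneg (hom x y)]
          have h10 : |M x y - U| * |W x y| ≤ 2 * |W x y| :=
            mul_le_mul_of_nonneg_right (hMU x y) (abs_nonneg _)
          calc _ ≤ ω x y * ((θ ^ 2 * (W x y ^ 2 * Real.exp (|θ * W x y|))) * (2 * |W x y|)) := by
                apply mul_le_mul_of_nonneg_left _ (hom x y)
                exact mul_le_mul (hwt2 x y) h10 (by positivity) (by
                  have := (hexp1 x y).le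
                  positivity)
            _ = _ := by
              rw [← sq_abs (W x y)]
              ring
      _ = 2 * θ ^ 2 * em μ ν (fun x y => ω x y * (|W x y| ^ 3 * Real.exp (|θ * W x y|))) :=
          em_smul _ _ _ _
      _ ≤ _ := mul_le_mul_of_nonneg_left m3 (by positivity)
  have h13 : θ * |em μ ν (fun x y => ω x y * ((M x y - U) * W x y ^ 2))| ≤
      |em μ ν (fun x y => ω x y * wt x y * ((M x y - U) * W x y))| + b + 2 * θ ^ 2 * m := by
    rw [← abs_of_nonneg hθ0, ← abs_mul, abs_of_nonneg hθ0]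
    have h14 : θ * em μ ν (fun x y => ω x y * ((M x y - U) * W x y ^ 2)) =
        em μ ν (fun x y => ω x y * wt x y * ((M x y - U) * W x y)) -
        em μ ν (fun x y => ω x y * ((M x y - U) * W x y)) -
        em μ ν (fun x y => ω x y * ((wt x y - 1 - θ * W x y) * ((M x y - U) * W x y))) := by
      rw [h8]
      ring
    rw [h14]
    calc _ ≤ |em μ ν (fun x y => ω x y * wt x y * ((M x y - U) * W x y)) -
        em μ ν (fun x y => ω x y * ((M x y - U) * W x y))| +
        |em μ ν (fun x y => ω x y * ((wt x y - 1 - θ * W x y) * ((M x y - U) * W x y)))| :=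
          abs_sub _ _
      _ ≤ (|em μ ν (fun x y => ω x y * wt x y * ((M x y - U) * W x y))| +
        |em μ ν (fun x y => ω x y * ((M x y - U) * W x y))|) +
        |em μ ν (fun x y => ω x y * ((wt x y - 1 - θ * W x y) * ((M x y - U) * W x y)))| := by
          gcongr
          exact abs_sub _ _
      _ ≤ _ := by linarith
  linarith

end TF

end Pool.Agent.LR2
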