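import Pool.Agent.Lib_helper59.LR2.Ens
import Pool.Agent.Lib_helper59.LR2.Freeze

/-!
# The bilinear form theorem
-/

set_option autoImplicit false
set_option linter.unusedSectionVars false

open Finset

namespace Pool.Agent.LR2

section Cell

variable {X Y : Type} [Fintype X] [Fintype Y]

theorem em_add (p : X → ℝ) (q : Y → ℝ) (M N : X → Y → ℝ) :
    em p q (fun x y => M x y + N x y) = em p q M + em p q N := by
  unfold em
  rw [← Finset.sum_add_distrib]
  apply Finset.sum_congr rfl
  intro x _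
  rw [← Finset.sum_add_distrib]
  apply Finset.sum_congr rfl
  intro y _
  ring

theorem em_smul (p : X → ℝ) (q : Y → ℝ) (c : ℝ) (M : X → Y → ℝ) :
    em p q (fun x y => c * M x y) = c * em p q M := by
  unfold em
  rw [Finset.mul_sum]
  apply Finset.sum_congr rfl
  intro x _
  rw [Finset.mul_sum]
  apply Finset.sum_congr rfl
  intro y _
  ring

theorem em_const {p : X → ℝ} {q : Y → ℝ} (hp : IsPr p) (hq : IsPr q) (c : ℝ) :
    em p q (fun _ _ => c) = c := by
  rw [em_row]
  unfold rmean
  simp only [← Finset.sum_mul, hq.sum, one_mul, hp.sum]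

theorem em_rowfun {p : X → ℝ} {q : Y → ℝ} (hq : IsPr q) (f : X → ℝ) :
    em p q (fun x _ => f x) = ∑ x, p x * f x := by
  rw [em_row]
  apply Finset.sum_congr rfl
  intro x _
  unfold rmean
  rw [← Finset.sum_mul, hq.sum, one_mul]

theorem em_colfun {p : X → ℝ} {q : Y → ℝ} (hp : IsPr p) (f : Y → ℝ) :
    em p q (fun _ y => f y) = ∑ y, q y * f y := by
  rw [em_col]
  apply Finset.sum_congr rfl
  intro x _
  unfold cmean
  rw [← Finset.sum_mul, hp.sum, one_mul]

theorem em_rmul (p : X → ℝ) (q : Y → ℝ) (f : X → ℝ) (M : X → Y → ℝ) :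
    em p q (fun x y => f x * M x y) = ∑ x, p x * (f x * rmean q M x) := by
  rw [em_row]
  apply Finset.sum_congr rfl
  intro x _
  unfold rmean
  congr 1
  rw [Finset.mul_sum]
  apply Finset.sum_congr rfl
  intro y _
  ring

theorem em_cmul (p : X → ℝ) (q : Y → ℝ) (f : Y → ℝ) (M : X → Y → ℝ) :
    em p q (fun x y => f y * M x y) = ∑ y, q y * (f y * cmean p M y) := by
  rw [em_col]
  apply Finset.sum_congr rfl
  intro x _
  unfold cmean
  congr 1
  rw [Finset.mul_sum]
  apply Finset.sum_congr rfl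
  intro y _
  ring

theorem ctr_eq (p : X → ℝ) (q : Y → ℝ) (W : X → Y → ℝ) (x : X) (y : Y) :
    ctr p q W x y = W x y - cmean p W y - rmean q W x + em p q W := rfl

/-- the identity for the correlation in a cell -/
theorem cor_eq {p : X → ℝ} {q : Y → ℝ} (hp : IsPr p) (hq : IsPr q) (M W : X → Y → ℝ) (U : ℝ) :
    cor M W p q = em p q (fun x y => (M x y - U) * W x y)
      - ∑ x, p x * ((rmean q M x - U) * rmean q W x)
      - ∑ y, q y * ((cmean p M y - U) * cmean p W y)
      + (em p q M - U) * em p q W := by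
  have h1 : cor M W p q = em p q (fun x y => M x y * ctr p q W x y) := by
    unfold cor em
    apply Finset.sum_congr rfl
    intro x _
    apply Finset.sum_congr rfl
    intro y _
    ring
  have h2 : (fun x y => M x y * ctr p q W x y) = fun x y => (M x y * W x y +
      (-1) * (cmean p W y * M x y)) + ((-1) * (rmean q W x * M x y) + em p q W * M x y) := by
    funext x y
    rw [ctr_eq]
    ring
  have h3 : (fun x y => (M x y - U) * W x y) = fun x y => M x y * W x y + (-U) * W x y := by
    funext x y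
    ring
  rw [h1, h2, em_add, em_add, em_add, em_smul, em_smul, em_smul, em_rmul, em_cmul, h3, em_add,
    em_smul]
  have h4 : ∑ x, p x * ((rmean q M x - U) * rmean q W x) =
      ∑ x, p x * (rmean q W x * rmean q M x) - U * em p q W := by
    rw [em_row, Finset.mul_sum, ← Finset.sum_sub_distrib]
    apply Finset.sum_congr rfl
    intro x _
    ring
  have h5 : ∑ y, q y * ((cmean p M y - U) * cmean p W y) =
      ∑ y, q y * (cmean p W y * cmean p M y) - U * em p q W := by
    rw [em_col p q W, Finset.mul_sum, ← Finset.sum_sub_distrib]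
    apply Finset.sum_congr rfl
    intro x _
    ring
  rw [h4, h5]
  ring

theorem em_abs {p : X → ℝ} {q : Y → ℝ} (hp : IsPr p) (hq : IsPr q) {M : X → Y → ℝ}
    (hM : ∀ x y, |M x y| ≤ 1) : |em p q M| ≤ 1 := pair_abs hp hq hM

theorem rmean_abs {q : Y → ℝ} (hq : IsPr q) {M : X → Y → ℝ} (hM : ∀ x y, |M x y| ≤ 1) (x : X) :
    |rmean q M x| ≤ 1 := by
  unfold rmean
  calc |∑ y, q y * M x y| ≤ ∑ y, |q y * M x y| := Finset.abs_sum_le_sum_abs _ _
    _ ≤ ∑ y, q y := by
        apply Finset.sum_le_sum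
        intro y _
        rw [abs_mul, abs_of_nonneg (hq.nonneg y)]
        exact mul_le_of_le_one_right (hq.nonneg y) (hM x y)
    _ = 1 := hq.sum

theorem rmean_pow8 {p : X → ℝ} {q : Y → ℝ} (hp : IsPr p) (hq : IsPr q) (W : X → Y → ℝ) :
    ∑ x, p x * rmean q W x ^ 8 ≤ em p q (fun x y => W x y ^ 8) := by
  rw [em_row]
  exact Finset.sum_le_sum fun x _ => mul_le_mul_of_nonneg_left (pow8_mean hq _) (hp.nonneg x)

/-- one cell: the bilinear form -/
theorem cell_bound {μ : X → ℝ} {ν : Y → ℝ} (hμ : IsPr μ) (hν : IsPr ν) {M : X → Y → ℝ}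
    (hM : ∀ x y, |M x y| ≤ 1) {U A B : ℝ} (hU1 : |U| ≤ 1) (hA : 0 ≤ A) (hB : 0 ≤ B)
    (hU : UPR μ ν M U A B) {p : X → ℝ} {q : Y → ℝ}
    (hp : IsPr p) (hq : IsPr q) (hpa : AC p μ) (hqa : AC q ν) (W : X → Y → ℝ) {T : ℝ}
    (hT : 0 < T) :
    |em p q (fun x y => (M x y - U) * W x y) - cor M W p q| ≤
      3 * T * (2 * (A + B * (KL p μ + KL q ν + 2)) + (U - em p q M)) +
      6 / T ^ 7 * em p q (fun x y => W x y ^ 8) := by
  have e1 := cor_eq hp hq M W U
  set Δ := 2 * (A + B * (KL p μ + KL q ν + 2)) + (U - em p q M) with hΔ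
  set m8 := em p q (fun x y => W x y ^ 8) with hm8
  have f1 : ∑ x, p x * |rmean q M x - U| ≤ Δ := freeze_abs hμ hν hA hB hU hp hq hpa hqa
  have f2 : ∑ y, q y * |cmean p M y - U| ≤ Δ := by
    have h := freeze_abs hν hμ hA hB hU.swap hq hp hqa hpa
    rw [em_swap, add_comm (KL q ν)] at h
    exact h
  have hUa : ∀ t : ℝ, |t| ≤ 1 → |t - U| ≤ 2 := by
    intro t ht
    calc |t - U| ≤ |t| + |U| := abs_sub _ _
      _ ≤ 2 := by linarith
  have g1 : |∑ x, p x * ((rmean q M x - U) * rmean q W x)| ≤ T * Δ + 2 / T ^ 7 * m8 := by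
    calc _ ≤ ∑ x, |p x * ((rmean q M x - U) * rmean q W x)| := Finset.abs_sum_le_sum_abs _ _
      _ ≤ ∑ x, (T * (p x * |rmean q M x - U|) + 2 / T ^ 7 * (p x * rmean q W x ^ 8)) := by
          apply Finset.sum_le_sum
          intro x _
          rw [abs_mul, abs_of_nonneg (hp.nonneg x)]
          have h := mul_le_mul_of_nonneg_left (young8 (b := rmean q W x) hT
            (hUa _ (rmean_abs hq hM x))) (hp.nonneg x)
          linarith
      _ ≤ _ := by
          rw [Finset.sum_add_distrib, ← Finset.mul_sum, ← Finset.mul_sum]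
          have h1 := mul_le_mul_of_nonneg_left f1 hT.le
          have h2 := mul_le_mul_of_nonneg_left (rmean_pow8 hp hq W)
            (by positivity : (0 : ℝ) ≤ 2 / T ^ 7)
          linarith
  have g2 : |∑ y, q y * ((cmean p M y - U) * cmean p W y)| ≤ T * Δ + 2 / T ^ 7 * m8 := by
    calc _ ≤ ∑ y, |q y * ((cmean p M y - U) * cmean p W y)| := Finset.abs_sum_le_sum_abs _ _
      _ ≤ ∑ y, (T * (q y * |cmean p M y - U|) + 2 / T ^ 7 * (q y * cmean p W y ^ 8)) := by
          apply Finset.sum_le_sum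
          intro y _
          rw [abs_mul, abs_of_nonneg (hq.nonneg y)]
          have h0 : |cmean p M y| ≤ 1 :=
            rmean_abs hp (M := fun y x => M x y) (fun y x => hM x y) y
          have h := mul_le_mul_of_nonneg_left (young8 (b := cmean p W y) hT
            (hUa _ h0)) (hq.nonneg y)
          linarith
      _ ≤ _ := by
          rw [Finset.sum_add_distrib, ← Finset.mul_sum, ← Finset.mul_sum]
          have h1 := mul_le_mul_of_nonneg_left f2 hT.le
          have h3 : ∑ y, q y * cmean p W y ^ 8 ≤ m8 := by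
            have h4 := rmean_pow8 hq hp (fun y x => W x y)
            rw [em_swap p q (fun x y => W x y ^ 8)] at h4
            exact h4
          have h2 := mul_le_mul_of_nonneg_left h3 (by positivity : (0 : ℝ) ≤ 2 / T ^ 7)
          linarith
  have g3 : |(em p q M - U) * em p q W| ≤ T * Δ + 2 / T ^ 7 * m8 := by
    have h1 := young8 (b := em p q W) hT (hUa _ (em_abs hp hq hM))
    have h2 : |em p q M - U| ≤ Δ := by
      calc |em p q M - U| = |∑ x, p x * (rmean q M x - U)| := by
            congr 1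
            simp only [mul_sub]
            rw [Finset.sum_sub_distrib, ← em_row, ← Finset.sum_mul, hp.sum, one_mul]
        _ ≤ ∑ x, |p x * (rmean q M x - U)| := Finset.abs_sum_le_sum_abs _ _
        _ = ∑ x, p x * |rmean q M x - U| := by
            apply Finset.sum_congr rfl
            intro x _
            rw [abs_mul, abs_of_nonneg (hp.nonneg x)]
        _ ≤ Δ := f1
    have h3 : em p q W ^ 8 ≤ m8 := by
      rw [em_row]
      exact (pow8_mean hp _).trans (rmean_pow8 hp hq W)
    have h4 := mul_le_mul_of_nonneg_left h2 hT.le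
    have h5 := mul_le_mul_of_nonneg_left h3 (by positivity : (0 : ℝ) ≤ 2 / T ^ 7)
    linarith
  have e2 : em p q (fun x y => (M x y - U) * W x y) - cor M W p q =
      ∑ x, p x * ((rmean q M x - U) * rmean q W x) +
      ∑ y, q y * ((cmean p M y - U) * cmean p W y) - (em p q M - U) * em p q W := by
    rw [e1]
    ring
  rw [e2]
  have h6 : 6 / T ^ 7 * m8 = 3 * (2 / T ^ 7 * m8) := by ring
  rw [h6]
  calc _ ≤ |∑ x, p x * ((rmean q M x - U) * rmean q W x) +
        ∑ y, q y * ((cmean p M y - U) * cmean p W y)| + |(em p q M - U) * em p q W| :=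
        abs_sub _ _
    _ ≤ |∑ x, p x * ((rmean q M x - U) * rmean q W x)| +
        |∑ y, q y * ((cmean p M y - U) * cmean p W y)| + |(em p q M - U) * em p q W| := by
        gcongr
        exact abs_add_le _ _
    _ ≤ _ := by linarith

/-- the master inequality for an ensemble -/
theorem ens_bound {μ : X → ℝ} {ν : Y → ℝ} (hμ : IsPr μ) (hν : IsPr ν) {M : X → Y → ℝ}
    (hM : ∀ x y, |M x y| ≤ 1) {U A B : ℝ} (hU1 : |U| ≤ 1) (hA : 0 ≤ A) (hB : 0 ≤ B)
    (hU : UPR μ ν M U A B) (E : Ens X Y) {R : X → Y → ℝ} (hR : E.Bar R) (hac : E.Ac μ ν)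
    (W : X → Y → ℝ) {T : ℝ} (hT : 0 < T) :
    |∑ x, ∑ y, R x y * ((M x y - U) * W x y) - E.ex (cor M W)| ≤
      3 * T * (2 * ((A + 2 * B) * (∑ x, ∑ y, R x y) + B * E.ex (fun p q => KL p μ + KL q ν)) +
        ∑ x, ∑ y, R x y * (U - M x y)) +
      6 / T ^ 7 * ∑ x, ∑ y, R x y * W x y ^ 8 := by
  have e1 : ∑ x, ∑ y, R x y * ((M x y - U) * W x y) =
      E.ex (fun p q => em p q (fun x y => (M x y - U) * W x y)) :=
    (E.ex_lin hR _).symm
  have e2 : ∑ x, ∑ y, R x y * W x y ^ 8 = E.ex (fun p q => em p q (fun x y => W x y ^ 8)) :=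
    (E.ex_lin hR _).symm
  have e3 : ∑ x, ∑ y, R x y * (U - M x y) = E.ex (fun p q => U - em p q M) := by
    rw [← E.ex_lin hR (fun x y => U - M x y)]
    unfold Ens.ex
    apply Finset.sum_congr rfl
    intro i _
    congr 1
    have h1 : (fun x y => U - M x y) = fun x y => U + (-1) * M x y := by
      funext x y
      ring
    change em (E.p i) (E.q i) (fun x y => U - M x y) = _
    rw [h1, em_add, em_smul, em_const (E.prp i) (E.prq i)]
    ring
  have e4 := E.ex_one hR
  have e5 : E.ex (fun p q => em p q (fun x y => (M x y - U) * W x y)) - E.ex (cor M W) =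
      E.ex (fun p q => em p q (fun x y => (M x y - U) * W x y) - cor M W p q) := by
    unfold Ens.ex
    rw [← Finset.sum_sub_distrib]
    apply Finset.sum_congr rfl
    intro i _
    ring
  rw [e1, e5, e2, e3, ← e4]
  calc _ ≤ E.ex (fun p q => |em p q (fun x y => (M x y - U) * W x y) - cor M W p q|) :=
        E.ex_abs _
    _ ≤ E.ex (fun p q => 3 * T * (2 * (A + B * (KL p μ + KL q ν + 2)) + (U - em p q M)) +
      6 / T ^ 7 * em p q (fun x y => W x y ^ 8)) := by
        apply E.ex_mono
        intro i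
        exact cell_bound hμ hν hM hU1 hA hB hU (E.prp i) (E.prq i) (hac.1 i) (hac.2 i) W hT
    _ = _ := by
        have h1 : (fun (p : X → ℝ) (q : Y → ℝ) =>
            3 * T * (2 * (A + B * (KL p μ + KL q ν + 2)) + (U - em p q M)) +
            6 / T ^ 7 * em p q (fun x y => W x y ^ 8)) = fun p q =>
            ((6 * T * (A + 2 * B)) * 1 + (6 * T * B) * (KL p μ + KL q ν)) +
            ((3 * T) * (U - em p q M) + 6 / T ^ 7 * em p q (fun x y => W x y ^ 8)) := by
          funext p q
          ring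
        rw [h1, Ens.ex_add, Ens.ex_add, Ens.ex_add, Ens.ex_smul, Ens.ex_smul, Ens.ex_smul,
          Ens.ex_smul]
        ring

end Cell

end Pool.Agent.LR2
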