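import Pool.Agent.Lib_helper59.LR2.Gauge

/-!
# The extremal state: the balanced equations
-/

set_option autoImplicit false
set_option linter.unusedSectionVars false

open Finset Matrix

namespace Pool.Agent.LR2

section Bal

variable {X Y : Type} [Fintype X] [Fintype Y] [Nonempty X] [Nonempty Y] {n : ℕ}
variable {M : X → Y → ℝ} {μ₀ : X → ℝ} {ν₀ : Y → ℝ} {lam Lam : ℝ} {m : ℕ}
  {α : X → ℝ} {β : Y → ℝ} {F : Fac X Y n}

/-- second moments -/
noncomputable def mom (α : X → ℝ) (a : X → Fin n → ℝ) : Matrix (Fin n) (Fin n) ℝ :=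
  ∑ x, α x • vecMulVec (a x) (a x)

theorem mom_tr (α : X → ℝ) (a : X → Fin n → ℝ) : (mom α a)ᵀ = mom α a := by
  unfold mom
  rw [Matrix.transpose_sum]
  apply Finset.sum_congr rfl
  intro x _
  rw [Matrix.transpose_smul, Matrix.transpose_vecMulVec]

theorem mom_bil (α : X → ℝ) (a : X → Fin n → ℝ) (v w : Fin n → ℝ) :
    v ⬝ᵥ (mom α a *ᵥ w) = ∑ x, α x * ((v ⬝ᵥ a x) * (w ⬝ᵥ a x)) := by
  unfold mom
  rw [Matrix.sum_mulVec, dotProduct_sum]
  apply Finset.sum_congr rfl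
  intro x _
  rw [Matrix.smul_mulVec, dotProduct_smul, smul_eq_mul, Matrix.vecMulVec_mulVec]
  simp only [dotProduct_smul, dotProduct_comm (a x) w, op_smul_eq_smul, smul_eq_mul]
  ring

/-- competitor at the left end -/
theorem bal_left (h : St M μ₀ ν₀ lam Lam (m + 1) α β F) {v : Fin n → ℝ} (hv : v ⬝ᵥ v = 1) :
    ∑ x, α x * (v ⬝ᵥ F.a x) ^ 2 = nsq (v ᵥ* F.Z 0) := by
  apply first_order
  intro x hx
  set ρ := Real.sqrt x with hρ
  have hρ0 : 0 < ρ := Real.sqrt_pos.2 hx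
  have hρ2 : ρ ^ 2 = x := Real.sq_sqrt hx.le
  set F' : Fac X Y n := ⟨F.p, F.q, fun x => gR v ρ *ᵥ F.a x, F.b,
    fun j => if j = 0 then gR v ρ⁻¹ * F.Z 0 else F.Z j⟩ with hF'
  have hchn : ∀ k, chn F'.Z (k + 1) = gR v ρ⁻¹ * chn F.Z (k + 1) := by
    intro k
    induction k with
    | zero =>
      show 1 * (if (0 : ℕ) = 0 then gR v ρ⁻¹ * F.Z 0 else F.Z 0) = gR v ρ⁻¹ * (1 * F.Z 0)
      rw [if_pos rfl, one_mul, one_mul]
    | succ k ih =>
      show chn F'.Z (k + 1) * (if k + 1 = 0 then gR v ρ⁻¹ * F.Z 0 else F.Z (k + 1)) =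
        gR v ρ⁻¹ * (chn F.Z (k + 1) * F.Z (k + 1))
      rw [ih, if_neg (by omega), mul_assoc]
  have hbil : ∀ x y, F'.bil (m + 1) x y = F.bil (m + 1) x y := by
    intro x y
    show (gR v ρ *ᵥ F.a x) ⬝ᵥ (chn F'.Z (m + 1) *ᵥ F.b y) = F.a x ⬝ᵥ (chn F.Z (m + 1) *ᵥ F.b y)
    rw [hchn, ← Matrix.mulVec_mulVec, Matrix.dotProduct_mulVec, ← Matrix.mulVec_transpose, gR_tr,
      Matrix.mulVec_mulVec]
    have h1 : gR v ρ⁻¹ * gR v ρ = 1 := by
      have := gR_mul_inv hv (inv_pos.2 hρ0)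
      rwa [inv_inv] at this
    rw [h1, Matrix.one_mulVec]
  have hval : F'.Val (m + 1) M α β := by
    intro x y hx hy
    rw [hbil]
    exact h.val x y hx hy
  have hmin := h.min F' hval
  have hZ : ∑ j ∈ range (m + 1), fro (F'.Z j) = ∑ j ∈ range (m + 1), fro (F.Z j) +
      (ρ⁻¹ ^ 2 - 1) * nsq (v ᵥ* F.Z 0) := by
    rw [Finset.sum_range_succ', Finset.sum_range_succ' (fun j => fro (F.Z j))]
    have h1 : fro (F'.Z 0) = fro (F.Z 0) + (ρ⁻¹ ^ 2 - 1) * nsq (v ᵥ* F.Z 0) := by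
      show fro (if (0 : ℕ) = 0 then gR v ρ⁻¹ * F.Z 0 else F.Z 0) = _
      rw [if_pos rfl, fro_gR_mul hv]
    have h2 : ∀ k, fro (F'.Z (k + 1)) = fro (F.Z (k + 1)) := by
      intro k
      show fro (if k + 1 = 0 then gR v ρ⁻¹ * F.Z 0 else F.Z (k + 1)) = _
      rw [if_neg (by omega)]
    rw [h1]
    simp only [h2]
    ring
  have ha : ∑ x, α x * nsq (F'.a x) = ∑ x, α x * nsq (F.a x) +
      (ρ ^ 2 - 1) * ∑ x, α x * (v ⬝ᵥ F.a x) ^ 2 := by
    rw [Finset.mul_sum, ← Finset.sum_add_distrib]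
    apply Finset.sum_congr rfl
    intro x _
    show α x * nsq (gR v ρ *ᵥ F.a x) = _
    rw [nsq_gR hv]
    ring
  unfold Fac.cost at hmin
  rw [hZ, ha] at hmin
  rw [div_le_div_iff_of_pos_right (by positivity)] at hmin
  have hb : ∑ y, β y * nsq (F'.b y) = ∑ y, β y * nsq (F.b y) := rfl
  rw [hb, inv_pow, hρ2] at hmin
  rw [one_div]
  linarith

/-- competitor in the middle -/
theorem bal_mid (h : St M μ₀ ν₀ lam Lam m α β F) {j : ℕ} (hj : j + 1 < m) {v : Fin n → ℝ}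
    (hv : v ⬝ᵥ v = 1) : nsq (F.Z j *ᵥ v) = nsq (v ᵥ* F.Z (j + 1)) := by
  apply first_order
  intro x hx
  set ρ := Real.sqrt x with hρ
  have hρ0 : 0 < ρ := Real.sqrt_pos.2 hx
  have hρ2 : ρ ^ 2 = x := Real.sq_sqrt hx.le
  set F' : Fac X Y n := ⟨F.p, F.q, F.a, F.b,
    fun k => if k = j then F.Z j * gR v ρ else if k = j + 1 then gR v ρ⁻¹ * F.Z (j + 1) else
      F.Z k⟩ with hF'
  have h0 : chn F'.Z j = chn F.Z j := by
    apply chn_congr
    intro k hk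
    show (if k = j then F.Z j * gR v ρ else if k = j + 1 then gR v ρ⁻¹ * F.Z (j + 1) else
      F.Z k) = F.Z k
    rw [if_neg (by omega), if_neg (by omega)]
  have h2 : chn F'.Z (j + 2) = chn F.Z (j + 2) := by
    show chn F'.Z j * (if j = j then F.Z j * gR v ρ else if j = j + 1 then
      gR v ρ⁻¹ * F.Z (j + 1) else F.Z j) * (if j + 1 = j then F.Z j * gR v ρ else
        if j + 1 = j + 1 then gR v ρ⁻¹ * F.Z (j + 1) else F.Z (j + 1)) =
      chn F.Z j * F.Z j * F.Z (j + 1)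
    rw [h0, if_pos rfl, if_neg (by omega), if_pos rfl]
    calc chn F.Z j * (F.Z j * gR v ρ) * (gR v ρ⁻¹ * F.Z (j + 1)) =
        chn F.Z j * F.Z j * (gR v ρ * gR v ρ⁻¹) * F.Z (j + 1) := by
          simp only [mul_assoc]
      _ = _ := by rw [gR_mul_inv hv hρ0, mul_one]
  have hchn : ∀ k, chn F'.Z (j + 2 + k) = chn F.Z (j + 2 + k) := by
    intro k
    induction k with
    | zero => exact h2
    | succ k ih =>
      show chn F'.Z (j + 2 + k) * (if j + 2 + k = j then F.Z j * gR v ρ else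
        if j + 2 + k = j + 1 then gR v ρ⁻¹ * F.Z (j + 1) else F.Z (j + 2 + k)) =
        chn F.Z (j + 2 + k) * F.Z (j + 2 + k)
      rw [ih, if_neg (by omega), if_neg (by omega)]
  have hchnm : chn F'.Z m = chn F.Z m := by
    have := hchn (m - (j + 2))
    rwa [show j + 2 + (m - (j + 2)) = m by omega] at this
  have hval : F'.Val m M α β := by
    intro x y hx hy
    show M x y = F.p x + F.q y + F.a x ⬝ᵥ (chn F'.Z m *ᵥ F.b y)
    rw [hchnm]
    exact h.val x y hx hy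
  have hmin := h.min F' hval
  have hZ : ∑ k ∈ range m, fro (F'.Z k) = ∑ k ∈ range m, fro (F.Z k) +
      (ρ ^ 2 - 1) * nsq (F.Z j *ᵥ v) + (ρ⁻¹ ^ 2 - 1) * nsq (v ᵥ* F.Z (j + 1)) := by
    have h3 : ∀ k ∈ range m, fro (F'.Z k) = fro (F.Z k) +
        ((if k = j then (ρ ^ 2 - 1) * nsq (F.Z j *ᵥ v) else 0) +
        (if k = j + 1 then (ρ⁻¹ ^ 2 - 1) * nsq (v ᵥ* F.Z (j + 1)) else 0)) := by
      intro k _
      show fro (if k = j then F.Z j * gR v ρ else if k = j + 1 then gR v ρ⁻¹ * F.Z (j + 1) else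
        F.Z k) = _
      by_cases h4 : k = j
      · subst h4
        rw [if_pos rfl, if_pos rfl, if_neg (by omega), fro_mul_gR hv]
        ring
      · by_cases h5 : k = j + 1
        · subst h5
          rw [if_neg (by omega), if_pos rfl, if_neg (by omega), if_pos rfl, fro_gR_mul hv]
          ring
        · rw [if_neg h4, if_neg h5, if_neg h4, if_neg h5]
          ring
    rw [Finset.sum_congr rfl h3, Finset.sum_add_distrib, Finset.sum_add_distrib,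
      Finset.sum_ite_eq', Finset.sum_ite_eq', if_pos (Finset.mem_range.2 (by omega)),
      if_pos (Finset.mem_range.2 hj)]
    ring
  unfold Fac.cost at hmin
  rw [hZ] at hmin
  rw [div_le_div_iff_of_pos_right (by positivity)] at hmin
  have ha : ∑ x, α x * nsq (F'.a x) = ∑ x, α x * nsq (F.a x) := rfl
  have hb : ∑ y, β y * nsq (F'.b y) = ∑ y, β y * nsq (F.b y) := rfl
  rw [ha, hb, inv_pow, hρ2] at hmin
  rw [one_div]
  linarith

theorem quad_mul_tr (Z : Matrix (Fin n) (Fin n) ℝ) (v : Fin n → ℝ) :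
    v ⬝ᵥ ((Z * Zᵀ) *ᵥ v) = nsq (v ᵥ* Z) := by
  rw [← Matrix.mulVec_mulVec, Matrix.dotProduct_mulVec, Matrix.mulVec_transpose, nsq_eq]

theorem quad_tr_mul (Z : Matrix (Fin n) (Fin n) ℝ) (v : Fin n → ℝ) :
    v ⬝ᵥ ((Zᵀ * Z) *ᵥ v) = nsq (Z *ᵥ v) := by
  rw [← Matrix.mulVec_mulVec, Matrix.dotProduct_mulVec, Matrix.vecMul_transpose, nsq_eq]

/-- `E a aᵀ = Z₀ Z₀ᵀ` -/
theorem St.bal0 (h : St M μ₀ ν₀ lam Lam (m + 1) α β F) : mom α F.a = F.Z 0 * (F.Z 0)ᵀ := by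
  apply quad_eq (mom_tr _ _) (by rw [Matrix.transpose_mul, Matrix.transpose_transpose])
  intro v hv
  rw [quad_mul_tr, mom_bil, ← bal_left h hv]
  apply Finset.sum_congr rfl
  intro x _
  ring

/-- `Z_jᵀ Z_j = Z_{j+1} Z_{j+1}ᵀ` -/
theorem St.balm (h : St M μ₀ ν₀ lam Lam m α β F) {j : ℕ} (hj : j + 1 < m) :
    (F.Z j)ᵀ * F.Z j = F.Z (j + 1) * (F.Z (j + 1))ᵀ := by
  apply quad_eq (by rw [Matrix.transpose_mul, Matrix.transpose_transpose])
    (by rw [Matrix.transpose_mul, Matrix.transpose_transpose])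
  intro v hv
  rw [quad_mul_tr, quad_tr_mul, bal_mid h hj hv]

/-- `Z_{m-1}ᵀ Z_{m-1} = E b bᵀ` -/
theorem St.bal1 (h : St M μ₀ ν₀ lam Lam (m + 1) α β F) :
    (F.Z m)ᵀ * F.Z m = mom β F.b := by
  have h1 := h.swap.bal0
  have h2 : (F.tr (m + 1)).Z 0 = (F.Z m)ᵀ := by
    show (F.Z (m + 1 - 1 - 0))ᵀ = _
    rw [show m + 1 - 1 - 0 = m by omega]
  rw [h2, Matrix.transpose_transpose] at h1
  exact h1.symm

/-- the intertwining relations -/
theorem St.inter (h : St M μ₀ ν₀ lam Lam (m + 1) α β F) (k : ℕ) (hk : k ≤ m) :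
    mom α F.a * chn F.Z (k + 1) = chn F.Z (k + 1) * ((F.Z k)ᵀ * F.Z k) ∧
    chn F.Z (k + 1) * (chn F.Z (k + 1))ᵀ = mom α F.a ^ (k + 1) := by
  induction k with
  | zero =>
    have h1 : chn F.Z (0 + 1) = F.Z 0 := one_mul _
    rw [h1, h.bal0, zero_add, pow_one]
    refine ⟨by rw [mul_assoc], rfl⟩
  | succ k ih =>
    obtain ⟨h1, h2⟩ := ih (by omega)
    have h3 := h.balm (j := k) (by omega)
    have h4 : chn F.Z (k + 1 + 1) = chn F.Z (k + 1) * F.Z (k + 1) := rfl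
    refine ⟨?_, ?_⟩
    · rw [h4, ← mul_assoc, h1, h3]
      simp only [mul_assoc]
    · rw [h4, Matrix.transpose_mul]
      calc chn F.Z (k + 1) * F.Z (k + 1) * ((F.Z (k + 1))ᵀ * (chn F.Z (k + 1))ᵀ) =
          chn F.Z (k + 1) * (F.Z (k + 1) * (F.Z (k + 1))ᵀ) * (chn F.Z (k + 1))ᵀ := by
            simp only [mul_assoc]
        _ = chn F.Z (k + 1) * ((F.Z k)ᵀ * F.Z k) * (chn F.Z (k + 1))ᵀ := by rw [h3]
        _ = mom α F.a * chn F.Z (k + 1) * (chn F.Z (k + 1))ᵀ := by rw [h1]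
        _ = mom α F.a * mom α F.a ^ (k + 1) := by rw [mul_assoc, h2]
        _ = mom α F.a ^ (k + 1 + 1) := by rw [← pow_succ']

/-- `S C = C E b bᵀ` and `C Cᵀ = S^{m+1}` -/
theorem St.inter' (h : St M μ₀ ν₀ lam Lam (m + 1) α β F) :
    mom α F.a * chn F.Z (m + 1) = chn F.Z (m + 1) * mom β F.b ∧
    chn F.Z (m + 1) * (chn F.Z (m + 1))ᵀ = mom α F.a ^ (m + 1) := by
  have h1 := h.inter m le_rfl
  rw [h.bal1] at h1
  exact h1

theorem trace_mom (α : X → ℝ) (a : X → Fin n → ℝ) : (mom α a).trace = ∑ x, α x * nsq (a x) := by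
  unfold mom
  rw [Matrix.trace_sum]
  apply Finset.sum_congr rfl
  intro x _
  rw [Matrix.trace_smul, smul_eq_mul]
  congr 1
  unfold Matrix.trace nsq
  apply Finset.sum_congr rfl
  intro i _
  rw [Matrix.diag_apply, vecMulVec_apply]
  ring

theorem trace_mul_tr (Z : Matrix (Fin n) (Fin n) ℝ) : (Z * Zᵀ).trace = fro Z := by
  unfold Matrix.trace fro
  apply Finset.sum_congr rfl
  intro i _
  rw [Matrix.diag_apply, Matrix.mul_apply]
  apply Finset.sum_congr rfl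
  intro j _
  rw [Matrix.transpose_apply]
  ring

theorem trace_tr_mul (Z : Matrix (Fin n) (Fin n) ℝ) : (Zᵀ * Z).trace = fro Z := by
  rw [Matrix.trace_mul_comm, trace_mul_tr]

/-- all the parts of the cost are equal -/
theorem St.cost_eq (h : St M μ₀ ν₀ lam Lam (m + 1) α β F) :
    (∀ j ≤ m, fro (F.Z j) = ∑ x, α x * nsq (F.a x)) ∧
    ∑ y, β y * nsq (F.b y) = ∑ x, α x * nsq (F.a x) ∧
    F.cost (m + 1) α β = ∑ x, α x * nsq (F.a x) := by
  have h1 : ∀ j ≤ m, fro (F.Z j) = ∑ x, α x * nsq (F.a x) := by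
    intro j hj
    induction j with
    | zero => rw [← trace_mul_tr, ← h.bal0, trace_mom]
    | succ j ih =>
      rw [← trace_mul_tr, ← h.balm (j := j) (by omega), trace_tr_mul, ih (by omega)]
  have h2 : ∑ y, β y * nsq (F.b y) = ∑ x, α x * nsq (F.a x) := by
    rw [← trace_mom, ← h.bal1, trace_tr_mul, h1 m le_rfl]
  refine ⟨h1, h2, ?_⟩
  unfold Fac.cost
  rw [h2, Finset.sum_congr rfl (g := fun _ => ∑ x, α x * nsq (F.a x))
    (fun j hj => h1 j (by have := Finset.mem_range.1 hj; omega)), Finset.sum_const,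
    Finset.card_range, nsmul_eq_mul]
  push_cast
  field_simp
  ring

end Bal

end Pool.Agent.LR2
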