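import Pool.Agent.Lib_helper59.LR2.Reveal

/-!
# Ensembles of product cells; the ensemble of revealing
-/

set_option autoImplicit false
set_option linter.unusedSectionVars false

open Finset

namespace Pool.Agent.LR2

/-- a finite ensemble of product cells -/
structure Ens (X Y : Type) [Fintype X] [Fintype Y] where
  I : Type
  fin : Fintype I
  w : I → ℝ
  p : I → X → ℝ
  q : I → Y → ℝ
  nonneg : ∀ i, 0 ≤ w i
  prp : ∀ i, IsPr (p i)
  prq : ∀ i, IsPr (q i)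

attribute [instance] Ens.fin

section E

variable {X Y : Type} [Fintype X] [Fintype Y]

/-- the sum over the ensemble -/
noncomputable def Ens.ex (E : Ens X Y) (Φ : (X → ℝ) → (Y → ℝ) → ℝ) : ℝ :=
  ∑ i, E.w i * Φ (E.p i) (E.q i)

/-- `p x * q y` averages to the weight `R x y` -/
def Ens.Bar (E : Ens X Y) (R : X → Y → ℝ) : Prop :=
  ∀ x y, E.ex (fun p q => p x * q y) = R x y

/-- absolute continuity -/
def Ens.Ac (E : Ens X Y) (μ : X → ℝ) (ν : Y → ℝ) : Prop :=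
  (∀ i x, μ x = 0 → E.p i x = 0) ∧ ∀ i y, ν y = 0 → E.q i y = 0

theorem Ens.ex_add (E : Ens X Y) (Φ Ψ : (X → ℝ) → (Y → ℝ) → ℝ) :
    E.ex (fun p q => Φ p q + Ψ p q) = E.ex Φ + E.ex Ψ := by
  unfold Ens.ex
  rw [← Finset.sum_add_distrib]
  apply Finset.sum_congr rfl
  intro i _
  ring

theorem Ens.ex_smul (E : Ens X Y) (c : ℝ) (Φ : (X → ℝ) → (Y → ℝ) → ℝ) :
    E.ex (fun p q => c * Φ p q) = c * E.ex Φ := by
  unfold Ens.ex
  rw [Finset.mul_sum]
  apply Finset.sum_congr rfl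
  intro i _
  ring

theorem Ens.ex_sum (E : Ens X Y) {ι : Type*} (s : Finset ι) (Φ : ι → (X → ℝ) → (Y → ℝ) → ℝ) :
    E.ex (fun p q => ∑ k ∈ s, Φ k p q) = ∑ k ∈ s, E.ex (Φ k) := by
  unfold Ens.ex
  rw [Finset.sum_comm]
  apply Finset.sum_congr rfl
  intro i _
  rw [Finset.mul_sum]

theorem Ens.ex_mono (E : Ens X Y) {Φ Ψ : (X → ℝ) → (Y → ℝ) → ℝ}
    (h : ∀ i, Φ (E.p i) (E.q i) ≤ Ψ (E.p i) (E.q i)) : E.ex Φ ≤ E.ex Ψ := by
  unfold Ens.ex
  exact Finset.sum_le_sum fun i _ => mul_le_mul_of_nonneg_left (h i) (E.nonneg i)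

theorem Ens.ex_abs (E : Ens X Y) (Φ : (X → ℝ) → (Y → ℝ) → ℝ) :
    |E.ex Φ| ≤ E.ex (fun p q => |Φ p q|) := by
  unfold Ens.ex
  calc |∑ i, E.w i * Φ (E.p i) (E.q i)| ≤ ∑ i, |E.w i * Φ (E.p i) (E.q i)| :=
        Finset.abs_sum_le_sum_abs _ _
    _ = _ := by
        apply Finset.sum_congr rfl
        intro i _
        rw [abs_mul, abs_of_nonneg (E.nonneg i)]

/-- linear functions of the cells -/
theorem Ens.ex_lin (E : Ens X Y) {R : X → Y → ℝ} (h : E.Bar R) (f : X → Y → ℝ) :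
    E.ex (fun p q => ∑ x, ∑ y, p x * q y * f x y) = ∑ x, ∑ y, R x y * f x y := by
  rw [Ens.ex_sum]
  apply Finset.sum_congr rfl
  intro x _
  rw [Ens.ex_sum]
  apply Finset.sum_congr rfl
  intro y _
  rw [← h x y]
  have h1 : (fun (p : X → ℝ) (q : Y → ℝ) => p x * q y * f x y) =
      fun p q => f x y * (p x * q y) := by
    funext p q
    ring
  rw [h1, Ens.ex_smul]
  ring

/-- the total weight -/
theorem Ens.ex_one (E : Ens X Y) {R : X → Y → ℝ} (h : E.Bar R) :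
    E.ex (fun _ _ => 1) = ∑ x, ∑ y, R x y := by
  have h1 := E.ex_lin h (fun _ _ => 1)
  simp only [mul_one] at h1
  rw [← h1]
  unfold Ens.ex
  apply Finset.sum_congr rfl
  intro i _
  have h2 : ∑ x, ∑ y, E.p i x * E.q i y = 1 := by
    have h3 : ∀ x, ∑ y, E.p i x * E.q i y = E.p i x := by
      intro x
      rw [← Finset.mul_sum, (E.prq i).sum, mul_one]
    simp only [h3]
    exact (E.prp i).sum
  show E.w i * 1 = E.w i * ∑ x, ∑ y, E.p i x * E.q i y
  rw [h2]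

end E

section RevealEns

variable {X Y Ω : Type} [Fintype X] [Fintype Y] [Fintype Ω] [Inhabited Ω]

theorem av_split {w : Ω → ℝ} (hw1 : ∑ o, w o = 1) (u : Ω → X → ℝ) (v : Ω → Y → ℝ) (μ : X → ℝ)
    (ν : Y → ℝ) (Φ : (X → ℝ) → (Y → ℝ) → ℝ) {i K : ℕ} (hi : i ≤ K) :
    av w K (fun om => av hf K (fun ξ => av hf K (fun η =>
      Φ (cell μ (fun k => u (om k)) ξ i) (cell ν (fun k => v (om k)) η i)))) =
    av w i (fun om => av hf i (fun ξ => av hf i (fun η =>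
      Φ (cell μ (fun k => u (om k)) ξ i) (cell ν (fun k => v (om k)) η i)))) := by
  have h1 : ∀ om : ℕ → Ω, av hf K (fun ξ => av hf K (fun η =>
      Φ (cell μ (fun k => u (om k)) ξ i) (cell ν (fun k => v (om k)) η i))) =
      av hf i (fun ξ => av hf i (fun η =>
      Φ (cell μ (fun k => u (om k)) ξ i) (cell ν (fun k => v (om k)) η i))) := by
    intro om
    have h2 : ∀ ξ : ℕ → Bool, av hf K (fun η =>
        Φ (cell μ (fun k => u (om k)) ξ i) (cell ν (fun k => v (om k)) η i)) =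
        av hf i (fun η =>
        Φ (cell μ (fun k => u (om k)) ξ i) (cell ν (fun k => v (om k)) η i)) := by
      intro ξ
      apply av_prefix hf_sum hi
      intro ζ j z hj
      simp only [cell_upd _ _ _ _ _ hj]
    simp only [h2]
    apply av_prefix hf_sum hi
    intro ζ j z hj
    simp only [cell_upd _ _ _ _ _ hj]
  simp only [h1]
  apply av_prefix hw1 hi
  intro ζ j z hj
  simp only [cell_upd_om _ _ _ _ hj]

/-- the ensemble of `K` rounds of revealing, stopped at a random time -/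
noncomputable def revE {μ : X → ℝ} {ν : Y → ℝ} (hμ : IsPr μ) (hν : IsPr ν)
    {w : Ω → ℝ} (hw : ∀ o, 0 ≤ w o) {u : Ω → X → ℝ} (hu : ∀ k x, |u k x| ≤ 1)
    {v : Ω → Y → ℝ} (hv : ∀ k y, |v k y| ≤ 1) (K : ℕ) : Ens X Y where
  I := Fin K × (Fin K → Ω) × (Fin K → Bool) × (Fin K → Bool)
  fin := inferInstance
  w := fun z => (1 / K) * ((∏ i, w (z.2.1 i)) * ((∏ i, hf (z.2.2.1 i)) * (∏ i, hf (z.2.2.2 i))))
  p := fun z => cell μ (fun k => u (ext z.2.1 k)) (ext z.2.2.1) z.1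
  q := fun z => cell ν (fun k => v (ext z.2.1 k)) (ext z.2.2.2) z.1
  nonneg := fun z => by
    refine mul_nonneg (by positivity) (mul_nonneg (Finset.prod_nonneg fun i _ => hw _)
      (mul_nonneg (Finset.prod_nonneg fun i _ => hf_nonneg _)
        (Finset.prod_nonneg fun i _ => hf_nonneg _)))
  prp := fun z => cell_pr hμ (fun k x => hu _ x) _ _
  prq := fun z => cell_pr hν (fun k x => hv _ x) _ _

theorem revE_ex {μ : X → ℝ} {ν : Y → ℝ} (hμ : IsPr μ) (hν : IsPr ν)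
    {w : Ω → ℝ} (hw : ∀ o, 0 ≤ w o) (hw1 : ∑ o, w o = 1) {u : Ω → X → ℝ}
    (hu : ∀ k x, |u k x| ≤ 1)
    {v : Ω → Y → ℝ} (hv : ∀ k y, |v k y| ≤ 1) (K : ℕ) (Φ : (X → ℝ) → (Y → ℝ) → ℝ) :
    (revE hμ hν hw hu hv K).ex Φ = (1 / K) * ∑ i ∈ range K,
      av w i (fun om => av hf i (fun ξ => av hf i (fun η =>
      Φ (cell μ (fun k => u (om k)) ξ i) (cell ν (fun k => v (om k)) η i)))) := by
  have h1 : (revE hμ hν hw hu hv K).ex Φ = (1 / K) * ∑ i : Fin K,
      av w K (fun om => av hf K (fun ξ => av hf K (fun η =>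
      Φ (cell μ (fun k => u (om k)) ξ i) (cell ν (fun k => v (om k)) η i)))) := by
    change ∑ z : Fin K × (Fin K → Ω) × (Fin K → Bool) × (Fin K → Bool), _ = _
    rw [Fintype.sum_prod_type, Finset.mul_sum]
    apply Finset.sum_congr rfl
    intro i _
    rw [Fintype.sum_prod_type]
    unfold av
    rw [Finset.mul_sum]
    apply Finset.sum_congr rfl
    intro om _
    rw [Fintype.sum_prod_type, Finset.mul_sum, Finset.mul_sum]
    apply Finset.sum_congr rfl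
    intro ξ _
    rw [Finset.mul_sum, Finset.mul_sum, Finset.mul_sum]
    apply Finset.sum_congr rfl
    intro η _
    simp only [revE]
    ring
  rw [h1, Finset.sum_range]
  congr 1
  apply Finset.sum_congr rfl
  intro i _
  exact av_split hw1 u v μ ν Φ i.2.le

theorem revE_cor {μ : X → ℝ} {ν : Y → ℝ} (hμ : IsPr μ) (hν : IsPr ν) {M : X → Y → ℝ}
    (hM : ∀ x y, |M x y| ≤ 1) {d : ℕ} (hd : 1 ≤ d) (hR : (Matrix.of M).rank ≤ 4 ^ d)
    {w : Ω → ℝ} (hw : ∀ o, 0 ≤ w o) (hw1 : ∑ o, w o = 1)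
    {u : Ω → X → ℝ} (hu : ∀ k x, |u k x| ≤ 1) {v : Ω → Y → ℝ} (hv : ∀ k y, |v k y| ≤ 1) (K : ℕ) :
    |(revE hμ hν hw hu hv K).ex (cor M (kW w u v))| ≤ 32 * (d : ℝ) ^ 2 / K := by
  rw [revE_ex hμ hν hw hw1 hu hv K, abs_mul, abs_of_nonneg (by positivity : (0 : ℝ) ≤ 1 / K)]
  have := reveal_sum hμ hν hM hd hR hw hw1 hu hv K
  calc (1 / K : ℝ) * _ ≤ (1 / K) * (32 * (d : ℝ) ^ 2) :=
        mul_le_mul_of_nonneg_left this (by positivity)
    _ = _ := by ring

theorem revE_bar {μ : X → ℝ} {ν : Y → ℝ} (hμ : IsPr μ) (hν : IsPr ν)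
    {w : Ω → ℝ} (hw : ∀ o, 0 ≤ w o) (hw1 : ∑ o, w o = 1) {u : Ω → X → ℝ}
    (hu : ∀ k x, |u k x| ≤ 1)
    {v : Ω → Y → ℝ} (hv : ∀ k y, |v k y| ≤ 1) {K : ℕ} (hK : 0 < K) :
    (revE hμ hν hw hu hv K).Bar (fun x y => μ x * ν y) := by
  intro x y
  rw [revE_ex hμ hν hw hw1 hu hv K]
  have h1 : ∀ i, av w i (fun om => av hf i (fun ξ => av hf i (fun η =>
      cell μ (fun k => u (om k)) ξ i x * cell ν (fun k => v (om k)) η i y))) = μ x * ν y := by
    intro i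
    simp only [av_smul, av_cell]
    have h2 : ∀ om : ℕ → Ω, av hf i (fun ξ => cell μ (fun k => u (om k)) ξ i x * ν y) =
        μ x * ν y := by
      intro om
      simp only [mul_comm _ (ν y)]
      rw [av_smul, av_cell]
    simp only [h2]
    exact av_const hw1 i _
  simp only [h1]
  rw [Finset.sum_const, card_range, nsmul_eq_mul]
  have : (K : ℝ) ≠ 0 := by exact_mod_cast hK.ne'
  field_simp

theorem revE_ac {μ : X → ℝ} {ν : Y → ℝ} (hμ : IsPr μ) (hν : IsPr ν)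
    {w : Ω → ℝ} (hw : ∀ o, 0 ≤ w o) {u : Ω → X → ℝ} (hu : ∀ k x, |u k x| ≤ 1)
    {v : Ω → Y → ℝ} (hv : ∀ k y, |v k y| ≤ 1) (K : ℕ) :
    (revE hμ hν hw hu hv K).Ac μ ν :=
  ⟨fun i x hx => cell_ac _ _ hx, fun i y hy => cell_ac _ _ hy⟩

theorem revE_KL {μ : X → ℝ} {ν : Y → ℝ} (hμ : IsPr μ) (hν : IsPr ν)
    {w : Ω → ℝ} (hw : ∀ o, 0 ≤ w o) (hw1 : ∑ o, w o = 1) {u : Ω → X → ℝ}
    (hu : ∀ k x, |u k x| ≤ 1)
    {v : Ω → Y → ℝ} (hv : ∀ k y, |v k y| ≤ 1) {K : ℕ} (hK : 0 < K) (κ : X → ℝ) (κ' : Y → ℝ) :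
    (revE hμ hν hw hu hv K).ex (fun p q => KL p κ + KL q κ') ≤
      KL μ κ + KL ν κ' + K / 2 := by
  rw [revE_ex hμ hν hw hw1 hu hv K]
  have h1 : ∀ i ∈ range K, av w i (fun om => av hf i (fun ξ => av hf i (fun η =>
      KL (cell μ (fun k => u (om k)) ξ i) κ + KL (cell ν (fun k => v (om k)) η i) κ'))) ≤
      KL μ κ + KL ν κ' + K / 2 := by
    intro i hi
    have hi' : (i : ℝ) ≤ K := by exact_mod_cast (Finset.mem_range.mp hi).le
    rw [← av_const hw1 i (KL μ κ + KL ν κ' + K / 2)]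
    apply av_mono hw
    intro om
    have h2 : ∀ ξ : ℕ → Bool, av hf i (fun η =>
        KL (cell μ (fun k => u (om k)) ξ i) κ + KL (cell ν (fun k => v (om k)) η i) κ') ≤
        KL (cell μ (fun k => u (om k)) ξ i) κ + (KL ν κ' + i / 4) := by
      intro ξ
      rw [av_add, av_const hf_sum]
      have := av_KL hν (u := fun k => v (om k)) (fun k x => hv _ x) i κ'
      linarith
    calc _ ≤ av hf i (fun ξ => KL (cell μ (fun k => u (om k)) ξ i) κ + (KL ν κ' + i / 4)) :=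
          av_mono hf_nonneg i h2
      _ = av hf i (fun ξ => KL (cell μ (fun k => u (om k)) ξ i) κ) + (KL ν κ' + i / 4) := by
          rw [av_add, av_const hf_sum]
      _ ≤ (KL μ κ + i / 4) + (KL ν κ' + i / 4) := by
          have := av_KL hμ (u := fun k => u (om k)) (fun k x => hu _ x) i κ
          linarith
      _ ≤ _ := by linarith
  calc (1 / K : ℝ) * _ ≤ (1 / K) * ∑ i ∈ range K, (KL μ κ + KL ν κ' + K / 2) :=
        mul_le_mul_of_nonneg_left (Finset.sum_le_sum h1) (by positivity)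
    _ = _ := by
        rw [Finset.sum_const, card_range, nsmul_eq_mul]
        have : (K : ℝ) ≠ 0 := by exact_mod_cast hK.ne'
        field_simp

end RevealEns

end Pool.Agent.LR2
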