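import Pool.Agent.Lib_helper59.LR2.Sharp

/-!
# The extremal state: gauge transformations, the balanced equations
-/

set_option autoImplicit false
set_option linter.unusedSectionVars false

open Finset Matrix

namespace Pool.Agent.LR2

section Chn

variable {n : ℕ}

theorem chn_left (Z : ℕ → Matrix (Fin n) (Fin n) ℝ) (k : ℕ) :
    chn Z (k + 1) = Z 0 * chn (fun j => Z (j + 1)) k := by
  induction k with
  | zero =>
    show 1 * Z 0 = Z 0 * 1
    rw [one_mul, mul_one]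
  | succ k ih =>
    show chn Z (k + 1) * Z (k + 1) = Z 0 * (chn (fun j => Z (j + 1)) k * Z (k + 1))
    rw [ih, mul_assoc]

theorem chn_rev (Z : ℕ → Matrix (Fin n) (Fin n) ℝ) (m k : ℕ) (hk : k ≤ m) :
    chn (fun j => (Z (m - 1 - j))ᵀ) k = (chn (fun j => Z (m - k + j)) k)ᵀ := by
  induction k with
  | zero =>
    show (1 : Matrix (Fin n) (Fin n) ℝ) = (1 : Matrix (Fin n) (Fin n) ℝ)ᵀ
    rw [Matrix.transpose_one]
  | succ k ih =>
    rw [chn_left (fun j => Z (m - (k + 1) + j)) k]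
    show chn (fun j => (Z (m - 1 - j))ᵀ) k * (Z (m - 1 - k))ᵀ = _
    rw [ih (by omega), Matrix.transpose_mul]
    have e1 : (fun j => Z (m - (k + 1) + (j + 1))) = fun j => Z (m - k + j) := by
      funext j
      congr 1
      omega
    have e2 : m - (k + 1) + 0 = m - 1 - k := by omega
    rw [e1, e2]

theorem chn_tr (Z : ℕ → Matrix (Fin n) (Fin n) ℝ) (m : ℕ) :
    chn (fun j => (Z (m - 1 - j))ᵀ) m = (chn Z m)ᵀ := by
  rw [chn_rev Z m m le_rfl]
  congr 2
  funext j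
  congr 1
  omega

theorem fro_tr (Z : Matrix (Fin n) (Fin n) ℝ) : fro Zᵀ = fro Z := by
  unfold fro
  rw [Finset.sum_comm]
  rfl

end Chn

section Swap

variable {X Y : Type} [Fintype X] [Fintype Y] {n : ℕ}

/-- the transposed factorisation -/
def Fac.tr (F : Fac X Y n) (m : ℕ) : Fac Y X n where
  p := F.q
  q := F.p
  a := F.b
  b := F.a
  Z := fun j => (F.Z (m - 1 - j))ᵀ

theorem Fac.tr_bil (F : Fac X Y n) (m : ℕ) (x : X) (y : Y) : (F.tr m).bil m y x = F.bil m x y := by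
  show F.b y ⬝ᵥ (chn (fun j => (F.Z (m - 1 - j))ᵀ) m *ᵥ F.a x) = F.a x ⬝ᵥ (chn F.Z m *ᵥ F.b y)
  rw [chn_tr, Matrix.mulVec_transpose, dotProduct_comm, ← Matrix.dotProduct_mulVec]

theorem Fac.tr_val {F : Fac X Y n} {m : ℕ} {M : X → Y → ℝ} {α : X → ℝ} {β : Y → ℝ}
    (h : F.Val m M α β) : (F.tr m).Val m (fun y x => M x y) β α := by
  intro y x hy hx
  rw [F.tr_bil]
  show M x y = F.q y + F.p x + F.bil m x y
  rw [h x y hx hy]
  ring

theorem Fac.tr_cost (F : Fac X Y n) (m : ℕ) (α : X → ℝ) (β : Y → ℝ) :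
    (F.tr m).cost m β α = F.cost m α β := by
  unfold Fac.cost
  have h1 : ∑ j ∈ range m, fro ((F.tr m).Z j) = ∑ j ∈ range m, fro (F.Z j) := by
    rw [← Finset.sum_range_reflect (fun j => fro (F.Z j)) m]
    apply Finset.sum_congr rfl
    intro j _
    exact fro_tr _
  rw [h1]
  show (∑ y, β y * nsq (F.b y) + _ + ∑ x, α x * nsq (F.a x)) / _ = _
  ring

variable [Nonempty X] [Nonempty Y] {M : X → Y → ℝ} {μ₀ : X → ℝ} {ν₀ : Y → ℝ} {lam Lam : ℝ} {m : ℕ}
  {α : X → ℝ} {β : Y → ℝ} {F : Fac X Y n}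

theorem Xi_swap (F : Fac X Y n) (α : X → ℝ) (β : Y → ℝ) :
    Xi (fun y x => M x y) ν₀ μ₀ lam Lam m β α (F.tr m) = Xi M μ₀ ν₀ lam Lam m α β F := by
  unfold Xi
  rw [Fac.tr_cost, em_swap]
  ring

theorem ctd_swap (α : X → ℝ) (β : Y → ℝ) (M : X → Y → ℝ) (x : X) (y : Y) :
    ctd β α (fun y x => M x y) y x = ctd α β M x y := by
  unfold ctd
  rw [em_swap]
  show M x y - cmean α M y - rmean β M x + em α β M = _
  ring

/-- the extremal state with rows and columns exchanged -/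
theorem St.swap (h : St M μ₀ ν₀ lam Lam m α β F) :
    St (fun y x => M x y) ν₀ μ₀ lam Lam m β α (F.tr m) where
  hμ := h.hν
  hν := h.hμ
  hlam := h.hlam
  hLam := h.hLam
  hα := h.hβ
  hβ := h.hα
  val := Fac.tr_val h.val
  bil := by
    intro y x hy hx
    rw [F.tr_bil, h.bil x y hx hy, ctd_swap]
  ca := h.cb
  cb := h.ca
  max := by
    intro β' α' F' hβ' hα' hF'
    rw [Xi_swap]
    have h1 := h.max α' β' (F'.tr m) hα' hβ' (Fac.tr_val hF')
    have h2 := Xi_swap (M := fun y x => M x y) (μ₀ := ν₀) (ν₀ := μ₀) (lam := lam) (Lam := Lam)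
      (m := m) F' β' α'
    rw [← h2]
    exact h1

/-- the cost is minimal -/
theorem St.min (h : St M μ₀ ν₀ lam Lam m α β F) (F' : Fac X Y n) (hF' : F'.Val m M α β) :
    F.cost m α β ≤ F'.cost m α β := by
  have h1 := h.max α β F' h.hα h.hβ hF'
  unfold Xi at h1
  have h2 : Lam * F.cost m α β ≤ Lam * F'.cost m α β := by linarith
  exact le_of_mul_le_mul_left h2 h.hLam

end Swap

section Lin

variable {n : ℕ}

theorem nsq_eq (v : Fin n → ℝ) : nsq v = v ⬝ᵥ v := by
  unfold nsq dotProduct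
  apply Finset.sum_congr rfl
  intro i _
  ring

/-- stretching in the direction of the unit vector `v` -/
def gR (v : Fin n → ℝ) (ρ : ℝ) : Matrix (Fin n) (Fin n) ℝ := 1 + (ρ - 1) • vecMulVec v v

theorem gR_mulVec (v : Fin n → ℝ) (ρ : ℝ) (a : Fin n → ℝ) :
    gR v ρ *ᵥ a = a + ((ρ - 1) * (v ⬝ᵥ a)) • v := by
  unfold gR
  rw [Matrix.add_mulVec, Matrix.one_mulVec, Matrix.smul_mulVec]
  congr 1
  funext i
  simp only [Pi.smul_apply, smul_eq_mul, Matrix.mulVec, dotProduct, vecMulVec_apply]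
  rw [Finset.mul_sum, Finset.mul_sum, Finset.sum_mul]
  apply Finset.sum_congr rfl
  intro j _
  ring

theorem gR_tr (v : Fin n → ℝ) (ρ : ℝ) : (gR v ρ)ᵀ = gR v ρ := by
  unfold gR
  rw [Matrix.transpose_add, Matrix.transpose_one, Matrix.transpose_smul,
    Matrix.transpose_vecMulVec]

theorem gR_mul_inv {v : Fin n → ℝ} (hv : v ⬝ᵥ v = 1) {ρ : ℝ} (hρ : 0 < ρ) :
    gR v ρ * gR v ρ⁻¹ = 1 := by
  apply Matrix.ext_of_mulVec_single
  intro i
  rw [← Matrix.mulVec_mulVec, gR_mulVec v ρ⁻¹, gR_mulVec, Matrix.one_mulVec, dotProduct_add,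
    dotProduct_smul, hv, smul_eq_mul, mul_one]
  have h1 : (ρ - 1) * (v ⬝ᵥ Pi.single i 1 + (ρ⁻¹ - 1) * (v ⬝ᵥ Pi.single i 1)) =
      -((ρ⁻¹ - 1) * (v ⬝ᵥ Pi.single i 1)) := by
    field_simp
    ring
  rw [h1, neg_smul]
  abel

theorem nsq_gR {v : Fin n → ℝ} (hv : v ⬝ᵥ v = 1) (ρ : ℝ) (a : Fin n → ℝ) :
    nsq (gR v ρ *ᵥ a) = nsq a + (ρ ^ 2 - 1) * (v ⬝ᵥ a) ^ 2 := by
  rw [gR_mulVec, nsq_eq, nsq_eq, add_dotProduct, dotProduct_add, dotProduct_add, smul_dotProduct,
    smul_dotProduct, dotProduct_smul, dotProduct_smul, hv, dotProduct_comm a v]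
  simp only [smul_eq_mul]
  ring

theorem fro_cols (Z : Matrix (Fin n) (Fin n) ℝ) : fro Z = ∑ j, nsq (fun i => Z i j) := by
  unfold fro nsq
  rw [Finset.sum_comm]

theorem fro_gR_mul {v : Fin n → ℝ} (hv : v ⬝ᵥ v = 1) (ρ : ℝ) (Z : Matrix (Fin n) (Fin n) ℝ) :
    fro (gR v ρ * Z) = fro Z + (ρ ^ 2 - 1) * nsq (v ᵥ* Z) := by
  rw [fro_cols, fro_cols]
  have h1 : ∀ j, (fun i => (gR v ρ * Z) i j) = gR v ρ *ᵥ (fun i => Z i j) := by
    intro j
    funext i
    rfl
  simp only [h1, nsq_gR hv]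
  rw [Finset.sum_add_distrib, ← Finset.mul_sum]
  rfl

theorem fro_mul_gR {v : Fin n → ℝ} (hv : v ⬝ᵥ v = 1) (ρ : ℝ) (Z : Matrix (Fin n) (Fin n) ℝ) :
    fro (Z * gR v ρ) = fro Z + (ρ ^ 2 - 1) * nsq (Z *ᵥ v) := by
  rw [← fro_tr, Matrix.transpose_mul, gR_tr, fro_gR_mul hv, fro_tr, Matrix.vecMul_transpose]

theorem first_order {A B : ℝ} (h : ∀ x : ℝ, 0 < x → 0 ≤ (x - 1) * A + (1 / x - 1) * B) : A = B := by
  apply le_antisymm
  · by_contra hcon
    push Not at hcon
    set d := A - B with hd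
    have hd0 : 0 < d := by linarith
    set t := min (1 / 2) (d / (2 * (|A| + 1))) with ht
    have ht0 : 0 < t := by
      rw [ht]
      have := abs_nonneg A
      positivity
    have ht1 : t ≤ 1 / 2 := min_le_left _ _
    have ht2 : t * |A| ≤ d / 2 := by
      have h1 : t ≤ d / (2 * (|A| + 1)) := min_le_right _ _
      have hA := abs_nonneg A
      have h2 : t * |A| ≤ d / (2 * (|A| + 1)) * |A| := mul_le_mul_of_nonneg_right h1 hA
      have h3 : d / (2 * (|A| + 1)) * |A| ≤ d / 2 := by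
        rw [div_mul_eq_mul_div, div_le_div_iff₀ (by positivity) (by norm_num)]
        nlinarith
      linarith
    have h4 := h (1 - t) (by linarith)
    have h5 : (1 - t - 1) * A + (1 / (1 - t) - 1) * B = t * (B / (1 - t) - A) := by
      have : (1 - t) ≠ 0 := by linarith
      field_simp
      ring
    rw [h5] at h4
    have h6 : 0 ≤ B / (1 - t) - A := by
      by_contra h7
      push Not at h7
      nlinarith
    have h8 : A * (1 - t) ≤ B := by
      rw [← le_div_iff₀ (by linarith)]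
      linarith
    have h9 : t * A ≤ t * |A| := mul_le_mul_of_nonneg_left (le_abs_self A) ht0.le
    linarith
  · by_contra hcon
    push Not at hcon
    set d := B - A with hd
    have hd0 : 0 < d := by linarith
    set t := d / (2 * (|A| + 1)) with ht
    have ht0 : 0 < t := by
      rw [ht]
      have := abs_nonneg A
      positivity
    have ht2 : t * |A| ≤ d / 2 := by
      have hA := abs_nonneg A
      rw [ht, div_mul_eq_mul_div, div_le_div_iff₀ (by positivity) (by norm_num)]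
      nlinarith
    have h4 := h (1 + t) (by linarith)
    have h5 : (1 + t - 1) * A + (1 / (1 + t) - 1) * B = t * (A - B / (1 + t)) := by
      have : (1 + t) ≠ 0 := by linarith
      field_simp
      ring
    rw [h5] at h4
    have h6 : 0 ≤ A - B / (1 + t) := by
      by_contra h7
      push Not at h7
      nlinarith
    have h8 : B ≤ A * (1 + t) := by
      rw [← div_le_iff₀ (by linarith)]
      linarith
    have h9 : t * A ≤ t * |A| := mul_le_mul_of_nonneg_left (le_abs_self A) ht0.le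
    linarith

/-- symmetric matrices with the same quadratic form on unit vectors -/
theorem quad_eq {P Q : Matrix (Fin n) (Fin n) ℝ} (hP : Pᵀ = P) (hQ : Qᵀ = Q)
    (h : ∀ v : Fin n → ℝ, v ⬝ᵥ v = 1 → v ⬝ᵥ (P *ᵥ v) = v ⬝ᵥ (Q *ᵥ v)) : P = Q := by
  have hall : ∀ v : Fin n → ℝ, v ⬝ᵥ (P *ᵥ v) = v ⬝ᵥ (Q *ᵥ v) := by
    intro v
    rcases eq_or_ne v 0 with h0 | h0
    · rw [h0]
      simp
    · have hv : 0 < v ⬝ᵥ v := by
        rw [← nsq_eq]
        apply lt_of_le_of_ne (nsq_nonneg v)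
        intro h1
        apply h0
        have h2 := (Finset.sum_eq_zero_iff_of_nonneg (fun i _ => sq_nonneg (v i))).1 h1.symm
        funext i
        exact pow_eq_zero_iff (two_ne_zero) |>.1 (h2 i (Finset.mem_univ i))
      set c := Real.sqrt (v ⬝ᵥ v) with hc
      have hc0 : 0 < c := Real.sqrt_pos.2 hv
      have hc2 : c * c = v ⬝ᵥ v := Real.mul_self_sqrt hv.le
      have h3 := h (c⁻¹ • v) (by
        rw [smul_dotProduct, dotProduct_smul, smul_eq_mul, smul_eq_mul, ← hc2]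
        field_simp)
      rw [Matrix.mulVec_smul, Matrix.mulVec_smul, smul_dotProduct, dotProduct_smul,
        smul_dotProduct, dotProduct_smul] at h3
      simp only [smul_eq_mul] at h3
      have h4 : c⁻¹ ≠ 0 := inv_ne_zero hc0.ne'
      exact mul_left_cancel₀ h4 (mul_left_cancel₀ h4 h3)
  have hsym : ∀ (R : Matrix (Fin n) (Fin n) ℝ), Rᵀ = R → ∀ v w : Fin n → ℝ,
      v ⬝ᵥ (R *ᵥ w) = w ⬝ᵥ (R *ᵥ v) := by
    intro R hR v w
    rw [Matrix.dotProduct_mulVec, dotProduct_comm, ← Matrix.mulVec_transpose, hR]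
  have hbil : ∀ v w : Fin n → ℝ, v ⬝ᵥ (P *ᵥ w) = v ⬝ᵥ (Q *ᵥ w) := by
    intro v w
    have h1 := hall (v + w)
    rw [Matrix.mulVec_add, Matrix.mulVec_add, add_dotProduct, add_dotProduct, dotProduct_add,
      dotProduct_add, dotProduct_add, dotProduct_add, hall v, hall w, hsym P hP w v,
      hsym Q hQ w v] at h1
    linarith
  ext i j
  have h1 := hbil (Pi.single i 1) (Pi.single j 1)
  simpa using h1

end Lin

end Pool.Agent.LR2
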