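import Pool.Agent.Lib_helper59.LR2.Freeze

/-!
# Gibbs' inequality; from sup-densities to relative entropy
-/

set_option autoImplicit false

open Finset

namespace Pool.Agent.LR2

variable {X : Type} [Fintype X]

theorem exp_sum_pos {μ : X → ℝ} (hμ : IsPr μ) (h : X → ℝ) : 0 < ∑ x, μ x * Real.exp (h x) := by
  have h1 : ∃ x ∈ (Finset.univ : Finset X), 0 < μ x := by
    by_contra hcon
    push Not at hcon
    have h2 : ∑ x, μ x ≤ 0 := Finset.sum_nonpos hcon
    rw [hμ.sum] at h2
    linarith
  obtain ⟨x, -, hx⟩ := h1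
  exact Finset.sum_pos' (fun y _ => mul_nonneg (hμ.nonneg y) (Real.exp_pos _).le)
    ⟨x, Finset.mem_univ x, mul_pos hx (Real.exp_pos _)⟩

/-- Gibbs' variational inequality -/
theorem gibbs {p μ : X → ℝ} (hp : IsPr p) (hμ : IsPr μ) (hac : AC p μ) (h : X → ℝ) :
    ∑ x, p x * h x ≤ KL p μ + Real.log (∑ x, μ x * Real.exp (h x)) := by
  set Z := ∑ x, μ x * Real.exp (h x) with hZ
  have hZ0 : 0 < Z := exp_sum_pos hμ h
  have h1 : ∀ x, p x * h x ≤ p x * Real.log (p x / μ x) + p x * Real.log Z +
      (μ x * Real.exp (h x) / Z - p x) := by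
    intro x
    rcases eq_or_lt_of_le (hp.nonneg x) with h0 | h0
    · rw [← h0]
      have h2 : 0 ≤ μ x * Real.exp (h x) / Z :=
        div_nonneg (mul_nonneg (hμ.nonneg x) (Real.exp_pos _).le) hZ0.le
      linarith
    · have h3 : 0 < μ x := by
        rcases eq_or_lt_of_le (hμ.nonneg x) with h4 | h4
        · have := hac x h4.symm
          linarith
        · exact h4
      have h5 : 0 < μ x * Real.exp (h x) / (Z * p x) := by positivity
      have h6 := Real.log_le_sub_one_of_pos h5
      rw [Real.log_div (by positivity) (by positivity), Real.log_mul h3.ne' (Real.exp_pos _).ne',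
        Real.log_exp, Real.log_mul hZ0.ne' h0.ne'] at h6
      have h7 : Real.log (p x / μ x) = Real.log (p x) - Real.log (μ x) :=
        Real.log_div h0.ne' h3.ne'
      have h8 : p x * (μ x * Real.exp (h x) / (Z * p x)) = μ x * Real.exp (h x) / Z := by
        field_simp
      have h9 := mul_le_mul_of_nonneg_left h6 h0.le
      have h10 : p x * (μ x * Real.exp (h x) / (Z * p x) - 1) = μ x * Real.exp (h x) / Z - p x := by
        rw [← h8]
        ring
      rw [h10] at h9
      rw [h7]
      linarith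
  calc ∑ x, p x * h x ≤ ∑ x, (p x * Real.log (p x / μ x) + p x * Real.log Z +
      (μ x * Real.exp (h x) / Z - p x)) := Finset.sum_le_sum fun x _ => h1 x
    _ = KL p μ + Real.log Z := by
      rw [Finset.sum_add_distrib, Finset.sum_add_distrib, Finset.sum_sub_distrib,
        ← Finset.sum_mul, ← Finset.sum_div, hp.sum, ← hZ, div_self hZ0.ne']
      unfold KL
      ring

theorem geom_bd {q : ℝ} (h0 : 0 ≤ q) (h1 : q < 1) (N : ℕ) :
    ∑ k ∈ range N, q ^ k ≤ (1 - q)⁻¹ := by
  rw [← tsum_geometric_of_lt_one h0 h1]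
  exact (summable_geometric_of_lt_one h0 h1).sum_le_tsum _ (fun k _ => pow_nonneg h0 k)

theorem level_ind (N : ℕ) (v : ℝ) (hv : v ≤ N) :
    Real.exp (v / 2) ≤ 1 + ∑ k ∈ range N, (Real.exp (1 / 2) - 1) * Real.exp (1 / 2) ^ k *
      (if (k : ℝ) ≤ v then 1 else 0) := by
  have hq : 1 ≤ Real.exp (1 / 2) := Real.one_le_exp (by norm_num)
  have hnn : ∀ k : ℕ, 0 ≤ (Real.exp (1 / 2) - 1) * Real.exp (1 / 2) ^ k *
      (if (k : ℝ) ≤ v then 1 else 0) := by
    intro k
    have h1 : 0 ≤ Real.exp (1 / 2) - 1 := by linarith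
    split_ifs
    · positivity
    · simp
  induction N with
  | zero =>
    simp only [Nat.cast_zero] at hv
    have : Real.exp (v / 2) ≤ 1 := Real.exp_le_one_iff.2 (by linarith)
    simpa using this
  | succ N ih =>
    rcases lt_or_ge v N with h | h
    · rw [Finset.sum_range_succ]
      have := ih h.le
      have := hnn N
      linarith
    · have h1 : ∑ k ∈ range (N + 1), (Real.exp (1 / 2) - 1) * Real.exp (1 / 2) ^ k *
          (if (k : ℝ) ≤ v then (1 : ℝ) else 0) = Real.exp (1 / 2) ^ (N + 1) - 1 := by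
        have h2 : ∀ k ∈ range (N + 1), (Real.exp (1 / 2) - 1) * Real.exp (1 / 2) ^ k *
          (if (k : ℝ) ≤ v then (1 : ℝ) else 0) =
            (Real.exp (1 / 2) - 1) * Real.exp (1 / 2) ^ k := by
          intro k hk
          have h3 : (k : ℝ) ≤ N := by
            have := Finset.mem_range.1 hk
            exact_mod_cast (by omega : k ≤ N)
          rw [if_pos (h3.trans h), mul_one]
        rw [Finset.sum_congr rfl h2, ← Finset.mul_sum, mul_comm, geom_sum_mul]
      rw [h1]
      have h4 : Real.exp (v / 2) ≤ Real.exp (1 / 2) ^ (N + 1) := by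
        rw [← Real.exp_nat_mul]
        apply Real.exp_le_exp.2
        push_cast at hv ⊢
        linarith
      linarith

/-- from sup-densities to relative entropy -/
theorem kl_up {μ : X → ℝ} (hμ : IsPr μ) {h : X → ℝ} {K lam : ℝ} (hlam : 0 < lam)
    (H : ∀ (p : X → ℝ) (s : ℝ), IsPr p → 0 ≤ s → (∀ x, p x ≤ Real.exp s * μ x) →
      ∑ x, p x * h x ≤ K + lam * s) {p : X → ℝ} (hp : IsPr p) (hac : AC p μ) :
    ∑ x, p x * h x ≤ K + 2 * lam * (KL p μ + 1) := by
  classical
  set v : X → ℝ := fun x => (h x - K) / lam with hv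
  have hhv : ∀ x, h x = K + lam * v x := by
    intro x
    rw [hv]
    field_simp
    ring
  -- tails
  have tail : ∀ k : ℕ, ∑ x, μ x * (if (k : ℝ) ≤ v x then 1 else 0) ≤ Real.exp (-k) := by
    intro k
    set P := ∑ x, μ x * (if (k : ℝ) ≤ v x then (1 : ℝ) else 0) with hP
    have hterm : ∀ x, 0 ≤ μ x * (if (k : ℝ) ≤ v x then (1 : ℝ) else 0) := by
      intro x
      have := hμ.nonneg x
      split_ifs <;> simp [this]
    have hP0 : 0 ≤ P := Finset.sum_nonneg fun x _ => hterm x
    rcases eq_or_lt_of_le hP0 with h0 | h0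
    · rw [← h0]
      exact (Real.exp_pos _).le
    · have hP1 : P ≤ 1 := by
        rw [← hμ.sum]
        apply Finset.sum_le_sum
        intro x _
        have := hμ.nonneg x
        split_ifs <;> simp [this]
      have hpr : IsPr (fun x => μ x * (if (k : ℝ) ≤ v x then (1 : ℝ) else 0) / P) := by
        refine ⟨fun x => div_nonneg (hterm x) h0.le, ?_⟩
        rw [← Finset.sum_div, ← hP, div_self h0.ne']
      have hs : 0 ≤ Real.log (1 / P) := Real.log_nonneg (by rw [le_div_iff₀ h0]; linarith)
      have hle : ∀ x, μ x * (if (k : ℝ) ≤ v x then (1 : ℝ) else 0) / P ≤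
          Real.exp (Real.log (1 / P)) * μ x := by
        intro x
        rw [Real.exp_log (by positivity)]
        have := hμ.nonneg x
        split_ifs
        · rw [mul_one]
          exact le_of_eq (by ring)
        · rw [mul_zero, zero_div]
          positivity
      have h1 := H _ _ hpr hs hle
      have h2 : K + lam * k ≤ ∑ x, μ x * (if (k : ℝ) ≤ v x then (1 : ℝ) else 0) / P * h x := by
        have h3 : K + lam * k = ∑ x, μ x * (if (k : ℝ) ≤ v x then (1 : ℝ) else 0) / P *
            (K + lam * k) := by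
          rw [← Finset.sum_mul, hpr.sum, one_mul]
        rw [h3]
        apply Finset.sum_le_sum
        intro x _
        have hx := hpr.nonneg x
        by_cases hc : (k : ℝ) ≤ v x
        · apply mul_le_mul_of_nonneg_left _ hx
          rw [hhv x]
          nlinarith
        · simp [hc]
      have h4 : (k : ℝ) ≤ Real.log (1 / P) := by
        have h5 : lam * k ≤ lam * Real.log (1 / P) := by linarith
        exact le_of_mul_le_mul_left h5 hlam
      rw [one_div, Real.log_inv] at h4
      have h6 : Real.log P ≤ -k := by linarith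
      calc P = Real.exp (Real.log P) := (Real.exp_log h0).symm
        _ ≤ Real.exp (-k) := Real.exp_le_exp.2 h6
  -- the exponential moment
  obtain ⟨N, hN⟩ : ∃ N : ℕ, ∀ x, v x ≤ N := by
    obtain ⟨N, hN⟩ := exists_nat_ge (∑ x, |v x|)
    refine ⟨N, fun x => ?_⟩
    calc v x ≤ |v x| := le_abs_self _
      _ ≤ ∑ x, |v x| := Finset.single_le_sum (fun y _ => abs_nonneg (v y)) (Finset.mem_univ x)
      _ ≤ N := hN
  have hq : 1 < Real.exp (1 / 2) := Real.one_lt_exp_iff.2 (by norm_num)
  have hexp : ∑ x, μ x * Real.exp (v x / 2) ≤ 1 + Real.exp (1 / 2) := by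
    calc ∑ x, μ x * Real.exp (v x / 2) ≤ ∑ x, μ x * (1 + ∑ k ∈ range N,
          (Real.exp (1 / 2) - 1) * Real.exp (1 / 2) ^ k * (if (k : ℝ) ≤ v x then 1 else 0)) :=
          Finset.sum_le_sum fun x _ =>
            mul_le_mul_of_nonneg_left (level_ind N (v x) (hN x)) (hμ.nonneg x)
      _ = 1 + ∑ k ∈ range N, (Real.exp (1 / 2) - 1) * Real.exp (1 / 2) ^ k *
          ∑ x, μ x * (if (k : ℝ) ≤ v x then 1 else 0) := by
        simp only [mul_add, mul_one, Finset.sum_add_distrib, hμ.sum, Finset.mul_sum]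
        rw [Finset.sum_comm]
        congr 1
        apply Finset.sum_congr rfl
        intro k _
        apply Finset.sum_congr rfl
        intro x _
        ring
      _ ≤ 1 + ∑ k ∈ range N, (Real.exp (1 / 2) - 1) * Real.exp (-(1 / 2)) ^ k := by
        apply add_le_add le_rfl
        apply Finset.sum_le_sum
        intro k _
        calc (Real.exp (1 / 2) - 1) * Real.exp (1 / 2) ^ k *
              ∑ x, μ x * (if (k : ℝ) ≤ v x then 1 else 0) ≤
              (Real.exp (1 / 2) - 1) * Real.exp (1 / 2) ^ k * Real.exp (-k) := by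
              apply mul_le_mul_of_nonneg_left (tail k)
              have : 0 ≤ Real.exp (1 / 2) - 1 := by linarith
              positivity
          _ = (Real.exp (1 / 2) - 1) * Real.exp (-(1 / 2)) ^ k := by
            rw [mul_assoc, ← Real.exp_nat_mul, ← Real.exp_nat_mul, ← Real.exp_add]
            congr 2
            ring
      _ ≤ 1 + Real.exp (1 / 2) := by
        rw [← Finset.mul_sum]
        have hr0 : 0 ≤ Real.exp (-(1 / 2)) := (Real.exp_pos _).le
        have hr1 : Real.exp (-(1 / 2)) < 1 := Real.exp_lt_one_iff.2 (by norm_num)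
        have hgs : ∑ k ∈ range N, Real.exp (-(1 / 2)) ^ k ≤ (1 - Real.exp (-(1 / 2)))⁻¹ :=
          geom_bd hr0 hr1 N
        have h7 : (Real.exp (1 / 2) - 1) * (1 - Real.exp (-(1 / 2)))⁻¹ = Real.exp (1 / 2) := by
          have h8 : Real.exp (-(1 / 2)) * Real.exp (1 / 2) = 1 := by
            rw [← Real.exp_add]
            simp
          rw [← div_eq_mul_inv, div_eq_iff (by linarith)]
          nlinarith
        have h9 : (Real.exp (1 / 2) - 1) * ∑ k ∈ range N, Real.exp (-(1 / 2)) ^ k ≤
            (Real.exp (1 / 2) - 1) * (1 - Real.exp (-(1 / 2)))⁻¹ :=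
          mul_le_mul_of_nonneg_left hgs (by linarith)
        linarith
  have hlog : Real.log (∑ x, μ x * Real.exp (v x / 2)) ≤ 1 := by
    rw [← Real.log_exp 1]
    apply Real.log_le_log (exp_sum_pos hμ _)
    have h10 : Real.exp 1 = Real.exp (1 / 2) * Real.exp (1 / 2) := by
      rw [← Real.exp_add]
      norm_num
    have h11 : 1 + 1 / 2 + (1 / 2 : ℝ) ^ 2 / 2 ≤ Real.exp (1 / 2) := by
      have := Real.quadratic_le_exp_of_nonneg (x := 1 / 2) (by norm_num)
      exact this
    nlinarith
  have hg := gibbs hp hμ hac (fun x => v x / 2)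
  have h12 : ∑ x, p x * h x = K + 2 * lam * ∑ x, p x * (v x / 2) := by
    have h13 : ∀ x, p x * h x = p x * K + 2 * lam * (p x * (v x / 2)) := by
      intro x
      rw [hhv x]
      ring
    simp only [h13]
    rw [Finset.sum_add_distrib, ← Finset.sum_mul, hp.sum, one_mul, ← Finset.mul_sum]
  rw [h12]
  have h14 : 2 * lam * ∑ x, p x * (v x / 2) ≤ 2 * lam * (KL p μ + 1) :=
    mul_le_mul_of_nonneg_left (by linarith) (by linarith)
  linarith

end Pool.Agent.LR2
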