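import Pool.Agent.Lib_helper59.LR2.Freeze

/-!
# (P4): the operator norm of a kernel with product regularity
-/

set_option autoImplicit false
set_option linter.unusedSectionVars false

open Finset Matrix

namespace Pool.Agent.LR2

section Basic

variable {X Y : Type} [Fintype X] [Fintype Y]

/-- doubly centred -/
structure Cen (α : X → ℝ) (β : Y → ℝ) (B : X → Y → ℝ) : Prop where
  row : ∀ x, ∑ y, β y * B x y = 0
  col : ∀ y, ∑ x, α x * B x y = 0

/-- product regularity up to the cost `S₀` -/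
def PS (α : X → ℝ) (β : Y → ℝ) (B : X → Y → ℝ) (lam S₀ : ℝ) : Prop :=
  ∀ (p : X → ℝ) (q : Y → ℝ) (s t : ℝ), IsPr p → IsPr q → 0 ≤ s → s ≤ S₀ → 0 ≤ t → t ≤ S₀ →
    (∀ x, p x ≤ Real.exp s * α x) → (∀ y, q y ≤ Real.exp t * β y) → em p q B ≤ lam * (s + t + 2)

variable {α : X → ℝ} {β : Y → ℝ} {B : X → Y → ℝ} {lam S₀ : ℝ}

theorem Cen.swap (h : Cen α β B) : Cen β α (fun y x => B x y) := ⟨h.col, h.row⟩

theorem PS.swap (h : PS α β B lam S₀) : PS β α (fun y x => B x y) lam S₀ := by
  intro p q s t hp hq hs hs' ht ht' hle hle'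
  rw [em_swap]
  have := h q p t s hq hp ht ht' hs hs' hle' hle
  linarith

theorem em_smul_left (c : ℝ) (p : X → ℝ) (q : Y → ℝ) (B : X → Y → ℝ) :
    em (fun x => c * p x) q B = c * em p q B := by
  unfold em
  rw [Finset.mul_sum]
  apply Finset.sum_congr rfl
  intro x _
  rw [Finset.mul_sum]
  apply Finset.sum_congr rfl
  intro y _
  ring

theorem em_add_left (p p' : X → ℝ) (q : Y → ℝ) (B : X → Y → ℝ) :
    em (fun x => p x + p' x) q B = em p q B + em p' q B := by
  unfold em
  rw [← Finset.sum_add_distrib]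
  apply Finset.sum_congr rfl
  intro x _
  rw [← Finset.sum_add_distrib]
  apply Finset.sum_congr rfl
  intro y _
  ring

theorem em_bound (hB : ∀ x y, |B x y| ≤ 4) (hβ : IsPr β) {f : X → ℝ} {g : Y → ℝ}
    (hg : ∀ y, |g y| ≤ 1) : |em f (fun y => β y * g y) B| ≤ 4 * ∑ x, |f x| := by
  unfold em
  rw [Finset.mul_sum]
  refine (Finset.abs_sum_le_sum_abs _ _).trans (Finset.sum_le_sum fun x _ => ?_)
  refine (Finset.abs_sum_le_sum_abs _ _).trans ?_
  calc ∑ y, |f x * (β y * g y) * B x y| ≤ ∑ y, (4 * |f x|) * β y := by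
        apply Finset.sum_le_sum
        intro y _
        rw [abs_mul, abs_mul, abs_mul, abs_of_nonneg (hβ.nonneg y)]
        have h1 := hβ.nonneg y
        have h2 := hg y
        have h3 := hB x y
        have h4 := abs_nonneg (f x)
        have h5 : |g y| * |B x y| ≤ 1 * 4 := mul_le_mul h2 h3 (abs_nonneg _) (by norm_num)
        have h6 : 0 ≤ |f x| * β y := mul_nonneg h4 h1
        nlinarith
    _ = 4 * |f x| := by rw [← Finset.mul_sum, hβ.sum, mul_one]

/-- a small density against a bounded function -/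
theorem ps_dens (hβ : IsPr β) (hc : Cen α β B) (hP : PS α β B lam S₀) (hS : Real.log 2 ≤ S₀)
    {p : X → ℝ} {s : ℝ} (hp : IsPr p) (hs : 0 ≤ s) (hs' : s ≤ S₀)
    (hle : ∀ x, p x ≤ Real.exp s * α x) {g : Y → ℝ} (hg : ∀ y, |g y| ≤ 1) :
    em p (fun y => β y * g y) B ≤ 2 * (lam * (s + Real.log 2 + 2)) := by
  set gb := ∑ y, β y * g y with hgb
  have hgb1 : |gb| ≤ 1 := by
    rw [hgb, ← hβ.sum]
    refine (Finset.abs_sum_le_sum_abs _ _).trans (Finset.sum_le_sum fun y _ => ?_)
    rw [abs_mul, abs_of_nonneg (hβ.nonneg y)]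
    have := hg y
    have := hβ.nonneg y
    nlinarith
  have hd : ∀ y, |g y - gb| ≤ 2 := by
    intro y
    calc |g y - gb| ≤ |g y| + |gb| := abs_sub _ _
      _ ≤ 2 := by linarith [hg y]
  have hq : IsPr (fun y => β y * (1 + (g y - gb) / 2)) := by
    refine ⟨fun y => mul_nonneg (hβ.nonneg y) ?_, ?_⟩
    · have := (abs_le.1 (hd y)).1
      linarith
    · have e : ∀ y, β y * (1 + (g y - gb) / 2) = β y + (1 / 2) * (β y * g y) -
          (gb / 2) * β y := by
        intro y
        ring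
      simp only [e]
      rw [Finset.sum_sub_distrib, Finset.sum_add_distrib, ← Finset.mul_sum, ← Finset.mul_sum,
        hβ.sum, ← hgb]
      ring
  have hq' : ∀ y, β y * (1 + (g y - gb) / 2) ≤ Real.exp (Real.log 2) * β y := by
    intro y
    rw [Real.exp_log (by norm_num)]
    have := (abs_le.1 (hd y)).2
    have := hβ.nonneg y
    nlinarith
  have h1 := hP p _ s (Real.log 2) hp hq hs hs' (Real.log_nonneg (by norm_num)) hS hle hq'
  have h2 : em p (fun y => β y * (1 + (g y - gb) / 2)) B =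
      (1 / 2) * em p (fun y => β y * g y) B := by
    unfold em
    rw [Finset.mul_sum]
    apply Finset.sum_congr rfl
    intro x _
    have e : ∀ y, p x * (β y * (1 + (g y - gb) / 2)) * B x y =
        (p x * (1 - gb / 2)) * (β y * B x y) + (1 / 2) * (p x * (β y * g y) * B x y) := by
      intro y
      ring
    simp only [e]
    rw [Finset.sum_add_distrib, ← Finset.mul_sum, hc.row, mul_zero, zero_add, Finset.mul_sum]
  rw [h2] at h1
  linarith

theorem ps_dens_abs (hβ : IsPr β) (hc : Cen α β B) (hP : PS α β B lam S₀) (hS : Real.log 2 ≤ S₀)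
    {p : X → ℝ} {s : ℝ} (hp : IsPr p) (hs : 0 ≤ s) (hs' : s ≤ S₀)
    (hle : ∀ x, p x ≤ Real.exp s * α x) {g : Y → ℝ} (hg : ∀ y, |g y| ≤ 1) :
    |em p (fun y => β y * g y) B| ≤ 2 * (lam * (s + Real.log 2 + 2)) := by
  rw [abs_le]
  refine ⟨?_, ps_dens hβ hc hP hS hp hs hs' hle hg⟩
  have h1 := ps_dens hβ hc hP hS hp hs hs' hle (g := fun y => -g y)
    (fun y => by rw [abs_neg]; exact hg y)
  have h2 : em p (fun y => β y * -g y) B = -em p (fun y => β y * g y) B := by
    unfold em
    rw [← Finset.sum_neg_distrib]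
    apply Finset.sum_congr rfl
    intro x _
    rw [← Finset.sum_neg_distrib]
    apply Finset.sum_congr rfl
    intro y _
    ring
  rw [h2] at h1
  linarith

theorem phi_mono {e a : ℝ} (he : 0 < e) (hea : e ≤ a) (ha : a ≤ 1) :
    e * (Real.log (1 / e) + 3) ≤ a * (Real.log (1 / a) + 3) := by
  have ha0 : 0 < a := lt_of_lt_of_le he hea
  rw [one_div, one_div, Real.log_inv, Real.log_inv]
  have h1 : Real.log (a / e) ≤ a / e - 1 := Real.log_le_sub_one_of_pos (by positivity)
  rw [Real.log_div ha0.ne' he.ne'] at h1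
  have h2 : e * (Real.log a - Real.log e) ≤ a - e := by
    have := mul_le_mul_of_nonneg_left h1 he.le
    have h3 : e * (a / e - 1) = a - e := by field_simp
    linarith
  have h4 : Real.log a ≤ 0 := Real.log_nonpos ha0.le ha
  nlinarith

theorem log_two_le : Real.log 2 ≤ 1 := by
  have := Real.log_le_sub_one_of_pos (show (0 : ℝ) < 2 by norm_num)
  linarith

/-- a nonnegative function of small mass against a bounded function -/
theorem ps_pos (hα : IsPr α) (hβ : IsPr β) (hc : Cen α β B) (hP : PS α β B lam S₀)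
    (hB : ∀ x y, |B x y| ≤ 4) (hlam : 0 ≤ lam) (hS : Real.log 2 ≤ S₀) {f : X → ℝ}
    (hf0 : ∀ x, 0 ≤ f x) (hf1 : ∀ x, f x ≤ 1) {a : ℝ} (ha : 0 < a) (ha1 : a ≤ 1)
    (hfa : ∑ x, α x * f x ≤ a) {g : Y → ℝ} (hg : ∀ y, |g y| ≤ 1) :
    |em (fun x => α x * f x) (fun y => β y * g y) B| ≤
      2 * lam * (a * (Real.log (1 / a) + 3)) + 4 * Real.exp (-S₀) := by
  set e := ∑ x, α x * f x with he
  have hterm : ∀ x, 0 ≤ α x * f x := fun x => mul_nonneg (hα.nonneg x) (hf0 x)
  have he0 : 0 ≤ e := Finset.sum_nonneg fun x _ => hterm x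
  have hla : 0 ≤ Real.log (1 / a) := Real.log_nonneg (by rw [le_div_iff₀ ha]; linarith)
  have hbase : 0 ≤ 2 * lam * (a * (Real.log (1 / a) + 3)) := by positivity
  by_cases hcase : Real.exp (-S₀) ≤ e
  · have he1 : 0 < e := lt_of_lt_of_le (Real.exp_pos _) hcase
    have hp : IsPr (fun x => α x * f x / e) :=
      ⟨fun x => div_nonneg (hterm x) he0, by rw [← Finset.sum_div, ← he, div_self he1.ne']⟩
    have hs : 0 ≤ Real.log (1 / e) := Real.log_nonneg (by rw [le_div_iff₀ he1]; linarith)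
    have hs' : Real.log (1 / e) ≤ S₀ := by
      rw [one_div, Real.log_inv]
      have := Real.log_le_log (Real.exp_pos _) hcase
      rw [Real.log_exp] at this
      linarith
    have hle : ∀ x, α x * f x / e ≤ Real.exp (Real.log (1 / e)) * α x := by
      intro x
      rw [Real.exp_log (by positivity), one_div, inv_mul_eq_div]
      apply div_le_div_of_nonneg_right _ he0
      have := hα.nonneg x
      have := hf1 x
      nlinarith
    have h1 := ps_dens_abs hβ hc hP hS hp hs hs' hle hg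
    have h2 : em (fun x => α x * f x / e) (fun y => β y * g y) B =
        e⁻¹ * em (fun x => α x * f x) (fun y => β y * g y) B := by
      rw [← em_smul_left]
      congr 1
      funext x
      rw [div_eq_inv_mul]
    rw [h2, abs_mul, abs_of_pos (inv_pos.2 he1), inv_mul_le_iff₀ he1] at h1
    have h3 := phi_mono he1 hfa ha1
    have h4 : Real.log (1 / e) + Real.log 2 + 2 ≤ Real.log (1 / e) + 3 := by
      linarith [log_two_le]
    have h5 : e * (2 * (lam * (Real.log (1 / e) + Real.log 2 + 2))) ≤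
        2 * lam * (e * (Real.log (1 / e) + 3)) := by
      have h6 : 0 ≤ 2 * (lam * e) := by positivity
      nlinarith [mul_le_mul_of_nonneg_left h4 h6]
    have h7 : 2 * lam * (e * (Real.log (1 / e) + 3)) ≤ 2 * lam * (a * (Real.log (1 / a) + 3)) :=
      mul_le_mul_of_nonneg_left h3 (by linarith)
    have := Real.exp_pos (-S₀)
    linarith
  · push Not at hcase
    have h1 := em_bound hB hβ (f := fun x => α x * f x) hg
    have h2 : ∑ x, |α x * f x| = e := by
      rw [he]
      exact Finset.sum_congr rfl fun x _ => abs_of_nonneg (hterm x)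
    rw [h2] at h1
    linarith

/-- a bounded function of small support against a bounded function -/
theorem ps_small (hα : IsPr α) (hβ : IsPr β) (hc : Cen α β B) (hP : PS α β B lam S₀)
    (hB : ∀ x y, |B x y| ≤ 4) (hlam : 0 ≤ lam) (hS : Real.log 2 ≤ S₀) {f : X → ℝ}
    (hf : ∀ x, |f x| ≤ 1) {a : ℝ} (ha : 0 < a) (ha1 : a ≤ 1)
    (hfa : ∑ x, α x * |f x| ≤ a) {g : Y → ℝ} (hg : ∀ y, |g y| ≤ 1) :
    |em (fun x => α x * f x) (fun y => β y * g y) B| ≤
      4 * lam * (a * (Real.log (1 / a) + 3)) + 8 * Real.exp (-S₀) := by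
  have h1 := ps_pos hα hβ hc hP hB hlam hS (f := fun x => max (f x) 0)
    (fun x => le_max_right _ _) (fun x => max_le ((le_abs_self _).trans (hf x)) zero_le_one) ha ha1
    (le_trans (Finset.sum_le_sum fun x _ => mul_le_mul_of_nonneg_left
      (max_le (le_abs_self _) (abs_nonneg _)) (hα.nonneg x)) hfa) hg
  have h2 := ps_pos hα hβ hc hP hB hlam hS (f := fun x => max (-f x) 0)
    (fun x => le_max_right _ _) (fun x => max_le ((neg_le_abs _).trans (hf x)) zero_le_one) ha ha1
    (le_trans (Finset.sum_le_sum fun x _ => mul_le_mul_of_nonneg_left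
      (max_le (neg_le_abs _) (abs_nonneg _)) (hα.nonneg x)) hfa) hg
  have h3 : em (fun x => α x * f x) (fun y => β y * g y) B =
      em (fun x => α x * max (f x) 0) (fun y => β y * g y) B +
      (-1) * em (fun x => α x * max (-f x) 0) (fun y => β y * g y) B := by
    rw [← em_smul_left, ← em_add_left]
    congr 1
    funext x
    rcases le_total (f x) 0 with h | h
    · rw [max_eq_right h, max_eq_left (by linarith)]
      ring
    · rw [max_eq_left h, max_eq_right (by linarith)]
      ring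
  rw [h3]
  calc |em (fun x => α x * max (f x) 0) (fun y => β y * g y) B +
      (-1) * em (fun x => α x * max (-f x) 0) (fun y => β y * g y) B| ≤
      |em (fun x => α x * max (f x) 0) (fun y => β y * g y) B| +
      |(-1) * em (fun x => α x * max (-f x) 0) (fun y => β y * g y) B| := abs_add_le _ _
    _ ≤ _ := by
      rw [abs_mul, abs_neg, abs_one, one_mul]
      linarith

/-! ### levels -/

/-- truncation -/
noncomputable def trc (L t : ℝ) : ℝ := max (-L) (min L t)

theorem trc_abs {L : ℝ} (hL : 0 ≤ L) (t : ℝ) : |trc L t| ≤ L := by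
  unfold trc
  rw [abs_le]
  exact ⟨le_max_left _ _, max_le (by linarith) (min_le_left _ _)⟩

theorem trc_of_le {L t : ℝ} (h : |t| ≤ L) : trc L t = t := by
  unfold trc
  obtain ⟨h1, h2⟩ := abs_le.1 h
  rw [min_eq_right h2, max_eq_right h1]

/-- the `i`-th level, divided by `2 ^ i` -/
noncomputable def lv (u : X → ℝ) (i : ℕ) (x : X) : ℝ :=
  if i = 0 then trc 1 (u x) else (trc (2 ^ i) (u x) - trc (2 ^ (i - 1)) (u x)) / 2 ^ i

theorem lv_abs (u : X → ℝ) (i : ℕ) (x : X) : |lv u i x| ≤ 1 := by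
  unfold lv
  split_ifs with h
  · exact trc_abs zero_le_one _
  · rw [abs_div, abs_of_pos (by positivity : (0 : ℝ) < 2 ^ i), div_le_one (by positivity)]
    have h1 : (2 : ℝ) ^ i = 2 * 2 ^ (i - 1) := by
      rw [← pow_succ']
      congr 1
      omega
    have hp : (0 : ℝ) < 2 ^ (i - 1) := by positivity
    by_cases hu : |u x| ≤ 2 ^ (i - 1)
    · rw [trc_of_le hu, trc_of_le (by rw [h1]; linarith), sub_self, abs_zero]
      positivity
    · push Not at hu
      unfold trc
      rcases le_total 0 (u x) with h0 | h0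
      · rw [abs_of_nonneg h0] at hu
        have e1 : max (-2 ^ i) (min (2 ^ i) (u x)) = min (2 ^ i) (u x) :=
          max_eq_right (le_min (by linarith) (by linarith))
        have e2 : max (-2 ^ (i - 1)) (min (2 ^ (i - 1)) (u x)) = 2 ^ (i - 1) := by
          rw [min_eq_left hu.le, max_eq_right (by linarith)]
        rw [e1, e2, abs_le]
        constructor
        · have : (2 : ℝ) ^ (i - 1) ≤ min (2 ^ i) (u x) := le_min (by linarith) hu.le
          linarith
        · have : min (2 ^ i) (u x) ≤ 2 ^ i := min_le_left _ _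
          linarith
      · rw [abs_of_nonpos h0] at hu
        have e1 : max (-2 ^ i) (min (2 ^ i) (u x)) = max (-2 ^ i) (u x) := by
          rw [min_eq_right (by linarith)]
        have e2 : max (-2 ^ (i - 1)) (min (2 ^ (i - 1)) (u x)) = -2 ^ (i - 1) := by
          rw [min_eq_right (by linarith), max_eq_left (by linarith)]
        rw [e1, e2, abs_le]
        constructor
        · have : -2 ^ i ≤ max (-2 ^ i) (u x) := le_max_left _ _
          linarith
        · have : max (-2 ^ i) (u x) ≤ -2 ^ (i - 1) := max_le (by linarith) (by linarith)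
          linarith

theorem lv_sum (u : X → ℝ) (N : ℕ) (x : X) :
    ∑ i ∈ range (N + 1), 2 ^ i * lv u i x = trc (2 ^ N) (u x) := by
  induction N with
  | zero => simp [lv]
  | succ N ih =>
    rw [Finset.sum_range_succ, ih]
    unfold lv
    rw [if_neg (by omega), Nat.add_sub_cancel]
    field_simp
    ring

theorem lv_mass (hα : IsPr α) {u : X → ℝ} (hu : ∑ x, α x * u x ^ 2 ≤ 1) (i : ℕ) :
    ∑ x, α x * |lv u i x| ≤ (1 / 4) ^ (i - 1) := by
  by_cases h : i = 0
  · subst h
    simp only [Nat.zero_sub, pow_zero]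
    calc ∑ x, α x * |lv u 0 x| ≤ ∑ x, α x := by
          apply Finset.sum_le_sum
          intro x _
          have := lv_abs u 0 x
          have := hα.nonneg x
          nlinarith
      _ = 1 := hα.sum
  · have h1 : ∀ x, |lv u i x| ≤ (1 / 4) ^ (i - 1) * u x ^ 2 := by
      intro x
      by_cases hux : |u x| ≤ 2 ^ (i - 1)
      · have h2 : lv u i x = 0 := by
          unfold lv
          rw [if_neg h, trc_of_le hux, trc_of_le (hux.trans (pow_le_pow_right₀ (by norm_num)
            (by omega))), sub_self, zero_div]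
        rw [h2, abs_zero]
        positivity
      · push Not at hux
        have h3 : ((2 : ℝ) ^ (i - 1)) ^ 2 ≤ u x ^ 2 := by
          rw [← sq_abs (u x)]
          exact pow_le_pow_left₀ (by positivity) hux.le 2
        have h4 : (1 / 4 : ℝ) ^ (i - 1) * ((2 : ℝ) ^ (i - 1)) ^ 2 = 1 := by
          rw [← pow_mul, mul_comm (i - 1) 2, pow_mul, ← mul_pow]
          norm_num
        calc |lv u i x| ≤ 1 := lv_abs u i x
          _ = (1 / 4 : ℝ) ^ (i - 1) * ((2 : ℝ) ^ (i - 1)) ^ 2 := h4.symm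
          _ ≤ _ := mul_le_mul_of_nonneg_left h3 (by positivity)
    calc ∑ x, α x * |lv u i x| ≤ ∑ x, (1 / 4) ^ (i - 1) * (α x * u x ^ 2) := by
          apply Finset.sum_le_sum
          intro x _
          have := mul_le_mul_of_nonneg_left (h1 x) (hα.nonneg x)
          linarith
      _ = (1 / 4) ^ (i - 1) * ∑ x, α x * u x ^ 2 := by rw [Finset.mul_sum]
      _ ≤ (1 / 4) ^ (i - 1) * 1 := mul_le_mul_of_nonneg_left hu (by positivity)
      _ = _ := mul_one _

theorem lv_est (hα : IsPr α) (hβ : IsPr β) (hc : Cen α β B) (hP : PS α β B lam S₀)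
    (hB : ∀ x y, |B x y| ≤ 4) (hlam : 0 ≤ lam) (hS : Real.log 2 ≤ S₀) {u : X → ℝ}
    (hu : ∑ x, α x * u x ^ 2 ≤ 1) {N i j : ℕ} (hi : i ≤ N) (hij : j ≤ i) {g : Y → ℝ}
    (hg : ∀ y, |g y| ≤ 1) :
    2 ^ i * 2 ^ j * |em (fun x => α x * lv u i x) (fun y => β y * g y) B| ≤
      48 * lam * (N + 1) + 8 * 4 ^ N * Real.exp (-S₀) := by
  set a : ℝ := (1 / 4) ^ (i - 1) with ha
  have ha0 : 0 < a := by positivity
  have ha1 : a ≤ 1 := pow_le_one₀ (by norm_num) (by norm_num)
  have h1 := ps_small hα hβ hc hP hB hlam hS (lv_abs u i) ha0 ha1 (lv_mass hα hu i) hg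
  have h2 : (2 : ℝ) ^ i * 2 ^ j ≤ 4 ^ i := by
    have h3 : (4 : ℝ) ^ i = 2 ^ i * 2 ^ i := by
      rw [← mul_pow]
      norm_num
    rw [h3]
    exact mul_le_mul_of_nonneg_left (pow_le_pow_right₀ (by norm_num) hij) (by positivity)
  have h4 : (4 : ℝ) ^ i * a ≤ 4 := by
    rcases Nat.eq_zero_or_pos i with h | h
    · rw [ha, h]
      norm_num
    · have h5 : (4 : ℝ) ^ i = 4 * 4 ^ (i - 1) := by
        rw [← pow_succ']
        congr 1
        omega
      rw [ha, h5, mul_assoc, ← mul_pow]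
      norm_num
  have h6 : Real.log (1 / a) ≤ 2 * N := by
    rw [ha, one_div, ← inv_pow, Real.log_pow]
    have h7 : Real.log ((1 / 4 : ℝ)⁻¹) ≤ 2 := by
      have h8 : ((1 / 4 : ℝ)⁻¹) = 2 ^ 2 := by norm_num
      rw [h8, Real.log_pow]
      have := log_two_le
      push_cast
      linarith
    have h9 : ((i - 1 : ℕ) : ℝ) ≤ N := by exact_mod_cast (by omega : i - 1 ≤ N)
    have h10 : 0 ≤ Real.log ((1 / 4 : ℝ)⁻¹) := Real.log_nonneg (by norm_num)
    have hN : (0 : ℝ) ≤ N := Nat.cast_nonneg N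
    calc ((i - 1 : ℕ) : ℝ) * Real.log ((1 / 4 : ℝ)⁻¹) ≤ N * 2 :=
          mul_le_mul h9 h7 h10 hN
      _ = 2 * N := by ring
  have h7 : 0 ≤ |em (fun x => α x * lv u i x) (fun y => β y * g y) B| := abs_nonneg _
  have h8 : (4 : ℝ) ^ i ≤ 4 ^ N := pow_le_pow_right₀ (by norm_num) hi
  have h9 : (0 : ℝ) ≤ N := Nat.cast_nonneg N
  calc 2 ^ i * 2 ^ j * |em (fun x => α x * lv u i x) (fun y => β y * g y) B| ≤
      4 ^ i * (4 * lam * (a * (Real.log (1 / a) + 3)) + 8 * Real.exp (-S₀)) :=
        mul_le_mul h2 h1 h7 (by positivity)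
    _ = 4 * lam * ((4 ^ i * a) * (Real.log (1 / a) + 3)) + 4 ^ i * (8 * Real.exp (-S₀)) := by ring
    _ ≤ 4 * lam * (4 * (2 * N + 3)) + 4 ^ N * (8 * Real.exp (-S₀)) := by
      apply add_le_add
      · apply mul_le_mul_of_nonneg_left _ (by linarith)
        apply mul_le_mul h4 (by linarith) _ (by norm_num)
        have : 0 ≤ Real.log (1 / a) := Real.log_nonneg (by rw [le_div_iff₀ ha0]; linarith)
        linarith
      · exact mul_le_mul_of_nonneg_right h8 (by positivity)
    _ ≤ _ := by nlinarith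

theorem em_add_right (p : X → ℝ) (q q' : Y → ℝ) (B : X → Y → ℝ) :
    em p (fun y => q y + q' y) B = em p q B + em p q' B := by
  unfold em
  rw [← Finset.sum_add_distrib]
  apply Finset.sum_congr rfl
  intro x _
  rw [← Finset.sum_add_distrib]
  apply Finset.sum_congr rfl
  intro y _
  ring

theorem em_sums (α : X → ℝ) (β : Y → ℝ) (B : X → Y → ℝ) (I J : Finset ℕ) (c d : ℕ → ℝ)
    (U : ℕ → X → ℝ) (V : ℕ → Y → ℝ) :
    em (fun x => α x * ∑ i ∈ I, c i * U i x) (fun y => β y * ∑ j ∈ J, d j * V j y) B =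
      ∑ i ∈ I, ∑ j ∈ J, c i * d j * em (fun x => α x * U i x) (fun y => β y * V j y) B := by
  unfold em
  have e : ∀ x y, (α x * ∑ i ∈ I, c i * U i x) * (β y * ∑ j ∈ J, d j * V j y) * B x y =
      ∑ i ∈ I, ∑ j ∈ J, c i * d j * ((α x * U i x) * (β y * V j y) * B x y) := by
    intro x y
    have h1 : (α x * ∑ i ∈ I, c i * U i x) * (β y * ∑ j ∈ J, d j * V j y) * B x y =
        (∑ i ∈ I, c i * U i x) * (∑ j ∈ J, d j * V j y) * (α x * β y * B x y) := by ring
    rw [h1, Finset.sum_mul_sum, Finset.sum_mul]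
    apply Finset.sum_congr rfl
    intro i _
    rw [Finset.sum_mul]
    apply Finset.sum_congr rfl
    intro j _
    ring
  simp only [e]
  calc ∑ x, ∑ y, ∑ i ∈ I, ∑ j ∈ J, c i * d j * ((α x * U i x) * (β y * V j y) * B x y) =
      ∑ x, ∑ i ∈ I, ∑ j ∈ J, ∑ y, c i * d j * ((α x * U i x) * (β y * V j y) * B x y) := by
        apply Finset.sum_congr rfl
        intro x _
        rw [Finset.sum_comm]
        apply Finset.sum_congr rfl
        intro i _
        rw [Finset.sum_comm]
    _ = ∑ i ∈ I, ∑ x, ∑ j ∈ J, ∑ y, c i * d j * ((α x * U i x) * (β y * V j y) * B x y) :=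
        Finset.sum_comm
    _ = _ := by
        apply Finset.sum_congr rfl
        intro i _
        rw [Finset.sum_comm]
        apply Finset.sum_congr rfl
        intro j _
        rw [Finset.mul_sum]
        apply Finset.sum_congr rfl
        intro x _
        rw [Finset.mul_sum]

/-- (P4) for bounded functions -/
theorem ps_op (hα : IsPr α) (hβ : IsPr β) (hc : Cen α β B) (hP : PS α β B lam S₀)
    (hB : ∀ x y, |B x y| ≤ 4) (hlam : 0 ≤ lam) (hS : Real.log 2 ≤ S₀) {N : ℕ} {u : X → ℝ}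
    (hu : ∑ x, α x * u x ^ 2 ≤ 1) (huN : ∀ x, |u x| ≤ 2 ^ N) {v : Y → ℝ}
    (hv : ∑ y, β y * v y ^ 2 ≤ 1) (hvN : ∀ y, |v y| ≤ 2 ^ N) :
    |em (fun x => α x * u x) (fun y => β y * v y) B| ≤
      (N + 1) ^ 2 * (48 * lam * (N + 1) + 8 * 4 ^ N * Real.exp (-S₀)) := by
  have eu : (fun x => α x * u x) = fun x => α x * ∑ i ∈ range (N + 1), 2 ^ i * lv u i x := by
    funext x
    rw [lv_sum, trc_of_le (huN x)]
  have ev : (fun y => β y * v y) = fun y => β y * ∑ i ∈ range (N + 1), 2 ^ i * lv v i y := by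
    funext y
    rw [lv_sum, trc_of_le (hvN y)]
  rw [eu, ev, em_sums]
  have hterm : ∀ i ∈ range (N + 1), ∀ j ∈ range (N + 1),
      |2 ^ i * 2 ^ j * em (fun x => α x * lv u i x) (fun y => β y * lv v j y) B| ≤
        48 * lam * (N + 1) + 8 * 4 ^ N * Real.exp (-S₀) := by
    intro i hi j hj
    have hi' : i ≤ N := by have := Finset.mem_range.1 hi; omega
    have hj' : j ≤ N := by have := Finset.mem_range.1 hj; omega
    rw [abs_mul, abs_of_pos (by positivity : (0 : ℝ) < 2 ^ i * 2 ^ j)]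
    rcases le_total j i with h | h
    · exact lv_est hα hβ hc hP hB hlam hS hu hi' h (lv_abs v j)
    · have h1 := lv_est hβ hα hc.swap hP.swap (fun y x => hB x y) hlam hS hv hj' h (lv_abs u i)
      rw [em_swap] at h1
      rw [mul_comm ((2 : ℝ) ^ i)]
      exact h1
  calc |∑ i ∈ range (N + 1), ∑ j ∈ range (N + 1), 2 ^ i * 2 ^ j *
      em (fun x => α x * lv u i x) (fun y => β y * lv v j y) B| ≤
      ∑ i ∈ range (N + 1), |∑ j ∈ range (N + 1), 2 ^ i * 2 ^ j *
      em (fun x => α x * lv u i x) (fun y => β y * lv v j y) B| := Finset.abs_sum_le_sum_abs _ _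
    _ ≤ ∑ i ∈ range (N + 1), ∑ j ∈ range (N + 1), |2 ^ i * 2 ^ j *
      em (fun x => α x * lv u i x) (fun y => β y * lv v j y) B| :=
        Finset.sum_le_sum fun i _ => Finset.abs_sum_le_sum_abs _ _
    _ ≤ ∑ i ∈ range (N + 1), ∑ j ∈ range (N + 1),
      (48 * lam * (N + 1) + 8 * 4 ^ N * Real.exp (-S₀)) :=
        Finset.sum_le_sum fun i hi => Finset.sum_le_sum fun j hj => hterm i hi j hj
    _ = _ := by
      rw [Finset.sum_const, Finset.sum_const, Finset.card_range, nsmul_eq_mul, nsmul_eq_mul]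
      push_cast
      ring

end Basic

end Pool.Agent.LR2
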