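import Pool.Agent.Lib_helper59.LR2.FrameDefs
import Pool.Agent.Lib_helper59.LR2.TGen

/-!
# The spectral form of the extremal state
-/

set_option autoImplicit false
set_option linter.unusedSectionVars false

open Finset Matrix

namespace Pool.Agent.LR2

variable {X Y : Type} [Fintype X] [Fintype Y] [Nonempty X] [Nonempty Y] {n : ℕ}
variable {M : X → Y → ℝ} {μ₀ : X → ℝ} {ν₀ : Y → ℝ} {lam Lam : ℝ} {m : ℕ}
  {α : X → ℝ} {β : Y → ℝ} {F : Fac X Y n}

/-- The spectral form: `e i` is an orthonormal basis of eigenvectors of `E a aᵀ`, `g i` the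
corresponding orthogonal family on the column side. -/
structure Spec (m : ℕ) (α : X → ℝ) (β : Y → ℝ) (F : Fac X Y n) (e g : Fin n → Fin n → ℝ)
    (s : Fin n → ℝ) : Prop where
  nonneg : ∀ i, 0 ≤ s i
  orth : ∀ i j, e i ⬝ᵥ e j = if i = j then 1 else 0
  full : ∀ v w : Fin n → ℝ, v ⬝ᵥ w = ∑ i, (e i ⬝ᵥ v) * (e i ⬝ᵥ w)
  moma : ∀ i j, ∑ x, α x * ((e i ⬝ᵥ F.a x) * (e j ⬝ᵥ F.a x)) = if i = j then s i else 0
  orthg : ∀ i j, g i ⬝ᵥ g j = if i = j then s i ^ m else 0
  momb : ∀ i j, ∑ y, β y * ((g i ⬝ᵥ F.b y) * (g j ⬝ᵥ F.b y)) = if i = j then s i ^ (m + 1) else 0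
  bil : ∀ x y, F.bil m x y = ∑ i, (e i ⬝ᵥ F.a x) * (g i ⬝ᵥ F.b y)

theorem pow_eig {S : Matrix (Fin n) (Fin n) ℝ} {e : Fin n → ℝ} {s : ℝ} (h : S *ᵥ e = s • e)
    (k : ℕ) : (S ^ k) *ᵥ e = s ^ k • e := by
  induction k with
  | zero => simp
  | succ k ih =>
    rw [pow_succ, ← Matrix.mulVec_mulVec, h, Matrix.mulVec_smul, ih, smul_smul, pow_succ, mul_comm]

theorem St.spec (h : St M μ₀ ν₀ lam Lam (m + 1) α β F) : ∃ (e g : Fin n → Fin n → ℝ)
    (s : Fin n → ℝ), Spec (m + 1) α β F e g s := by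
  obtain ⟨e, s, horth, hfull, hev⟩ := exists_diag (mom_tr α F.a)
  obtain ⟨h1, h2⟩ := h.inter'
  set C := chn F.Z (m + 1) with hC
  have hmom : ∀ i j, ∑ x, α x * ((e i ⬝ᵥ F.a x) * (e j ⬝ᵥ F.a x)) = if i = j then s i else 0 := by
    intro i j
    rw [← mom_bil, hev, dotProduct_smul, horth, smul_eq_mul]
    split_ifs with hij
    · rw [mul_one, hij]
    · rw [mul_zero]
  have hg : ∀ i j, (Cᵀ *ᵥ e i) ⬝ᵥ (Cᵀ *ᵥ e j) = if i = j then s i ^ (m + 1) else 0 := by
    intro i j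
    rw [Matrix.dotProduct_mulVec, Matrix.vecMul_transpose, Matrix.mulVec_mulVec, h2,
      pow_eig (hev i), smul_dotProduct, horth, smul_eq_mul]
    split_ifs <;> simp
  refine ⟨e, fun i => Cᵀ *ᵥ e i, s, ?_, horth, hfull, hmom, hg, ?_, ?_⟩
  · intro i
    have h3 := hmom i i
    rw [if_pos rfl] at h3
    rw [← h3]
    exact Finset.sum_nonneg fun x _ => mul_nonneg (h.hα.nonneg x) (mul_self_nonneg _)
  · intro i j
    rw [← mom_bil, Matrix.mulVec_mulVec]
    have h3 : mom β F.b * Cᵀ = Cᵀ * mom α F.a := by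
      have := congrArg Matrix.transpose h1
      rw [Matrix.transpose_mul, Matrix.transpose_mul, mom_tr, mom_tr] at this
      exact this.symm
    rw [h3, ← Matrix.mulVec_mulVec, hev, Matrix.mulVec_smul, dotProduct_smul, hg, smul_eq_mul]
    split_ifs with hij
    · rw [← hij]
      ring
    · rw [mul_zero]
  · intro x y
    show F.a x ⬝ᵥ (C *ᵥ F.b y) = _
    rw [hfull]
    apply Finset.sum_congr rfl
    intro i _
    congr 1
    rw [Matrix.dotProduct_mulVec, ← Matrix.mulVec_transpose]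

section Frames

variable {e g : Fin n → Fin n → ℝ} {s : Fin n → ℝ}

/-- the row frame of the strong directions -/
theorem Spec.frame_row (hs : Spec m α β F e g s) {ss : ℝ} (hss : 0 < ss) :
    Frame α F.a (fun i : {i // ss ≤ s i} => e i) (fun i => s i) ss where
  pos := hss
  orth := by
    intro i j
    rw [hs.orth]
    simp only [Subtype.ext_iff]
  mom := by
    intro i j
    rw [hs.moma]
    simp only [Subtype.ext_iff]
  le := fun i => i.2

/-- the column frame of the strong directions -/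
theorem Spec.frame_col (hs : Spec m α β F e g s) {ss : ℝ} (hss : 0 < ss) :
    Frame β F.b (fun i : {i // ss ≤ s i} => (Real.sqrt (s i ^ m))⁻¹ • g i) (fun i => s i) ss where
  pos := hss
  orth := by
    intro i j
    rw [smul_dotProduct, dotProduct_smul, hs.orthg]
    simp only [Subtype.ext_iff, smul_eq_mul]
    split_ifs with hij
    · have h0 : 0 < s i := lt_of_lt_of_le hss i.2
      have h1 : 0 < s i ^ m := pow_pos h0 m
      rw [← hij]
      have h2 := Real.mul_self_sqrt h1.le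
      have h3 := (Real.sqrt_pos.2 h1).ne'
      nth_rewrite 3 [← h2]
      field_simp
    · ring
  mom := by
    intro i j
    simp only [smul_dotProduct, smul_eq_mul]
    have h4 : ∑ y, β y * ((Real.sqrt (s i ^ m))⁻¹ * (g i ⬝ᵥ F.b y) *
        ((Real.sqrt (s j ^ m))⁻¹ * (g j ⬝ᵥ F.b y))) = (Real.sqrt (s i ^ m))⁻¹ *
        (Real.sqrt (s j ^ m))⁻¹ * ∑ y, β y * ((g i ⬝ᵥ F.b y) * (g j ⬝ᵥ F.b y)) := by
      rw [Finset.mul_sum]
      apply Finset.sum_congr rfl
      intro y _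
      ring
    rw [h4, hs.momb]
    simp only [Subtype.ext_iff]
    split_ifs with hij
    · have h0 : 0 < s i := lt_of_lt_of_le hss i.2
      have h1 : 0 < s i ^ m := pow_pos h0 m
      rw [← hij, pow_succ]
      have h2 := Real.mul_self_sqrt h1.le
      have h3 := (Real.sqrt_pos.2 h1).ne'
      nth_rewrite 3 [← h2]
      field_simp
    · ring
  le := fun i => i.2

/-- the strong part of the centred kernel in normalised coordinates: the singular values are
`√ (s i ^ (m + 2))` -/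
theorem Spec.bil_eq (hs : Spec m α β F e g s) {i : Fin n} (hi : 0 < s i) (x : X) (y : Y) :
    (e i ⬝ᵥ F.a x) * (g i ⬝ᵥ F.b y) = Real.sqrt (s i ^ (m + 2)) *
      (((e i ⬝ᵥ F.a x) / Real.sqrt (s i)) *
      ((((Real.sqrt (s i ^ m))⁻¹ • g i) ⬝ᵥ F.b y) / Real.sqrt (s i))) := by
  have h1 : 0 < s i ^ m := pow_pos hi m
  have h3 := (Real.sqrt_pos.2 h1).ne'
  have h4 := (Real.sqrt_pos.2 hi).ne'
  have h5 : Real.sqrt (s i ^ (m + 2)) = Real.sqrt (s i ^ m) * (Real.sqrt (s i) *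
      Real.sqrt (s i)) := by
    rw [Real.mul_self_sqrt hi.le, pow_add, Real.sqrt_mul h1.le, Real.sqrt_sq hi.le]
  rw [h5, smul_dotProduct, smul_eq_mul]
  field_simp

/-- the sum of the eigenvalues is the cost -/
theorem Spec.sum_s (hs : Spec m α β F e g s) : ∑ i, s i = ∑ x, α x * nsq (F.a x) := by
  have h1 : ∀ i, s i = ∑ x, α x * ((e i ⬝ᵥ F.a x) * (e i ⬝ᵥ F.a x)) := by
    intro i
    rw [hs.moma, if_pos rfl]
  simp only [h1]
  rw [Finset.sum_comm]
  apply Finset.sum_congr rfl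
  intro x _
  rw [nsq_eq, hs.full, Finset.mul_sum]

/-- the sum of the squares of the singular values is the mean square of the centred kernel -/
theorem Spec.sum_sq (hs : Spec m α β F e g s) :
    ∑ i, s i ^ (m + 2) = ∑ x, ∑ y, α x * β y * F.bil m x y ^ 2 := by
  have h1 : ∀ x y, α x * β y * F.bil m x y ^ 2 = ∑ i, ∑ j,
      (α x * ((e i ⬝ᵥ F.a x) * (e j ⬝ᵥ F.a x))) * (β y * ((g i ⬝ᵥ F.b y) * (g j ⬝ᵥ F.b y))) := by
    intro x y
    rw [hs.bil, sq, Finset.sum_mul_sum, Finset.mul_sum]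
    apply Finset.sum_congr rfl
    intro i _
    rw [Finset.mul_sum]
    apply Finset.sum_congr rfl
    intro j _
    ring
  simp only [h1]
  have h2 : ∑ x, ∑ y, ∑ i, ∑ j, (α x * ((e i ⬝ᵥ F.a x) * (e j ⬝ᵥ F.a x))) *
      (β y * ((g i ⬝ᵥ F.b y) * (g j ⬝ᵥ F.b y))) = ∑ i, ∑ j,
      (∑ x, α x * ((e i ⬝ᵥ F.a x) * (e j ⬝ᵥ F.a x))) *
      (∑ y, β y * ((g i ⬝ᵥ F.b y) * (g j ⬝ᵥ F.b y))) := by
    simp only [Finset.sum_mul_sum]
    calc _ = ∑ x, ∑ i, ∑ j, ∑ y, (α x * ((e i ⬝ᵥ F.a x) * (e j ⬝ᵥ F.a x))) *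
          (β y * ((g i ⬝ᵥ F.b y) * (g j ⬝ᵥ F.b y))) := by
          apply Finset.sum_congr rfl
          intro x _
          rw [Finset.sum_comm]
          apply Finset.sum_congr rfl
          intro i _
          rw [Finset.sum_comm]
      _ = _ := by
          rw [Finset.sum_comm]
          apply Finset.sum_congr rfl
          intro i _
          rw [Finset.sum_comm]
  rw [h2]
  simp only [hs.moma, hs.momb]
  apply Finset.sum_congr rfl
  intro i _
  rw [Finset.sum_eq_single i]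
  · rw [if_pos rfl, if_pos rfl]
    ring
  · intro j _ hj
    rw [if_neg (Ne.symm hj), if_neg (Ne.symm hj), mul_zero]
  · intro hi
    exact absurd (Finset.mem_univ i) hi

end Frames

end Pool.Agent.LR2
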