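import Pool.Agent.Lib_helper59.LR2.Op
import Pool.Agent.Lib_helper59.LR2.Spec

/-!
# (P4) for the extremal state: the singular values are small
-/

set_option autoImplicit false
set_option linter.unusedSectionVars false

open Finset Matrix

namespace Pool.Agent.LR2

section Gen

variable {X Y : Type} [Fintype X] [Fintype Y]
variable {α : X → ℝ} {β : Y → ℝ} {B : X → Y → ℝ} {lam : ℝ}

theorem le_of_forall_exp {a b c : ℝ} (S : ℝ) (hc : 0 ≤ c)
    (h : ∀ S₀, S ≤ S₀ → a ≤ b + c * Real.exp (-S₀)) : a ≤ b := by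
  by_contra hab
  push Not at hab
  rcases eq_or_lt_of_le hc with hc0 | hc0
  · have := h S le_rfl
    rw [← hc0, zero_mul, add_zero] at this
    linarith
  · set S₀ := max S (-Real.log ((a - b) / (2 * c))) with hS
    have h1 := h S₀ (le_max_left _ _)
    have h2 : Real.exp (-S₀) ≤ (a - b) / (2 * c) := by
      have h3 : 0 < (a - b) / (2 * c) := div_pos (by linarith) (by linarith)
      rw [← Real.exp_log h3]
      apply Real.exp_le_exp.2
      have := le_max_right S (-Real.log ((a - b) / (2 * c)))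
      linarith
    have h4 : c * Real.exp (-S₀) ≤ c * ((a - b) / (2 * c)) := mul_le_mul_of_nonneg_left h2 hc
    have h5 : c * ((a - b) / (2 * c)) = (a - b) / 2 := by field_simp
    linarith

theorem cs_abs (hβ : IsPr β) {v b : Y → ℝ} (hv : ∑ y, β y * v y ^ 2 ≤ 1) (hb : ∀ y, |b y| ≤ 4) :
    |∑ y, β y * v y * b y| ≤ 4 := by
  have h1 : (∑ y, β y * v y * b y) ^ 2 ≤ (∑ y, β y * v y ^ 2) * ∑ y, β y * b y ^ 2 := by
    have h2 := Finset.sum_mul_sq_le_sq_mul_sq Finset.univ (fun y => Real.sqrt (β y) * v y)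
      (fun y => Real.sqrt (β y) * b y)
    have e : ∀ y, Real.sqrt (β y) * Real.sqrt (β y) = β y := fun y =>
      Real.mul_self_sqrt (hβ.nonneg y)
    have e1 : ∀ y, Real.sqrt (β y) * v y * (Real.sqrt (β y) * b y) = β y * v y * b y := by
      intro y
      linear_combination (v y * b y) * e y
    have e2 : ∀ y, (Real.sqrt (β y) * v y) ^ 2 = β y * v y ^ 2 := by
      intro y
      linear_combination (v y ^ 2) * e y
    have e3 : ∀ y, (Real.sqrt (β y) * b y) ^ 2 = β y * b y ^ 2 := by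
      intro y
      linear_combination (b y ^ 2) * e y
    simp only [e1, e2, e3] at h2
    exact h2
  have h3 : ∑ y, β y * b y ^ 2 ≤ 16 := by
    calc ∑ y, β y * b y ^ 2 ≤ ∑ y, β y * 16 := by
          apply Finset.sum_le_sum
          intro y _
          apply mul_le_mul_of_nonneg_left _ (hβ.nonneg y)
          have := sq_le_sq' (abs_le.1 (hb y)).1 (abs_le.1 (hb y)).2
          linarith
      _ = 16 := by rw [← Finset.sum_mul, hβ.sum, one_mul]
  have h4 : 0 ≤ ∑ y, β y * b y ^ 2 :=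
    Finset.sum_nonneg fun y _ => mul_nonneg (hβ.nonneg y) (sq_nonneg _)
  have h5 : (∑ y, β y * v y * b y) ^ 2 ≤ 4 ^ 2 := by
    calc _ ≤ _ := h1
      _ ≤ 1 * 16 := mul_le_mul hv h3 h4 zero_le_one
      _ = 4 ^ 2 := by norm_num
  exact abs_le_of_sq_le_sq h5 (by norm_num)

/-- (P4): a singular value of a kernel with product regularity -/
theorem p4_gen (hα : IsPr α) (hβ : IsPr β) (hc : Cen α β B)
    (hP : ∀ S₀, Real.log 2 ≤ S₀ → PS α β B lam S₀)
    (hB : ∀ x y, |B x y| ≤ 4) (hlam : 0 ≤ lam) {u : X → ℝ} {v : Y → ℝ} {σ : ℝ} (hσ : 0 < σ)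
    (hu : ∑ x, α x * u x ^ 2 = 1) (hv : ∑ y, β y * v y ^ 2 = 1)
    (hrow : ∀ x, α x ≠ 0 → ∑ y, β y * v y * B x y = σ * u x)
    (hcol : ∀ y, β y ≠ 0 → ∑ x, α x * u x * B x y = σ * v y) {N : ℕ} (hN : 4 ≤ 2 ^ N * σ) :
    σ ≤ 48 * lam * (N + 1) ^ 3 := by
  classical
  set u' : X → ℝ := fun x => if α x = 0 then 0 else u x with hu'
  set v' : Y → ℝ := fun y => if β y = 0 then 0 else v y with hv'
  have eu : ∀ x, α x * u' x = α x * u x := by
    intro x
    show α x * (if α x = 0 then 0 else u x) = _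
    split_ifs with h
    · rw [h, zero_mul, zero_mul]
    · rfl
  have ev : ∀ y, β y * v' y = β y * v y := by
    intro y
    show β y * (if β y = 0 then 0 else v y) = _
    split_ifs with h
    · rw [h, zero_mul, zero_mul]
    · rfl
  have eu2 : ∀ x, α x * u' x ^ 2 = α x * u x ^ 2 := by
    intro x
    rw [sq, ← mul_assoc, eu]
    show α x * u x * (if α x = 0 then 0 else u x) = _
    split_ifs with h
    · rw [h]
      ring
    · ring
  have ev2 : ∀ x, β x * v' x ^ 2 = β x * v x ^ 2 := by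
    intro x
    rw [sq, ← mul_assoc, ev]
    show β x * v x * (if β x = 0 then 0 else v x) = _
    split_ifs with h
    · rw [h]
      ring
    · ring
  have hub : ∀ x, |u' x| ≤ 2 ^ N := by
    intro x
    show |if α x = 0 then 0 else u x| ≤ 2 ^ N
    split_ifs with h
    · rw [abs_zero]
      positivity
    · have h1 := cs_abs hβ hv.le (hB x)
      rw [hrow x h, abs_mul, abs_of_pos hσ] at h1
      have h2 : σ * |u x| ≤ σ * 2 ^ N := by linarith
      exact le_of_mul_le_mul_left h2 hσ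
  have hvb : ∀ y, |v' y| ≤ 2 ^ N := by
    intro y
    show |if β y = 0 then 0 else v y| ≤ 2 ^ N
    split_ifs with h
    · rw [abs_zero]
      positivity
    · have h1 := cs_abs hα hu.le (fun x => hB x y)
      rw [hcol y h, abs_mul, abs_of_pos hσ] at h1
      have h2 : σ * |v y| ≤ σ * 2 ^ N := by linarith
      exact le_of_mul_le_mul_left h2 hσ
  have hem : em (fun x => α x * u' x) (fun y => β y * v' y) B = σ := by
    unfold em
    simp only [eu, ev]
    have h1 : ∀ x, ∑ y, α x * u x * (β y * v y) * B x y = σ * (α x * u x ^ 2) := by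
      intro x
      have h2 : ∑ y, α x * u x * (β y * v y) * B x y = α x * u x * ∑ y, β y * v y * B x y := by
        rw [Finset.mul_sum]
        apply Finset.sum_congr rfl
        intro y _
        ring
      rw [h2]
      by_cases h : α x = 0
      · rw [h]
        ring
      · rw [hrow x h]
        ring
    simp only [h1]
    rw [← Finset.mul_sum, hu, mul_one]
  have key : ∀ S₀, Real.log 2 ≤ S₀ →
      σ ≤ 48 * lam * (N + 1) ^ 3 + (8 * 4 ^ N * (N + 1) ^ 2) * Real.exp (-S₀) := by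
    intro S₀ hS
    have h1 := ps_op hα hβ hc (hP S₀ hS) hB hlam hS (N := N) (u := u') (v := v')
      (by simp only [eu2]; exact hu.le) hub (by simp only [ev2]; exact hv.le) hvb
    rw [hem, abs_of_pos hσ] at h1
    calc σ ≤ _ := h1
      _ = _ := by ring
  exact le_of_forall_exp (Real.log 2) (by positivity) key

theorem ctd_cen (hα : IsPr α) (hβ : IsPr β) (M : X → Y → ℝ) : Cen α β (ctd α β M) where
  row := by
    intro x
    have e : ∀ y, β y * ctd α β M x y = β y * M x y - β y * rmean β M x - β y * cmean α M y +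
        β y * em α β M := by
      intro y
      unfold ctd
      ring
    simp only [e]
    rw [Finset.sum_add_distrib, Finset.sum_sub_distrib, Finset.sum_sub_distrib, ← Finset.sum_mul,
      ← Finset.sum_mul, hβ.sum, ← em_col]
    unfold rmean
    ring
  col := by
    intro y
    have e : ∀ x, α x * ctd α β M x y = α x * M x y - α x * rmean β M x - α x * cmean α M y +
        α x * em α β M := by
      intro x
      unfold ctd
      ring
    simp only [e]
    rw [Finset.sum_add_distrib, Finset.sum_sub_distrib, Finset.sum_sub_distrib, ← Finset.sum_mul,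
      ← Finset.sum_mul, hα.sum, ← em_row]
    unfold cmean
    ring

theorem cmean_abs (hα : IsPr α) {M : X → Y → ℝ} (hM : ∀ x y, |M x y| ≤ 1) (y : Y) :
    |cmean α M y| ≤ 1 := rmean_abs (X := Y) hα (fun y x => hM x y) y

theorem ctd_abs (hα : IsPr α) (hβ : IsPr β) {M : X → Y → ℝ} (hM : ∀ x y, |M x y| ≤ 1) (x : X)
    (y : Y) : |ctd α β M x y| ≤ 4 := by
  have h1 := abs_le.1 (hM x y)
  have h2 := abs_le.1 (rmean_abs hβ hM x)
  have h3 := abs_le.1 (cmean_abs hα hM y)
  have h4 := abs_le.1 (em_abs hα hβ hM)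
  unfold ctd
  rw [abs_le]
  constructor <;> linarith [h1.1, h1.2, h2.1, h2.2, h3.1, h3.2, h4.1, h4.2]

end Gen

section St

variable {X Y : Type} [Fintype X] [Fintype Y] [Nonempty X] [Nonempty Y] {n : ℕ}
variable {M : X → Y → ℝ} {μ₀ : X → ℝ} {ν₀ : Y → ℝ} {lam Lam : ℝ} {m : ℕ}
  {α : X → ℝ} {β : Y → ℝ} {F : Fac X Y n} {e g : Fin n → Fin n → ℝ} {s : Fin n → ℝ}

theorem St.ps (h : St M μ₀ ν₀ lam Lam m α β F) (S₀ : ℝ) : PS α β (ctd α β M) lam S₀ := by
  intro p q s t hp hq _ _ _ _ hle hle'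
  have h1 := h.sharp hp hq hle hle' F (h.val.mono (ac_of_le hp hle) (ac_of_le hq hle'))
  rw [sub_self, mul_zero, add_zero] at h1
  exact h1

/-- the row coordinate of a direction -/
noncomputable def Spec.cu (_hs : Spec m α β F e g s) (i : Fin n) (x : X) : ℝ :=
  (e i ⬝ᵥ F.a x) / Real.sqrt (s i)

/-- the column coordinate of a direction -/
noncomputable def Spec.cv (_hs : Spec m α β F e g s) (i : Fin n) (y : Y) : ℝ :=
  (((Real.sqrt (s i ^ m))⁻¹ • g i) ⬝ᵥ F.b y) / Real.sqrt (s i)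

theorem Spec.cu_sq (hs : Spec m α β F e g s) {i : Fin n} (hi : 0 < s i) :
    ∑ x, α x * hs.cu i x ^ 2 = 1 := by
  have h1 := (hs.frame_row hi).mom ⟨i, le_rfl⟩ ⟨i, le_rfl⟩
  rw [if_pos rfl] at h1
  have h2 : ∀ x, α x * hs.cu i x ^ 2 = (s i)⁻¹ * (α x * ((e i ⬝ᵥ F.a x) * (e i ⬝ᵥ F.a x))) := by
    intro x
    unfold Spec.cu
    rw [div_pow, Real.sq_sqrt hi.le]
    ring
  simp only [h2]
  rw [← Finset.mul_sum, h1, inv_mul_cancel₀ hi.ne']

theorem Spec.cv_sq (hs : Spec m α β F e g s) {i : Fin n} (hi : 0 < s i) :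
    ∑ y, β y * hs.cv i y ^ 2 = 1 := by
  have h1 := (hs.frame_col hi).mom ⟨i, le_rfl⟩ ⟨i, le_rfl⟩
  rw [if_pos rfl] at h1
  simp only at h1
  have h2 : ∀ y, β y * hs.cv i y ^ 2 = (s i)⁻¹ * (β y *
      ((((Real.sqrt (s i ^ m))⁻¹ • g i) ⬝ᵥ F.b y) * (((Real.sqrt (s i ^ m))⁻¹ • g i) ⬝ᵥ F.b y))) := by
    intro y
    unfold Spec.cv
    rw [div_pow, Real.sq_sqrt hi.le]
    ring
  simp only [h2]
  rw [← Finset.mul_sum, h1, inv_mul_cancel₀ hi.ne']

/-- `B v = σ u` -/
theorem Spec.cv_row (hs : Spec m α β F e g s) {i : Fin n} (hi : 0 < s i) (x : X) :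
    ∑ y, β y * hs.cv i y * F.bil m x y = Real.sqrt (s i ^ (m + 2)) * hs.cu i x := by
  have h0 : 0 < s i ^ m := pow_pos hi m
  have hsm := Real.sqrt_pos.2 h0
  have hs1 := Real.sqrt_pos.2 hi
  have e1 : ∀ y, β y * hs.cv i y * F.bil m x y = ∑ j, ((Real.sqrt (s i ^ m))⁻¹ *
      (Real.sqrt (s i))⁻¹ * (e j ⬝ᵥ F.a x)) * (β y * ((g i ⬝ᵥ F.b y) * (g j ⬝ᵥ F.b y))) := by
    intro y
    rw [hs.bil, Finset.mul_sum]
    apply Finset.sum_congr rfl
    intro j _
    unfold Spec.cv
    rw [smul_dotProduct, smul_eq_mul, div_eq_mul_inv]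
    ring
  simp only [e1]
  rw [Finset.sum_comm]
  simp only [← Finset.mul_sum, hs.momb]
  rw [Finset.sum_eq_single i]
  · rw [if_pos rfl]
    unfold Spec.cu
    have h5 : Real.sqrt (s i ^ (m + 2)) = Real.sqrt (s i ^ m) * (Real.sqrt (s i) *
        Real.sqrt (s i)) := by
      rw [Real.mul_self_sqrt hi.le, pow_add, Real.sqrt_mul h0.le, Real.sqrt_sq hi.le]
    have h6 : s i ^ (m + 1) = (Real.sqrt (s i ^ m) * Real.sqrt (s i ^ m)) * (Real.sqrt (s i) *
        Real.sqrt (s i)) := by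
      rw [Real.mul_self_sqrt hi.le, Real.mul_self_sqrt h0.le, pow_succ]
    rw [h5, h6]
    field_simp
  · intro j _ hj
    rw [if_neg (Ne.symm hj), mul_zero]
  · intro h
    exact absurd (Finset.mem_univ i) h

/-- `Bᵀ u = σ v` -/
theorem Spec.cu_col (hs : Spec m α β F e g s) {i : Fin n} (hi : 0 < s i) (y : Y) :
    ∑ x, α x * hs.cu i x * F.bil m x y = Real.sqrt (s i ^ (m + 2)) * hs.cv i y := by
  have h0 : 0 < s i ^ m := pow_pos hi m
  have hsm := Real.sqrt_pos.2 h0
  have hs1 := Real.sqrt_pos.2 hi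
  have e1 : ∀ x, α x * hs.cu i x * F.bil m x y = ∑ j, ((Real.sqrt (s i))⁻¹ * (g j ⬝ᵥ F.b y)) *
      (α x * ((e i ⬝ᵥ F.a x) * (e j ⬝ᵥ F.a x))) := by
    intro x
    rw [hs.bil, Finset.mul_sum]
    apply Finset.sum_congr rfl
    intro j _
    unfold Spec.cu
    rw [div_eq_mul_inv]
    ring
  simp only [e1]
  rw [Finset.sum_comm]
  simp only [← Finset.mul_sum, hs.moma]
  rw [Finset.sum_eq_single i]
  · rw [if_pos rfl]
    unfold Spec.cv
    have h5 : Real.sqrt (s i ^ (m + 2)) = Real.sqrt (s i ^ m) * (Real.sqrt (s i) *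
        Real.sqrt (s i)) := by
      rw [Real.mul_self_sqrt hi.le, pow_add, Real.sqrt_mul h0.le, Real.sqrt_sq hi.le]
    have h6 : s i = Real.sqrt (s i) * Real.sqrt (s i) := (Real.mul_self_sqrt hi.le).symm
    rw [h5, smul_dotProduct, smul_eq_mul]
    nth_rewrite 2 [h6]
    field_simp
  · intro j _ hj
    rw [if_neg (Ne.symm hj), mul_zero]
  · intro h
    exact absurd (Finset.mem_univ i) h

/-- (P4): the singular values of the extremal state -/
theorem St.p4 (h : St M μ₀ ν₀ lam Lam m α β F) (hs : Spec m α β F e g s)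
    (hM : ∀ x y, |M x y| ≤ 1) (i : Fin n) {N : ℕ} (hN : 4 ≤ 2 ^ N * Real.sqrt (s i ^ (m + 2))) :
    Real.sqrt (s i ^ (m + 2)) ≤ 48 * lam * (N + 1) ^ 3 := by
  have hi : 0 < s i := by
    rcases eq_or_lt_of_le (hs.nonneg i) with h0 | h0
    · exfalso
      rw [← h0, zero_pow (by omega), Real.sqrt_zero, mul_zero] at hN
      linarith
    · exact h0
  have hσ : 0 < Real.sqrt (s i ^ (m + 2)) := Real.sqrt_pos.2 (pow_pos hi _)
  refine p4_gen h.hα h.hβ (ctd_cen h.hα h.hβ M) (fun S₀ _ => h.ps S₀) (ctd_abs h.hα h.hβ hM)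
    h.hlam.le hσ (hs.cu_sq hi) (hs.cv_sq hi) ?_ ?_ hN
  · intro x hx
    rw [← hs.cv_row hi]
    apply Finset.sum_congr rfl
    intro y _
    by_cases hy : β y = 0
    · rw [hy]
      ring
    · rw [h.bil x y hx hy]
  · intro y hy
    rw [← hs.cu_col hi]
    apply Finset.sum_congr rfl
    intro x _
    by_cases hx : α x = 0
    · rw [hx]
      ring
    · rw [h.bil x y hx hy]

end St

end Pool.Agent.LR2
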