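import Pool.Agent.Lib_helper59.LR2.Chaos

/-!
# Bounded chaos on the biased cube
-/

set_option autoImplicit false
set_option linter.unusedSectionVars false

open Finset Polynomial

namespace Pool.Agent.LR2

/-- the coefficient of degree one of a function which is bounded on `[0, 1/2]` -/
theorem coef_one {j : ℕ → ℝ} {m d : ℕ} {N : ℝ} (hN : 0 < N)
    (hmass : ∑ k ∈ Finset.range (m + 1), |j k| ≤ 2 ^ d * N)
    (hJ : ∀ x, 0 ≤ x → x ≤ 1 / 2 → |∑ k ∈ Finset.range (m + 1), j k * x ^ k| ≤ N)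
    (hd : 1 ≤ d) (hm : 1 ≤ m) : |j 1| ≤ 8 * (d : ℝ) ^ 2 * N := by
  classical
  let P : ℝ[X] := ∑ k ∈ Finset.range (d + 1), C (if k ∈ Finset.range (m + 1) then j k else 0) * X ^ k
  have hPdeg : P.natDegree ≤ d := by
    apply Polynomial.natDegree_sum_le_of_forall_le
    intro k hk
    apply (Polynomial.natDegree_C_mul_X_pow_le _ _).trans
    exact Nat.lt_succ_iff.mp (Finset.mem_range.mp hk)
  have hPev : ∀ x, P.eval x = ∑ k ∈ (Finset.range (m + 1)).filter (fun k => k ≤ d),
      j k * x ^ k := by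
    intro x
    simp only [P, Polynomial.eval_finsetSum, Polynomial.eval_mul, Polynomial.eval_C,
      Polynomial.eval_pow, Polynomial.eval_X]
    rw [Finset.sum_filter]
    have e1 : ∀ N, d ≤ N → m ≤ N →
        (∑ k ∈ Finset.range (d + 1), (if k ∈ Finset.range (m + 1) then j k else 0) * x ^ k =
        ∑ k ∈ Finset.range (N + 1), if k ∈ Finset.range (m + 1) ∧ k ≤ d then j k * x ^ k else 0) ∧
        (∑ k ∈ Finset.range (m + 1), (if k ≤ d then j k * x ^ k else 0) =
        ∑ k ∈ Finset.range (N + 1), if k ∈ Finset.range (m + 1) ∧ k ≤ d then j k * x ^ k else 0) := by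
      intro N hdN hmN
      constructor
      · rw [← Finset.sum_subset (Finset.range_mono (Nat.succ_le_succ hdN))]
        · apply Finset.sum_congr rfl
          intro k hk
          have hk' : k ≤ d := Nat.lt_succ_iff.mp (Finset.mem_range.mp hk)
          by_cases hkm : k ∈ Finset.range (m + 1)
          · rw [if_pos hkm, if_pos ⟨hkm, hk'⟩]
          · rw [if_neg hkm, if_neg (fun h => hkm h.1), zero_mul]
        · intro k _ hk
          rw [if_neg]
          rintro ⟨-, h⟩
          exact hk (Finset.mem_range.mpr (Nat.lt_succ_of_le h))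
      · rw [← Finset.sum_subset (Finset.range_mono (Nat.succ_le_succ hmN))]
        · apply Finset.sum_congr rfl
          intro k hk
          by_cases hkd : k ≤ d
          · rw [if_pos hkd, if_pos ⟨hk, hkd⟩]
          · rw [if_neg hkd, if_neg (fun h => hkd h.2)]
        · intro k _ hk
          rw [if_neg]
          rintro ⟨h, -⟩
          exact hk h
    obtain ⟨e2, e3⟩ := e1 (max d m) (le_max_left _ _) (le_max_right _ _)
    rw [e2, e3]
  have hPb : ∀ x ∈ Set.uIcc (1 / 2 : ℝ) 0, |P.eval x| ≤ 2 * N := by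
    intro x hx
    rw [Set.uIcc_comm, Set.uIcc_of_le (by norm_num)] at hx
    have hx1 : |x| ≤ 1 / 2 := by
      rw [abs_of_nonneg hx.1]
      exact hx.2
    have h1 : ∑ k ∈ Finset.range (m + 1), j k * x ^ k = P.eval x +
        ∑ k ∈ (Finset.range (m + 1)).filter (fun k => ¬ k ≤ d), j k * x ^ k := by
      rw [hPev]
      exact (Finset.sum_filter_add_sum_filter_not _ _ _).symm
    have h2 : |∑ k ∈ (Finset.range (m + 1)).filter (fun k => ¬ k ≤ d), j k * x ^ k| ≤ N := by
      calc _ ≤ ∑ k ∈ (Finset.range (m + 1)).filter (fun k => ¬ k ≤ d), |j k * x ^ k| :=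
            Finset.abs_sum_le_sum_abs _ _
        _ ≤ ∑ k ∈ (Finset.range (m + 1)).filter (fun k => ¬ k ≤ d), |j k| * (1 / 2) ^ d := by
            apply Finset.sum_le_sum
            intro k hk
            rw [abs_mul, abs_pow]
            apply mul_le_mul_of_nonneg_left _ (abs_nonneg _)
            have hk' : d ≤ k := le_of_lt (not_le.mp (Finset.mem_filter.mp hk).2)
            calc |x| ^ k ≤ (1 / 2) ^ k := pow_le_pow_left₀ (abs_nonneg _) hx1 k
              _ ≤ (1 / 2) ^ d := pow_le_pow_of_le_one (by norm_num) (by norm_num) hk'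
        _ ≤ ∑ k ∈ Finset.range (m + 1), |j k| * (1 / 2) ^ d := by
            apply Finset.sum_le_sum_of_subset_of_nonneg (Finset.filter_subset _ _)
            intro k _ _
            positivity
        _ = (∑ k ∈ Finset.range (m + 1), |j k|) * (1 / 2) ^ d := by rw [Finset.sum_mul]
        _ ≤ (2 ^ d * N) * (1 / 2) ^ d := by
            apply mul_le_mul_of_nonneg_right hmass
            positivity
        _ = N := by
            rw [mul_comm, ← mul_assoc, ← mul_pow]
            norm_num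
    have h3 := hJ x hx.1 hx.2
    have h4 : P.eval x = ∑ k ∈ Finset.range (m + 1), j k * x ^ k -
        ∑ k ∈ (Finset.range (m + 1)).filter (fun k => ¬ k ≤ d), j k * x ^ k := by
      rw [h1]; ring
    rw [h4]
    calc _ ≤ |∑ k ∈ Finset.range (m + 1), j k * x ^ k| +
          |∑ k ∈ (Finset.range (m + 1)).filter (fun k => ¬ k ≤ d), j k * x ^ k| :=
          abs_sub _ _
      _ ≤ N + N := add_le_add h3 h2
      _ = _ := by ring
  have h5 := Pool.Agent.Lib_helper30.AA.markov_segment hPdeg (a := 1 / 2) (c := 0)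
    (B := 2 * N) (by positivity) (by norm_num) hPb
  have h6 : P.derivative.eval 0 = j 1 := by
    simp only [P, Polynomial.derivative_sum, Polynomial.eval_finsetSum,
      Polynomial.derivative_C_mul_X_pow, Polynomial.eval_mul, Polynomial.eval_C,
      Polynomial.eval_pow, Polynomial.eval_X, Finset.mem_range]
    rw [Finset.sum_eq_single 1]
    · rw [if_pos (by omega)]
      norm_num
    · intro k _ hk
      rcases Nat.eq_zero_or_pos k with h0 | h0
      · subst h0
        simp
      · rw [zero_pow (by omega), mul_zero]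
    · intro h
      exact absurd (Finset.mem_range.mpr (by omega)) h
  rw [h6] at h5
  calc |j 1| ≤ _ := h5
    _ = 8 * (d : ℝ) ^ 2 * N := by norm_num; ring

section Trace

variable {I SS : Type} [Fintype I] [Fintype SS] [DecidableEq SS]

theorem bessel_fin {ψ : SS → I → ℝ} (horth : ∀ S T, ∑ ξ, ψ S ξ * ψ T ξ = if S = T then 1 else 0)
    (c : SS → ℝ) : ∑ ξ, (∑ S, c S * ψ S ξ) ^ 2 = ∑ S, c S ^ 2 := by
  have h1 : ∀ ξ, (∑ S, c S * ψ S ξ) ^ 2 = ∑ S, ∑ T, (c S * c T) * (ψ S ξ * ψ T ξ) := by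
    intro ξ
    rw [sq, Finset.sum_mul_sum]
    apply Finset.sum_congr rfl
    intro S _
    apply Finset.sum_congr rfl
    intro T _
    ring
  simp only [h1]
  rw [Finset.sum_comm]
  apply Finset.sum_congr rfl
  intro S _
  rw [Finset.sum_comm]
  simp only [← Finset.mul_sum, horth]
  rw [Finset.sum_eq_single S]
  · rw [if_pos rfl]
    ring
  · intro T _ hT
    rw [if_neg (Ne.symm hT), mul_zero]
  · intro h
    exact absurd (Finset.mem_univ S) h

theorem bessel_le {ψ : SS → I → ℝ} (horth : ∀ S T, ∑ ξ, ψ S ξ * ψ T ξ = if S = T then 1 else 0)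
    (v : I → ℝ) : ∑ S, (∑ ξ, ψ S ξ * v ξ) ^ 2 ≤ ∑ ξ, v ξ ^ 2 := by
  set c : SS → ℝ := fun S => ∑ ξ, ψ S ξ * v ξ with hc
  have h1 : 0 ≤ ∑ ξ, (v ξ - ∑ S, c S * ψ S ξ) ^ 2 := Finset.sum_nonneg fun _ _ => sq_nonneg _
  have h2 : ∀ ξ, (v ξ - ∑ S, c S * ψ S ξ) ^ 2 = v ξ ^ 2 - 2 * ∑ S, c S * (ψ S ξ * v ξ) +
      (∑ S, c S * ψ S ξ) ^ 2 := by
    intro ξ
    have e : v ξ * ∑ S, c S * ψ S ξ = ∑ S, c S * (ψ S ξ * v ξ) := by
      rw [Finset.mul_sum]
      apply Finset.sum_congr rfl
      intro S _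
      ring
    rw [← e]
    ring
  simp only [h2] at h1
  rw [Finset.sum_add_distrib, Finset.sum_sub_distrib, bessel_fin horth, ← Finset.mul_sum,
    Finset.sum_comm] at h1
  have h3 : ∑ S, ∑ ξ, c S * (ψ S ξ * v ξ) = ∑ S, c S ^ 2 := by
    apply Finset.sum_congr rfl
    intro S _
    rw [← Finset.mul_sum, sq]
  rw [h3] at h1
  linarith

/-- the diagonal coefficients in an orthonormal family are bounded by the trace norm -/
theorem diag_trace {ψ : SS → I → ℝ}
    (horth : ∀ S T, ∑ ξ, ψ S ξ * ψ T ξ = if S = T then 1 else 0) (A : I → I → ℝ) (R : ℕ)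
    (hR : (Matrix.of A).rank ≤ R) :
    ∑ S, |∑ ξ, ∑ η, A ξ η * (ψ S ξ * ψ S η)| ≤
      Real.sqrt R * Real.sqrt (∑ ξ, ∑ η, A ξ η ^ 2) := by
  set D : SS → ℝ := fun S => ∑ ξ, ∑ η, A ξ η * (ψ S ξ * ψ S η) with hD
  let ε : SS → ℝ := fun S => if 0 ≤ D S then 1 else -1
  have hε : ∀ S, ε S ^ 2 = 1 := by
    intro S
    simp only [ε]
    split_ifs <;> norm_num
  have hεd : ∀ S, ε S * D S = |D S| := by
    intro S
    simp only [ε]
    split_ifs with h
    · rw [abs_of_nonneg h, one_mul]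
    · rw [abs_of_neg (not_le.mp h), neg_one_mul]
  let T : I → I → ℝ := fun η ξ => ∑ S, ε S * (ψ S ξ * ψ S η)
  have hT : ∀ v : I → ℝ, ∑ η, (∑ ξ, T η ξ * v ξ) ^ 2 ≤ ∑ ξ, v ξ ^ 2 := by
    intro v
    have h1 : ∀ η, ∑ ξ, T η ξ * v ξ = ∑ S, (ε S * ∑ ξ, ψ S ξ * v ξ) * ψ S η := by
      intro η
      simp only [T, Finset.mul_sum, Finset.sum_mul]
      rw [Finset.sum_comm]
      apply Finset.sum_congr rfl
      intro S _
      apply Finset.sum_congr rfl
      intro ξ _
      ring
    simp only [h1]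
    rw [bessel_fin horth]
    simp only [mul_pow, hε, one_mul]
    exact bessel_le horth v
  have h7 := rank_pairing (Matrix.of A) R hR T hT
  have h8 : ∑ ξ, ∑ η, T η ξ * (Matrix.of A) ξ η = ∑ S, |D S| := by
    have h9 : ∑ S, |D S| = ∑ S, ∑ ξ, ∑ η, ε S * (A ξ η * (ψ S ξ * ψ S η)) := by
      apply Finset.sum_congr rfl
      intro S _
      rw [← hεd S]
      simp only [hD]
      rw [Finset.mul_sum]
      apply Finset.sum_congr rfl
      intro ξ _
      rw [Finset.mul_sum]
    rw [h9, Finset.sum_comm (f := fun S ξ => ∑ η, ε S * (A ξ η * (ψ S ξ * ψ S η)))]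
    apply Finset.sum_congr rfl
    intro ξ _
    rw [Finset.sum_comm]
    apply Finset.sum_congr rfl
    intro η _
    simp only [T, Matrix.of_apply]
    rw [Finset.sum_mul]
    apply Finset.sum_congr rfl
    intro S _
    ring
  rw [h8, abs_of_nonneg (Finset.sum_nonneg fun S _ => abs_nonneg _)] at h7
  exact h7

end Trace

section Biased

/-- a biased bit: weights and the character of mean `0` and variance `1` -/
structure Bit (w e : Bool → ℝ) : Prop where
  nn : ∀ b, 0 ≤ w b
  sum : w true + w false = 1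
  mean : w true * e true + w false * e false = 0
  var : w true * e true ^ 2 + w false * e false ^ 2 = 1
  pos : ∀ ρ, 0 ≤ ρ → ρ ≤ 1 → ∀ a b, 0 ≤ 1 + ρ * (e a * e b)

/-- the character of the set `S` -/
def chB {m : ℕ} (e : Bool → ℝ) (S : Finset (Fin m)) (ξ : Fin m → Bool) : ℝ := ∏ i ∈ S, e (ξ i)

/-- the law of the bits -/
def wB {m : ℕ} (w : Bool → ℝ) (ξ : Fin m → Bool) : ℝ := ∏ i, w (ξ i)

variable {w e : Bool → ℝ} {m : ℕ}

theorem wB_nonneg (h : Bit w e) (ξ : Fin m → Bool) : 0 ≤ wB w ξ :=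
  Finset.prod_nonneg fun i _ => h.nn _

theorem wB_sum (h : Bit w e) : ∑ ξ : Fin m → Bool, wB w ξ = 1 := by
  unfold wB
  rw [sum_cube_prod (fun _ b => w b)]
  simp only [h.sum, Finset.prod_const_one]

theorem chB_orth (h : Bit w e) (S T : Finset (Fin m)) :
    ∑ ξ : Fin m → Bool, wB w ξ * (chB e S ξ * chB e T ξ) = if S = T then 1 else 0 := by
  classical
  have h1 : ∀ ξ : Fin m → Bool, wB w ξ * (chB e S ξ * chB e T ξ) =
      ∏ i, (w (ξ i) * ((if i ∈ S then e (ξ i) else 1) * (if i ∈ T then e (ξ i) else 1))) := by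
    intro ξ
    rw [Finset.prod_mul_distrib, Finset.prod_mul_distrib]
    unfold chB wB
    rw [Finset.prod_ite_mem, Finset.prod_ite_mem]
    simp
  simp only [h1]
  rw [sum_cube_prod (fun i b => w b * ((if i ∈ S then e b else 1) * (if i ∈ T then e b else 1)))]
  split_ifs with hST
  · subst hST
    apply Finset.prod_eq_one
    intro i _
    split_ifs
    · have := h.var
      linear_combination this
    · rw [mul_one, mul_one, mul_one]
      exact h.sum
  · have h2 : ∃ i, ¬ (i ∈ S ↔ i ∈ T) := by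
      by_contra hcon
      push Not at hcon
      exact hST (Finset.ext hcon)
    obtain ⟨i, hi⟩ := h2
    apply Finset.prod_eq_zero (Finset.mem_univ i)
    by_cases hS : i ∈ S
    · have hT : i ∉ T := fun hT => hi ⟨fun _ => hT, fun _ => hS⟩
      rw [if_pos hS, if_neg hT, if_pos hS, if_neg hT, mul_one, mul_one]
      exact h.mean
    · have hT : i ∈ T := by
        by_contra hT
        exact hi ⟨fun h => absurd h hS, fun h => absurd h hT⟩
      rw [if_neg hS, if_pos hT, if_neg hS, if_pos hT, one_mul, one_mul]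
      exact h.mean

/-- Fourier coefficient on the diagonal -/
noncomputable def dgB (w e : Bool → ℝ) (H : (Fin m → Bool) → (Fin m → Bool) → ℝ)
    (S : Finset (Fin m)) : ℝ :=
  ∑ ξ, ∑ η, wB w ξ * wB w η * H ξ η * (chB e S ξ * chB e S η)

theorem sum_abs_dgB (h : Bit w e) (H : (Fin m → Bool) → (Fin m → Bool) → ℝ)
    (hH : ∀ ξ η, |H ξ η| ≤ 1) (R : ℕ) (hR : (Matrix.of H).rank ≤ R) :
    ∑ S, |dgB w e H S| ≤ Real.sqrt R := by
  classical
  set ψ : Finset (Fin m) → (Fin m → Bool) → ℝ := fun S ξ => Real.sqrt (wB w ξ) * chB e S ξ with hψ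
  set A : (Fin m → Bool) → (Fin m → Bool) → ℝ := fun ξ η =>
    Real.sqrt (wB w ξ) * H ξ η * Real.sqrt (wB w η) with hA
  have hs : ∀ ξ : Fin m → Bool, Real.sqrt (wB w ξ) * Real.sqrt (wB w ξ) = wB w ξ := fun ξ =>
    Real.mul_self_sqrt (wB_nonneg h ξ)
  have horth : ∀ S T, ∑ ξ, ψ S ξ * ψ T ξ = if S = T then 1 else 0 := by
    intro S T
    rw [← chB_orth h S T]
    apply Finset.sum_congr rfl
    intro ξ _
    simp only [hψ]
    linear_combination (chB e S ξ * chB e T ξ) * hs ξ
  have hrk : (Matrix.of A).rank ≤ R := by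
    have h1 : Matrix.of A = Matrix.diagonal (fun ξ => Real.sqrt (wB w ξ)) * Matrix.of H *
        Matrix.diagonal (fun ξ => Real.sqrt (wB w ξ)) := by
      ext ξ η
      rw [Matrix.mul_diagonal, Matrix.diagonal_mul]
      rfl
    rw [h1]
    exact ((Matrix.rank_mul_le_left _ _).trans (Matrix.rank_mul_le_right _ _)).trans hR
  have h1 := diag_trace horth A R hrk
  have h2 : ∀ S, ∑ ξ, ∑ η, A ξ η * (ψ S ξ * ψ S η) = dgB w e H S := by
    intro S
    unfold dgB
    apply Finset.sum_congr rfl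
    intro ξ _
    apply Finset.sum_congr rfl
    intro η _
    simp only [hA, hψ]
    have e1 : Real.sqrt (wB w ξ) * H ξ η * Real.sqrt (wB w η) *
        (Real.sqrt (wB w ξ) * chB e S ξ * (Real.sqrt (wB w η) * chB e S η)) =
        (Real.sqrt (wB w ξ) * Real.sqrt (wB w ξ)) * (Real.sqrt (wB w η) * Real.sqrt (wB w η)) *
        H ξ η * (chB e S ξ * chB e S η) := by ring
    rw [e1, hs, hs]
  simp only [h2] at h1
  refine h1.trans ?_
  have h3 : ∑ ξ, ∑ η, A ξ η ^ 2 ≤ 1 := by
    calc ∑ ξ, ∑ η, A ξ η ^ 2 ≤ ∑ ξ, ∑ η, wB w ξ * wB w η := by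
          apply Finset.sum_le_sum
          intro ξ _
          apply Finset.sum_le_sum
          intro η _
          have e1 : A ξ η ^ 2 = (Real.sqrt (wB w ξ) * Real.sqrt (wB w ξ)) *
              (Real.sqrt (wB w η) * Real.sqrt (wB w η)) * H ξ η ^ 2 := by
            simp only [hA]
            ring
          rw [e1, hs, hs]
          have h4 : H ξ η ^ 2 ≤ 1 := by
            rw [← sq_abs]
            exact pow_le_one₀ (abs_nonneg _) (hH ξ η)
          exact mul_le_of_le_one_right (mul_nonneg (wB_nonneg h _) (wB_nonneg h _)) h4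
      _ = 1 := by
          simp only [← Finset.mul_sum, wB_sum h, mul_one]
  calc Real.sqrt R * Real.sqrt (∑ ξ, ∑ η, A ξ η ^ 2) ≤ Real.sqrt R * 1 := by
        apply mul_le_mul_of_nonneg_left _ (Real.sqrt_nonneg _)
        exact Real.sqrt_le_one.mpr h3
    _ = _ := mul_one _

/-- the correlated expectation -/
noncomputable def jcB (w e : Bool → ℝ) (H : (Fin m → Bool) → (Fin m → Bool) → ℝ) (ρ : ℝ) : ℝ :=
  ∑ ξ, ∑ η, wB w ξ * wB w η * H ξ η * ∏ i, (1 + ρ * (e (ξ i) * e (η i)))

/-- the `k`-th chaos -/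
noncomputable def jkB (w e : Bool → ℝ) (H : (Fin m → Bool) → (Fin m → Bool) → ℝ) (k : ℕ) : ℝ :=
  ∑ S ∈ (Finset.univ : Finset (Fin m)).powersetCard k, dgB w e H S

theorem jcB_eq (H : (Fin m → Bool) → (Fin m → Bool) → ℝ) (ρ : ℝ) :
    jcB w e H ρ = ∑ k ∈ Finset.range (m + 1), jkB w e H k * ρ ^ k := by
  classical
  have h1 : ∀ ξ η : Fin m → Bool, ∏ i, (1 + ρ * (e (ξ i) * e (η i))) =
      ∑ S : Finset (Fin m), ρ ^ S.card * (chB e S ξ * chB e S η) := by
    intro ξ η
    rw [Finset.prod_one_add, Finset.powerset_univ]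
    apply Finset.sum_congr rfl
    intro S _
    rw [Finset.prod_mul_distrib, Finset.prod_const, Finset.prod_mul_distrib]
    rfl
  have h2 : jcB w e H ρ = ∑ S : Finset (Fin m), dgB w e H S * ρ ^ S.card := by
    unfold jcB dgB
    simp only [h1, Finset.mul_sum, Finset.sum_mul]
    rw [Finset.sum_comm (γ := Finset (Fin m))]
    apply Finset.sum_congr rfl
    intro ξ _
    rw [Finset.sum_comm]
    apply Finset.sum_congr rfl
    intro S _
    apply Finset.sum_congr rfl
    intro η _
    ring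
  rw [h2]
  rw [← Finset.powerset_univ, Finset.sum_powerset]
  rw [Finset.card_univ, Fintype.card_fin]
  apply Finset.sum_congr rfl
  intro k _
  unfold jkB
  rw [Finset.sum_mul]
  apply Finset.sum_congr rfl
  intro S hS
  rw [(Finset.mem_powersetCard.mp hS).2]

theorem jcB_abs (h : Bit w e) (H : (Fin m → Bool) → (Fin m → Bool) → ℝ)
    (hH : ∀ ξ η, |H ξ η| ≤ 1) {ρ : ℝ} (hρ : 0 ≤ ρ) (hρ1 : ρ ≤ 1) : |jcB w e H ρ| ≤ 1 := by
  have hnn : ∀ ξ η : Fin m → Bool, 0 ≤ ∏ i, (1 + ρ * (e (ξ i) * e (η i))) := by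
    intro ξ η
    apply Finset.prod_nonneg
    intro i _
    exact h.pos ρ hρ hρ1 _ _
  unfold jcB
  calc |∑ ξ, ∑ η, wB w ξ * wB w η * H ξ η * ∏ i, (1 + ρ * (e (ξ i) * e (η i)))|
      ≤ ∑ ξ : Fin m → Bool, ∑ η : Fin m → Bool, wB w ξ * (wB w η *
          ∏ i, (1 + ρ * (e (ξ i) * e (η i)))) := by
        apply (Finset.abs_sum_le_sum_abs _ _).trans
        apply Finset.sum_le_sum
        intro ξ _
        apply (Finset.abs_sum_le_sum_abs _ _).trans
        apply Finset.sum_le_sum
        intro η _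
        rw [abs_mul, abs_mul, abs_of_nonneg (hnn ξ η), abs_of_nonneg (mul_nonneg (wB_nonneg h ξ)
          (wB_nonneg h η))]
        have h1 : wB w ξ * wB w η * |H ξ η| ≤ wB w ξ * wB w η :=
          mul_le_of_le_one_right (mul_nonneg (wB_nonneg h ξ) (wB_nonneg h η)) (hH ξ η)
        calc _ ≤ wB w ξ * wB w η * ∏ i, (1 + ρ * (e (ξ i) * e (η i))) :=
              mul_le_mul_of_nonneg_right h1 (hnn ξ η)
          _ = _ := by ring
    _ = ∑ ξ : Fin m → Bool, wB w ξ := by
        apply Finset.sum_congr rfl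
        intro ξ _
        rw [← Finset.mul_sum]
        have h0 := sum_cube_prod (fun (i : Fin m) (b : Bool) => w b * (1 + ρ * (e (ξ i) * e b)))
        have h1 : ∑ η : Fin m → Bool, wB w η * ∏ i, (1 + ρ * (e (ξ i) * e (η i))) =
            ∑ η : Fin m → Bool, ∏ i, (w (η i) * (1 + ρ * (e (ξ i) * e (η i)))) := by
          apply Finset.sum_congr rfl
          intro η _
          unfold wB
          rw [Finset.prod_mul_distrib]
        rw [h1, h0]
        have h2 : ∀ i ∈ (Finset.univ : Finset (Fin m)), (w true * (1 + ρ * (e (ξ i) * e true)) +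
            w false * (1 + ρ * (e (ξ i) * e false))) = (1 : ℝ) := by
          intro i _
          have h3 := h.mean
          have h4 := h.sum
          linear_combination h4 + ρ * e (ξ i) * h3
        rw [Finset.prod_congr rfl h2, Finset.prod_const_one, mul_one]
    _ = 1 := wB_sum h

/-- the first diagonal chaos of a bounded matrix of rank at most `4 ^ d` on the biased cube -/
theorem chaosB_one (h : Bit w e) (H : (Fin m → Bool) → (Fin m → Bool) → ℝ)
    (hH : ∀ ξ η, |H ξ η| ≤ 1) (d : ℕ) (hd : 1 ≤ d) (hR : (Matrix.of H).rank ≤ 4 ^ d) :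
    |∑ i, ∑ ξ, ∑ η, wB w ξ * wB w η * H ξ η * (e (ξ i) * e (η i))| ≤ 8 * (d : ℝ) ^ 2 := by
  classical
  rcases Nat.eq_zero_or_pos m with hm | hm
  · subst hm
    simp only [Finset.univ_eq_empty, Finset.sum_empty, abs_zero]
    positivity
  have hJ1 : ∑ i, ∑ ξ, ∑ η, wB w ξ * wB w η * H ξ η * (e (ξ i) * e (η i)) = jkB w e H 1 := by
    unfold jkB
    rw [Finset.powersetCard_one, Finset.sum_map]
    apply Finset.sum_congr rfl
    intro i _
    unfold dgB chB
    simp
  rw [hJ1]
  have hmass : ∑ k ∈ Finset.range (m + 1), |jkB w e H k| ≤ 2 ^ d * 1 := by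
    have h1 := sum_abs_dgB h H hH (4 ^ d) hR
    have h2 : Real.sqrt ((4 ^ d : ℕ) : ℝ) = 2 ^ d := by
      push_cast
      rw [show (4 : ℝ) ^ d = (2 ^ d) ^ 2 by rw [← pow_mul, mul_comm, pow_mul]; norm_num]
      rw [Real.sqrt_sq (by positivity)]
    rw [h2] at h1
    calc ∑ k ∈ Finset.range (m + 1), |jkB w e H k|
        ≤ ∑ k ∈ Finset.range (m + 1),
          ∑ S ∈ (Finset.univ : Finset (Fin m)).powersetCard k, |dgB w e H S| := by
          apply Finset.sum_le_sum
          intro k _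
          exact Finset.abs_sum_le_sum_abs _ _
      _ = ∑ S, |dgB w e H S| := by
          rw [← Finset.powerset_univ, Finset.sum_powerset, Finset.card_univ, Fintype.card_fin]
      _ ≤ _ := h1
      _ = _ := (mul_one _).symm
  have h3 := coef_one (j := jkB w e H) (m := m) (d := d) one_pos hmass (fun x hx hx1 => by
    rw [← jcB_eq]
    exact jcB_abs h H hH hx (by linarith)) hd hm
  linarith

end Biased

end Pool.Agent.LR2
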