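import Pool.Agent.Lib_helper59.LR2.Cell

/-!
# Sequential revealing against a bounded matrix of small rank
-/

set_option autoImplicit false
set_option linter.unusedSectionVars false

open Finset

namespace Pool.Agent.LR2

section Pair

variable {X Y : Type} [Fintype X] [Fintype Y]

theorem bil {I J : Type} [Fintype I] [Fintype J] (A : I → X → ℝ) (B : J → Y → ℝ)
    (M : X → Y → ℝ) (s : I → ℝ) (t : J → ℝ) :
    ∑ i, ∑ j, (∑ x, ∑ y, A i x * B j y * M x y) * (s i * t j) =
      ∑ x, ∑ y, (∑ i, s i * A i x) * (∑ j, t j * B j y) * M x y := by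
  have h1 : ∀ x y, (∑ i, s i * A i x) * (∑ j, t j * B j y) * M x y =
      ∑ z : I × J, (A z.1 x * B z.2 y * M x y) * (s z.1 * t z.2) := by
    intro x y
    rw [Finset.sum_mul_sum, Finset.sum_mul, Fintype.sum_prod_type]
    apply Finset.sum_congr rfl
    intro i _
    rw [Finset.sum_mul]
    apply Finset.sum_congr rfl
    intro j _
    ring
  have h2 : ∀ i j, (∑ x, ∑ y, A i x * B j y * M x y) * (s i * t j) =
      ∑ z : X × Y, (A i z.1 * B j z.2 * M z.1 z.2) * (s i * t j) := by
    intro i j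
    rw [Fintype.sum_prod_type, Finset.sum_mul]
    apply Finset.sum_congr rfl
    intro x _
    rw [Finset.sum_mul]
  simp only [h1, h2]
  rw [← Fintype.sum_prod_type' (f := fun i j => ∑ z : X × Y,
    (A i z.1 * B j z.2 * M z.1 z.2) * (s i * t j)),
    ← Fintype.sum_prod_type' (f := fun x y => ∑ z : I × J,
    (A z.1 x * B z.2 y * M x y) * (s z.1 * t z.2)), Finset.sum_comm]

theorem pair_abs {p : X → ℝ} {q : Y → ℝ} (hp : IsPr p) (hq : IsPr q) {M : X → Y → ℝ} {B : ℝ}
    (hM : ∀ x y, |M x y| ≤ B) : |∑ x, ∑ y, p x * q y * M x y| ≤ B := by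
  calc |∑ x, ∑ y, p x * q y * M x y| ≤ ∑ x, |∑ y, p x * q y * M x y| :=
        Finset.abs_sum_le_sum_abs _ _
    _ ≤ ∑ x, ∑ y, |p x * q y * M x y| :=
        Finset.sum_le_sum fun x _ => Finset.abs_sum_le_sum_abs _ _
    _ ≤ ∑ x, ∑ y, p x * q y * B := by
        apply Finset.sum_le_sum
        intro x _
        apply Finset.sum_le_sum
        intro y _
        rw [abs_mul, abs_of_nonneg (mul_nonneg (hp.nonneg x) (hq.nonneg y))]
        exact mul_le_mul_of_nonneg_left (hM x y) (mul_nonneg (hp.nonneg x) (hq.nonneg y))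
    _ = B := by
        have h1 : ∀ x, ∑ y, p x * q y * B = p x * B := by
          intro x
          rw [← Finset.sum_mul, ← Finset.mul_sum, hq.sum, mul_one]
        simp only [h1]
        rw [← Finset.sum_mul, hp.sum, one_mul]

theorem rank_pull {I J : Type} [Fintype I] [Fintype J] (A : I → X → ℝ) (B : J → Y → ℝ)
    (M : X → Y → ℝ) :
    (Matrix.of fun i j => ∑ x, ∑ y, A i x * B j y * M x y).rank ≤ (Matrix.of M).rank := by
  have h1 : (Matrix.of fun i j => ∑ x, ∑ y, A i x * B j y * M x y) =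
      Matrix.of A * Matrix.of M * (Matrix.of B).transpose := by
    ext i j
    rw [Matrix.mul_apply]
    simp only [Matrix.of_apply, Matrix.mul_apply, Matrix.transpose_apply, Finset.sum_mul]
    rw [Finset.sum_comm]
    apply Finset.sum_congr rfl
    intro y _
    apply Finset.sum_congr rfl
    intro x _
    ring
  rw [h1]
  exact (Matrix.rank_mul_le_left _ _).trans (Matrix.rank_mul_le_right _ _)

/-- `W` centred in the cell -/
noncomputable def ctr (p : X → ℝ) (q : Y → ℝ) (W : X → Y → ℝ) (x : X) (y : Y) : ℝ :=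
  W x y - ∑ x', p x' * W x' y - ∑ y', q y' * W x y' + ∑ x', ∑ y', p x' * q y' * W x' y'

end Pair

section Fixed

variable {X Y : Type} [Fintype X] [Fintype Y]

theorem ext_fin {K : ℕ} (ξ : Fin K → Bool) (i : Fin K) : ext ξ i = ξ i := by
  unfold ext
  rw [dif_pos i.2]

theorem reveal_fixed {μ : X → ℝ} {ν : Y → ℝ} (hμ : IsPr μ) (hν : IsPr ν) {M : X → Y → ℝ}
    (hM : ∀ x y, |M x y| ≤ 1) {d : ℕ} (hd : 1 ≤ d) (hR : (Matrix.of M).rank ≤ 4 ^ d)
    {U : ℕ → X → ℝ} (hU : ∀ k x, |U k x| ≤ 1) {V : ℕ → Y → ℝ} (hV : ∀ k y, |V k y| ≤ 1) (K : ℕ) :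
    |∑ i ∈ range K, av hf i (fun ξ => av hf i (fun η => ∑ x, ∑ y,
      (cell μ U ξ i x * phi (cell μ U ξ i) (U i) x) *
      (cell ν V η i y * phi (cell ν V η i) (V i) y) * M x y))| ≤ 8 * (d : ℝ) ^ 2 := by
  set H : (Fin K → Bool) → (Fin K → Bool) → ℝ := fun ξ η =>
    ∑ x, ∑ y, cell μ U (ext ξ) K x * cell ν V (ext η) K y * M x y with hH
  have h1 : ∀ ξ η, |H ξ η| ≤ 1 := fun ξ η =>
    pair_abs (cell_pr hμ hU _ _) (cell_pr hν hV _ _) hM
  have h2 : (Matrix.of H).rank ≤ 4 ^ d :=
    (rank_pull (fun ξ : Fin K → Bool => cell μ U (ext ξ) K)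
      (fun η : Fin K → Bool => cell ν V (ext η) K) M).trans hR
  have h3 := chaos_one H h1 d hd h2
  have h4 : ∀ i : Fin K, ∑ ξ, ∑ η, H ξ η * (sg (ξ i) * sg (η i)) = 4 ^ K *
      av hf i (fun ξ => av hf i (fun η => ∑ x, ∑ y,
      (cell μ U ξ i x * phi (cell μ U ξ i) (U i) x) *
      (cell ν V η i y * phi (cell ν V η i) (V i) y) * M x y)) := by
    intro i
    rw [bil (fun ξ : Fin K → Bool => cell μ U (ext ξ) K)
      (fun η : Fin K → Bool => cell ν V (ext η) K) M (fun ξ => sg (ξ i)) (fun η => sg (η i))]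
    have h5 : ∀ x, ∑ ξ : Fin K → Bool, sg (ξ i) * cell μ U (ext ξ) K x =
        2 ^ K * av hf i (fun ξ => cell μ U ξ i x * phi (cell μ U ξ i) (U i) x) := by
      intro x
      rw [← av_sg_cell μ U i.2 x, av_hf, ← mul_assoc, ← mul_pow]
      norm_num
      apply Finset.sum_congr rfl
      intro ξ _
      rw [ext_fin]
    have h6 : ∀ y, ∑ η : Fin K → Bool, sg (η i) * cell ν V (ext η) K y =
        2 ^ K * av hf i (fun η => cell ν V η i y * phi (cell ν V η i) (V i) y) := by
      intro y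
      rw [← av_sg_cell ν V i.2 y, av_hf, ← mul_assoc, ← mul_pow]
      norm_num
      apply Finset.sum_congr rfl
      intro ξ _
      rw [ext_fin]
    simp only [h5, h6]
    have h7 : av hf i (fun ξ => av hf i (fun η => ∑ x, ∑ y,
        (cell μ U ξ i x * phi (cell μ U ξ i) (U i) x) *
        (cell ν V η i y * phi (cell ν V η i) (V i) y) * M x y)) =
        ∑ x, ∑ y, av hf i (fun ξ => cell μ U ξ i x * phi (cell μ U ξ i) (U i) x) *
          av hf i (fun η => cell ν V η i y * phi (cell ν V η i) (V i) y) * M x y := by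
      have h8 : ∀ ξ : ℕ → Bool, av hf i (fun η => ∑ x, ∑ y,
          (cell μ U ξ i x * phi (cell μ U ξ i) (U i) x) *
          (cell ν V η i y * phi (cell ν V η i) (V i) y) * M x y) =
          ∑ x, ∑ y, (av hf i (fun η => cell ν V η i y * phi (cell ν V η i) (V i) y) * M x y) *
          (cell μ U ξ i x * phi (cell μ U ξ i) (U i) x) := by
        intro ξ
        rw [av_sum]
        apply Finset.sum_congr rfl
        intro x _
        rw [av_sum]
        apply Finset.sum_congr rfl
        intro y _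
        rw [show (fun η : ℕ → Bool => (cell μ U ξ i x * phi (cell μ U ξ i) (U i) x) *
          (cell ν V η i y * phi (cell ν V η i) (V i) y) * M x y) = (fun η =>
          ((cell μ U ξ i x * phi (cell μ U ξ i) (U i) x) * M x y) *
          (cell ν V η i y * phi (cell ν V η i) (V i) y)) from funext fun η => by ring, av_smul]
        ring
      simp only [h8]
      rw [av_sum]
      apply Finset.sum_congr rfl
      intro x _
      rw [av_sum]
      apply Finset.sum_congr rfl
      intro y _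
      rw [av_smul]
      ring
    rw [h7, Finset.mul_sum]
    apply Finset.sum_congr rfl
    intro x _
    rw [Finset.mul_sum]
    apply Finset.sum_congr rfl
    intro y _
    have h9 : (4 : ℝ) ^ K = 2 ^ K * 2 ^ K := by
      rw [← mul_pow]
      norm_num
    rw [h9]
    ring
  simp only [h4] at h3
  rw [← Finset.mul_sum, abs_mul, abs_of_pos (by positivity : (0 : ℝ) < 4 ^ K), mul_comm] at h3
  have h10 := le_of_mul_le_mul_right h3 (by positivity : (0 : ℝ) < 4 ^ K)
  rw [Finset.sum_range]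
  exact h10

end Fixed

section Avg

variable {X Y Ω : Type} [Fintype X] [Fintype Y] [Fintype Ω] [Inhabited Ω]

/-- the kernel of a public family of product functions -/
noncomputable def kW (w : Ω → ℝ) (u : Ω → X → ℝ) (v : Ω → Y → ℝ) (x : X) (y : Y) : ℝ :=
  ∑ o, w o * (u o x * v o y)

theorem ctr_avg (w : Ω → ℝ) (u : Ω → X → ℝ) (v : Ω → Y → ℝ) (p : X → ℝ) (q : Y → ℝ) (x : X)
    (y : Y) : ∑ o, w o * (phi p (u o) x * phi q (v o) y) = (1 / 4) * ctr p q (kW w u v) x y := by
  have h1 : ∑ x', p x' * kW w u v x' y = ∑ o, w o * (mean p (u o) * v o y) := by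
    unfold kW mean
    simp only [Finset.mul_sum, Finset.sum_mul]
    rw [Finset.sum_comm]
    apply Finset.sum_congr rfl
    intro o _
    apply Finset.sum_congr rfl
    intro x' _
    ring
  have h2 : ∑ y', q y' * kW w u v x y' = ∑ o, w o * (u o x * mean q (v o)) := by
    unfold kW mean
    simp only [Finset.mul_sum]
    rw [Finset.sum_comm]
    apply Finset.sum_congr rfl
    intro o _
    apply Finset.sum_congr rfl
    intro x' _
    ring
  have h3 : ∑ x', ∑ y', p x' * q y' * kW w u v x' y' =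
      ∑ o, w o * (mean p (u o) * mean q (v o)) := by
    have h4 : ∀ x', ∑ y', p x' * q y' * kW w u v x' y' =
        ∑ o, w o * ((p x' * u o x') * mean q (v o)) := by
      intro x'
      unfold kW mean
      simp only [Finset.mul_sum]
      rw [Finset.sum_comm]
      apply Finset.sum_congr rfl
      intro o _
      apply Finset.sum_congr rfl
      intro y' _
      ring
    simp only [h4]
    rw [Finset.sum_comm]
    apply Finset.sum_congr rfl
    intro o _
    rw [← Finset.mul_sum, ← Finset.sum_mul]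
    rfl
  unfold ctr
  rw [h1, h2, h3]
  unfold kW
  rw [← Finset.sum_sub_distrib, ← Finset.sum_sub_distrib, ← Finset.sum_add_distrib,
    Finset.mul_sum]
  apply Finset.sum_congr rfl
  intro o _
  unfold phi
  ring

/-- the correlation of round `i` -/
noncomputable def rnd (μ : X → ℝ) (ν : Y → ℝ) (M : X → Y → ℝ) (u : Ω → X → ℝ) (v : Ω → Y → ℝ)
    (i : ℕ) (om : ℕ → Ω) : ℝ :=
  av hf i (fun ξ => av hf i (fun η => ∑ x, ∑ y,
      (cell μ (fun k => u (om k)) ξ i x * phi (cell μ (fun k => u (om k)) ξ i) (u (om i)) x) *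
      (cell ν (fun k => v (om k)) η i y * phi (cell ν (fun k => v (om k)) η i) (v (om i)) y) *
      M x y))

theorem cell_upd_om (μ : X → ℝ) (u : Ω → X → ℝ) (om : ℕ → Ω) (ξ : ℕ → Bool) {i j : ℕ}
    (h : i ≤ j) (o : Ω) :
    cell μ (fun k => u (Function.update om j o k)) ξ i = cell μ (fun k => u (om k)) ξ i := by
  apply cell_congr
  intro k hk
  rw [Function.update_of_ne (by omega)]

theorem rnd_upd (μ : X → ℝ) (ν : Y → ℝ) (M : X → Y → ℝ) (u : Ω → X → ℝ) (v : Ω → Y → ℝ)
    {i j : ℕ} (h : i + 1 ≤ j) (om : ℕ → Ω) (o : Ω) :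
    rnd μ ν M u v i (Function.update om j o) = rnd μ ν M u v i om := by
  unfold rnd
  simp only [cell_upd_om μ u om _ (show i ≤ j by omega), cell_upd_om ν v om _ (show i ≤ j by omega),
    Function.update_of_ne (show i ≠ j by omega)]

/-- the correlation in a cell -/
noncomputable def cor (M W : X → Y → ℝ) (p : X → ℝ) (q : Y → ℝ) : ℝ :=
  ∑ x, ∑ y, p x * q y * M x y * ctr p q W x y

theorem rnd_avg {w : Ω → ℝ} (hw1 : ∑ o, w o = 1) (μ : X → ℝ) (ν : Y → ℝ) (M : X → Y → ℝ)
    (u : Ω → X → ℝ) (v : Ω → Y → ℝ) {i K : ℕ} (hi : i < K) :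
    av w K (rnd μ ν M u v i) = (1 / 4) * av w i (fun om => av hf i (fun ξ => av hf i (fun η =>
      cor M (kW w u v) (cell μ (fun k => u (om k)) ξ i) (cell ν (fun k => v (om k)) η i)))) := by
  rw [av_prefix hw1 (show i + 1 ≤ K by omega) (rnd μ ν M u v i) (fun ζ j z hj =>
    rnd_upd μ ν M u v hj ζ z), av_succ]
  simp only [← av_smul]
  rw [← av_sum]
  congr 1
  funext om
  have h1 : ∀ o, w o * rnd μ ν M u v i (Function.update om i o) =
      av hf i (fun ξ => av hf i (fun η => w o * ∑ x, ∑ y,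
      (cell μ (fun k => u (om k)) ξ i x * phi (cell μ (fun k => u (om k)) ξ i) (u o) x) *
      (cell ν (fun k => v (om k)) η i y * phi (cell ν (fun k => v (om k)) η i) (v o) y) *
      M x y)) := by
    intro o
    unfold rnd
    simp only [av_smul, cell_upd_om μ u om _ le_rfl, cell_upd_om ν v om _ le_rfl,
      Function.update_self]
  simp only [h1]
  rw [← av_sum]
  congr 1
  funext ξ
  rw [← av_sum]
  congr 1
  funext η
  unfold cor
  set p := cell μ (fun k => u (om k)) ξ i
  set q := cell ν (fun k => v (om k)) η i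
  have h2 : ∀ o, w o * ∑ x, ∑ y, (p x * phi p (u o) x) * (q y * phi q (v o) y) * M x y =
      ∑ x, ∑ y, (p x * q y * M x y) * (w o * (phi p (u o) x * phi q (v o) y)) := by
    intro o
    rw [Finset.mul_sum]
    apply Finset.sum_congr rfl
    intro x _
    rw [Finset.mul_sum]
    apply Finset.sum_congr rfl
    intro y _
    ring
  simp only [h2]
  rw [Finset.sum_comm, Finset.mul_sum]
  apply Finset.sum_congr rfl
  intro x _
  rw [Finset.sum_comm, Finset.mul_sum]
  apply Finset.sum_congr rfl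
  intro y _
  rw [← Finset.mul_sum, ctr_avg]
  ring

theorem reveal_sum {μ : X → ℝ} {ν : Y → ℝ} (hμ : IsPr μ) (hν : IsPr ν) {M : X → Y → ℝ}
    (hM : ∀ x y, |M x y| ≤ 1) {d : ℕ} (hd : 1 ≤ d) (hR : (Matrix.of M).rank ≤ 4 ^ d)
    {w : Ω → ℝ} (hw : ∀ o, 0 ≤ w o) (hw1 : ∑ o, w o = 1)
    {u : Ω → X → ℝ} (hu : ∀ k x, |u k x| ≤ 1) {v : Ω → Y → ℝ} (hv : ∀ k y, |v k y| ≤ 1) (K : ℕ) :
    |∑ i ∈ range K, av w i (fun om => av hf i (fun ξ => av hf i (fun η =>
      cor M (kW w u v) (cell μ (fun k => u (om k)) ξ i) (cell ν (fun k => v (om k)) η i))))| ≤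
      32 * (d : ℝ) ^ 2 := by
  have h1 : ∑ i ∈ range K, av w i (fun om => av hf i (fun ξ => av hf i (fun η =>
      cor M (kW w u v) (cell μ (fun k => u (om k)) ξ i) (cell ν (fun k => v (om k)) η i)))) =
      4 * av w K (fun om => ∑ i ∈ range K, rnd μ ν M u v i om) := by
    rw [av_sum, Finset.mul_sum]
    apply Finset.sum_congr rfl
    intro i hi
    rw [rnd_avg hw1 μ ν M u v (Finset.mem_range.mp hi)]
    ring
  rw [h1, abs_mul, abs_of_pos (by norm_num : (0 : ℝ) < 4)]
  have h2 : |av w K (fun om => ∑ i ∈ range K, rnd μ ν M u v i om)| ≤ 8 * (d : ℝ) ^ 2 := by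
    apply av_abs hw hw1
    intro om
    exact reveal_fixed hμ hν hM hd hR (fun k x => hu (om k) x) (fun k y => hv (om k) y) K
  linarith

end Avg

end Pool.Agent.LR2
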