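import Pool.Agent.Lib_helper59.LR2.Freeze
import Pool.Agent.Lib_helper59.LR2.PB1
import Pool.Agent.Lib_helper59.LR2.Reveal

/-!
# Biased revealing: cells, costs, and the chaos bound for fixed labels
-/

set_option autoImplicit false
set_option linter.unusedSectionVars false

open Finset

namespace Pool.Agent.LR2

section BitDef

/-- the law of the biased bit -/
noncomputable def bp (π : ℝ) : Bool → ℝ := fun b => if b then π else 1 - π

/-- the normalised character of the biased bit -/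
noncomputable def es (π : ℝ) : Bool → ℝ := fun b =>
  if b then Real.sqrt (π * (1 - π)) / π else -(Real.sqrt (π * (1 - π)) / (1 - π))

theorem bp_true (π : ℝ) : bp π true = π := by simp [bp]

theorem bp_false (π : ℝ) : bp π false = 1 - π := by simp [bp]

theorem es_true (π : ℝ) : es π true = Real.sqrt (π * (1 - π)) / π := by simp [es]

theorem es_false (π : ℝ) : es π false = -(Real.sqrt (π * (1 - π)) / (1 - π)) := by simp [es]

theorem bp_sum (π : ℝ) : ∑ b, bp π b = 1 := by
  rw [Fintype.sum_bool, bp_true, bp_false]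
  ring

theorem bp_nonneg {π : ℝ} (h0 : 0 < π) (h1 : π ≤ 1 / 2) (b : Bool) : 0 ≤ bp π b := by
  cases b
  · rw [bp_false]; linarith
  · rw [bp_true]; exact h0.le

theorem bit_bp {π : ℝ} (h0 : 0 < π) (h1 : π ≤ 1 / 2) : Bit (bp π) (es π) := by
  have h2 : (0 : ℝ) < 1 - π := by linarith
  have hs : Real.sqrt (π * (1 - π)) * Real.sqrt (π * (1 - π)) = π * (1 - π) :=
    Real.mul_self_sqrt (by positivity)
  set s := Real.sqrt (π * (1 - π)) with hsd
  have et : es π true = s / π := es_true π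
  have ef : es π false = -(s / (1 - π)) := es_false π
  refine ⟨bp_nonneg h0 h1, ?_, ?_, ?_, ?_⟩
  · rw [bp_true, bp_false]
    ring
  · rw [bp_true, bp_false, et, ef]
    field_simp
    ring
  · rw [bp_true, bp_false, et, ef]
    have e1 : π * (s / π) ^ 2 + (1 - π) * (-(s / (1 - π))) ^ 2 = (s * s) / (π * (1 - π)) := by
      field_simp
      ring
    rw [e1, hs]
    exact div_self (by positivity)
  · intro ρ hρ hρ1 a b
    have hft : es π false * es π true = -1 := by
      rw [et, ef]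
      have e1 : -(s / (1 - π)) * (s / π) = -((s * s) / (π * (1 - π))) := by
        field_simp
      rw [e1, hs, div_self (by positivity)]
    have h3 : -1 ≤ es π a * es π b := by
      cases a <;> cases b
      · nlinarith [mul_self_nonneg (es π false)]
      · rw [hft]
      · rw [mul_comm, hft]
      · nlinarith [mul_self_nonneg (es π true)]
    nlinarith

end BitDef

section Step

variable {X Y : Type} [Fintype X] [Fintype Y]

/-- one tilt, when the mean is not too small -/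
noncomputable def tz (θ : ℝ) (p f : X → ℝ) (x : X) : ℝ :=
  if θ ≤ mean p f then p x * f x / mean p f else p x

/-- one biased step -/
noncomputable def stB (θ π : ℝ) (p f : X → ℝ) (b : Bool) (x : X) : ℝ :=
  if b then tz θ p f x else (p x - π * tz θ p f x) / (1 - π)

theorem tz_pos {θ : ℝ} {p f : X → ℝ} (h : θ ≤ mean p f) (x : X) :
    tz θ p f x = p x * f x / mean p f := by
  unfold tz
  rw [if_pos h]

theorem tz_neg {θ : ℝ} {p f : X → ℝ} (h : ¬ θ ≤ mean p f) (x : X) :
    tz θ p f x = p x := by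
  unfold tz
  rw [if_neg h]

theorem tz_pr {θ : ℝ} (hθ : 0 < θ) {p f : X → ℝ} (hp : IsPr p) (hf : ∀ x, 0 ≤ f x) :
    IsPr (tz θ p f) := by
  by_cases h : θ ≤ mean p f
  · have hm : 0 < mean p f := lt_of_lt_of_le hθ h
    constructor
    · intro x
      rw [tz_pos h]
      exact div_nonneg (mul_nonneg (hp.nonneg x) (hf x)) hm.le
    · simp only [tz_pos h]
      rw [← Finset.sum_div]
      exact div_self hm.ne'
  · have h1 : tz θ p f = p := funext fun x => tz_neg h x
    rw [h1]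
    exact hp

theorem tz_ac {θ : ℝ} {p f μ : X → ℝ} (hac : AC p μ) : AC (tz θ p f) μ := by
  intro x hx
  by_cases h : θ ≤ mean p f
  · rw [tz_pos h, hac x hx, zero_mul, zero_div]
  · rw [tz_neg h, hac x hx]

theorem tz_le {θ F : ℝ} (hθ : 0 < θ) (hθF : θ ≤ F) {p f : X → ℝ} (hp : IsPr p)
    (hf : ∀ x, f x ≤ F) (x : X) : tz θ p f x ≤ F / θ * p x := by
  by_cases h : θ ≤ mean p f
  · have hm : 0 < mean p f := lt_of_lt_of_le hθ h
    rw [tz_pos h, div_mul_eq_mul_div, div_le_div_iff₀ hm hθ]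
    have hF : 0 ≤ F := by linarith
    calc p x * f x * θ ≤ p x * F * θ :=
          mul_le_mul_of_nonneg_right (mul_le_mul_of_nonneg_left (hf x) (hp.nonneg x)) hθ.le
      _ ≤ p x * F * mean p f := mul_le_mul_of_nonneg_left h (mul_nonneg (hp.nonneg x) hF)
      _ = _ := by ring
  · rw [tz_neg h]
    have h1 : 1 ≤ F / θ := (one_le_div hθ).mpr hθF
    exact le_mul_of_one_le_left (hp.nonneg x) h1

theorem stB_true (θ π : ℝ) (p f : X → ℝ) (x : X) : stB θ π p f true x = tz θ p f x := by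
  simp [stB]

theorem stB_false (θ π : ℝ) (p f : X → ℝ) (x : X) :
    stB θ π p f false x = (p x - π * tz θ p f x) / (1 - π) := by
  simp [stB]

theorem stB_pr {θ π F : ℝ} (hθ : 0 < θ) (hθF : θ ≤ F) (h0 : 0 < π) (h1 : π ≤ 1 / 2)
    (hπ : π * (F / θ) ≤ 1) {p f : X → ℝ} (hp : IsPr p) (hf0 : ∀ x, 0 ≤ f x) (hf : ∀ x, f x ≤ F)
    (b : Bool) : IsPr (stB θ π p f b) := by
  have h2 : (0 : ℝ) < 1 - π := by linarith
  cases b
  · constructor
    · intro x
      rw [stB_false]
      apply div_nonneg _ h2.le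
      have h3 := mul_le_mul_of_nonneg_left (tz_le hθ hθF hp hf x) h0.le
      have h4 := mul_le_mul_of_nonneg_right hπ (hp.nonneg x)
      linarith
    · simp only [stB_false]
      rw [← Finset.sum_div, Finset.sum_sub_distrib, ← Finset.mul_sum, hp.sum,
        (tz_pr hθ hp hf0).sum, mul_one]
      exact div_self h2.ne'
  · have h3 : stB θ π p f true = tz θ p f := funext fun x => stB_true _ _ _ _ x
    rw [h3]
    exact tz_pr hθ hp hf0

theorem stB_ac {θ π : ℝ} {p f μ : X → ℝ} (hac : AC p μ) (b : Bool) : AC (stB θ π p f b) μ := by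
  intro x hx
  cases b
  · rw [stB_false, hac x hx, tz_ac hac x hx, mul_zero, sub_zero, zero_div]
  · rw [stB_true]
    exact tz_ac hac x hx

theorem stB_avg {π : ℝ} (h1 : π ≤ 1 / 2) (θ : ℝ) (p f : X → ℝ) (x : X) :
    ∑ b, bp π b * stB θ π p f b x = p x := by
  have h2 : (1 - π) ≠ 0 := by intro h; linarith
  rw [Fintype.sum_bool, bp_true, bp_false, stB_true, stB_false]
  field_simp
  ring

theorem stB_es {π : ℝ} (h0 : 0 < π) (h1 : π ≤ 1 / 2) (θ : ℝ) (p f : X → ℝ) (x : X) :
    ∑ b, bp π b * (es π b * stB θ π p f b x) =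
      Real.sqrt (π * (1 - π)) / (1 - π) * (tz θ p f x - p x) := by
  have h2 : (1 - π) ≠ 0 := by intro h; linarith
  rw [Fintype.sum_bool, bp_true, bp_false, stB_true, stB_false, es_true, es_false]
  field_simp
  ring

/-- the cost of a bit -/
noncomputable def cst (θ F π : ℝ) (b : Bool) : ℝ := if b then Real.log (F / θ) else 2 * π

theorem stB_le {θ π F : ℝ} (hθ : 0 < θ) (hθF : θ ≤ F) (h0 : 0 < π) (h1 : π ≤ 1 / 2)
    {p f : X → ℝ} (hp : IsPr p) (hf0 : ∀ x, 0 ≤ f x) (hf : ∀ x, f x ≤ F)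
    (b : Bool) (x : X) : stB θ π p f b x ≤ Real.exp (cst θ F π b) * p x := by
  have h2 : (0 : ℝ) < 1 - π := by linarith
  cases b
  · rw [stB_false]
    have e1 : cst θ F π false = 2 * π := by simp [cst]
    rw [e1, div_le_iff₀ h2]
    have h3 : 1 ≤ Real.exp (2 * π) * (1 - π) := by
      have h4 : 1 + 2 * π ≤ Real.exp (2 * π) := by
        have := Real.add_one_le_exp (2 * π)
        linarith
      have h5 := mul_le_mul_of_nonneg_right h4 h2.le
      nlinarith
    have h4 : 0 ≤ π * tz θ p f x := mul_nonneg h0.le ((tz_pr hθ hp hf0).nonneg x)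
    have h5 := mul_le_mul_of_nonneg_right h3 (hp.nonneg x)
    nlinarith
  · rw [stB_true]
    have e1 : cst θ F π true = Real.log (F / θ) := by simp [cst]
    rw [e1, Real.exp_log (div_pos (by linarith) hθ)]
    exact tz_le hθ hθF hp hf x

/-- the cells of the biased revealing -/
noncomputable def cellB (θ π : ℝ) (μ : X → ℝ) (u : ℕ → X → ℝ) (ξ : ℕ → Bool) : ℕ → X → ℝ
  | 0 => μ
  | k + 1 => stB θ π (cellB θ π μ u ξ k) (u k) (ξ k)

theorem cellB_pr {θ π F : ℝ} (hθ : 0 < θ) (hθF : θ ≤ F) (h0 : 0 < π) (h1 : π ≤ 1 / 2)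
    (hπ : π * (F / θ) ≤ 1) {μ : X → ℝ} (hμ : IsPr μ) {u : ℕ → X → ℝ} (hu0 : ∀ k x, 0 ≤ u k x)
    (hu : ∀ k x, u k x ≤ F) (ξ : ℕ → Bool) (k : ℕ) : IsPr (cellB θ π μ u ξ k) := by
  induction k with
  | zero => exact hμ
  | succ k ih => exact stB_pr hθ hθF h0 h1 hπ ih (hu0 k) (hu k) _

theorem cellB_ac {θ π : ℝ} {μ : X → ℝ} {u : ℕ → X → ℝ} (ξ : ℕ → Bool) (k : ℕ) :
    AC (cellB θ π μ u ξ k) μ := by
  induction k with
  | zero => exact fun x hx => hx
  | succ k ih => exact stB_ac ih _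

theorem cellB_upd (θ π : ℝ) (μ : X → ℝ) (u : ℕ → X → ℝ) (ξ : ℕ → Bool) (k j : ℕ) (hj : k ≤ j)
    (b : Bool) : cellB θ π μ u (Function.update ξ j b) k = cellB θ π μ u ξ k := by
  induction k with
  | zero => rfl
  | succ k ih =>
    change stB θ π (cellB θ π μ u (Function.update ξ j b) k) (u k) (Function.update ξ j b k) =
      stB θ π (cellB θ π μ u ξ k) (u k) (ξ k)
    rw [ih (by omega), Function.update_of_ne (by omega)]

theorem cellB_congr (θ π : ℝ) (μ : X → ℝ) {u u' : ℕ → X → ℝ} (ξ : ℕ → Bool) (k : ℕ)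
    (h : ∀ j < k, u j = u' j) : cellB θ π μ u ξ k = cellB θ π μ u' ξ k := by
  induction k with
  | zero => rfl
  | succ k ih =>
    change stB θ π (cellB θ π μ u ξ k) (u k) (ξ k) = stB θ π (cellB θ π μ u' ξ k) (u' k) (ξ k)
    rw [ih (fun j hj => h j (by omega)), h k (by omega)]

theorem avB_cell {π : ℝ} (h1 : π ≤ 1 / 2) (θ : ℝ) (μ : X → ℝ) (u : ℕ → X → ℝ) (k : ℕ) (x : X) :
    av (bp π) k (fun ξ => cellB θ π μ u ξ k x) = μ x := by
  induction k with
  | zero => rw [av_zero]; rfl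
  | succ k ih =>
    rw [av_succ]
    have e1 : ∀ b, (fun ξ => cellB θ π μ u (Function.update ξ k b) (k + 1) x) =
        fun ξ => stB θ π (cellB θ π μ u ξ k) (u k) b x := by
      intro b
      funext ξ
      change stB θ π (cellB θ π μ u (Function.update ξ k b) k) (u k)
        (Function.update ξ k b k) x = _
      rw [cellB_upd _ _ _ _ _ _ _ le_rfl, Function.update_self]
    simp only [e1]
    simp only [← av_smul]
    rw [← av_sum]
    simp only [stB_avg h1]
    exact ih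

theorem avB_es_cell {π : ℝ} (h0 : 0 < π) (h1 : π ≤ 1 / 2) (θ : ℝ) (μ : X → ℝ)
    (u : ℕ → X → ℝ) {i K : ℕ} (hi : i < K) (x : X) :
    av (bp π) K (fun ξ => es π (ξ i) * cellB θ π μ u ξ K x) =
      av (bp π) i (fun ξ => Real.sqrt (π * (1 - π)) / (1 - π) *
        (tz θ (cellB θ π μ u ξ i) (u i) x - cellB θ π μ u ξ i x)) := by
  induction K, hi using Nat.le_induction with
  | base =>
    rw [av_succ]
    have e1 : ∀ b, (fun ξ => es π (Function.update ξ i b i) *
        cellB θ π μ u (Function.update ξ i b) (i + 1) x) =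
        fun ξ => es π b * stB θ π (cellB θ π μ u ξ i) (u i) b x := by
      intro b
      funext ξ
      change es π (Function.update ξ i b i) *
        stB θ π (cellB θ π μ u (Function.update ξ i b) i) (u i) (Function.update ξ i b i) x = _
      rw [cellB_upd _ _ _ _ _ _ _ le_rfl, Function.update_self]
    simp only [e1]
    simp only [← av_smul]
    rw [← av_sum]
    simp only [stB_es h0 h1]
  | succ K hK ih =>
    rw [av_succ]
    have e1 : ∀ b, (fun ξ => es π (Function.update ξ K b i) *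
        cellB θ π μ u (Function.update ξ K b) (K + 1) x) =
        fun ξ => es π (ξ i) * stB θ π (cellB θ π μ u ξ K) (u K) b x := by
      intro b
      funext ξ
      change es π (Function.update ξ K b i) *
        stB θ π (cellB θ π μ u (Function.update ξ K b) K) (u K) (Function.update ξ K b K) x = _
      rw [cellB_upd _ _ _ _ _ _ _ le_rfl, Function.update_self, Function.update_of_ne (by omega)]
    simp only [e1]
    simp only [← av_smul]
    rw [← av_sum]
    have h2 : (fun ξ : ℕ → Bool => ∑ b, bp π b *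
        (es π (ξ i) * stB θ π (cellB θ π μ u ξ K) (u K) b x)) =
        fun ξ => es π (ξ i) * cellB θ π μ u ξ K x := by
      funext ξ
      rw [← stB_avg h1 θ (cellB θ π μ u ξ K) (u K) x, Finset.mul_sum]
      apply Finset.sum_congr rfl
      intro b _
      ring
    rw [h2]
    exact ih

/-- the logarithmic cost -/
noncomputable def DB (θ F π : ℝ) (ξ : ℕ → Bool) (k : ℕ) : ℝ := ∑ i ∈ range k, cst θ F π (ξ i)

theorem cellB_le {θ π F : ℝ} (hθ : 0 < θ) (hθF : θ ≤ F) (h0 : 0 < π) (h1 : π ≤ 1 / 2)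
    (hπ : π * (F / θ) ≤ 1) {μ : X → ℝ} (hμ : IsPr μ) {u : ℕ → X → ℝ} (hu0 : ∀ k x, 0 ≤ u k x)
    (hu : ∀ k x, u k x ≤ F) (ξ : ℕ → Bool) (k : ℕ) (x : X) :
    cellB θ π μ u ξ k x ≤ Real.exp (DB θ F π ξ k) * μ x := by
  induction k with
  | zero => simp [cellB, DB]
  | succ k ih =>
    have h2 := stB_le hθ hθF h0 h1 (cellB_pr hθ hθF h0 h1 hπ hμ hu0 hu ξ k) (hu0 k) (hu k) (ξ k) x
    have h3 : DB θ F π ξ (k + 1) = DB θ F π ξ k + cst θ F π (ξ k) := by
      unfold DB
      rw [Finset.sum_range_succ]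
    rw [h3, Real.exp_add]
    calc cellB θ π μ u ξ (k + 1) x ≤ Real.exp (cst θ F π (ξ k)) * cellB θ π μ u ξ k x := h2
      _ ≤ Real.exp (cst θ F π (ξ k)) * (Real.exp (DB θ F π ξ k) * μ x) :=
          mul_le_mul_of_nonneg_left ih (Real.exp_pos _).le
      _ = _ := by ring

theorem KL_le_sup {p μ : X → ℝ} (hp : IsPr p) (hμ : IsPr μ) {D : ℝ}
    (h : ∀ x, p x ≤ Real.exp D * μ x) : KL p μ ≤ D := by
  calc KL p μ ≤ ∑ x, p x * D := by
        apply Finset.sum_le_sum
        intro x _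
        rcases eq_or_lt_of_le (hp.nonneg x) with h1 | h1
        · rw [← h1, zero_mul, zero_mul]
        · have h2 : 0 < μ x := by
            rcases eq_or_lt_of_le (hμ.nonneg x) with h3 | h3
            · have := h x
              rw [← h3, mul_zero] at this
              linarith
            · exact h3
          apply mul_le_mul_of_nonneg_left _ h1.le
          rw [Real.log_le_iff_le_exp (div_pos h1 h2), div_le_iff₀ h2]
          exact h x
    _ = D := by rw [← Finset.sum_mul, hp.sum, one_mul]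

end Step

section Avs

variable {Z : Type} [Fintype Z] [Inhabited Z]

theorem av_coord {w : Z → ℝ} (hw1 : ∑ z, w z = 1) {i K : ℕ} (hi : i < K) (ψ : Z → ℝ) :
    av w K (fun ζ => ψ (ζ i)) = ∑ z, w z * ψ z := by
  rw [av_prefix hw1 (show i + 1 ≤ K by omega) (fun ζ => ψ (ζ i)) (fun ζ j z hj => by
    change ψ (Function.update ζ j z i) = ψ (ζ i)
    rw [Function.update_of_ne (by omega)]), av_succ]
  simp only [Function.update_self, av_const hw1]

/-- average over two independent sequences -/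
noncomputable def av2 (w : Z → ℝ) (K : ℕ) (Φ : (ℕ → Z) → (ℕ → Z) → ℝ) : ℝ :=
  av w K (fun ξ => av w K (fun η => Φ ξ η))

theorem av2_add (w : Z → ℝ) (K : ℕ) (Φ Ψ : (ℕ → Z) → (ℕ → Z) → ℝ) :
    av2 w K (fun ξ η => Φ ξ η + Ψ ξ η) = av2 w K Φ + av2 w K Ψ := by
  unfold av2
  simp only [av_add]

theorem av2_smul (w : Z → ℝ) (K : ℕ) (c : ℝ) (Φ : (ℕ → Z) → (ℕ → Z) → ℝ) :
    av2 w K (fun ξ η => c * Φ ξ η) = c * av2 w K Φ := by
  unfold av2
  simp only [av_smul]

theorem av2_mono {w : Z → ℝ} (hw : ∀ z, 0 ≤ w z) (K : ℕ) {Φ Ψ : (ℕ → Z) → (ℕ → Z) → ℝ}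
    (h : ∀ ξ η, Φ ξ η ≤ Ψ ξ η) : av2 w K Φ ≤ av2 w K Ψ :=
  av_mono hw K fun ξ => av_mono hw K fun η => h ξ η

theorem av2_prod (w : Z → ℝ) (K : ℕ) (φ ψ : (ℕ → Z) → ℝ) :
    av2 w K (fun ξ η => φ ξ * ψ η) = av w K φ * av w K ψ := by
  unfold av2
  simp only [av_smul]
  rw [show (fun ξ => φ ξ * av w K ψ) = fun ξ => av w K ψ * φ ξ from funext fun ξ => mul_comm _ _,
    av_smul]
  ring

theorem av2_fst {w : Z → ℝ} (hw1 : ∑ z, w z = 1) (K : ℕ) (φ : (ℕ → Z) → ℝ) :
    av2 w K (fun ξ _ => φ ξ) = av w K φ := by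
  unfold av2
  simp only [av_const hw1]

theorem av2_snd {w : Z → ℝ} (hw1 : ∑ z, w z = 1) (K : ℕ) (φ : (ℕ → Z) → ℝ) :
    av2 w K (fun _ η => φ η) = av w K φ := by
  unfold av2
  simp only [av_const hw1]

theorem av2_const {w : Z → ℝ} (hw1 : ∑ z, w z = 1) (K : ℕ) (c : ℝ) :
    av2 w K (fun _ _ => c) = c := by
  unfold av2
  simp only [av_const hw1]

variable {X Y : Type} [Fintype X] [Fintype Y]

theorem av_em_left (w : Z → ℝ) (K : ℕ) (A : (ℕ → Z) → X → ℝ) (b : Y → ℝ) (M : X → Y → ℝ) :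
    av w K (fun ξ => em (A ξ) b M) = em (fun x => av w K (fun ξ => A ξ x)) b M := by
  unfold em
  rw [av_sum]
  apply Finset.sum_congr rfl
  intro x _
  rw [av_sum]
  apply Finset.sum_congr rfl
  intro y _
  rw [show (fun ξ => A ξ x * b y * M x y) = fun ξ => (b y * M x y) * A ξ x from
    funext fun ξ => by ring, av_smul]
  ring

theorem av_em_right (w : Z → ℝ) (K : ℕ) (a : X → ℝ) (B : (ℕ → Z) → Y → ℝ) (M : X → Y → ℝ) :
    av w K (fun η => em a (B η) M) = em a (fun y => av w K (fun η => B η y)) M := by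
  unfold em
  rw [av_sum]
  apply Finset.sum_congr rfl
  intro x _
  rw [av_sum]
  apply Finset.sum_congr rfl
  intro y _
  rw [show (fun η => a x * B η y * M x y) = fun η => (a x * M x y) * B η y from
    funext fun ξ => by ring, av_smul]
  ring

theorem av2_em (w : Z → ℝ) (K : ℕ) (A : (ℕ → Z) → X → ℝ) (B : (ℕ → Z) → Y → ℝ)
    (M : X → Y → ℝ) :
    av2 w K (fun ξ η => em (A ξ) (B η) M) =
      em (fun x => av w K (fun ξ => A ξ x)) (fun y => av w K (fun η => B η y)) M := by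
  unfold av2
  simp only [av_em_right]
  rw [av_em_left]

theorem em_bismul (a : X → ℝ) (b : Y → ℝ) (c e : ℝ) (M : X → Y → ℝ) :
    em (fun x => c * a x) (fun y => e * b y) M = c * e * em a b M := by
  unfold em
  rw [Finset.mul_sum]
  apply Finset.sum_congr rfl
  intro x _
  rw [Finset.mul_sum]
  apply Finset.sum_congr rfl
  intro y _
  ring

theorem em_bisub (a b : X → ℝ) (c e : Y → ℝ) (M : X → Y → ℝ) :
    em (fun x => a x - b x) (fun y => c y - e y) M =
      em a c M - em a e M - em b c M + em b e M := by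
  unfold em
  simp only [← Finset.sum_sub_distrib, ← Finset.sum_add_distrib]
  apply Finset.sum_congr rfl
  intro x _
  apply Finset.sum_congr rfl
  intro y _
  ring

end Avs

section Fixed

variable {X Y : Type} [Fintype X] [Fintype Y]

theorem reveal_fixedB {θ π F : ℝ} (hθ : 0 < θ) (hθF : θ ≤ F) (h0 : 0 < π) (h1 : π ≤ 1 / 2)
    (hπ : π * (F / θ) ≤ 1) {μ : X → ℝ} {ν : Y → ℝ} (hμ : IsPr μ) (hν : IsPr ν) {M : X → Y → ℝ}
    (hM : ∀ x y, |M x y| ≤ 1) {d : ℕ} (hd : 1 ≤ d) (hR : (Matrix.of M).rank ≤ 4 ^ d)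
    {U : ℕ → X → ℝ} (hU0 : ∀ k x, 0 ≤ U k x) (hU : ∀ k x, U k x ≤ F)
    {V : ℕ → Y → ℝ} (hV0 : ∀ k y, 0 ≤ V k y) (hV : ∀ k y, V k y ≤ F) (K : ℕ) :
    |∑ i ∈ range K, av2 (bp π) i (fun ξ η =>
      em (fun x => tz θ (cellB θ π μ U ξ i) (U i) x - cellB θ π μ U ξ i x)
        (fun y => tz θ (cellB θ π ν V η i) (V i) y - cellB θ π ν V η i y) M)| ≤
      8 * (d : ℝ) ^ 2 / π := by
  set c := Real.sqrt (π * (1 - π)) / (1 - π) with hc
  have h2 : (0 : ℝ) < 1 - π := by linarith
  have hcc : c * c = π / (1 - π) := by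
    rw [hc, div_mul_div_comm, Real.mul_self_sqrt (by positivity)]
    field_simp
  have hcp : π ≤ c * c := by
    rw [hcc, le_div_iff₀ h2]
    nlinarith
  set H : (Fin K → Bool) → (Fin K → Bool) → ℝ := fun ξ η =>
    ∑ x, ∑ y, cellB θ π μ U (ext ξ) K x * cellB θ π ν V (ext η) K y * M x y with hH
  have g1 : ∀ ξ η, |H ξ η| ≤ 1 := fun ξ η =>
    pair_abs (cellB_pr hθ hθF h0 h1 hπ hμ hU0 hU _ _) (cellB_pr hθ hθF h0 h1 hπ hν hV0 hV _ _) hM
  have g2 : (Matrix.of H).rank ≤ 4 ^ d :=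
    (rank_pull (fun ξ : Fin K → Bool => cellB θ π μ U (ext ξ) K)
      (fun η : Fin K → Bool => cellB θ π ν V (ext η) K) M).trans hR
  have g3 := chaosB_one (bit_bp h0 h1) H g1 d hd g2
  have g4 : ∀ i : Fin K, ∑ ξ, ∑ η, wB (bp π) ξ * wB (bp π) η * H ξ η *
      (es π (ξ i) * es π (η i)) = (c * c) *
      av2 (bp π) i (fun ξ η =>
      em (fun x => tz θ (cellB θ π μ U ξ i) (U i) x - cellB θ π μ U ξ i x)
        (fun y => tz θ (cellB θ π ν V η i) (V i) y - cellB θ π ν V η i y) M) := by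
    intro i
    have e0 : ∑ ξ, ∑ η, wB (bp π) ξ * wB (bp π) η * H ξ η * (es π (ξ i) * es π (η i)) =
        ∑ ξ, ∑ η, H ξ η * ((wB (bp π) ξ * es π (ξ i)) * (wB (bp π) η * es π (η i))) := by
      apply Finset.sum_congr rfl
      intro ξ _
      apply Finset.sum_congr rfl
      intro η _
      ring
    rw [e0, bil (fun ξ : Fin K → Bool => cellB θ π μ U (ext ξ) K)
      (fun η : Fin K → Bool => cellB θ π ν V (ext η) K) M (fun ξ => wB (bp π) ξ * es π (ξ i))
      (fun η => wB (bp π) η * es π (η i))]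
    have h5 : ∀ x, ∑ ξ : Fin K → Bool, wB (bp π) ξ * es π (ξ i) * cellB θ π μ U (ext ξ) K x =
        c * av (bp π) i (fun ξ => tz θ (cellB θ π μ U ξ i) (U i) x - cellB θ π μ U ξ i x) := by
      intro x
      rw [← av_smul, ← avB_es_cell h0 h1 θ μ U i.2 x]
      unfold av
      apply Finset.sum_congr rfl
      intro ξ _
      beta_reduce
      rw [ext_fin]
      unfold wB
      ring
    have h6 : ∀ y, ∑ η : Fin K → Bool, wB (bp π) η * es π (η i) * cellB θ π ν V (ext η) K y =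
        c * av (bp π) i (fun η => tz θ (cellB θ π ν V η i) (V i) y - cellB θ π ν V η i y) := by
      intro y
      rw [← av_smul, ← avB_es_cell h0 h1 θ ν V i.2 y]
      unfold av
      apply Finset.sum_congr rfl
      intro ξ _
      beta_reduce
      rw [ext_fin]
      unfold wB
      ring
    simp only [h5, h6]
    rw [av2_em, ← em_bismul]
    rfl
  simp only [g4] at g3
  rw [← Finset.mul_sum, abs_mul, abs_of_pos (lt_of_lt_of_le h0 hcp)] at g3
  rw [Finset.sum_range, le_div_iff₀ h0]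
  calc _ ≤ _ := mul_le_mul_of_nonneg_left hcp (abs_nonneg _)
    _ ≤ _ := by
      rw [mul_comm]
      exact g3

theorem av_DB {θ π F : ℝ} (h0 : 0 < π) (k : ℕ) :
    av (bp π) k (fun ξ => DB θ F π ξ k) ≤ k * π * (Real.log (F / θ) + 2) := by
  unfold DB
  rw [av_sum]
  have e1 : ∀ i ∈ range k, av (bp π) k (fun ξ => cst θ F π (ξ i)) =
      π * Real.log (F / θ) + (1 - π) * (2 * π) := by
    intro i hi
    rw [av_coord (bp_sum π) (Finset.mem_range.mp hi), Fintype.sum_bool, bp_true, bp_false]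
    simp [cst]
  rw [Finset.sum_congr rfl e1, Finset.sum_const, Finset.card_range, nsmul_eq_mul]
  have h2 : π * Real.log (F / θ) + (1 - π) * (2 * π) ≤ π * (Real.log (F / θ) + 2) := by
    nlinarith
  have h3 := mul_le_mul_of_nonneg_left h2 (Nat.cast_nonneg k : (0 : ℝ) ≤ (k : ℝ))
  linarith

end Fixed

end Pool.Agent.LR2
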