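import Pool.Agent.Lib_helper59.LR2.BLW2
import Pool.Agent.Lib_helper59.LR2.PB2

/-!
# Theorem PB (peaky mixtures)
-/

set_option autoImplicit false
set_option linter.unusedSectionVars false
set_option linter.unusedVariables false

open Finset

namespace Pool.Agent.LR2

section Point

variable {X Y : Type} [Fintype X] [Fintype Y]

theorem em_total (p : X → ℝ) (q : Y → ℝ) : ∑ x, ∑ y, p x * q y = (∑ x, p x) * ∑ y, q y := by
  rw [Finset.sum_mul_sum]

theorem em_subU (p : X → ℝ) (q : Y → ℝ) (M : X → Y → ℝ) (U : ℝ) :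
    em p q (fun x y => M x y - U) = em p q M - U * ((∑ x, p x) * ∑ y, q y) := by
  unfold em
  rw [Finset.sum_mul_sum, Finset.mul_sum, ← Finset.sum_sub_distrib]
  apply Finset.sum_congr rfl
  intro x _
  rw [Finset.mul_sum, ← Finset.sum_sub_distrib]
  apply Finset.sum_congr rfl
  intro y _
  ring

theorem mean_nonneg {p f : X → ℝ} (hp : IsPr p) (hf : ∀ x, 0 ≤ f x) : 0 ≤ mean p f :=
  Finset.sum_nonneg fun x _ => mul_nonneg (hp.nonneg x) (hf x)

theorem pb_point {μ : X → ℝ} {ν : Y → ℝ} {M : X → Y → ℝ} (hM : ∀ x y, |M x y| ≤ 1)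
    (hμ : IsPr μ) (hν : IsPr ν)
    {U A B : ℝ} (hU1 : |U| ≤ 1) (hA : 0 ≤ A) (hB : 0 ≤ B) (hU : UPR μ ν M U A B)
    {p : X → ℝ} {q : Y → ℝ} (hp : IsPr p) (hq : IsPr q) (hpa : AC p μ) (hqa : AC q ν)
    {f : X → ℝ} {g : Y → ℝ} (hf : ∀ x, 0 ≤ f x) (hg : ∀ y, 0 ≤ g y) {θ L : ℝ} (hθ : 0 < θ)
    (hL : 0 ≤ L) :
    -(L ^ 2 * (A + B * (KL (tz θ p f) μ + KL (tz θ q g) ν) -
      (em (tz θ p f) (tz θ q g) M - U))) -
      2 * (((if mean p f < θ then mean p f else 0) * mean q g +
        (if L < mean p f then mean p f else 0) * mean q g) +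
        (mean p f * (if mean q g < θ then mean q g else 0) +
        mean p f * (if L < mean q g then mean q g else 0))) ≤
      em (fun x => p x * f x) (fun y => q y * g y) (fun x y => M x y - U) := by
  set a := mean p f with ha
  set b := mean q g with hb
  have ha0 : 0 ≤ a := mean_nonneg hp hf
  have hb0 : 0 ≤ b := mean_nonneg hq hg
  have hpr1 := tz_pr hθ hp hf
  have hpr2 := tz_pr hθ hq hg
  have hac1 : AC (tz θ p f) μ := tz_ac hpa
  have hac2 : AC (tz θ q g) ν := tz_ac hqa
  have k1 := KL_nonneg hpr1 hμ hac1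
  have k2 := KL_nonneg hpr2 hν hac2
  have hT := hU _ _ hpr1 hpr2 hac1 hac2
  set T := A + B * (KL (tz θ p f) μ + KL (tz θ q g) ν) - (em (tz θ p f) (tz θ q g) M - U) with hTd
  have hT0 : 0 ≤ T := by rw [hTd]; linarith
  have hη0 : 0 ≤ A + B * (KL (tz θ p f) μ + KL (tz θ q g) ν) := by positivity
  have n1 : 0 ≤ (if a < θ then a else 0) := by split_ifs <;> linarith
  have n2 : 0 ≤ (if L < a then a else 0) := by split_ifs <;> linarith
  have n3 : 0 ≤ (if b < θ then b else 0) := by split_ifs <;> linarith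
  have n4 : 0 ≤ (if L < b then b else 0) := by split_ifs <;> linarith
  have hLT : 0 ≤ L ^ 2 * T := by positivity
  have hcrude : -(2 * (a * b)) ≤ em (fun x => p x * f x) (fun y => q y * g y)
      (fun x y => M x y - U) := by
    have e1 : 2 * (a * b) = ∑ x, ∑ y, (p x * f x) * (q y * g y) * 2 := by
      have : ∀ x, ∑ y, (p x * f x) * (q y * g y) * 2 = 2 * ((p x * f x) * b) := by
        intro x
        rw [← Finset.sum_mul, ← Finset.mul_sum]
        change p x * f x * b * 2 = _
        ring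
      simp only [this]
      rw [← Finset.mul_sum, ← Finset.sum_mul]
      rfl
    rw [e1, ← Finset.sum_neg_distrib]
    unfold em
    apply Finset.sum_le_sum
    intro x _
    rw [← Finset.sum_neg_distrib]
    apply Finset.sum_le_sum
    intro y _
    have h1 := abs_le.mp (hM x y)
    have h2 := abs_le.mp hU1
    have h3 : 0 ≤ (p x * f x) * (q y * g y) :=
      mul_nonneg (mul_nonneg (hp.nonneg x) (hf x)) (mul_nonneg (hq.nonneg y) (hg y))
    have h4 := mul_le_mul_of_nonneg_left (show -2 ≤ M x y - U by linarith [h1.1, h2.2]) h3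
    linarith
  by_cases c1 : a < θ
  · rw [if_pos c1]
    have m1 := mul_nonneg n2 hb0
    have m2 := mul_nonneg ha0 n3
    have m3 := mul_nonneg ha0 n4
    linarith
  by_cases c2 : L < a
  · rw [if_pos c2]
    have m1 := mul_nonneg n1 hb0
    have m2 := mul_nonneg ha0 n3
    have m3 := mul_nonneg ha0 n4
    linarith
  by_cases c3 : b < θ
  · rw [if_pos c3]
    have m1 := mul_nonneg n1 hb0
    have m2 := mul_nonneg n2 hb0
    have m3 := mul_nonneg ha0 n4
    linarith
  by_cases c4 : L < b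
  · rw [if_pos c4]
    have m1 := mul_nonneg n1 hb0
    have m2 := mul_nonneg n2 hb0
    have m3 := mul_nonneg ha0 n3
    linarith
  · rw [if_neg c1, if_neg c2, if_neg c3, if_neg c4]
    push Not at c1 c2 c3 c4
    have ha1 : 0 < a := lt_of_lt_of_le hθ c1
    have hb1 : 0 < b := lt_of_lt_of_le hθ c3
    have e1 : ∀ x, p x * f x = a * tz θ p f x := by
      intro x
      rw [tz_pos c1, ← ha]
      field_simp
    have e2 : ∀ y, q y * g y = b * tz θ q g y := by
      intro y
      rw [tz_pos c3, ← hb]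
      field_simp
    have e3 : em (fun x => p x * f x) (fun y => q y * g y) (fun x y => M x y - U) =
        a * b * (em (tz θ p f) (tz θ q g) M - U) := by
      simp only [e1, e2]
      rw [em_bismul, em_subU, hpr1.sum, hpr2.sum]
      ring
    rw [e3]
    have h1 : a * b ≤ L ^ 2 := by
      rw [sq]
      exact mul_le_mul c2 c4 hb0 hL
    have h2 : a * b * T ≤ L ^ 2 * T := mul_le_mul_of_nonneg_right h1 hT0
    have h3 : 0 ≤ a * b * (A + B * (KL (tz θ p f) μ + KL (tz θ q g) ν)) := by positivity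
    have h4 : a * b * (em (tz θ p f) (tz θ q g) M - U) =
        a * b * (A + B * (KL (tz θ p f) μ + KL (tz θ q g) ν)) - a * b * T := by
      rw [hTd]
      ring
    rw [h4]
    linarith

end Point

section FixedLabels

variable {X Y : Type} [Fintype X] [Fintype Y]

/-- the sum over the rounds for fixed labels -/
theorem pb_fixed {μ : X → ℝ} {ν : Y → ℝ} (hμ : IsPr μ)
    (hν : IsPr ν) {M : X → Y → ℝ} (hM : ∀ x y, |M x y| ≤ 1) {d : ℕ} (hd : 1 ≤ d)
    (hR : (Matrix.of M).rank ≤ 4 ^ d)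
    {U A B A' B' : ℝ} (hU1 : |U| ≤ 1) (hA : 0 ≤ A) (hB : 0 ≤ B) (hA' : 0 ≤ A') (hB' : 0 ≤ B')
    (hU : UPR μ ν M U A B)
    (hrow : ∀ p, IsPr p → AC p μ → |em p ν M - U| ≤ A' + B' * KL p μ)
    (hcol : ∀ q, IsPr q → AC q ν → |em μ q M - U| ≤ A' + B' * KL q ν)
    {f : ℕ → X → ℝ} {g : ℕ → Y → ℝ} {F : ℝ}
    (hf0 : ∀ z x, 0 ≤ f z x) (hfF : ∀ z x, f z x ≤ F) (hf1 : ∀ z, ∑ x, μ x * f z x = 1)
    (hg0 : ∀ z y, 0 ≤ g z y) (hgF : ∀ z y, g z y ≤ F) (hg1 : ∀ z, ∑ y, ν y * g z y = 1)
    {L : ℝ} (hL : 1 ≤ L) {θ : ℝ} (hθ : 0 < θ) (hθF : θ ≤ F) {G : ℕ} {π κ : ℝ}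
    (h0 : 0 < π) (h1 : π ≤ 1 / 2) (hπ : π * (F / θ) ≤ 1)
    (hκ : κ = G * π * (Real.log (F / θ) + 2)) :
    -(L ^ 2 * (8 * (d : ℝ) ^ 2 / π + G * (3 * (A' + B' * (κ + Real.log (F / θ))) +
        (A + 2 * B * (κ + Real.log (F / θ)))))) - 4 * θ * G -
      2 * ∑ i ∈ range G, (av (bp π) i (fun ξ =>
          if L < mean (cellB θ π μ f ξ i) (f i) then mean (cellB θ π μ f ξ i) (f i) else 0) +
        av (bp π) i (fun η =>
          if L < mean (cellB θ π ν g η i) (g i) then mean (cellB θ π ν g η i) (g i) else 0)) ≤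
      ∑ i ∈ range G, em (fun x => μ x * f i x) (fun y => ν y * g i y)
        (fun x y => M x y - U) := by
  set ℓ := Real.log (F / θ) with hℓ
  have hℓ0 : 0 ≤ ℓ := Real.log_nonneg ((one_le_div hθ).mpr hθF)
  have hw := bp_nonneg h0 h1
  have hw1 := bp_sum π
  have hP : ∀ ξ i, IsPr (cellB θ π μ f ξ i) := fun ξ i =>
    cellB_pr hθ hθF h0 h1 hπ hμ hf0 hfF ξ i
  have hQ : ∀ η i, IsPr (cellB θ π ν g η i) := fun η i =>
    cellB_pr hθ hθF h0 h1 hπ hν hg0 hgF η i
  have hPa : ∀ ξ i, AC (cellB θ π μ f ξ i) μ := fun ξ i => cellB_ac ξ i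
  have hQa : ∀ η i, AC (cellB θ π ν g η i) ν := fun η i => cellB_ac η i
  have hκi : ∀ i ∈ range G, (i : ℝ) * π * (ℓ + 2) ≤ κ := by
    intro i hi
    rw [hκ]
    have h2 : (i : ℝ) ≤ G := by exact_mod_cast (Finset.mem_range.mp hi).le
    have h3 : 0 ≤ π * (ℓ + 2) := by positivity
    have h4 := mul_le_mul_of_nonneg_right h2 h3
    linarith
  have hTP : ∀ ξ i, IsPr (tz θ (cellB θ π μ f ξ i) (f i)) := fun ξ i => tz_pr hθ (hP ξ i) (hf0 i)
  have hTQ : ∀ η i, IsPr (tz θ (cellB θ π ν g η i) (g i)) := fun η i => tz_pr hθ (hQ η i) (hg0 i)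
  have hTPa : ∀ ξ i, AC (tz θ (cellB θ π μ f ξ i) (f i)) μ := fun ξ i => tz_ac (hPa ξ i)
  have hTQa : ∀ η i, AC (tz θ (cellB θ π ν g η i) (g i)) ν := fun η i => tz_ac (hQa η i)
  have hFθ : 0 < F / θ := div_pos (by linarith) hθ
  have hKP : ∀ ξ i, KL (tz θ (cellB θ π μ f ξ i) (f i)) μ ≤ DB θ F π ξ i + ℓ := by
    intro ξ i
    apply KL_le_sup (hTP ξ i) hμ
    intro x
    rw [add_comm, Real.exp_add, hℓ, Real.exp_log hFθ]
    have e1 := tz_le hθ hθF (hP ξ i) (hfF i) x
    have e2 := mul_le_mul_of_nonneg_left (cellB_le hθ hθF h0 h1 hπ hμ hf0 hfF ξ i x) hFθ.le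
    linarith
  have hKQ : ∀ η i, KL (tz θ (cellB θ π ν g η i) (g i)) ν ≤ DB θ F π η i + ℓ := by
    intro ξ i
    apply KL_le_sup (hTQ ξ i) hν
    intro x
    rw [add_comm, Real.exp_add, hℓ, Real.exp_log hFθ]
    have e1 := tz_le hθ hθF (hQ ξ i) (hgF i) x
    have e2 := mul_le_mul_of_nonneg_left (cellB_le hθ hθF h0 h1 hπ hν hg0 hgF ξ i x) hFθ.le
    linarith
  have hDB : ∀ i ∈ range G, av (bp π) i (fun ξ => DB θ F π ξ i) ≤ κ := fun i hi =>
    (av_DB h0 i).trans (hκi i hi)
  have hDBl : ∀ i ∈ range G, av (bp π) i (fun ξ => DB θ F π ξ i + ℓ) ≤ κ + ℓ := by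
    intro i hi
    rw [av_add, av_const hw1]
    have := hDB i hi
    linarith
  -- the chaos bound
  have hch := reveal_fixedB hθ hθF h0 h1 hπ hμ hν hM hd hR hf0 hfF hg0 hgF G
  set β : ℕ → ℝ := fun i => av2 (bp π) i (fun ξ η =>
      em (fun x => tz θ (cellB θ π μ f ξ i) (f i) x - cellB θ π μ f ξ i x)
        (fun y => tz θ (cellB θ π ν g η i) (g i) y - cellB θ π ν g η i y) M) with hβ
  -- the mean of the correlations
  have hα : ∀ i ∈ range G, β i - 3 * (A' + B' * (κ + ℓ)) ≤ av2 (bp π) i (fun ξ η =>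
      em (tz θ (cellB θ π μ f ξ i) (f i)) (tz θ (cellB θ π ν g η i) (g i)) M - U) := by
    intro i hi
    have e1 : (fun ξ η => em (tz θ (cellB θ π μ f ξ i) (f i)) (tz θ (cellB θ π ν g η i) (g i)) M
        - U) = fun (ξ η : ℕ → Bool) =>
        em (fun x => tz θ (cellB θ π μ f ξ i) (f i) x - cellB θ π μ f ξ i x)
        (fun y => tz θ (cellB θ π ν g η i) (g i) y - cellB θ π ν g η i y) M +
        ((em (tz θ (cellB θ π μ f ξ i) (f i)) (cellB θ π ν g η i) M +
          em (cellB θ π μ f ξ i) (tz θ (cellB θ π ν g η i) (g i)) M) +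
        ((-1) * em (cellB θ π μ f ξ i) (cellB θ π ν g η i) M + (-U))) := by
      funext ξ η
      rw [em_bisub]
      ring
    rw [e1, av2_add, av2_add, av2_add, av2_add, av2_smul, av2_const hw1]
    have e2 : av2 (bp π) i (fun ξ η => em (cellB θ π μ f ξ i) (cellB θ π ν g η i) M) =
        em μ ν M := by
      rw [av2_em]
      simp only [avB_cell h1]
    have e3 : av2 (bp π) i (fun ξ η => em (tz θ (cellB θ π μ f ξ i) (f i))
        (cellB θ π ν g η i) M) = av (bp π) i (fun ξ => em (tz θ (cellB θ π μ f ξ i) (f i)) ν M) := by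
      unfold av2
      simp only [av_em_right, avB_cell h1]
    have e4 : av2 (bp π) i (fun ξ η => em (cellB θ π μ f ξ i)
        (tz θ (cellB θ π ν g η i) (g i)) M) =
        av (bp π) i (fun η => em μ (tz θ (cellB θ π ν g η i) (g i)) M) := by
      rw [av2_em]
      simp only [avB_cell h1]
      rw [av_em_right]
    rw [e2, e3, e4]
    have e5 : U - (A' + B' * (κ + ℓ)) ≤
        av (bp π) i (fun ξ => em (tz θ (cellB θ π μ f ξ i) (f i)) ν M) := by
      calc U - (A' + B' * (κ + ℓ)) ≤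
            (U - A') + (-B') * av (bp π) i (fun ξ => DB θ F π ξ i + ℓ) := by
            have := mul_le_mul_of_nonneg_left (hDBl i hi) hB'
            linarith
        _ = av (bp π) i (fun ξ => (U - A') + (-B') * (DB θ F π ξ i + ℓ)) := by
            rw [av_add (bp π) i (fun _ => U - A') (fun ξ => (-B') * (DB θ F π ξ i + ℓ)),
              av_const hw1, av_smul]
        _ ≤ _ := by
            apply av_mono hw
            intro ξ
            have h2 := (abs_le.mp (hrow _ (hTP ξ i) (hTPa ξ i))).1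
            have h3 := mul_le_mul_of_nonneg_left (hKP ξ i) hB'
            linarith
    have e6 : U - (A' + B' * (κ + ℓ)) ≤
        av (bp π) i (fun η => em μ (tz θ (cellB θ π ν g η i) (g i)) M) := by
      calc U - (A' + B' * (κ + ℓ)) ≤
            (U - A') + (-B') * av (bp π) i (fun ξ => DB θ F π ξ i + ℓ) := by
            have := mul_le_mul_of_nonneg_left (hDBl i hi) hB'
            linarith
        _ = av (bp π) i (fun ξ => (U - A') + (-B') * (DB θ F π ξ i + ℓ)) := by
            rw [av_add (bp π) i (fun _ => U - A') (fun ξ => (-B') * (DB θ F π ξ i + ℓ)),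
              av_const hw1, av_smul]
        _ ≤ _ := by
            apply av_mono hw
            intro ξ
            have h2 := (abs_le.mp (hcol _ (hTQ ξ i) (hTQa ξ i))).1
            have h3 := mul_le_mul_of_nonneg_left (hKQ ξ i) hB'
            linarith
    have e7 : em μ ν M ≤ U + (A' + B' * (κ + ℓ)) := by
      have h2 := (abs_le.mp (hrow μ hμ (fun x hx => hx))).2
      rw [KL_self, mul_zero, add_zero] at h2
      have hκ0 : 0 ≤ κ := by
        rw [hκ]
        positivity
      have h3 : 0 ≤ B' * (κ + ℓ) := by positivity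
      linarith
    change β i - 3 * (A' + B' * (κ + ℓ)) ≤ β i + _
    linarith
  -- one round
  have hone : ∀ i ∈ range G, -(L ^ 2 * ((A + 2 * B * (κ + ℓ)) - (β i - 3 * (A' + B' * (κ + ℓ)))))
      - 4 * θ - 2 * (av (bp π) i (fun ξ =>
          if L < mean (cellB θ π μ f ξ i) (f i) then mean (cellB θ π μ f ξ i) (f i) else 0) +
        av (bp π) i (fun η =>
          if L < mean (cellB θ π ν g η i) (g i) then mean (cellB θ π ν g η i) (g i) else 0)) ≤
      em (fun x => μ x * f i x) (fun y => ν y * g i y) (fun x y => M x y - U) := by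
    intro i hi
    have e1 : av2 (bp π) i (fun ξ η => em (fun x => cellB θ π μ f ξ i x * f i x)
        (fun y => cellB θ π ν g η i y * g i y) (fun x y => M x y - U)) =
        em (fun x => μ x * f i x) (fun y => ν y * g i y) (fun x y => M x y - U) := by
      rw [av2_em]
      have e2 : ∀ x, av (bp π) i (fun ξ => cellB θ π μ f ξ i x * f i x) = μ x * f i x := by
        intro x
        rw [show (fun ξ => cellB θ π μ f ξ i x * f i x) = fun ξ => f i x * cellB θ π μ f ξ i x from
          funext fun ξ => mul_comm _ _, av_smul, avB_cell h1, mul_comm]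
      have e3 : ∀ x, av (bp π) i (fun ξ => cellB θ π ν g ξ i x * g i x) = ν x * g i x := by
        intro x
        rw [show (fun ξ => cellB θ π ν g ξ i x * g i x) = fun ξ => g i x * cellB θ π ν g ξ i x from
          funext fun ξ => mul_comm _ _, av_smul, avB_cell h1, mul_comm]
      simp only [e2, e3]
    rw [← e1]
    have ep := av2_mono hw i (fun ξ η => pb_point hM hμ hν hU1 hA hB hU (hP ξ i) (hQ η i)
      (hPa ξ i) (hQa η i) (hf0 i) (hg0 i) hθ (show (0 : ℝ) ≤ L by linarith))
    refine le_trans ?_ ep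
    have mP : av (bp π) i (fun ξ => mean (cellB θ π μ f ξ i) (f i)) = 1 := by
      unfold mean
      rw [av_sum, ← hf1 i]
      apply Finset.sum_congr rfl
      intro x _
      rw [show (fun ξ => cellB θ π μ f ξ i x * f i x) = fun ξ => f i x * cellB θ π μ f ξ i x from
          funext fun ξ => mul_comm _ _, av_smul, avB_cell h1, mul_comm]
    have mQ : av (bp π) i (fun ξ => mean (cellB θ π ν g ξ i) (g i)) = 1 := by
      unfold mean
      rw [av_sum, ← hg1 i]
      apply Finset.sum_congr rfl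
      intro x _
      rw [show (fun ξ => cellB θ π ν g ξ i x * g i x) = fun ξ => g i x * cellB θ π ν g ξ i x from
          funext fun ξ => mul_comm _ _, av_smul, avB_cell h1, mul_comm]
    have eq1 : (fun (ξ η : ℕ → Bool) => -(L ^ 2 * (A + B * (KL (tz θ (cellB θ π μ f ξ i) (f i)) μ +
        KL (tz θ (cellB θ π ν g η i) (g i)) ν) -
        (em (tz θ (cellB θ π μ f ξ i) (f i)) (tz θ (cellB θ π ν g η i) (g i)) M - U))) -
        2 * (((if mean (cellB θ π μ f ξ i) (f i) < θ then mean (cellB θ π μ f ξ i) (f i) else 0) *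
          mean (cellB θ π ν g η i) (g i) +
        (if L < mean (cellB θ π μ f ξ i) (f i) then mean (cellB θ π μ f ξ i) (f i) else 0) *
          mean (cellB θ π ν g η i) (g i)) +
        (mean (cellB θ π μ f ξ i) (f i) *
          (if mean (cellB θ π ν g η i) (g i) < θ then mean (cellB θ π ν g η i) (g i) else 0) +
        mean (cellB θ π μ f ξ i) (f i) *
          (if L < mean (cellB θ π ν g η i) (g i) then mean (cellB θ π ν g η i) (g i) else 0)))) =
        fun ξ η => (-(L ^ 2 * A) + ((-(L ^ 2 * B)) * KL (tz θ (cellB θ π μ f ξ i) (f i)) μ +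
          (-(L ^ 2 * B)) * KL (tz θ (cellB θ π ν g η i) (g i)) ν)) +
        (L ^ 2 * (em (tz θ (cellB θ π μ f ξ i) (f i)) (tz θ (cellB θ π ν g η i) (g i)) M - U) +
        (-2) * (((if mean (cellB θ π μ f ξ i) (f i) < θ then mean (cellB θ π μ f ξ i) (f i) else 0) *
          mean (cellB θ π ν g η i) (g i) +
        (if L < mean (cellB θ π μ f ξ i) (f i) then mean (cellB θ π μ f ξ i) (f i) else 0) *
          mean (cellB θ π ν g η i) (g i)) +
        (mean (cellB θ π μ f ξ i) (f i) *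
          (if mean (cellB θ π ν g η i) (g i) < θ then mean (cellB θ π ν g η i) (g i) else 0) +
        mean (cellB θ π μ f ξ i) (f i) *
          (if L < mean (cellB θ π ν g η i) (g i) then mean (cellB θ π ν g η i) (g i) else 0)))) := by
      funext ξ η
      ring
    rw [eq1, av2_add, av2_add, av2_add, av2_add, av2_smul, av2_smul, av2_smul, av2_smul,
      av2_const hw1, av2_fst hw1, av2_snd hw1, av2_add, av2_add, av2_add,
      av2_prod (bp π) i (fun ξ => if mean (cellB θ π μ f ξ i) (f i) < θ then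
        mean (cellB θ π μ f ξ i) (f i) else 0) (fun η => mean (cellB θ π ν g η i) (g i)),
      av2_prod (bp π) i (fun ξ => if L < mean (cellB θ π μ f ξ i) (f i) then
        mean (cellB θ π μ f ξ i) (f i) else 0) (fun η => mean (cellB θ π ν g η i) (g i)),
      av2_prod (bp π) i (fun ξ => mean (cellB θ π μ f ξ i) (f i))
        (fun η => if mean (cellB θ π ν g η i) (g i) < θ then
        mean (cellB θ π ν g η i) (g i) else 0),
      av2_prod (bp π) i (fun ξ => mean (cellB θ π μ f ξ i) (f i))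
        (fun η => if L < mean (cellB θ π ν g η i) (g i) then
        mean (cellB θ π ν g η i) (g i) else 0), mP, mQ]
    have hα' := mul_le_mul_of_nonneg_left (hα i hi) (sq_nonneg L)
    have a1 : av (bp π) i (fun ξ => KL (tz θ (cellB θ π μ f ξ i) (f i)) μ) ≤ κ + ℓ :=
      (av_mono hw i fun ξ => hKP ξ i).trans (hDBl i hi)
    have a2 : av (bp π) i (fun ξ => KL (tz θ (cellB θ π ν g ξ i) (g i)) ν) ≤ κ + ℓ :=
      (av_mono hw i fun ξ => hKQ ξ i).trans (hDBl i hi)
    have hLB : 0 ≤ L ^ 2 * B := by positivity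
    have a3 := mul_le_mul_of_nonneg_left a1 hLB
    have a4 := mul_le_mul_of_nonneg_left a2 hLB
    have a5 : av (bp π) i (fun ξ => if mean (cellB θ π μ f ξ i) (f i) < θ then
        mean (cellB θ π μ f ξ i) (f i) else 0) ≤ θ := by
      calc _ ≤ av (bp π) i (fun _ => θ) := by
            apply av_mono hw
            intro ξ
            split_ifs with h
            · exact h.le
            · exact hθ.le
        _ = θ := av_const hw1 i θ
    have a6 : av (bp π) i (fun ξ => if mean (cellB θ π ν g ξ i) (g i) < θ then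
        mean (cellB θ π ν g ξ i) (g i) else 0) ≤ θ := by
      calc _ ≤ av (bp π) i (fun _ => θ) := by
            apply av_mono hw
            intro ξ
            split_ifs with h
            · exact h.le
            · exact hθ.le
        _ = θ := av_const hw1 i θ
    linarith
  have hsum := Finset.sum_le_sum hone
  refine le_trans ?_ hsum
  rw [Finset.sum_sub_distrib, Finset.sum_sub_distrib, Finset.sum_const, Finset.card_range,
    nsmul_eq_mul, ← Finset.mul_sum (a := (2 : ℝ)), Finset.sum_neg_distrib, ← Finset.mul_sum,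
    Finset.sum_sub_distrib, Finset.sum_const, Finset.card_range, nsmul_eq_mul,
    Finset.sum_sub_distrib, Finset.sum_const, Finset.card_range, nsmul_eq_mul]
  have h5 := (abs_le.mp hch).1
  have h6 := mul_le_mul_of_nonneg_left h5 (sq_nonneg L)
  change L ^ 2 * -(8 * (d : ℝ) ^ 2 / π) ≤ L ^ 2 * ∑ i ∈ range G, β i at h6
  linarith

end FixedLabels

section Main

variable {X Y : Type} [Fintype X] [Fintype Y]

theorem av_label {Z : Type} [Fintype Z] [Inhabited Z] {γ : Z → ℝ} (hγ : ∀ z, 0 ≤ γ z)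
    (hγ1 : ∑ z, γ z = 1) {μ : X → ℝ} (hμ : IsPr μ) {f : Z → X → ℝ} {F : ℝ}
    (hf0 : ∀ z x, 0 ≤ f z x) (hfF : ∀ z x, f z x ≤ F) {L e1 : ℝ} (he1 : 0 ≤ e1)
    (hRf : ∀ p, IsPr p → AC p μ →
      ∑ z, γ z * (if L < mean p (f z) then mean p (f z) else 0) ≤ e1 * (1 + KL p μ))
    {θ : ℝ} (hθ : 0 < θ) (hθF : θ ≤ F) {G : ℕ} {π κ : ℝ}
    (h0 : 0 < π) (h1 : π ≤ 1 / 2) (hπ : π * (F / θ) ≤ 1)
    (hκ : κ = G * π * (Real.log (F / θ) + 2)) {i : ℕ} (hi : i < G) :
    av γ G (fun om => av (bp π) i (fun ξ =>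
      if L < mean (cellB θ π μ (fun k => f (om k)) ξ i) (f (om i)) then
        mean (cellB θ π μ (fun k => f (om k)) ξ i) (f (om i)) else 0)) ≤ e1 * (1 + κ) := by
  have hℓ0 : 0 ≤ Real.log (F / θ) := Real.log_nonneg ((one_le_div hθ).mpr hθF)
  have hcell : ∀ (om : ℕ → Z) (j : ℕ) (z : Z) (ξ : ℕ → Bool), i ≤ j →
      cellB θ π μ (fun k => f (Function.update om j z k)) ξ i =
      cellB θ π μ (fun k => f (om k)) ξ i := by
    intro om j z ξ hj
    apply cellB_congr
    intro k hk
    rw [Function.update_of_ne (by omega)]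
  rw [av_prefix hγ1 (show i + 1 ≤ G by omega) _ (fun om j z hj => by
    simp only [hcell om j z _ (show i ≤ j by omega), Function.update_of_ne (show i ≠ j by omega)]),
    av_succ]
  simp only [hcell _ _ _ _ le_rfl, Function.update_self]
  simp only [← av_smul]
  rw [← av_sum]
  calc _ ≤ av γ i (fun _ => e1 * (1 + κ)) := by
        apply av_mono hγ
        intro om
        rw [← av_sum]
        calc _ ≤ av (bp π) i (fun ξ => e1 * (1 + DB θ F π ξ i)) := by
              apply av_mono (bp_nonneg h0 h1)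
              intro ξ
              refine (hRf _ (cellB_pr hθ hθF h0 h1 hπ hμ (fun k => hf0 (om k))
                (fun k => hfF (om k)) ξ i) (cellB_ac ξ i)).trans ?_
              apply mul_le_mul_of_nonneg_left _ he1
              have := KL_le_sup (cellB_pr hθ hθF h0 h1 hπ hμ (fun k => hf0 (om k))
                (fun k => hfF (om k)) ξ i) hμ (cellB_le hθ hθF h0 h1 hπ hμ (fun k => hf0 (om k))
                (fun k => hfF (om k)) ξ i)
              linarith
          _ = e1 * (1 + av (bp π) i (fun ξ => DB θ F π ξ i)) := by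
              rw [av_smul, av_add, av_const (bp_sum π)]
          _ ≤ e1 * (1 + κ) := by
              apply mul_le_mul_of_nonneg_left _ he1
              have h2 := av_DB (θ := θ) (F := F) h0 i
              have h3 : (i : ℝ) * π * (Real.log (F / θ) + 2) ≤ κ := by
                rw [hκ]
                have h4 : (i : ℝ) ≤ G := by exact_mod_cast hi.le
                have h5 : 0 ≤ π * (Real.log (F / θ) + 2) := by positivity
                have h6 := mul_le_mul_of_nonneg_right h4 h5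
                linarith
              linarith
    _ = _ := av_const hγ1 i _

/-- Theorem PB, LR_BL section 3.3 -/
theorem pb {X Y : Type} [Fintype X] [Fintype Y] {μ : X → ℝ} {ν : Y → ℝ} (hμ : IsPr μ)
    (hν : IsPr ν) {M : X → Y → ℝ} (hM : ∀ x y, |M x y| ≤ 1) {d : ℕ} (hd : 1 ≤ d)
    (hR : (Matrix.of M).rank ≤ 4 ^ d)
    {U A B A' B' : ℝ} (hU1 : |U| ≤ 1) (hA : 0 ≤ A) (hB : 0 ≤ B) (hA' : 0 ≤ A') (hB' : 0 ≤ B')
    (hU : UPR μ ν M U A B)
    (hrow : ∀ p, IsPr p → AC p μ → |em p ν M - U| ≤ A' + B' * KL p μ)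
    (hcol : ∀ q, IsPr q → AC q ν → |em μ q M - U| ≤ A' + B' * KL q ν)
    {Z : Type} [Fintype Z] [Inhabited Z] {γ : Z → ℝ} (hγ : ∀ z, 0 ≤ γ z) (hγ1 : ∑ z, γ z = 1)
    {f : Z → X → ℝ} {g : Z → Y → ℝ} {F : ℝ} (hF : 1 ≤ F)
    (hf0 : ∀ z x, 0 ≤ f z x) (hfF : ∀ z x, f z x ≤ F) (hf1 : ∀ z, ∑ x, μ x * f z x = 1)
    (hg0 : ∀ z y, 0 ≤ g z y) (hgF : ∀ z y, g z y ≤ F) (hg1 : ∀ z, ∑ y, ν y * g z y = 1)
    {L e1 : ℝ} (hL : 1 ≤ L) (he1 : 0 ≤ e1)
    (hRf : ∀ p, IsPr p → AC p μ →
      ∑ z, γ z * (if L < mean p (f z) then mean p (f z) else 0) ≤ e1 * (1 + KL p μ))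
    (hRg : ∀ q, IsPr q → AC q ν →
      ∑ z, γ z * (if L < mean q (g z) then mean q (g z) else 0) ≤ e1 * (1 + KL q ν))
    {θ : ℝ} (hθ : 0 < θ) (hθ1 : θ ≤ 1) {G : ℕ} (hG : 0 < G) {π κ : ℝ} (hπ : π = θ / (2 * F))
    (hκ : κ = G * π * (Real.log (F / θ) + 2)) :
    -(L ^ 2 * (200 * (d : ℝ) ^ 2 / (π * G) + 4 * (A' + B' * (κ + Real.log (F / θ) + 1)) +
        2 * (A + 2 * B * (κ + Real.log (F / θ) + 1))) + 4 * θ + 4 * e1 * (1 + κ)) ≤
      ∑ z, γ z * em (fun x => μ x * f z x) (fun y => ν y * g z y) (fun x y => M x y - U) := by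
  have hθF : θ ≤ F := by linarith
  have h0 : 0 < π := by rw [hπ]; positivity
  have h1 : π ≤ 1 / 2 := by
    rw [hπ, div_le_div_iff₀ (by positivity) (by norm_num)]
    linarith
  have hπ1 : π * (F / θ) ≤ 1 := by
    rw [hπ]
    have : θ / (2 * F) * (F / θ) = 1 / 2 := by
      have : F ≠ 0 := by positivity
      field_simp
    rw [this]
    norm_num
  have hℓ0 : 0 ≤ Real.log (F / θ) := Real.log_nonneg ((one_le_div hθ).mpr hθF)
  have hκ0 : 0 ≤ κ := by
    rw [hκ]
    positivity
  have hGr : (0 : ℝ) < G := by exact_mod_cast hG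
  set N := ∑ z, γ z * em (fun x => μ x * f z x) (fun y => ν y * g z y)
    (fun x y => M x y - U) with hN
  have hGN : (G : ℝ) * N = av γ G (fun om => ∑ i ∈ range G,
      em (fun x => μ x * f (om i) x) (fun y => ν y * g (om i) y) (fun x y => M x y - U)) := by
    rw [av_sum]
    have e1 : ∀ i ∈ range G, av γ G (fun om => em (fun x => μ x * f (om i) x)
        (fun y => ν y * g (om i) y) (fun x y => M x y - U)) = N := by
      intro i hi
      exact av_coord hγ1 (Finset.mem_range.mp hi) (fun z => em (fun x => μ x * f z x)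
        (fun y => ν y * g z y) (fun x y => M x y - U))
    rw [Finset.sum_congr rfl e1, Finset.sum_const, Finset.card_range, nsmul_eq_mul]
  have hfix := av_mono hγ G (fun om => pb_fixed hμ hν hM hd hR hU1 hA hB hA' hB' hU hrow hcol
    (f := fun k => f (om k)) (g := fun k => g (om k)) (fun z => hf0 (om z)) (fun z => hfF (om z))
    (fun z => hf1 (om z)) (fun z => hg0 (om z)) (fun z => hgF (om z)) (fun z => hg1 (om z))
    hL hθ hθF h0 h1 hπ1 hκ)
  rw [← hGN] at hfix
  have hlow : -(L ^ 2 * (8 * (d : ℝ) ^ 2 / π + G * (3 * (A' + B' * (κ + Real.log (F / θ))) +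
        (A + 2 * B * (κ + Real.log (F / θ)))))) - 4 * θ * G - 4 * (G * (e1 * (1 + κ))) ≤
      G * N := by
    refine le_trans ?_ hfix
    have e2 : (fun om : ℕ → Z => -(L ^ 2 * (8 * (d : ℝ) ^ 2 / π +
        G * (3 * (A' + B' * (κ + Real.log (F / θ))) +
        (A + 2 * B * (κ + Real.log (F / θ)))))) - 4 * θ * G -
      2 * ∑ i ∈ range G, (av (bp π) i (fun ξ =>
          if L < mean (cellB θ π μ (fun k => f (om k)) ξ i) (f (om i)) then
            mean (cellB θ π μ (fun k => f (om k)) ξ i) (f (om i)) else 0) +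
        av (bp π) i (fun η =>
          if L < mean (cellB θ π ν (fun k => g (om k)) η i) (g (om i)) then
            mean (cellB θ π ν (fun k => g (om k)) η i) (g (om i)) else 0))) =
        fun om => (-(L ^ 2 * (8 * (d : ℝ) ^ 2 / π +
        G * (3 * (A' + B' * (κ + Real.log (F / θ))) +
        (A + 2 * B * (κ + Real.log (F / θ)))))) - 4 * θ * G) +
      (-2) * ∑ i ∈ range G, (av (bp π) i (fun ξ =>
          if L < mean (cellB θ π μ (fun k => f (om k)) ξ i) (f (om i)) then
            mean (cellB θ π μ (fun k => f (om k)) ξ i) (f (om i)) else 0) +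
        av (bp π) i (fun η =>
          if L < mean (cellB θ π ν (fun k => g (om k)) η i) (g (om i)) then
            mean (cellB θ π ν (fun k => g (om k)) η i) (g (om i)) else 0)) := by
      funext om
      ring
    rw [e2, av_add, av_const hγ1, av_smul, av_sum]
    have e3 : ∑ i ∈ range G, av γ G (fun om => av (bp π) i (fun ξ =>
          if L < mean (cellB θ π μ (fun k => f (om k)) ξ i) (f (om i)) then
            mean (cellB θ π μ (fun k => f (om k)) ξ i) (f (om i)) else 0) +
        av (bp π) i (fun η =>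
          if L < mean (cellB θ π ν (fun k => g (om k)) η i) (g (om i)) then
            mean (cellB θ π ν (fun k => g (om k)) η i) (g (om i)) else 0)) ≤
        ∑ i ∈ range G, (e1 * (1 + κ) + e1 * (1 + κ)) := by
      apply Finset.sum_le_sum
      intro i hi
      rw [av_add]
      exact add_le_add
        (av_label hγ hγ1 hμ hf0 hfF he1 hRf hθ hθF h0 h1 hπ1 hκ (Finset.mem_range.mp hi))
        (av_label hγ hγ1 hν hg0 hgF he1 hRg hθ hθF h0 h1 hπ1 hκ (Finset.mem_range.mp hi))
    rw [Finset.sum_const, Finset.card_range, nsmul_eq_mul] at e3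
    linarith
  have hdiv : -(L ^ 2 * (8 * (d : ℝ) ^ 2 / (π * G) + (3 * (A' + B' * (κ + Real.log (F / θ))) +
        (A + 2 * B * (κ + Real.log (F / θ)))))) - 4 * θ - 4 * (e1 * (1 + κ)) ≤ N := by
    have e4 : (G : ℝ) * (-(L ^ 2 * (8 * (d : ℝ) ^ 2 / (π * G) +
        (3 * (A' + B' * (κ + Real.log (F / θ))) +
        (A + 2 * B * (κ + Real.log (F / θ)))))) - 4 * θ - 4 * (e1 * (1 + κ))) =
        -(L ^ 2 * (8 * (d : ℝ) ^ 2 / π + G * (3 * (A' + B' * (κ + Real.log (F / θ))) +
        (A + 2 * B * (κ + Real.log (F / θ)))))) - 4 * θ * G - 4 * (G * (e1 * (1 + κ))) := by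
      field_simp
    rw [← e4] at hlow
    exact le_of_mul_le_mul_left hlow hGr
  refine le_trans ?_ hdiv
  have q1 : 8 * (d : ℝ) ^ 2 / (π * G) ≤ 200 * (d : ℝ) ^ 2 / (π * G) := by
    apply div_le_div_of_nonneg_right _ (by positivity)
    nlinarith [sq_nonneg (d : ℝ)]
  have q2 : 3 * (A' + B' * (κ + Real.log (F / θ))) ≤ 4 * (A' + B' * (κ + Real.log (F / θ) + 1)) := by
    have : 0 ≤ B' * (κ + Real.log (F / θ)) := by positivity
    linarith
  have q3 : A + 2 * B * (κ + Real.log (F / θ)) ≤ 2 * (A + 2 * B * (κ + Real.log (F / θ) + 1)) := by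
    have : 0 ≤ B * (κ + Real.log (F / θ)) := by positivity
    linarith
  have q4 := mul_le_mul_of_nonneg_left (add_le_add q1 (add_le_add q2 q3)) (sq_nonneg L)
  linarith

end Main

end Pool.Agent.LR2
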