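import Pool.Agent.Lib_helper39.LR2.ExistsState
import Pool.Agent.Lib_helper39.LR2.StartCost
import Pool.Agent.Lib_helper59.LR2.TGen

/-!
# The extremal state: product regularity, existence
-/

set_option autoImplicit false
set_option linter.unusedSectionVars false

open Finset Matrix

namespace Pool.Agent.LR2

variable {X Y : Type} [Fintype X] [Fintype Y] [Nonempty X] [Nonempty Y] {n : ℕ}
variable {M : X → Y → ℝ} {μ₀ : X → ℝ} {ν₀ : Y → ℝ} {lam Lam : ℝ} {m : ℕ}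
  {α : X → ℝ} {β : Y → ℝ} {F : Fac X Y n}

/-- (P) -/
theorem St.P_sup (h : St M μ₀ ν₀ lam Lam m α β F) {p : X → ℝ} {q : Y → ℝ} (hp : IsPr p)
    (hq : IsPr q) {s t : ℝ} (hle : ∀ x, p x ≤ Real.exp s * α x)
    (hle' : ∀ y, q y ≤ Real.exp t * β y) : em p q (ctd α β M) ≤ lam * (s + t + 2) := by
  have h1 := h.sharp hp hq hle hle' F (h.val.mono (ac_of_le hp hle) (ac_of_le hq hle'))
  rw [sub_self, mul_zero, add_zero] at h1
  exact h1

theorem St.P_kl (h : St M μ₀ ν₀ lam Lam m α β F) {p : X → ℝ} {q : Y → ℝ} (hp : IsPr p)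
    (hq : IsPr q) (hac : AC p α) (hac' : AC q β) :
    em p q (ctd α β M) ≤ 2 * lam * (KL p α + KL q β) + 6 * lam := by
  have h1 := h.sharp_kl hp hq hac hac' F h.val
  rw [sub_self, mul_zero, add_zero] at h1
  exact h1

theorem KL_refl (μ : X → ℝ) : KL μ μ = 0 := by
  unfold KL
  apply Finset.sum_eq_zero
  intro x _
  rcases eq_or_ne (μ x) 0 with h | h
  · rw [h, zero_mul]
  · rw [div_self h, Real.log_one, mul_zero]

/-- (T5), rows -/
theorem St.mean_row (h : St M μ₀ ν₀ lam Lam (m + 1) α β F) {p : X → ℝ} (hp : IsPr p)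
    (hac : AC p α) {θ : ℝ} (hθ : 0 < θ) (hθ1 : θ ≤ 1 / 2) :
    em p β M ≤ em α β M + 2 * θ * Lam * F.cost (m + 1) α β / (m + 3) +
      lam / θ * (3 * KL p α + 7) := by
  have hKL := KL_nonneg hp h.hα hac
  have h1 := h.kl_row hp hac
  have e : ∀ r : X → ℝ, ∑ x, r x * phiR M Lam (m + 1) β F x =
      em r β M - Lam / (m + 3) * ∑ x, r x * nsq (F.a x) := by
    intro r
    rw [em_row, Finset.mul_sum, ← Finset.sum_sub_distrib]
    apply Finset.sum_congr rfl
    intro x _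
    unfold phiR
    push_cast
    ring
  rw [e, e] at h1
  have h2 := h.T_gen (G := θ • (1 : Matrix (Fin n) (Fin n) ℝ))
    (by rw [Matrix.transpose_smul, Matrix.transpose_one]) (by
      intro v
      rw [Matrix.smul_mulVec, Matrix.one_mulVec, dotProduct_smul, smul_eq_mul, abs_mul,
        abs_of_pos hθ, abs_of_nonneg (by rw [← nsq_eq]; exact nsq_nonneg v)]
      exact mul_le_mul_of_nonneg_right hθ1 (by rw [← nsq_eq]; exact nsq_nonneg v)) hp
    (κ := 2 * KL p α + 6) (by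
      intro F' hF'
      have h3 := h.sharp_kl hp h.hβ hac (fun _ hy => hy) F' hF'
      rw [em_ctd hp h.hβ, KL_refl] at h3
      linarith)
  simp only [Matrix.smul_mulVec, Matrix.one_mulVec, dotProduct_smul, smul_dotProduct,
    smul_eq_mul, ← nsq_eq] at h2
  have h4 := nsq_center hp F.a
  have e1 : ∑ x, p x * (θ * nsq (F.a x - vmean p F.a)) =
      θ * ∑ x, p x * nsq (F.a x - vmean p F.a) := by
    rw [Finset.mul_sum]
    apply Finset.sum_congr rfl
    intro x _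
    ring
  have e2 : ∑ x, α x * (θ * nsq (F.a x)) = θ * ∑ x, α x * nsq (F.a x) := by
    rw [Finset.mul_sum]
    apply Finset.sum_congr rfl
    intro x _
    ring
  have e3 : ∑ x, α x * (θ * (θ * nsq (F.a x))) = θ ^ 2 * ∑ x, α x * nsq (F.a x) := by
    rw [Finset.mul_sum]
    apply Finset.sum_congr rfl
    intro x _
    ring
  rw [e1, e2, e3, h4, ← h.cost_eq.2.2] at h2
  rw [← h.cost_eq.2.2] at h1
  set S := F.cost (m + 1) α β with hS
  set A := ∑ x, p x * nsq (F.a x) with hA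
  have h5 : θ * (A - S) ≤ 2 * θ ^ 2 * S + (m + 3) * (lam / Lam) * (2 * KL p α + 6) := by
    have h6 : 0 ≤ (1 - θ) * nsq (vmean p F.a) := mul_nonneg (by linarith) (nsq_nonneg _)
    nlinarith
  have hm3 : (0 : ℝ) < m + 3 := by positivity
  have h7 : Lam / (m + 3) * (A - S) ≤ 2 * θ * Lam * S / (m + 3) +
      lam / θ * (2 * KL p α + 6) := by
    have hL := h.hLam
    have h8 : Lam / (m + 3) * (A - S) = Lam / ((m + 3) * θ) * (θ * (A - S)) := by
      field_simp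
    have h9 : Lam / ((m + 3) * θ) * (2 * θ ^ 2 * S + (m + 3) * (lam / Lam) * (2 * KL p α + 6)) =
        2 * θ * Lam * S / (m + 3) + lam / θ * (2 * KL p α + 6) := by
      field_simp
    rw [h8, ← h9]
    exact mul_le_mul_of_nonneg_left h5 (by positivity)
  have h10 : 2 * lam * (KL p α + 1) ≤ lam / θ * (KL p α + 1) := by
    apply mul_le_mul_of_nonneg_right _ (by linarith)
    rw [le_div_iff₀ hθ]
    nlinarith [h.hlam]
  nlinarith

/-- (T5), columns -/
theorem St.mean_col (h : St M μ₀ ν₀ lam Lam (m + 1) α β F) {q : Y → ℝ} (hq : IsPr q)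
    (hac : AC q β) {θ : ℝ} (hθ : 0 < θ) (hθ1 : θ ≤ 1 / 2) :
    em α q M ≤ em α β M + 2 * θ * Lam * F.cost (m + 1) α β / (m + 3) +
      lam / θ * (3 * KL q β + 7) := by
  have h1 := h.swap.mean_row hq hac hθ hθ1
  rw [Fac.tr_cost] at h1
  rw [← em_swap α q M, ← em_swap α β M]
  exact h1

/-- (P''): product regularity for `M` itself -/
theorem St.upr (h : St M μ₀ ν₀ lam Lam (m + 1) α β F) {θ : ℝ} (hθ : 0 < θ) (hθ1 : θ ≤ 1 / 2) :
    UPR α β M (em α β M) (4 * θ * Lam * F.cost (m + 1) α β / (m + 3) + 17 * (lam / θ))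
      (4 * (lam / θ)) := by
  intro p q hp hq hac hac'
  have h1 := h.P_kl hp hq hac hac'
  rw [em_ctd hp hq] at h1
  have h2 := h.mean_row hp hac hθ hθ1
  have h3 := h.mean_col hq hac' hθ hθ1
  have hKL := KL_nonneg hp h.hα hac
  have hKL' := KL_nonneg hq h.hβ hac'
  have h4 : 2 * lam ≤ lam / θ := by
    rw [le_div_iff₀ hθ]
    nlinarith [h.hlam]
  have h5 : 2 * lam * (KL p α + KL q β) ≤ lam / θ * (KL p α + KL q β) :=
    mul_le_mul_of_nonneg_right h4 (by linarith)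
  have h6 : 4 * θ * Lam * F.cost (m + 1) α β / (m + 3) =
      2 * (2 * θ * Lam * F.cost (m + 1) α β / (m + 3)) := by ring
  rw [h6]
  nlinarith

/-- Existence of the extremal state, and its cost. -/
theorem extremal_state (M : X → Y → ℝ) (hM : ∀ x y, |M x y| ≤ 1) {r : ℕ} (hr : 1 ≤ r)
    (hrank : (Matrix.of M).rank ≤ r) {μ₀ : X → ℝ} {ν₀ : Y → ℝ} (hμ : IsPos μ₀) (hν : IsPos ν₀)
    {lam Lam : ℝ} (hlam : 0 < lam) (hLam : 0 < Lam) (m : ℕ) {α₀ : X → ℝ} {β₀ : Y → ℝ}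
    (hα₀ : IsPr α₀) (hβ₀ : IsPr β₀) :
    ∃ (α : X → ℝ) (β : Y → ℝ) (F : Fac X Y r), St M μ₀ ν₀ lam Lam m α β F ∧
      F.cost m α β ≤ (r : ℝ) ^ (((m : ℝ) + 1) / ((m : ℝ) + 2)) ∧
      em α₀ β₀ M - lam * (DD μ₀ α₀ + DD ν₀ β₀) -
        Lam * (r : ℝ) ^ (((m : ℝ) + 1) / ((m : ℝ) + 2)) ≤
        em α β M - lam * (DD μ₀ α + DD ν₀ β) - Lam * F.cost m α β := by
  obtain ⟨F₀, hF₀, hc₀⟩ := start_cost_pr (Matrix.of M) r hr hrank hM m hα₀ hβ₀
  obtain ⟨α, β, F, hα, hβ, hbil, hca, hcb, hmax⟩ := exists_state_pr M hμ hν hlam hLam m hα₀ hβ₀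
    (F₀ := F₀) hF₀
  set F' : Fac X Y r := ⟨fun x => rmean β M x - em α β M, fun y => cmean α M y, F.a, F.b, F.Z⟩
    with hF'
  have hcost : ∀ (a : X → ℝ) (b : Y → ℝ), F'.cost m a b = F.cost m a b := fun _ _ => rfl
  have hXi : ∀ (a : X → ℝ) (b : Y → ℝ), Xi M μ₀ ν₀ lam Lam m a b F' =
    Xi M μ₀ ν₀ lam Lam m a b F := fun _ _ => rfl
  have hbil' : ∀ x y, α x ≠ 0 → β y ≠ 0 → F'.bil m x y = ctd α β M x y := hbil
  have hval : F'.Val m M α β := by
    intro x y hx hy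
    rw [hbil' x y hx hy]
    show M x y = (rmean β M x - em α β M) + cmean α M y + ctd α β M x y
    unfold ctd
    ring
  have hst : St M μ₀ ν₀ lam Lam m α β F' :=
    { hμ := hμ, hν := hν, hlam := hlam, hLam := hLam, hα := hα, hβ := hβ, val := hval,
      bil := hbil', ca := hca, cb := hcb, max := fun α' β' F'' ha hb hF'' => by
        rw [hXi]
        exact hmax α' β' F'' ha hb hF'' }
  refine ⟨α, β, F', hst, ?_, ?_⟩
  · obtain ⟨F₁, hF₁, hc₁⟩ := start_cost_pr (Matrix.of M) r hr hrank hM m hα hβ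
    exact (hst.min F₁ hF₁).trans hc₁
  · have h1 := hst.max α₀ β₀ F₀ hα₀ hβ₀ hF₀
    unfold Xi at h1
    have h2 := mul_le_mul_of_nonneg_left hc₀ hLam.le
    linarith

end Pool.Agent.LR2
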