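import Pool.Agent.Lib_helper59.LR2.BLW
import Pool.Agent.Lib_helper59.LR2.Gibbs
import Pool.Agent.Lib_helper59.LR2.State

/-!
# The extremal state: first order, the master inequality
-/

set_option autoImplicit false
set_option linter.unusedSectionVars false

open Finset Matrix

namespace Pool.Agent.LR2

section Low

variable {X : Type} [Fintype X]

theorem ac_bound {p μ : X → ℝ} (hp : IsPr p) (hμ : IsPr μ) (hac : AC p μ) :
    ∃ C : ℝ, 1 ≤ C ∧ ∀ x, p x ≤ C * μ x := by
  refine ⟨1 + ∑ x, p x / μ x, ?_, ?_⟩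
  · have : 0 ≤ ∑ x, p x / μ x := Finset.sum_nonneg fun x _ => div_nonneg (hp.nonneg x) (hμ.nonneg x)
    linarith
  · intro x
    rcases eq_or_lt_of_le (hμ.nonneg x) with h | h
    · rw [hac x h.symm, ← h, mul_zero]
    · have h1 : p x / μ x ≤ ∑ x, p x / μ x :=
        Finset.single_le_sum (f := fun x => p x / μ x)
          (fun y _ => div_nonneg (hp.nonneg y) (hμ.nonneg y)) (Finset.mem_univ x)
      calc p x = p x / μ x * μ x := by field_simp
        _ ≤ (1 + ∑ x, p x / μ x) * μ x := by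
          apply mul_le_mul_of_nonneg_right _ h.le
          linarith

/-- the lower bound from the upper bound -/
theorem low_of_up {μ : X → ℝ} (hμ : IsPr μ) {h : X → ℝ} {lam : ℝ} (hlam : 0 < lam)
    (H : ∀ (p : X → ℝ) (s : ℝ), IsPr p → 0 ≤ s → (∀ x, p x ≤ Real.exp s * μ x) →
      ∑ x, p x * h x ≤ ∑ x, μ x * h x + lam * s) {p : X → ℝ} (hp : IsPr p) (hac : AC p μ) :
    ∑ x, μ x * h x - lam ≤ ∑ x, p x * h x := by
  obtain ⟨C, hC, hb⟩ := ac_bound hp hμ hac
  set e : ℝ := 1 / (C + 1) with he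
  have he0 : 0 < e := by positivity
  have he1 : e < 1 := by
    rw [he, div_lt_one (by linarith)]
    linarith
  have heC : e * C ≤ 1 := by
    rw [he, one_div, inv_mul_le_iff₀ (by linarith)]
    linarith
  have h1e : 0 < 1 - e := by linarith
  have hpr : IsPr (fun x => (μ x - e * p x) / (1 - e)) := by
    refine ⟨fun x => div_nonneg ?_ h1e.le, ?_⟩
    · have h1 := mul_le_mul_of_nonneg_left (hb x) he0.le
      have h2 : e * (C * μ x) ≤ μ x := by
        have := mul_le_mul_of_nonneg_right heC (hμ.nonneg x)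
        linarith
      linarith
    · rw [← Finset.sum_div, Finset.sum_sub_distrib, ← Finset.mul_sum, hμ.sum, hp.sum, mul_one,
        div_self h1e.ne']
  have hs : 0 ≤ Real.log (1 / (1 - e)) := Real.log_nonneg (by rw [le_div_iff₀ h1e]; linarith)
  have hle : ∀ x, (μ x - e * p x) / (1 - e) ≤ Real.exp (Real.log (1 / (1 - e))) * μ x := by
    intro x
    rw [Real.exp_log (by positivity), one_div, inv_mul_eq_div]
    apply div_le_div_of_nonneg_right _ h1e.le
    have := mul_nonneg he0.le (hp.nonneg x)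
    linarith
  have h1 := H _ _ hpr hs hle
  have h2 : ∑ x, (μ x - e * p x) / (1 - e) * h x =
      (∑ x, μ x * h x - e * ∑ x, p x * h x) / (1 - e) := by
    rw [Finset.mul_sum, ← Finset.sum_sub_distrib, Finset.sum_div]
    apply Finset.sum_congr rfl
    intro x _
    ring
  rw [h2, div_le_iff₀ h1e] at h1
  have h3 : (1 - e) * Real.log (1 / (1 - e)) ≤ e := by
    have h4 := Real.log_le_sub_one_of_pos (show 0 < 1 / (1 - e) by positivity)
    have h5 := mul_le_mul_of_nonneg_left h4 h1e.le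
    have h6 : (1 - e) * (1 / (1 - e) - 1) = e := by
      field_simp
      ring
    linarith
  have h7 : lam * ((1 - e) * Real.log (1 / (1 - e))) ≤ lam * e :=
    mul_le_mul_of_nonneg_left h3 hlam.le
  have h8 : e * (∑ x, μ x * h x - lam) ≤ e * ∑ x, p x * h x := by
    nlinarith
  exact le_of_mul_le_mul_left h8 he0

end Low

section St

variable {X Y : Type} [Fintype X] [Fintype Y] [Nonempty X] [Nonempty Y] {n : ℕ}

/-- The extremal state. -/
structure St (M : X → Y → ℝ) (μ₀ : X → ℝ) (ν₀ : Y → ℝ) (lam Lam : ℝ) (m : ℕ) (α : X → ℝ)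
    (β : Y → ℝ) (F : Fac X Y n) : Prop where
  hμ : IsPos μ₀
  hν : IsPos ν₀
  hlam : 0 < lam
  hLam : 0 < Lam
  hα : IsPr α
  hβ : IsPr β
  val : F.Val m M α β
  bil : ∀ x y, α x ≠ 0 → β y ≠ 0 → F.bil m x y = ctd α β M x y
  ca : vmean α F.a = 0
  cb : vmean β F.b = 0
  max : ∀ (α' : X → ℝ) (β' : Y → ℝ) (F' : Fac X Y n), IsPr α' → IsPr β' → F'.Val m M α' β' →
    Xi M μ₀ ν₀ lam Lam m α' β' F' ≤ Xi M μ₀ ν₀ lam Lam m α β F

variable {M : X → Y → ℝ} {μ₀ : X → ℝ} {ν₀ : Y → ℝ} {lam Lam : ℝ} {m : ℕ} {α : X → ℝ}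
  {β : Y → ℝ} {F : Fac X Y n}

theorem Fac.Val.mono {F : Fac X Y n} {α' : X → ℝ} {β' : Y → ℝ} (h : F.Val m M α β)
    (ha : AC α' α) (hb : AC β' β) : F.Val m M α' β' := fun x y hx hy =>
  h x y (fun h0 => hx (ha x h0)) (fun h0 => hy (hb y h0))

theorem ac_of_le {p μ : X → ℝ} (hp : IsPr p) {s : ℝ} (h : ∀ x, p x ≤ Real.exp s * μ x) :
    AC p μ := by
  intro x hx
  have h1 := h x
  rw [hx, mul_zero] at h1
  exact le_antisymm h1 (hp.nonneg x)

/-- the function of (1) for the rows -/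
noncomputable def phiR (M : X → Y → ℝ) (Lam : ℝ) (m : ℕ) (β : Y → ℝ) (F : Fac X Y n) (x : X) : ℝ :=
  rmean β M x - Lam / (m + 2) * nsq (F.a x)

/-- the function of (1) for the columns -/
noncomputable def phiC (M : X → Y → ℝ) (Lam : ℝ) (m : ℕ) (α : X → ℝ) (F : Fac X Y n) (y : Y) : ℝ :=
  cmean α M y - Lam / (m + 2) * nsq (F.b y)

theorem St.up_row (h : St M μ₀ ν₀ lam Lam m α β F) (p : X → ℝ) (s : ℝ) (hp : IsPr p)
    (_hs : 0 ≤ s) (hle : ∀ x, p x ≤ Real.exp s * α x) :
    ∑ x, p x * phiR M Lam m β F x ≤ ∑ x, α x * phiR M Lam m β F x + lam * s := by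
  have h1 := h.max p β F hp h.hβ (h.val.mono (ac_of_le hp hle) (fun _ hy => hy))
  have h2 := DD_le h.hμ h.hα hp hle
  have e : ∀ r : X → ℝ, ∑ x, r x * phiR M Lam m β F x =
      em r β M - Lam / (m + 2) * ∑ x, r x * nsq (F.a x) := by
    intro r
    rw [em_row, Finset.mul_sum, ← Finset.sum_sub_distrib]
    apply Finset.sum_congr rfl
    intro x _
    unfold phiR
    ring
  rw [e, e]
  unfold Xi Fac.cost at h1
  have h3 : lam * (DD μ₀ p - DD μ₀ α) ≤ lam * s :=
    mul_le_mul_of_nonneg_left (by linarith) h.hlam.le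
  have e1 : ∀ a b c : ℝ, Lam * ((a + b + c) / (m + 2)) =
      Lam / (m + 2) * a + Lam / (m + 2) * b + Lam / (m + 2) * c := by
    intro a b c
    ring
  rw [e1, e1] at h1
  linarith

theorem St.up_col (h : St M μ₀ ν₀ lam Lam m α β F) (p : Y → ℝ) (s : ℝ) (hp : IsPr p)
    (_hs : 0 ≤ s) (hle : ∀ x, p x ≤ Real.exp s * β x) :
    ∑ x, p x * phiC M Lam m α F x ≤ ∑ x, β x * phiC M Lam m α F x + lam * s := by
  have h1 := h.max α p F h.hα hp (h.val.mono (fun _ hy => hy) (ac_of_le hp hle))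
  have h2 := DD_le h.hν h.hβ hp hle
  have e : ∀ r : Y → ℝ, ∑ x, r x * phiC M Lam m α F x =
      em α r M - Lam / (m + 2) * ∑ x, r x * nsq (F.b x) := by
    intro r
    rw [em_col, Finset.mul_sum, ← Finset.sum_sub_distrib]
    apply Finset.sum_congr rfl
    intro x _
    unfold phiC
    ring
  rw [e, e]
  unfold Xi Fac.cost at h1
  have h3 : lam * (DD ν₀ p - DD ν₀ β) ≤ lam * s :=
    mul_le_mul_of_nonneg_left (by linarith) h.hlam.le
  have e1 : ∀ a b c : ℝ, Lam * ((a + b + c) / (m + 2)) =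
      Lam / (m + 2) * a + Lam / (m + 2) * b + Lam / (m + 2) * c := by
    intro a b c
    ring
  rw [e1, e1] at h1
  linarith

/-- (1), lower bound -/
theorem St.low_row (h : St M μ₀ ν₀ lam Lam m α β F) {p : X → ℝ} (hp : IsPr p) (hac : AC p α) :
    ∑ x, α x * phiR M Lam m β F x - lam ≤ ∑ x, p x * phiR M Lam m β F x :=
  low_of_up h.hα h.hlam h.up_row hp hac

theorem St.low_col (h : St M μ₀ ν₀ lam Lam m α β F) {p : Y → ℝ} (hp : IsPr p) (hac : AC p β) :
    ∑ x, β x * phiC M Lam m α F x - lam ≤ ∑ x, p x * phiC M Lam m α F x :=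
  low_of_up h.hβ h.hlam h.up_col hp hac

/-- (1), upper bound with the relative entropy -/
theorem St.kl_row (h : St M μ₀ ν₀ lam Lam m α β F) {p : X → ℝ} (hp : IsPr p) (hac : AC p α) :
    ∑ x, p x * phiR M Lam m β F x ≤ ∑ x, α x * phiR M Lam m β F x + 2 * lam * (KL p α + 1) :=
  kl_up h.hα h.hlam h.up_row hp hac

theorem St.kl_col (h : St M μ₀ ν₀ lam Lam m α β F) {p : Y → ℝ} (hp : IsPr p) (hac : AC p β) :
    ∑ x, p x * phiC M Lam m α F x ≤ ∑ x, β x * phiC M Lam m α F x + 2 * lam * (KL p β + 1) :=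
  kl_up h.hβ h.hlam h.up_col hp hac

/-- the mean of the centred kernel -/
theorem em_ctd {p : X → ℝ} {q : Y → ℝ} (hp : IsPr p) (hq : IsPr q) (M : X → Y → ℝ) (α : X → ℝ)
    (β : Y → ℝ) : em p q (ctd α β M) =
      em p q M - em p β M - em α q M + em α β M := by
  have h1 : ctd α β M = fun x y => M x y + ((-1) * rmean β M x + ((-1) * cmean α M y +
      em α β M)) := by
    funext x y
    unfold ctd
    ring
  rw [h1, em_add, em_add, em_smul p q (-1) (fun x _ => rmean β M x), em_rowfun hq, em_add,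
    em_smul p q (-1) (fun _ y => cmean α M y), em_colfun hp, em_const hp hq, em_row p β, em_col α q]
  ring

/-- (#): the master inequality -/
theorem St.sharp (h : St M μ₀ ν₀ lam Lam m α β F) {p : X → ℝ} {q : Y → ℝ} (hp : IsPr p)
    (hq : IsPr q) {s t : ℝ} (hle : ∀ x, p x ≤ Real.exp s * α x)
    (hle' : ∀ y, q y ≤ Real.exp t * β y) (F' : Fac X Y n) (hF' : F'.Val m M p q) :
    em p q (ctd α β M) + Lam * (F.cost m p q - F'.cost m p q) ≤ lam * (s + t + 2) := by
  have h1 := h.max p q F' hp hq hF'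
  have h2 := DD_le h.hμ h.hα hp hle
  have h3 := DD_le h.hν h.hβ hq hle'
  have h4 := h.low_row hp (ac_of_le hp hle)
  have h5 := h.low_col hq (ac_of_le hq hle')
  have e : ∀ r : X → ℝ, ∑ x, r x * phiR M Lam m β F x =
      em r β M - Lam / (m + 2) * ∑ x, r x * nsq (F.a x) := by
    intro r
    rw [em_row, Finset.mul_sum, ← Finset.sum_sub_distrib]
    apply Finset.sum_congr rfl
    intro x _
    unfold phiR
    ring
  have e' : ∀ r : Y → ℝ, ∑ x, r x * phiC M Lam m α F x =
      em α r M - Lam / (m + 2) * ∑ x, r x * nsq (F.b x) := by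
    intro r
    rw [em_col, Finset.mul_sum, ← Finset.sum_sub_distrib]
    apply Finset.sum_congr rfl
    intro x _
    unfold phiC
    ring
  rw [e, e] at h4
  rw [e', e'] at h5
  rw [em_ctd hp hq]
  unfold Xi at h1
  have h6 : lam * (DD μ₀ p + DD ν₀ q - DD μ₀ α - DD ν₀ β) ≤ lam * (s + t) :=
    mul_le_mul_of_nonneg_left (by linarith) h.hlam.le
  have h7 : Lam * F.cost m p q - Lam * F.cost m α β = Lam / (m + 2) * ∑ x, p x * nsq (F.a x) -
      Lam / (m + 2) * ∑ x, α x * nsq (F.a x) + (Lam / (m + 2) * ∑ x, q x * nsq (F.b x) -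
      Lam / (m + 2) * ∑ x, β x * nsq (F.b x)) := by
    unfold Fac.cost
    ring
  linarith

/-- (#) with relative entropies -/
theorem St.sharp_kl (h : St M μ₀ ν₀ lam Lam m α β F) {p : X → ℝ} {q : Y → ℝ} (hp : IsPr p)
    (hq : IsPr q) (hac : AC p α) (hac' : AC q β) (F' : Fac X Y n) (hF' : F'.Val m M α β) :
    em p q (ctd α β M) + Lam * (F.cost m p q - F'.cost m p q) ≤
      2 * lam * (KL p α + KL q β) + 6 * lam := by
  have hrow : ∀ (p : X → ℝ) (q : Y → ℝ), em p q (ctd α β M) +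
      Lam * (F.cost m p q - F'.cost m p q) = ∑ x, p x * (rmean q (ctd α β M) x +
        Lam / (m + 2) * (nsq (F.a x) - nsq (F'.a x))) +
      Lam / (m + 2) * (∑ j ∈ range m, fro (F.Z j) + ∑ y, q y * nsq (F.b y) -
        ∑ j ∈ range m, fro (F'.Z j) - ∑ y, q y * nsq (F'.b y)) := by
    intro p q
    rw [em_row]
    have e1 : ∀ x, p x * (rmean q (ctd α β M) x + Lam / (m + 2) * (nsq (F.a x) - nsq (F'.a x))) =
        p x * rmean q (ctd α β M) x + Lam / (m + 2) * (p x * nsq (F.a x)) -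
          Lam / (m + 2) * (p x * nsq (F'.a x)) := by
      intro x
      ring
    simp only [e1]
    rw [Finset.sum_sub_distrib, Finset.sum_add_distrib, ← Finset.mul_sum, ← Finset.mul_sum]
    unfold Fac.cost
    ring
  have hcol : ∀ (p : X → ℝ) (q : Y → ℝ), em p q (ctd α β M) +
      Lam * (F.cost m p q - F'.cost m p q) = ∑ y, q y * (cmean p (ctd α β M) y +
        Lam / (m + 2) * (nsq (F.b y) - nsq (F'.b y))) +
      Lam / (m + 2) * (∑ j ∈ range m, fro (F.Z j) + ∑ x, p x * nsq (F.a x) -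
        ∑ j ∈ range m, fro (F'.Z j) - ∑ x, p x * nsq (F'.a x)) := by
    intro p q
    rw [em_col]
    have e1 : ∀ x, q x * (cmean p (ctd α β M) x + Lam / (m + 2) * (nsq (F.b x) - nsq (F'.b x))) =
        q x * cmean p (ctd α β M) x + Lam / (m + 2) * (q x * nsq (F.b x)) -
          Lam / (m + 2) * (q x * nsq (F'.b x)) := by
      intro x
      ring
    simp only [e1]
    rw [Finset.sum_sub_distrib, Finset.sum_add_distrib, ← Finset.mul_sum, ← Finset.mul_sum]
    unfold Fac.cost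
    ring
  -- first the rows
  have h1 : ∀ (q : Y → ℝ) (t : ℝ), IsPr q → 0 ≤ t → (∀ y, q y ≤ Real.exp t * β y) →
      em p q (ctd α β M) + Lam * (F.cost m p q - F'.cost m p q) ≤
        lam * (t + 2) + 2 * lam * (KL p α + 1) := by
    intro q t hq ht hle'
    rw [hrow]
    have h2 := kl_up h.hα (h := fun x => rmean q (ctd α β M) x +
        Lam / (m + 2) * (nsq (F.a x) - nsq (F'.a x)))
      (K := lam * (t + 2) - Lam / (m + 2) * (∑ j ∈ range m, fro (F.Z j) +
        ∑ y, q y * nsq (F.b y) - ∑ j ∈ range m, fro (F'.Z j) - ∑ y, q y * nsq (F'.b y)))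
      h.hlam (fun p' s hp' hs hle => by
        have h3 := h.sharp hp' hq hle hle' F' (hF'.mono (ac_of_le hp' hle) (ac_of_le hq hle'))
        rw [hrow] at h3
        linarith) hp hac
    linarith
  rw [hcol]
  have h2 := kl_up h.hβ (h := fun y => cmean p (ctd α β M) y +
        Lam / (m + 2) * (nsq (F.b y) - nsq (F'.b y)))
      (K := 2 * lam + 2 * lam * (KL p α + 1) - Lam / (m + 2) * (∑ j ∈ range m, fro (F.Z j) +
        ∑ x, p x * nsq (F.a x) - ∑ j ∈ range m, fro (F'.Z j) - ∑ x, p x * nsq (F'.a x)))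
      h.hlam (fun q' t hq' ht hle => by
        have h3 := h1 q' t hq' ht hle
        rw [hcol] at h3
        linarith) hq hac'
  linarith

end St

end Pool.Agent.LR2
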