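import Pool.Agent.Lib_helper59.LR2.Reveal

/-!
# From inner products to public product functions (elementary Grothendieck with a logarithm)
-/

set_option autoImplicit false
set_option linter.unusedSectionVars false

open Finset

namespace Pool.Agent.LR2

theorem sgn_orth {n : ℕ} (i j : Fin n) :
    ∑ ε : Fin n → Bool, sg (ε i) * sg (ε j) = if i = j then (2 : ℝ) ^ n else 0 := by
  have h := ch_orth ({i} : Finset (Fin n)) {j}
  simpa [ch, Finset.singleton_inj] using h

/-- the sign sum -/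
noncomputable def ssum {n : ℕ} (c : Fin n → ℝ) (ε : Fin n → Bool) : ℝ := ∑ i, c i * sg (ε i)

theorem ssum_mul {n : ℕ} (c d : Fin n → ℝ) :
    ∑ ε : Fin n → Bool, (1 / 2 : ℝ) ^ n * (ssum c ε * ssum d ε) = ∑ i, c i * d i := by
  have h1 : ∀ ε : Fin n → Bool, (1 / 2 : ℝ) ^ n * (ssum c ε * ssum d ε) =
      ∑ i, ∑ j, ((1 / 2 : ℝ) ^ n * (c i * d j)) * (sg (ε i) * sg (ε j)) := by
    intro ε
    unfold ssum
    rw [Finset.sum_mul_sum, Finset.mul_sum]
    apply Finset.sum_congr rfl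
    intro i _
    rw [Finset.mul_sum]
    apply Finset.sum_congr rfl
    intro j _
    ring
  simp only [h1]
  rw [Finset.sum_comm]
  apply Finset.sum_congr rfl
  intro i _
  rw [Finset.sum_comm]
  have h2 : ∀ j, ∑ ε : Fin n → Bool, ((1 / 2 : ℝ) ^ n * (c i * d j)) * (sg (ε i) * sg (ε j)) =
      ((1 / 2 : ℝ) ^ n * (c i * d j)) * (if i = j then (2 : ℝ) ^ n else 0) := by
    intro j
    rw [← Finset.mul_sum, sgn_orth]
  simp only [h2]
  rw [Finset.sum_eq_single i]
  · rw [if_pos rfl, mul_comm ((1 / 2 : ℝ) ^ n), mul_assoc, ← mul_pow]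
    norm_num
  · intro j _ hj
    rw [if_neg (Ne.symm hj), mul_zero]
  · intro h
    exact absurd (Finset.mem_univ i) h

theorem ssum_exp {n : ℕ} (c : Fin n → ℝ) :
    ∑ ε : Fin n → Bool, (1 / 2 : ℝ) ^ n * Real.exp (ssum c ε) ≤
      Real.exp ((∑ i, c i ^ 2) / 2) := by
  have h1 : ∀ ε : Fin n → Bool, Real.exp (ssum c ε) = ∏ i, Real.exp (c i * sg (ε i)) := by
    intro ε
    unfold ssum
    rw [Real.exp_sum]
  simp only [h1]
  rw [← Finset.mul_sum, sum_cube_prod (fun i b => Real.exp (c i * sg b))]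
  have h2 : ∀ i, Real.exp (c i * sg true) + Real.exp (c i * sg false) =
      2 * Real.cosh (c i) := by
    intro i
    rw [Real.cosh_eq]
    simp [sg]
    ring
  simp only [h2]
  rw [Finset.prod_mul_distrib, Finset.prod_const, Finset.card_univ, Fintype.card_fin, ← mul_assoc,
    ← mul_pow]
  norm_num
  rw [Finset.sum_div, Real.exp_sum]
  apply Finset.prod_le_prod
  · intro i _
    exact (Real.cosh_pos _).le
  · intro i _
    exact Real.cosh_le_exp_half_sq _

/-- clipping -/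
noncomputable def clp (τ a : ℝ) : ℝ := max (-τ) (min a τ)

theorem clp_abs {τ : ℝ} (hτ : 0 ≤ τ) (a : ℝ) : |clp τ a| ≤ τ := by
  unfold clp
  rw [abs_le]
  constructor
  · exact le_max_left _ _
  · exact max_le (by linarith) (min_le_right _ _)

theorem clp_eq {τ a : ℝ} (h : |a| ≤ τ) : clp τ a = a := by
  unfold clp
  have := abs_le.mp h
  rw [min_eq_left this.2, max_eq_right this.1]

/-- `clp τ a = c a` with `0 ≤ c ≤ 1` -/
theorem clp_fac {τ : ℝ} (hτ : 0 ≤ τ) (a : ℝ) : ∃ c : ℝ, 0 ≤ c ∧ c ≤ 1 ∧ clp τ a = c * a := by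
  rcases le_or_gt |a| τ with h | h
  · exact ⟨1, zero_le_one, le_rfl, by rw [clp_eq h, one_mul]⟩
  · have ha : 0 < |a| := lt_of_le_of_lt hτ h
    refine ⟨τ / |a|, by positivity, (div_le_one ha).mpr h.le, ?_⟩
    unfold clp
    rcases lt_or_ge a 0 with h1 | h1
    · rw [abs_of_neg h1] at h ⊢
      rw [min_eq_left (by linarith), max_eq_left (by linarith), div_mul_eq_mul_div, div_neg,
        mul_div_assoc, div_self h1.ne, mul_one]
    · rw [abs_of_nonneg h1] at h ha ⊢
      rw [min_eq_right h.le, max_eq_right (by linarith)]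
      field_simp

theorem clp_mul {τ : ℝ} (hτ : 0 ≤ τ) (a b : ℝ) :
    |a * b - clp τ a * clp τ b| ≤ |a * b| * ((if τ < |a| then 1 else 0) +
      (if τ < |b| then 1 else 0)) := by
  by_cases h1 : τ < |a| ∨ τ < |b|
  · obtain ⟨c, hc0, hc1, hc⟩ := clp_fac hτ a
    obtain ⟨d, hd0, hd1, hd⟩ := clp_fac hτ b
    have h2 : a * b - clp τ a * clp τ b = (a * b) * (1 - c * d) := by
      rw [hc, hd]
      ring
    have h3 : 0 ≤ c * d := mul_nonneg hc0 hd0
    have h4 : c * d ≤ 1 := mul_le_one₀ hc1 hd0 hd1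
    rw [h2, abs_mul, abs_of_nonneg (by linarith : 0 ≤ 1 - c * d)]
    apply mul_le_mul_of_nonneg_left _ (abs_nonneg _)
    have h5 : (1 : ℝ) ≤ (if τ < |a| then 1 else 0) + (if τ < |b| then 1 else 0) := by
      rcases h1 with h | h
      · rw [if_pos h]
        split_ifs <;> norm_num
      · rw [if_pos h]
        split_ifs <;> norm_num
    linarith
  · push Not at h1
    rw [clp_eq h1.1, clp_eq h1.2, sub_self, abs_zero]
    positivity

theorem exp_abs_le (a b : ℝ) : Real.exp (|a| + |b|) ≤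
    Real.exp (a + b) + Real.exp (a - b) + (Real.exp (-a + b) + Real.exp (-a - b)) := by
  have h := fun t : ℝ => (Real.exp_pos t).le
  rcases abs_cases a with ⟨ha, _⟩ | ⟨ha, _⟩ <;> rcases abs_cases b with ⟨hb, _⟩ | ⟨hb, _⟩ <;>
    rw [ha, hb]
  · linarith [h (a + b), h (a - b), h (-a + b), h (-a - b)]
  · have : a + -b = a - b := by ring
    rw [this]
    linarith [h (a + b), h (a - b), h (-a + b), h (-a - b)]
  · linarith [h (a + b), h (a - b), h (-a + b), h (-a - b)]
  · have : -a + -b = -a - b := by ring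
    rw [this]
    linarith [h (a + b), h (a - b), h (-a + b), h (-a - b)]

/-- exponential moment of two sign sums -/
theorem ssum_exp2 {n : ℕ} {ψ e : Fin n → ℝ} {Q : ℝ} (hψ : ∑ i, ψ i ^ 2 ≤ Q ^ 2)
    (he : ∑ i, e i ^ 2 ≤ Q ^ 2) {α β : ℝ} (hα : 0 ≤ α) (hβ : 0 ≤ β) :
    ∑ ε : Fin n → Bool, (1 / 2 : ℝ) ^ n * Real.exp (α * |ssum ψ ε| + β * |ssum e ε|) ≤
      4 * Real.exp ((α * Q + β * Q) ^ 2 / 2) := by
  have key : ∀ s t : ℝ, |s| = α → |t| = β →
      ∑ ε : Fin n → Bool, (1 / 2 : ℝ) ^ n * Real.exp (s * ssum ψ ε + t * ssum e ε) ≤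
      Real.exp ((α * Q + β * Q) ^ 2 / 2) := by
    intro s t hs ht
    have h1 : ∀ ε : Fin n → Bool, s * ssum ψ ε + t * ssum e ε =
        ssum (fun i => s * ψ i + t * e i) ε := by
      intro ε
      unfold ssum
      rw [Finset.mul_sum, Finset.mul_sum, ← Finset.sum_add_distrib]
      apply Finset.sum_congr rfl
      intro i _
      ring
    simp only [h1]
    refine (ssum_exp _).trans (Real.exp_le_exp.mpr ?_)
    apply div_le_div_of_nonneg_right _ (by norm_num)
    have h2 : ∑ i, (s * ψ i + t * e i) ^ 2 ≤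
        ∑ i, ((α ^ 2 + α * β) * ψ i ^ 2 + (β ^ 2 + α * β) * e i ^ 2) := by
      apply Finset.sum_le_sum
      intro i _
      have hs2 : s ^ 2 = α ^ 2 := by rw [← hs, sq_abs]
      have ht2 : t ^ 2 = β ^ 2 := by rw [← ht, sq_abs]
      have h3 : 2 * (s * t * (ψ i * e i)) ≤ α * β * (ψ i ^ 2 + e i ^ 2) := by
        have h4 : |s * t * (ψ i * e i)| = α * β * |ψ i * e i| := by
          rw [abs_mul, abs_mul, hs, ht]
        have h5 : 2 * |ψ i * e i| ≤ ψ i ^ 2 + e i ^ 2 := by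
          rw [abs_mul, ← sq_abs (ψ i), ← sq_abs (e i)]
          nlinarith [sq_nonneg (|ψ i| - |e i|)]
        have h6 := le_abs_self (s * t * (ψ i * e i))
        have h7 := mul_le_mul_of_nonneg_left h5 (mul_nonneg hα hβ)
        nlinarith
      nlinarith
    refine h2.trans ?_
    rw [Finset.sum_add_distrib, ← Finset.mul_sum, ← Finset.mul_sum]
    have h3 := mul_le_mul_of_nonneg_left hψ (by positivity : 0 ≤ α ^ 2 + α * β)
    have h4 := mul_le_mul_of_nonneg_left he (by positivity : 0 ≤ β ^ 2 + α * β)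
    nlinarith
  have h1 : ∀ ε : Fin n → Bool, (1 / 2 : ℝ) ^ n * Real.exp (α * |ssum ψ ε| + β * |ssum e ε|) ≤
      ((1 / 2 : ℝ) ^ n * Real.exp (α * ssum ψ ε + β * ssum e ε) +
      (1 / 2 : ℝ) ^ n * Real.exp (α * ssum ψ ε + (-β) * ssum e ε)) +
      ((1 / 2 : ℝ) ^ n * Real.exp ((-α) * ssum ψ ε + β * ssum e ε) +
      (1 / 2 : ℝ) ^ n * Real.exp ((-α) * ssum ψ ε + (-β) * ssum e ε)) := by
    intro ε
    have h2 := exp_abs_le (α * ssum ψ ε) (β * ssum e ε)
    rw [abs_mul, abs_mul, abs_of_nonneg hα, abs_of_nonneg hβ] at h2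
    have h3 := mul_le_mul_of_nonneg_left h2 (by positivity : (0 : ℝ) ≤ (1 / 2) ^ n)
    have e1 : α * ssum ψ ε - β * ssum e ε = α * ssum ψ ε + (-β) * ssum e ε := by ring
    have e2 : -(α * ssum ψ ε) + β * ssum e ε = (-α) * ssum ψ ε + β * ssum e ε := by ring
    have e3 : -(α * ssum ψ ε) - β * ssum e ε = (-α) * ssum ψ ε + (-β) * ssum e ε := by ring
    rw [e1, e2, e3] at h3
    linarith
  refine (Finset.sum_le_sum fun ε _ => h1 ε).trans ?_
  rw [Finset.sum_add_distrib, Finset.sum_add_distrib, Finset.sum_add_distrib]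
  have k1 := key α β (abs_of_nonneg hα) (abs_of_nonneg hβ)
  have k2 := key α (-β) (abs_of_nonneg hα) (by rw [abs_neg, abs_of_nonneg hβ])
  have k3 := key (-α) β (by rw [abs_neg, abs_of_nonneg hα]) (abs_of_nonneg hβ)
  have k4 := key (-α) (-β) (by rw [abs_neg, abs_of_nonneg hα]) (by rw [abs_neg, abs_of_nonneg hβ])
  linarith

/-- inner products of vectors of length at most `Q` are, up to a tiny error, a public average of
products of functions bounded by `1`, with `Θ = (L Q) ^ 2` -/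
theorem sign_lift {X Y : Type} {n : ℕ} (ψ : X → Fin n → ℝ) (e : Y → Fin n → ℝ) {Q L : ℝ}
    (hQ : 0 < Q) (hL : 0 < L) (hψ : ∀ x, ∑ i, ψ x i ^ 2 ≤ Q ^ 2)
    (he : ∀ y, ∑ i, e y i ^ 2 ≤ Q ^ 2) :
    ∃ (w : (Fin n → Bool) → ℝ) (u : (Fin n → Bool) → X → ℝ) (v : (Fin n → Bool) → Y → ℝ),
      (∀ o, 0 ≤ w o) ∧ ∑ o, w o = 1 ∧ (∀ o x, |u o x| ≤ 1) ∧ (∀ o y, |v o y| ≤ 1) ∧
      ∀ x y, |∑ i, ψ x i * e y i - (L * Q) ^ 2 * kW w u v x y| ≤
        8 * Q ^ 2 * Real.exp (2 + 2 * L - L ^ 2 / 2) := by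
  set τ := L * Q with hτ
  have hτ0 : 0 < τ := by positivity
  refine ⟨fun _ => (1 / 2 : ℝ) ^ n, fun ε x => clp τ (ssum (ψ x) ε) / τ,
    fun ε y => clp τ (ssum (e y) ε) / τ, fun _ => by positivity, ?_, ?_, ?_, ?_⟩
  · rw [Finset.sum_const, Finset.card_univ, Fintype.card_fun, Fintype.card_bool,
      Fintype.card_fin, nsmul_eq_mul]
    push_cast
    rw [← mul_pow]
    norm_num
  · intro ε x
    rw [abs_div, abs_of_pos hτ0, div_le_one hτ0]
    exact clp_abs hτ0.le _
  · intro ε x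
    rw [abs_div, abs_of_pos hτ0, div_le_one hτ0]
    exact clp_abs hτ0.le _
  · intro x y
    rw [← ssum_mul (ψ x) (e y)]
    unfold kW
    have h1 : τ ^ 2 * ∑ ε : Fin n → Bool, (1 / 2 : ℝ) ^ n *
        (clp τ (ssum (ψ x) ε) / τ * (clp τ (ssum (e y) ε) / τ)) =
        ∑ ε : Fin n → Bool, (1 / 2 : ℝ) ^ n *
        (clp τ (ssum (ψ x) ε) * clp τ (ssum (e y) ε)) := by
      rw [Finset.mul_sum]
      apply Finset.sum_congr rfl
      intro ε _
      field_simp
    rw [h1, ← Finset.sum_sub_distrib]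
    have hQ0 := hQ.ne'
    -- pointwise
    have h2 : ∀ ε : Fin n → Bool, |(1 / 2 : ℝ) ^ n * (ssum (ψ x) ε * ssum (e y) ε) -
        (1 / 2 : ℝ) ^ n * (clp τ (ssum (ψ x) ε) * clp τ (ssum (e y) ε))| ≤
        (Q ^ 2 * Real.exp (-(L * τ / Q))) * ((1 / 2 : ℝ) ^ n *
          Real.exp ((1 / Q + L / Q) * |ssum (ψ x) ε| + 1 / Q * |ssum (e y) ε|)) +
        (Q ^ 2 * Real.exp (-(L * τ / Q))) * ((1 / 2 : ℝ) ^ n *
          Real.exp (1 / Q * |ssum (ψ x) ε| + (1 / Q + L / Q) * |ssum (e y) ε|)) := by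
      intro ε
      set a := ssum (ψ x) ε
      set b := ssum (e y) ε
      rw [← mul_sub, abs_mul, abs_of_nonneg (by positivity : (0 : ℝ) ≤ (1 / 2) ^ n)]
      have hab : |a * b| ≤ Q ^ 2 * (Real.exp (1 / Q * |a|) * Real.exp (1 / Q * |b|)) := by
        have h3 : |a| ≤ Q * Real.exp (1 / Q * |a|) := by
          have h4 := Real.add_one_le_exp (1 / Q * |a|)
          have h5 : 1 / Q * |a| ≤ Real.exp (1 / Q * |a|) := by linarith
          calc |a| = Q * (1 / Q * |a|) := by field_simp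
            _ ≤ _ := mul_le_mul_of_nonneg_left h5 hQ.le
        have h4 : |b| ≤ Q * Real.exp (1 / Q * |b|) := by
          have h4 := Real.add_one_le_exp (1 / Q * |b|)
          have h5 : 1 / Q * |b| ≤ Real.exp (1 / Q * |b|) := by linarith
          calc |b| = Q * (1 / Q * |b|) := by field_simp
            _ ≤ _ := mul_le_mul_of_nonneg_left h5 hQ.le
        rw [abs_mul]
        calc |a| * |b| ≤ (Q * Real.exp (1 / Q * |a|)) * (Q * Real.exp (1 / Q * |b|)) :=
              mul_le_mul h3 h4 (abs_nonneg _) (by positivity)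
          _ = _ := by ring
      have hind : ∀ t : ℝ, (if τ < |t| then (1 : ℝ) else 0) ≤
          Real.exp (L / Q * |t|) * Real.exp (-(L * τ / Q)) := by
        intro t
        split_ifs with h
        · rw [← Real.exp_add]
          apply Real.one_le_exp
          have h5 : L / Q * |t| + -(L * τ / Q) = L / Q * (|t| - τ) := by ring
          rw [h5]
          have : 0 ≤ |t| - τ := by linarith
          positivity
        · positivity
      have h3 := clp_mul hτ0.le a b
      have h4 : |a * b - clp τ a * clp τ b| ≤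
          (Q ^ 2 * (Real.exp (1 / Q * |a|) * Real.exp (1 / Q * |b|))) *
          (Real.exp (L / Q * |a|) * Real.exp (-(L * τ / Q)) +
            Real.exp (L / Q * |b|) * Real.exp (-(L * τ / Q))) := by
        refine h3.trans (mul_le_mul hab (add_le_add (hind a) (hind b)) ?_ (by positivity))
        positivity
      have h5 : (Q ^ 2 * (Real.exp (1 / Q * |a|) * Real.exp (1 / Q * |b|))) *
          (Real.exp (L / Q * |a|) * Real.exp (-(L * τ / Q)) +
            Real.exp (L / Q * |b|) * Real.exp (-(L * τ / Q))) =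
          (Q ^ 2 * Real.exp (-(L * τ / Q))) *
            Real.exp ((1 / Q + L / Q) * |a| + 1 / Q * |b|) +
          (Q ^ 2 * Real.exp (-(L * τ / Q))) *
            Real.exp (1 / Q * |a| + (1 / Q + L / Q) * |b|) := by
        rw [add_mul (1 / Q) (L / Q) |a|, add_mul (1 / Q) (L / Q) |b|, Real.exp_add, Real.exp_add,
          Real.exp_add, Real.exp_add]
        ring
      rw [h5] at h4
      have h6 := mul_le_mul_of_nonneg_left h4 (by positivity : (0 : ℝ) ≤ (1 / 2) ^ n)
      calc _ ≤ _ := h6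
        _ = _ := by ring
    have k1 := ssum_exp2 (hψ x) (he y) (α := 1 / Q + L / Q) (β := 1 / Q) (by positivity)
      (by positivity)
    have k2 := ssum_exp2 (hψ x) (he y) (α := 1 / Q) (β := 1 / Q + L / Q) (by positivity)
      (by positivity)
    have e1 : ((1 / Q + L / Q) * Q + 1 / Q * Q) ^ 2 / 2 = (L + 2) ^ 2 / 2 := by
      field_simp
      ring
    have e2 : (1 / Q * Q + (1 / Q + L / Q) * Q) ^ 2 / 2 = (L + 2) ^ 2 / 2 := by
      field_simp
      ring
    rw [e1] at k1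
    rw [e2] at k2
    have e3 : L * τ / Q = L ^ 2 := by
      rw [hτ]
      field_simp
    rw [e3] at h2
    calc _ ≤ ∑ ε : Fin n → Bool, |(1 / 2 : ℝ) ^ n * (ssum (ψ x) ε * ssum (e y) ε) -
        (1 / 2 : ℝ) ^ n * (clp τ (ssum (ψ x) ε) * clp τ (ssum (e y) ε))| :=
          Finset.abs_sum_le_sum_abs _ _
      _ ≤ _ := Finset.sum_le_sum fun ε _ => h2 ε
      _ ≤ Q ^ 2 * Real.exp (-L ^ 2) * (4 * Real.exp ((L + 2) ^ 2 / 2)) +
          Q ^ 2 * Real.exp (-L ^ 2) * (4 * Real.exp ((L + 2) ^ 2 / 2)) := by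
          simp only [← Finset.mul_sum] at k1 k2
          rw [Finset.sum_add_distrib]
          simp only [← Finset.mul_sum]
          exact add_le_add (mul_le_mul_of_nonneg_left k1 (by positivity))
            (mul_le_mul_of_nonneg_left k2 (by positivity))
      _ = 8 * Q ^ 2 * (Real.exp (-L ^ 2) * Real.exp ((L + 2) ^ 2 / 2)) := by ring
      _ = _ := by
          rw [← Real.exp_add]
          congr 2
          ring

end Pool.Agent.LR2
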